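import Pool.Agent.H91.SP.Val

/-!
# Project SP, module QuadRel (block FIN)

Step (5): the linear relation modulo `p` over a quadratic field.

PROOF. Let `α = a / (a + b)`, `β = a / (a + c)`; for `v ∣ p` they are units at `v`, and so is
`α - 1 = - b / (a + b)` (`v(a + b) = v(c)` by `val_sum_lt`). As
`α + β - α β = a (a + b + c) / ((a + b) (a + c))`, `v(α + β - α β) < 1` for all `v ∣ p`. Take `A ∈ 𝓞 K` with
`v(A - α) < 1` for all `v ∣ p`; `A ^ 2 - T A + N = 0` with integers `T, N` (`N` the norm, prime to `p` since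
`A` is in no `v ∣ p`); `x = 1`, `y = N - T + 1`, `k = N`:
`A + y β - N = (T - 1 - A) (β (A - 1) - A)`.
-/

namespace H91SP

open NumberField IsDedekindDomain

/-- An ideal which is contained in no prime above `p` has norm prime to `p`. -/
theorem not_dvd_absNorm (p : ℕ) [Fact p.Prime] {K : Type*} [Field K] [NumberField K]
    (D : Ideal (𝓞 K))
    (hD : ∀ v : HeightOneSpectrum (𝓞 K), (p : 𝓞 K) ∈ v.asIdeal → ¬ D ≤ v.asIdeal) :
    ¬ p ∣ Ideal.absNorm D := by
  have hp : p.Prime := Fact.out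
  have hp0 : (p : 𝓞 K) ≠ 0 := by exact_mod_cast hp.ne_zero
  have htop : D ⊔ Ideal.span {(p : 𝓞 K)} = ⊤ := by
    by_contra hne
    obtain ⟨M, hM, hle⟩ := Ideal.exists_le_maximal _ hne
    have hpM : (p : 𝓞 K) ∈ M := hle (Ideal.mem_sup_right (Ideal.mem_span_singleton_self _))
    have hMbot : M ≠ ⊥ := by
      rintro rfl
      exact hp0 (by simpa using hpM)
    exact hD ⟨M, hM.isPrime, hMbot⟩ hpM (le_sup_left.trans hle)
  have h1 : (1 : 𝓞 K) ∈ D ⊔ Ideal.span {(p : 𝓞 K)} := by rw [htop]; exact Submodule.mem_top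
  obtain ⟨d, hd, e, he, hde⟩ := Submodule.mem_sup.mp h1
  obtain ⟨e', rfl⟩ := Ideal.mem_span_singleton'.mp he
  intro hdvd
  have hDbot : D ≠ ⊥ := by
    rintro rfl
    rw [Ideal.mem_bot] at hd
    rw [hd, zero_add] at hde
    have h2 := congrArg (Algebra.norm ℤ) hde
    rw [map_mul, map_one] at h2
    have h3 : Algebra.norm ℤ (p : 𝓞 K) = (p : ℤ) ^ Module.finrank ℤ (𝓞 K) := by
      have := Algebra.norm_algebraMap_of_basis (Module.Free.chooseBasis ℤ (𝓞 K)) (p : ℤ)
      rw [Module.finrank_eq_card_chooseBasisIndex, ← this]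
      simp
    rw [h3] at h2
    have h4 : (p : ℤ) ∣ 1 := by
      rw [← h2]
      exact Dvd.dvd.mul_left (dvd_pow_self _ (by
        have : 0 < Module.finrank ℤ (𝓞 K) := Module.finrank_pos
        omega)) _
    have h5 : p ∣ 1 := by exact_mod_cast h4
    exact hp.one_lt.ne' (Nat.dvd_one.mp h5)
  have hfin : Finite (𝓞 K ⧸ D) := Ideal.finiteQuotientOfFreeOfNeBot D hDbot
  rw [Ideal.absNorm_apply, Submodule.cardQuot_apply] at hdvd
  obtain ⟨x, hx⟩ := exists_prime_addOrderOf_dvd_card' (G := 𝓞 K ⧸ D) p hdvd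
  have hpx : p • x = 0 := by rw [← hx]; exact addOrderOf_nsmul_eq_zero x
  obtain ⟨x', rfl⟩ := Ideal.Quotient.mk_surjective x
  have hxD : x' ∈ D := by
    have h1 : (p : 𝓞 K) * x' ∈ D := by
      rw [nsmul_eq_mul, ← map_natCast (Ideal.Quotient.mk D), ← map_mul] at hpx
      exact Ideal.Quotient.eq_zero_iff_mem.mp hpx
    have h2 : x' = d * x' + e' * (p * x') := by
      rw [← mul_assoc, ← add_mul, hde, one_mul]
    rw [h2]
    exact D.add_mem (D.mul_mem_right _ hd) (D.mul_mem_left _ h1)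
  have h0 : Ideal.Quotient.mk D x' = 0 := Ideal.Quotient.eq_zero_iff_mem.mpr hxD
  rw [h0, addOrderOf_zero] at hx
  exact hp.one_lt.ne hx

/-- The `p`-integral denominator. -/
theorem exists_mul_integral (p : ℕ) [Fact p.Prime] {K : Type*} [Field K] [NumberField K] (α : K)
    (hα : ∀ v : HeightOneSpectrum (𝓞 K), (p : 𝓞 K) ∈ v.asIdeal → v.valuation K α ≤ 1) :
    ∃ (s : ℕ) (γ : 𝓞 K), ¬ p ∣ s ∧ algebraMap (𝓞 K) K γ = s * α := by
  let D : Ideal (𝓞 K) :=
    { carrier := {x | ∃ γ : 𝓞 K, algebraMap (𝓞 K) K γ = algebraMap (𝓞 K) K x * α}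
      zero_mem' := ⟨0, by simp⟩
      add_mem' := by
        rintro x y ⟨γ, hγ⟩ ⟨δ, hδ⟩
        exact ⟨γ + δ, by rw [map_add, map_add, hγ, hδ]; ring⟩
      smul_mem' := by
        rintro c x ⟨γ, hγ⟩
        exact ⟨c * γ, by rw [smul_eq_mul, map_mul, map_mul, hγ]; ring⟩ }
  have hD : ∀ v : HeightOneSpectrum (𝓞 K), (p : 𝓞 K) ∈ v.asIdeal → ¬ D ≤ v.asIdeal := by
    intro v hv hle
    obtain ⟨n, d, hnd⟩ := HeightOneSpectrum.exists_primeCompl_mul_eq_of_integer v α (hα v hv)
    exact d.2 (hle (show (d : 𝓞 K) ∈ D from ⟨n, by rw [mul_comm]; exact hnd.symm⟩))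
  have h1 := not_dvd_absNorm p D hD
  obtain ⟨γ, hγ⟩ : (((Ideal.absNorm D : ℕ) : 𝓞 K)) ∈ D := Ideal.absNorm_mem D
  exact ⟨Ideal.absNorm D, γ, h1, by rw [hγ, map_natCast]⟩

/-- Approximation by an algebraic integer at all places above `p`. -/
theorem exists_approx_int (p : ℕ) [Fact p.Prime] {K : Type*} [Field K] [NumberField K] (α : K)
    (hα : ∀ v : HeightOneSpectrum (𝓞 K), (p : 𝓞 K) ∈ v.asIdeal → v.valuation K α ≤ 1) :
    ∃ A : 𝓞 K, ∀ v : HeightOneSpectrum (𝓞 K), (p : 𝓞 K) ∈ v.asIdeal →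
      v.valuation K ((algebraMap (𝓞 K) K A) - α) < 1 := by
  have hp : p.Prime := Fact.out
  obtain ⟨s, γ, hs, hγ⟩ := exists_mul_integral p α hα
  have hcop : IsCoprime (s : ℤ) (p : ℤ) := by
    rw [Nat.isCoprime_iff_coprime]
    exact ((Nat.Prime.coprime_iff_not_dvd hp).mpr hs).symm
  obtain ⟨x, y, hxy⟩ := hcop
  refine ⟨(x : 𝓞 K) * γ, fun v hv => ?_⟩
  have h1 : algebraMap (𝓞 K) K ((x : 𝓞 K) * γ) - α =
        - (algebraMap (𝓞 K) K ((y : 𝓞 K) * (p : 𝓞 K)) * α) := by
    have h2 : (x : K) * s + y * p = 1 := by exact_mod_cast congrArg (Int.cast : ℤ → K) hxy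
    rw [map_mul, map_mul, map_intCast, map_intCast, map_natCast, hγ]
    linear_combination (α) * h2
  rw [h1, Valuation.map_neg, map_mul]
  have h3 : v.valuation K (algebraMap (𝓞 K) K ((y : 𝓞 K) * (p : 𝓞 K))) < 1 := by
    rw [HeightOneSpectrum.valuation_lt_one_iff_mem]
    exact v.asIdeal.mul_mem_left _ hv
  exact mul_lt_one_of_lt_of_le h3 (hα v hv)

/-- The quadratic equation of an algebraic integer. -/
theorem quad_eq {K : Type*} [Field K] [NumberField K] (hK : Module.finrank ℚ K = 2) (A : 𝓞 K) :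
    ∃ T : ℤ, A ^ 2 - (T : 𝓞 K) * A + ((Algebra.norm ℤ A : ℤ) : 𝓞 K) = 0 := by
  have hr : Module.finrank ℤ (𝓞 K) = 2 := by rw [RingOfIntegers.rank, hK]
  let b : Module.Basis (Fin 2) ℤ (𝓞 K) := Module.finBasisOfFinrankEq ℤ (𝓞 K) hr
  set M := Algebra.leftMulMatrix b A with hM
  refine ⟨M.trace, ?_⟩
  have h1 := Matrix.aeval_self_charpoly M
  have h3 : Polynomial.aeval M M.charpoly =
      Algebra.leftMulMatrix b (Polynomial.aeval A M.charpoly) :=
    (Polynomial.aeval_algHom_apply (Algebra.leftMulMatrix b) A M.charpoly)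
  rw [h3] at h1
  have h2 := (injective_iff_map_eq_zero (Algebra.leftMulMatrix b)).mp
    (Algebra.leftMulMatrix_injective b) _ h1
  rw [Matrix.charpoly_fin_two] at h2
  rw [Algebra.norm_eq_matrix_det b A, ← h2]
  simp [← hM]

theorem quad_rel (p : ℕ) [Fact p.Prime] (K : Type*) [Field K] [NumberField K]
    (hK : Module.finrank ℚ K = 2) (a b c : K) (ha : a ≠ 0) (hb : b ≠ 0) (hc : c ≠ 0)
    (h : a ^ p + b ^ p + c ^ p = 0)
    (hloc : ∀ v : HeightOneSpectrum (𝓞 K), (p : 𝓞 K) ∈ v.asIdeal →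
      v.valuation K a = 1 ∧ v.valuation K b = 1 ∧ v.valuation K c = 1) :
    ∃ y k : ℤ, ¬ (p : ℤ) ∣ k ∧ ∀ v : HeightOneSpectrum (𝓞 K), (p : 𝓞 K) ∈ v.asIdeal →
      v.valuation K ((a / (a + b)) + y * (a / (a + c)) - k) < 1 := by
  have hp : p.Prime := Fact.out
  have hsum : ∀ v : HeightOneSpectrum (𝓞 K), (p : 𝓞 K) ∈ v.asIdeal →
      v.valuation K (a + b + c) < 1 := fun v hv =>
    val_sum_lt p v hv a b c (hloc v hv).1.le (hloc v hv).2.1.le (hloc v hv).2.2.le h
  have hab : ∀ v : HeightOneSpectrum (𝓞 K), (p : 𝓞 K) ∈ v.asIdeal →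
      v.valuation K (a + b) = 1 := by
    intro v hv
    have h1 : a + b = (a + b + c) - c := by ring
    have h2 : v.valuation K (a + b + c) < v.valuation K c := by
      rw [(hloc v hv).2.2]; exact hsum v hv
    rw [h1, Valuation.map_sub_swap, Valuation.map_sub_eq_of_lt_left _ h2]
    exact (hloc v hv).2.2
  have hac : ∀ v : HeightOneSpectrum (𝓞 K), (p : 𝓞 K) ∈ v.asIdeal →
      v.valuation K (a + c) = 1 := by
    intro v hv
    have h1 : a + c = (a + b + c) - b := by ring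
    have h2 : v.valuation K (a + b + c) < v.valuation K b := by
      rw [(hloc v hv).2.1]; exact hsum v hv
    rw [h1, Valuation.map_sub_swap, Valuation.map_sub_eq_of_lt_left _ h2]
    exact (hloc v hv).2.1
  set α := a / (a + b) with hα
  set β := a / (a + c) with hβ
  have hα1 : ∀ v : HeightOneSpectrum (𝓞 K), (p : 𝓞 K) ∈ v.asIdeal → v.valuation K α = 1 := by
    intro v hv
    rw [hα, map_div₀, (hloc v hv).1, hab v hv, div_one]
  have hβ1 : ∀ v : HeightOneSpectrum (𝓞 K), (p : 𝓞 K) ∈ v.asIdeal → v.valuation K β = 1 := by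
    intro v hv
    rw [hβ, map_div₀, (hloc v hv).1, hac v hv, div_one]
  obtain ⟨A, hA⟩ := exists_approx_int p α (fun v hv => (hα1 v hv).le)
  obtain ⟨T, hT⟩ := quad_eq hK A
  refine ⟨Algebra.norm ℤ A - T + 1, Algebra.norm ℤ A, ?_, fun v hv => ?_⟩
  · have h1 := not_dvd_absNorm p (Ideal.span {A}) (fun v hv hle => by
      have h2 : A ∈ v.asIdeal := hle (Ideal.mem_span_singleton_self A)
      rw [← HeightOneSpectrum.valuation_lt_one_iff_mem (K := K)] at h2
      have h3 : v.valuation K α ≤ max (v.valuation K (algebraMap (𝓞 K) K A)) (v.valuation K ((algebraMap (𝓞 K) K A) - α)) := by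
        have h4 : α = (algebraMap (𝓞 K) K A) - ((algebraMap (𝓞 K) K A) - α) := by ring
        conv_lhs => rw [h4]
        exact Valuation.map_sub _ _ _
      rw [hα1 v hv] at h3
      exact absurd h3 (not_le.mpr (max_lt h2 (hA v hv))))
    rw [Ideal.absNorm_span_singleton] at h1
    intro h2
    exact h1 (Int.natCast_dvd.mp h2)
  · have hTK : (algebraMap (𝓞 K) K A) ^ 2 - (T : K) * (algebraMap (𝓞 K) K A) + ((Algebra.norm ℤ A : ℤ) : K) = 0 := by
      have := congrArg (algebraMap (𝓞 K) K) hT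
      simpa using this
    have hab0 : a + b ≠ 0 := by
      intro h0
      have := hab v hv
      rw [h0, map_zero] at this
      exact zero_ne_one this
    have hac0 : a + c ≠ 0 := by
      intro h0
      have := hac v hv
      rw [h0, map_zero] at this
      exact zero_ne_one this
    have hkey : β * (α - 1) - α = - (a * (a + b + c) / ((a + b) * (a + c))) := by
      rw [hα, hβ]
      field_simp
      ring
    have h1 : v.valuation K (β * (α - 1) - α) < 1 := by
      rw [hkey, Valuation.map_neg, map_div₀, map_mul, map_mul, (hloc v hv).1, hab v hv, hac v hv,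
        one_mul, one_mul, div_one]
      exact hsum v hv
    have hb1 : v.valuation K (β - 1) ≤ 1 := by
      refine (Valuation.map_sub _ _ _).trans (max_le (hβ1 v hv).le ?_)
      rw [map_one]
    have h2 : v.valuation K (β * ((algebraMap (𝓞 K) K A) - 1) - (algebraMap (𝓞 K) K A)) < 1 := by
      have h3 : β * ((algebraMap (𝓞 K) K A) - 1) - (algebraMap (𝓞 K) K A) = (β * (α - 1) - α) + ((algebraMap (𝓞 K) K A) - α) * (β - 1) := by ring
      rw [h3]
      refine lt_of_le_of_lt (Valuation.map_add _ _ _) (max_lt h1 ?_)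
      rw [map_mul]
      exact mul_lt_one_of_lt_of_le (hA v hv) hb1
    have h4 : α + ((Algebra.norm ℤ A - T + 1 : ℤ) : K) * β - ((Algebra.norm ℤ A : ℤ) : K) =
        algebraMap (𝓞 K) K ((T : 𝓞 K) - 1 - A) * (β * ((algebraMap (𝓞 K) K A) - 1) - (algebraMap (𝓞 K) K A)) - ((algebraMap (𝓞 K) K A) - α) := by
      rw [map_sub, map_sub, map_intCast, map_one]
      push_cast
      linear_combination (β - 1) * hTK
    rw [h4]
    refine lt_of_le_of_lt (Valuation.map_sub _ _ _) (max_lt ?_ (hA v hv))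
    rw [map_mul]
    rw [mul_comm]
    exact mul_lt_one_of_lt_of_le h2 (HeightOneSpectrum.valuation_le_one v _)

end H91SP
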