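import Pool.Agent.H91.SP.Defs

/-!
# Project SP, module Scale (block FIN)

PROOF of `scale`. Weak approximation: there is `l ≠ 0` with prescribed valuations at the finitely many
places above `p` and at `Q` (Chinese remainder theorem; or: write `a = a₁ / n`, `d = d₁ / m` with algebraic
integers and natural numbers; choose by CRT an algebraic integer congruent to `a₁ m` modulo a high power
of each `v ∣ p` and to `d₁ n` modulo a high power of `Q`, and divide by `n m`).
PROOF of `bad_primes_finite`: `p` ramified in `K` divides the discriminant (or: `(p) ∈ v ^ 2` for some `v`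
happens for finitely many `p`, the different is not zero); `p ∣ h(K)` happens for finitely many `p`.
-/

namespace H91SP

open NumberField IsDedekindDomain

/-- an algebraic integer which is a uniformizer at `v` and a unit at the other places of `S` -/
theorem sp_unif {R : Type*} [CommRing R] [IsDedekindDomain R] [DecidableEq (HeightOneSpectrum R)]
    (S : Finset (HeightOneSpectrum R)) (v : HeightOneSpectrum R) (hv : v ∈ S) :
    ∃ π : R, v.intValuation π = WithZero.exp (-1 : ℤ) ∧
      ∀ w ∈ S, w ≠ v → w.intValuation π = 1 := by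
  obtain ⟨u, hu⟩ := v.intValuation_exists_uniformizer
  obtain ⟨y, hy⟩ := IsDedekindDomain.exists_forall_sub_mem_ideal (s := S)
    (fun w : HeightOneSpectrum R => w.asIdeal) (fun _ => 2)
    (fun w _ => w.prime) (fun w _ w' _ hne h => hne (HeightOneSpectrum.ext h))
    (fun w => if w.1 = v then u else 1)
  refine ⟨y, ?_, ?_⟩
  · have h1 := hy v hv
    simp only [if_true] at h1
    have h2 : v.intValuation (y - u) ≤ WithZero.exp (-((2 : ℕ) : ℤ)) :=
      (v.intValuation_le_pow_iff_mem _ _).2 h1
    have h3 : v.intValuation (y - u) < v.intValuation u := by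
      rw [hu]
      exact lt_of_le_of_lt h2 (WithZero.exp_lt_exp.2 (by norm_num))
    rw [Valuation.map_eq_of_sub_lt _ h3, hu]
  · intro w hw hne
    have h1 := hy w hw
    simp only [if_neg hne] at h1
    have h2 : w.intValuation (y - 1) ≤ WithZero.exp (-((2 : ℕ) : ℤ)) :=
      (w.intValuation_le_pow_iff_mem _ _).2 h1
    have h3 : w.intValuation (y - 1) < w.intValuation (1 : R) := by
      rw [map_one]
      refine lt_of_le_of_lt h2 ?_
      rw [← WithZero.exp_zero]
      exact WithZero.exp_lt_exp.2 (by norm_num)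
    rw [Valuation.map_eq_of_sub_lt _ h3, map_one]

/-- weak approximation for valuations: prescribed valuations at finitely many places -/
theorem sp_approx {R : Type*} [CommRing R] [IsDedekindDomain R] (K : Type*) [Field K]
    [Algebra R K] [IsFractionRing R K] (S : Finset (HeightOneSpectrum R))
    (f : HeightOneSpectrum R → K) (hf : ∀ v, f v ≠ 0) :
    ∃ l : K, l ≠ 0 ∧ ∀ v ∈ S, v.valuation K l = v.valuation K (f v) := by
  classical
  have key : ∀ v : HeightOneSpectrum R, ∃ π : R, v ∈ S → v.intValuation π = WithZero.exp (-1 : ℤ) ∧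
      ∀ w ∈ S, w ≠ v → w.intValuation π = 1 := by
    intro v
    by_cases hv : v ∈ S
    · obtain ⟨π, hπ⟩ := sp_unif S v hv
      exact ⟨π, fun _ => hπ⟩
    · exact ⟨0, fun h => absurd h hv⟩
  choose π hπ using key
  have hne : ∀ v ∈ S, algebraMap R K (π v) ≠ 0 := by
    intro v hv h0
    have h1 : π v = 0 := (IsFractionRing.injective R K) (by rw [h0, map_zero])
    have h2 := (hπ v hv).1
    rw [h1, map_zero] at h2
    exact WithZero.exp_ne_zero h2.symm
  refine ⟨∏ v ∈ S, algebraMap R K (π v) ^ (-(WithZero.log (v.valuation K (f v)))),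
    Finset.prod_ne_zero_iff.2 fun v hv => zpow_ne_zero _ (hne v hv), ?_⟩
  intro w hw
  rw [map_prod, Finset.prod_eq_single w]
  · rw [map_zpow₀, HeightOneSpectrum.valuation_of_algebraMap, (hπ w hw).1, ← WithZero.exp_zsmul]
    have h1 : (-(WithZero.log (w.valuation K (f w)))) • (-1 : ℤ)
        = WithZero.log (w.valuation K (f w)) := by simp
    rw [h1, WithZero.exp_log]
    exact (Valuation.ne_zero_iff _).2 (hf w)
  · intro v hv hvw
    rw [map_zpow₀, HeightOneSpectrum.valuation_of_algebraMap, (hπ v hv).2 w hw hvw.symm, one_zpow]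
  · intro h
    exact absurd hw h

theorem scale (p : ℕ) [Fact p.Prime] (K : Type*) [Field K] [NumberField K]
    (Q : HeightOneSpectrum (𝓞 K)) (hQ : (p : 𝓞 K) ∉ Q.asIdeal) (a d : K) (ha : a ≠ 0)
    (hd : d ≠ 0) :
    ∃ l : K, l ≠ 0 ∧ (∀ v : HeightOneSpectrum (𝓞 K), (p : 𝓞 K) ∈ v.asIdeal →
      v.valuation K l = v.valuation K a) ∧ Q.valuation K l = Q.valuation K d := by
  classical
  have hp0 : (p : 𝓞 K) ≠ 0 := Nat.cast_ne_zero.2 (Fact.out : p.Prime).ne_zero
  have hfin : {v : HeightOneSpectrum (𝓞 K) | (p : 𝓞 K) ∈ v.asIdeal}.Finite := by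
    have h1 := Ideal.finite_factors (R := 𝓞 K) (I := Ideal.span {(p : 𝓞 K)})
      (by simpa [Ideal.zero_eq_bot, Ideal.span_singleton_eq_bot] using hp0)
    refine h1.subset ?_
    intro v hv
    exact Ideal.dvd_span_singleton.2 hv
  obtain ⟨l, hl0, hl⟩ := sp_approx K (insert Q hfin.toFinset)
    (fun v => if v = Q then d else a) (by
      intro v
      split_ifs
      · exact hd
      · exact ha)
  refine ⟨l, hl0, ?_, ?_⟩
  · intro v hv
    have hvQ : v ≠ Q := by
      rintro rfl
      exact hQ hv
    have h1 := hl v (Finset.mem_insert_of_mem (hfin.mem_toFinset.2 hv))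
    simpa [if_neg hvQ] using h1
  · have h1 := hl Q (Finset.mem_insert_self _ _)
    simpa using h1

theorem bad_primes_finite (K : Type*) [Field K] [NumberField K] :
    {p : ℕ | p.Prime ∧ (¬ Unr p K ∨ p ∣ NumberField.classNumber K)}.Finite := by
  classical
  have hdiff : differentIdeal ℤ (𝓞 K) ≠ ⊥ := differentIdeal_ne_bot
  have hV : {v : HeightOneSpectrum (𝓞 K) | v.asIdeal ∣ differentIdeal ℤ (𝓞 K)}.Finite :=
    Ideal.finite_factors hdiff
  have h1 : (⋃ v ∈ {v : HeightOneSpectrum (𝓞 K) | v.asIdeal ∣ differentIdeal ℤ (𝓞 K)},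
      {p : ℕ | p.Prime ∧ (p : 𝓞 K) ∈ v.asIdeal}).Finite := by
    refine hV.biUnion fun v _ => Set.Subsingleton.finite ?_
    rintro p ⟨hp, hpv⟩ q ⟨hq, hqv⟩
    by_contra hne
    have hc : p.Coprime q := (Nat.coprime_primes hp hq).2 hne
    have h2 : IsCoprime (p : 𝓞 K) (q : 𝓞 K) := by
      have h3 : IsCoprime (p : ℤ) (q : ℤ) := Nat.isCoprime_iff_coprime.2 hc
      have h4 := h3.map (algebraMap ℤ (𝓞 K))
      simpa using h4
    obtain ⟨a, b, hab⟩ := h2
    apply v.isPrime.ne_top
    rw [Ideal.eq_top_iff_one, ← hab]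
    exact v.asIdeal.add_mem (v.asIdeal.mul_mem_left _ hpv) (v.asIdeal.mul_mem_left _ hqv)
  have h2 : {p : ℕ | p ∣ NumberField.classNumber K}.Finite := by
    have h3 : NumberField.classNumber K ≠ 0 := NumberField.classNumber_ne_zero K
    exact (Nat.divisors _).finite_toSet.subset fun p hp => by
      simpa using ⟨hp, h3⟩
  refine (h1.union h2).subset ?_
  rintro p ⟨hp, hU | hc⟩
  · left
    simp only [Unr, not_forall, not_not] at hU
    obtain ⟨v, hv1, hv2⟩ := hU
    simp only [Set.mem_iUnion, Set.mem_ofPred_eq, exists_prop]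
    refine ⟨v, ?_, hp, hv1⟩
    have hpint : (Ideal.span {(p : ℤ)}) ≠ ⊥ := by
      simpa [Ideal.span_singleton_eq_bot] using hp.ne_zero
    have : (Ideal.span {(p : ℤ)}).IsMaximal :=
      PrincipalIdealRing.isMaximal_of_irreducible (Nat.prime_iff_prime_int.1 hp).irreducible
    have hmap : (Ideal.span {(p : ℤ)}).map (algebraMap ℤ (𝓞 K)) = Ideal.span {(p : 𝓞 K)} := by
      rw [Ideal.map_span, Set.image_singleton]; simp
    have h4 := pow_sub_one_dvd_differentIdeal ℤ v.asIdeal 2 hpint
      (by rw [hmap]; exact Ideal.dvd_span_singleton.2 hv2)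
    simpa using h4
  · right
    exact hc

end H91SP
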