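import Pool.Agent.H91.SP.FinCore
import Pool.Agent.H91.SP.QuadRel
import Pool.Agent.H91.SP.Scale

/-!
# Project SP, module FinQuad (block FIN)

Furtwängler's theorem over every quadratic field, with the corollaries of Wieferich and Sophie Germain.

PROOF of `fin_quad`. `max (Q a) (Q b) (Q c)` is attained exactly twice (ultrametric inequality for
`a ^ p + b ^ p + c ^ p = 0`, valuations not all equal); permute so that `Q(a) < Q(b) = Q(c)`; divide `a, b, c` by the
`l` of `scale` (valuation of `a` at the `v ∣ p`, of `b` at `Q`); apply `quad_rel` and `fin_core` with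
`x = 1`, `z = 0`.
PROOF of `fin_wief`: if the valuations at `Q` are all equal, divide `a, b, c` by `a` (only
`Q(b/a) = Q(c/a) = 1` is used): `1 + u ^ p + v ^ p = 0` in the field of two elements, `u = v = 1`,
contradiction. So `fin_quad` gives `p ^ 2 ∣ 2 ^ (p - 1) - 1`.
PROOF of `fin_sg`: the same with the field of `q` elements and `hq`; `fin_quad` gives
`q ^ (p - 1) = 1` modulo `p ^ 2`, but `q = 1 + m p`, `q ^ (p - 1) = 1 + (p - 1) m p = 1 - m p` modulo
`p ^ 2`, so `p ∣ m`. (The case `q = p` does not occur.)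
-/

namespace H91SP

open NumberField IsDedekindDomain

/-- The first case of Fermat's last theorem over `K` for the exponent `p`: for every solution, `a`, `b`, `c`
do not all have the same valuation at all primes of `K` above `p`. -/
def FirstCase (p : ℕ) (K : Type*) [Field K] [NumberField K] : Prop :=
  ∀ a b c : K, a ≠ 0 → b ≠ 0 → c ≠ 0 → a ^ p + b ^ p + c ^ p = 0 →
    ∃ v : HeightOneSpectrum (𝓞 K), (p : 𝓞 K) ∈ v.asIdeal ∧
      ¬ (v.valuation K a = v.valuation K b ∧ v.valuation K b = v.valuation K c)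

theorem fin_quad_aux (p : ℕ) [Fact p.Prime] (K : Type*) [Field K] [NumberField K]
    (hK : Module.finrank ℚ K = 2) (hp2 : p ≠ 2) (hu : Unr p K)
    (hcl : ¬ p ∣ NumberField.classNumber K)
    (a b c : K) (ha : a ≠ 0) (hb : b ≠ 0) (hc : c ≠ 0) (h : a ^ p + b ^ p + c ^ p = 0)
    (hfc : ∀ v : HeightOneSpectrum (𝓞 K), (p : 𝓞 K) ∈ v.asIdeal →
      v.valuation K a = v.valuation K b ∧ v.valuation K b = v.valuation K c)
    (Q : HeightOneSpectrum (𝓞 K)) (hQp : (p : 𝓞 K) ∉ Q.asIdeal)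
    (h1 : Q.valuation K a < Q.valuation K b) (h2 : Q.valuation K b = Q.valuation K c) :
    p ^ 2 ∣ Nat.card (𝓞 K ⧸ Q.asIdeal) ^ (p - 1) - 1 := by
  obtain ⟨l, hl0, hl, hlQ⟩ := scale p K Q hQp a b ha hb
  have hQb : Q.valuation K b ≠ 0 := (Valuation.ne_zero_iff _).2 hb
  have hva : ∀ v : HeightOneSpectrum (𝓞 K), v.valuation K a ≠ 0 := fun v =>
    (Valuation.ne_zero_iff _).2 ha
  have hloc : ∀ v : HeightOneSpectrum (𝓞 K), (p : 𝓞 K) ∈ v.asIdeal →
      v.valuation K (a / l) = 1 ∧ v.valuation K (b / l) = 1 ∧ v.valuation K (c / l) = 1 := by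
    intro v hv
    obtain ⟨e1, e2⟩ := hfc v hv
    refine ⟨?_, ?_, ?_⟩
    · rw [map_div₀, hl v hv, div_self (hva v)]
    · rw [map_div₀, hl v hv, ← e1, div_self (hva v)]
    · rw [map_div₀, hl v hv, ← e2, ← e1, div_self (hva v)]
  have hsum : (a / l) ^ p + (b / l) ^ p + (c / l) ^ p = 0 := by
    rw [div_pow, div_pow, div_pow, ← add_div, ← add_div, h, zero_div]
  have ha' : a / l ≠ 0 := div_ne_zero ha hl0
  have hb' : b / l ≠ 0 := div_ne_zero hb hl0
  have hc' : c / l ≠ 0 := div_ne_zero hc hl0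
  obtain ⟨y, k, hk, hyk⟩ := quad_rel p K hK (a / l) (b / l) (c / l) ha' hb' hc' hsum hloc
  have hQa' : Q.valuation K (a / l) < 1 := by
    rw [map_div₀, hlQ]
    exact (div_lt_one₀ (zero_lt_iff.mpr hQb)).mpr h1
  have hQb' : Q.valuation K (b / l) = 1 := by
    rw [map_div₀, hlQ, div_self hQb]
  have hQc' : Q.valuation K (c / l) = 1 := by
    rw [map_div₀, hlQ, ← h2, div_self hQb]
  refine fin_core p K hp2 hu hcl (a / l) (b / l) (c / l) ha' hb' hc' hsum hloc 1 y 0 k hk ?_ Q hQp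
    hQa' hQb' hQc' (Or.inl rfl)
  intro v hv
  have h3 := hyk v hv
  have h4 : ((1 : ℤ) : K) * ((a / l) / ((a / l) + (b / l))) + (y : K) * ((a / l) / ((a / l) + (c / l)))
      + ((0 : ℤ) : K) * (((b / l) - (c / l)) / ((b / l) + (c / l))) - (k : K) =
      (a / l) / ((a / l) + (b / l)) + y * ((a / l) / ((a / l) + (c / l))) - k := by
    rw [Int.cast_one, Int.cast_zero]
    ring
  rw [h4]
  exact h3

theorem fin_quad (p : ℕ) [Fact p.Prime] (K : Type*) [Field K] [NumberField K]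
    (hK : Module.finrank ℚ K = 2) (hp2 : p ≠ 2) (hu : Unr p K)
    (hcl : ¬ p ∣ NumberField.classNumber K)
    (a b c : K) (ha : a ≠ 0) (hb : b ≠ 0) (hc : c ≠ 0) (h : a ^ p + b ^ p + c ^ p = 0)
    (hfc : ∀ v : HeightOneSpectrum (𝓞 K), (p : 𝓞 K) ∈ v.asIdeal →
      v.valuation K a = v.valuation K b ∧ v.valuation K b = v.valuation K c)
    (Q : HeightOneSpectrum (𝓞 K)) (hQp : (p : 𝓞 K) ∉ Q.asIdeal)
    (hQ : ¬ (Q.valuation K a = Q.valuation K b ∧ Q.valuation K b = Q.valuation K c)) :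
    p ^ 2 ∣ Nat.card (𝓞 K ⧸ Q.asIdeal) ^ (p - 1) - 1 := by
  have hp : p.Prime := Fact.out
  have key : ∀ x y z : K, x ^ p + y ^ p + z ^ p = 0 →
      Q.valuation K x ≤ max (Q.valuation K y) (Q.valuation K z) := by
    intro x y z hxyz
    have h1 : x ^ p = -(y ^ p + z ^ p) := by linear_combination hxyz
    have h2 : Q.valuation K x ^ p ≤ max (Q.valuation K y ^ p) (Q.valuation K z ^ p) := by
      rw [← map_pow, h1, Valuation.map_neg, ← map_pow, ← map_pow]
      exact Valuation.map_add _ _ _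
    by_contra hcon
    push Not at hcon
    obtain ⟨h3, h4⟩ := max_lt_iff.mp hcon
    have h5 : Q.valuation K y ^ p < Q.valuation K x ^ p := pow_lt_pow_left₀ h3 zero_le hp.ne_zero
    have h6 : Q.valuation K z ^ p < Q.valuation K x ^ p := pow_lt_pow_left₀ h4 zero_le hp.ne_zero
    exact absurd h2 (not_le.mpr (max_lt h5 h6))
  have k1 := key a b c h
  have k2 := key b a c (by linear_combination h)
  have k3 := key c a b (by linear_combination h)
  rcases lt_trichotomy (Q.valuation K a) (Q.valuation K b) with hab | hab | hab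
  · have h1 : Q.valuation K b ≤ Q.valuation K c := by
      rcases le_max_iff.mp k2 with h0 | h0
      · exact absurd hab (not_lt.mpr h0)
      · exact h0
    have h2 : Q.valuation K c ≤ Q.valuation K b := by
      rcases le_max_iff.mp k3 with h0 | h0
      · exact h0.trans hab.le
      · exact h0
    exact fin_quad_aux p K hK hp2 hu hcl a b c ha hb hc h hfc Q hQp hab (le_antisymm h1 h2)
  · have h1 : Q.valuation K c ≤ Q.valuation K a := by
      rcases le_max_iff.mp k3 with h0 | h0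
      · exact h0
      · exact h0.trans hab.symm.le
    have h2 : Q.valuation K c ≠ Q.valuation K a := fun h0 => hQ ⟨hab, by rw [← hab, h0]⟩
    exact fin_quad_aux p K hK hp2 hu hcl c a b hc ha hb (by linear_combination h)
      (fun v hv => ⟨by rw [(hfc v hv).1, (hfc v hv).2], (hfc v hv).1⟩) Q hQp
      (lt_of_le_of_ne h1 h2) hab
  · have h1 : Q.valuation K a ≤ Q.valuation K c := by
      rcases le_max_iff.mp k1 with h0 | h0
      · exact absurd hab (not_lt.mpr h0)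
      · exact h0
    have h2 : Q.valuation K c ≤ Q.valuation K a := by
      rcases le_max_iff.mp k3 with h0 | h0
      · exact h0
      · exact h0.trans hab.le
    exact fin_quad_aux p K hK hp2 hu hcl b a c hb ha hc (by linear_combination h)
      (fun v hv => ⟨(hfc v hv).1.symm, by rw [(hfc v hv).1, (hfc v hv).2]⟩) Q hQp hab
      (le_antisymm h1 h2)

theorem sp_pow_sub_lt {L : Type*} [Field L] [NumberField L] (w : HeightOneSpectrum (𝓞 L)) (x y : L)
    (hx : w.valuation L x ≤ 1) (hy : w.valuation L y ≤ 1) (hxy : w.valuation L (x - y) < 1)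
    (n : ℕ) : w.valuation L (x ^ n - y ^ n) < 1 := by
  induction n with
  | zero => simp
  | succ n ih =>
    have h1 : x ^ (n + 1) - y ^ (n + 1) = x ^ n * (x - y) + (x ^ n - y ^ n) * y := by ring
    rw [h1]
    refine Valuation.map_add_lt _ ?_ ?_
    · rw [map_mul, map_pow]
      calc w.valuation L x ^ n * w.valuation L (x - y)
          ≤ 1 * w.valuation L (x - y) := mul_le_mul_left (pow_le_one' hx n) _
        _ < 1 := by rwa [one_mul]
    · rw [map_mul]
      calc w.valuation L (x ^ n - y ^ n) * w.valuation L y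
          ≤ w.valuation L (x ^ n - y ^ n) * 1 := mul_le_mul_right hy _
        _ < 1 := by rwa [mul_one]

theorem sp_approx_unit {L : Type*} [Field L] [NumberField L] (w : HeightOneSpectrum (𝓞 L)) (x : L)
    (hx : w.valuation L x = 1) :
    ∃ r : 𝓞 L, r ∉ w.asIdeal ∧ w.valuation L ((r : L) - x) < 1 := by
  obtain ⟨r, hr⟩ := w.exists_valuation_sub_lt_of_integer hx.le 1
  refine ⟨r, ?_, by simpa using hr⟩
  intro hmem
  have h1 : w.valuation L (algebraMap (𝓞 L) L r) < 1 := (w.valuation_lt_one_iff_mem r).2 hmem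
  have h2 : w.valuation L ((algebraMap (𝓞 L) L r) - (algebraMap (𝓞 L) L r - x)) < 1 :=
    Valuation.map_sub_lt _ h1 (by simpa using hr)
  rw [sub_sub_cancel, hx] at h2
  exact lt_irrefl _ h2

theorem sp_res_rel (p : ℕ) {L : Type*} [Field L] [NumberField L] (w : HeightOneSpectrum (𝓞 L))
    (a b c : L) (hc : c ≠ 0) (h : a ^ p + b ^ p + c ^ p = 0)
    (hab : w.valuation L a = w.valuation L b) (hbc : w.valuation L b = w.valuation L c) :
    ∃ r s : 𝓞 L, r ∉ w.asIdeal ∧ s ∉ w.asIdeal ∧ r ^ p + s ^ p + 1 ∈ w.asIdeal := by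
  have hc' : w.valuation L c ≠ 0 := (Valuation.ne_zero_iff _).2 hc
  have hu : w.valuation L (a / c) = 1 := by rw [map_div₀, hab, hbc, div_self hc']
  have hv : w.valuation L (b / c) = 1 := by rw [map_div₀, hbc, div_self hc']
  obtain ⟨r, hr, hr'⟩ := sp_approx_unit w _ hu
  obtain ⟨s, hs, hs'⟩ := sp_approx_unit w _ hv
  refine ⟨r, s, hr, hs, ?_⟩
  rw [← w.valuation_lt_one_iff_mem (K := L)]
  have h0 : (a / c) ^ p + (b / c) ^ p + 1 = 0 := by
    have hcp : c ^ p ≠ 0 := pow_ne_zero p hc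
    rw [div_pow, div_pow, ← add_div, div_add_one hcp, h, zero_div]
  have h1 : algebraMap (𝓞 L) L (r ^ p + s ^ p + 1)
      = (((r : L) ^ p - (a / c) ^ p) + ((s : L) ^ p - (b / c) ^ p)) := by
    rw [map_add, map_add, map_pow, map_pow, map_one]
    linear_combination h0
  have h2 : w.valuation L (algebraMap (𝓞 L) L (r ^ p + s ^ p + 1)) < 1 := by
    rw [h1]
    exact Valuation.map_add_lt _
      (sp_pow_sub_lt w _ _ (w.valuation_le_one r) hu.le hr' p)
      (sp_pow_sub_lt w _ _ (w.valuation_le_one s) hv.le hs' p)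
  exact h2

theorem sp_not_all_eq (p : ℕ) (K : Type*) [Field K] [NumberField K] (q : ℕ) (hqp : q.Prime)
    (Q : HeightOneSpectrum (𝓞 K)) (hQ : Nat.card (𝓞 K ⧸ Q.asIdeal) = q)
    (hq : ∀ u v : ZMod q, u ≠ 0 → v ≠ 0 → u ^ p + v ^ p + 1 ≠ 0)
    (a b c : K) (hc : c ≠ 0) (h : a ^ p + b ^ p + c ^ p = 0) :
    ¬ (Q.valuation K a = Q.valuation K b ∧ Q.valuation K b = Q.valuation K c) := by
  rintro ⟨hab, hbc⟩
  obtain ⟨r, s, hr, hs, hrs⟩ := sp_res_rel p Q a b c hc h hab hbc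
  have : Finite (𝓞 K ⧸ Q.asIdeal) := Nat.finite_of_card_ne_zero (by rw [hQ]; exact hqp.ne_zero)
  let _ : Fintype (𝓞 K ⧸ Q.asIdeal) := Fintype.ofFinite _
  have hcard : Fintype.card (𝓞 K ⧸ Q.asIdeal) = q := by rw [← Nat.card_eq_fintype_card, hQ]
  let e : ZMod q ≃+* (𝓞 K ⧸ Q.asIdeal) := ZMod.ringEquivOfPrime _ hqp hcard
  refine hq (e.symm (Ideal.Quotient.mk _ r)) (e.symm (Ideal.Quotient.mk _ s)) ?_ ?_ ?_
  · rw [ne_eq, EmbeddingLike.map_eq_zero_iff, Ideal.Quotient.eq_zero_iff_mem]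
    exact hr
  · rw [ne_eq, EmbeddingLike.map_eq_zero_iff, Ideal.Quotient.eq_zero_iff_mem]
    exact hs
  · have h1 : e.symm (Ideal.Quotient.mk Q.asIdeal (r ^ p + s ^ p + 1)) = 0 := by
      rw [EmbeddingLike.map_eq_zero_iff, Ideal.Quotient.eq_zero_iff_mem]
      exact hrs
    simpa only [map_add, map_pow, map_one] using h1

theorem sp_notMem (p : ℕ) (hp : p.Prime) (K : Type*) [Field K] [NumberField K] (q : ℕ)
    (hqp : q.Prime) (hne : q ≠ p)
    (Q : HeightOneSpectrum (𝓞 K)) (hQ : Nat.card (𝓞 K ⧸ Q.asIdeal) = q) :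
    (p : 𝓞 K) ∉ Q.asIdeal := by
  intro hmem
  have hq : (q : 𝓞 K) ∈ Q.asIdeal := by
    have : Finite (𝓞 K ⧸ Q.asIdeal) := Nat.finite_of_card_ne_zero (by rw [hQ]; exact hqp.ne_zero)
    let _ : Fintype (𝓞 K ⧸ Q.asIdeal) := Fintype.ofFinite _
    rw [← Ideal.Quotient.eq_zero_iff_mem, map_natCast, ← hQ, Nat.card_eq_fintype_card]
    exact Nat.cast_card_eq_zero _
  have h3 : IsCoprime (p : ℤ) (q : ℤ) :=
    Nat.isCoprime_iff_coprime.2 ((Nat.coprime_primes hp hqp).2 hne.symm)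
  have h4 := h3.map (algebraMap ℤ (𝓞 K))
  rw [map_natCast, map_natCast] at h4
  obtain ⟨x, y, hxy⟩ := h4
  apply Q.isPrime.ne_top
  rw [Ideal.eq_top_iff_one, ← hxy]
  exact Q.asIdeal.add_mem (Q.asIdeal.mul_mem_left _ hmem) (Q.asIdeal.mul_mem_left _ hq)

theorem sp_first_case (p : ℕ) [Fact p.Prime] (K : Type*) [Field K] [NumberField K]
    (hK : Module.finrank ℚ K = 2) (hp2 : p ≠ 2) (hu : Unr p K)
    (hcl : ¬ p ∣ NumberField.classNumber K) (q : ℕ) (hqp : q.Prime) (hne : q ≠ p)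
    (Q : HeightOneSpectrum (𝓞 K)) (hQ : Nat.card (𝓞 K ⧸ Q.asIdeal) = q)
    (hq : ∀ u v : ZMod q, u ≠ 0 → v ≠ 0 → u ^ p + v ^ p + 1 ≠ 0)
    (hd : ¬ p ^ 2 ∣ q ^ (p - 1) - 1) : FirstCase p K := by
  intro a b c ha hb hc h
  by_contra hfc
  have hfc' : ∀ v : HeightOneSpectrum (𝓞 K), (p : 𝓞 K) ∈ v.asIdeal →
      v.valuation K a = v.valuation K b ∧ v.valuation K b = v.valuation K c := by
    intro v hv
    by_contra hcon
    exact hfc ⟨v, hv, hcon⟩
  have h1 := fin_quad p K hK hp2 hu hcl a b c ha hb hc h hfc' Q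
    (sp_notMem p Fact.out K q hqp hne Q hQ) (sp_not_all_eq p K q hqp Q hQ hq a b c hc h)
  rw [hQ] at h1
  exact hd h1

theorem fin_wief (p : ℕ) [Fact p.Prime] (K : Type*) [Field K] [NumberField K]
    (hK : Module.finrank ℚ K = 2) (hp2 : p ≠ 2) (hu : Unr p K)
    (hcl : ¬ p ∣ NumberField.classNumber K)
    (Q : HeightOneSpectrum (𝓞 K)) (hQ : Nat.card (𝓞 K ⧸ Q.asIdeal) = 2)
    (hW : ¬ p ^ 2 ∣ 2 ^ (p - 1) - 1) : FirstCase p K := by
  refine sp_first_case p K hK hp2 hu hcl 2 Nat.prime_two hp2.symm Q hQ ?_ hW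
  intro u v hu hv
  have h2 : ∀ x : ZMod 2, x ≠ 0 → x = 1 := by decide
  rw [h2 u hu, h2 v hv, one_pow]
  decide

theorem fin_sg (p : ℕ) [Fact p.Prime] (K : Type*) [Field K] [NumberField K]
    (hK : Module.finrank ℚ K = 2) (hp2 : p ≠ 2) (hu : Unr p K)
    (hcl : ¬ p ∣ NumberField.classNumber K) (q m : ℕ) (hqp : q.Prime) (hqm : q = m * p + 1)
    (hm : ¬ p ∣ m) (Q : HeightOneSpectrum (𝓞 K)) (hQ : Nat.card (𝓞 K ⧸ Q.asIdeal) = q)
    (hq : ∀ u v : ZMod q, u ≠ 0 → v ≠ 0 → u ^ p + v ^ p + 1 ≠ 0) : FirstCase p K := by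
  have hp : p.Prime := Fact.out
  have hne : q ≠ p := by
    intro h
    have h1 : p ∣ 1 := by
      have h2 : p ∣ m * p + 1 := by rw [← hqm, h]
      exact (Nat.dvd_add_right (Dvd.intro_left m rfl)).1 h2
    exact hp.one_lt.ne' (Nat.dvd_one.1 h1)
  refine sp_first_case p K hK hp2 hu hcl q hqp hne Q hQ hq ?_
  intro hd
  apply hm
  have hq1 : 1 ≤ q ^ (p - 1) := Nat.one_le_pow _ _ hqp.pos
  have h1 : ((p : ℤ) ^ 2) ∣ (q : ℤ) ^ (p - 1) - 1 := by
    have := Int.natCast_dvd_natCast.2 hd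
    rwa [Nat.cast_sub hq1, Nat.cast_pow, Nat.cast_pow, Nat.cast_one] at this
  have h2 : ∀ n : ℕ, ((p : ℤ) ^ 2) ∣ (q : ℤ) ^ n - 1 - n * (m * p) := by
    intro n
    induction n with
    | zero => simp
    | succ n ih =>
      obtain ⟨t, ht⟩ := ih
      have hq' : (q : ℤ) = m * p + 1 := by rw [hqm]; push_cast; ring
      refine ⟨t * q + n * m ^ 2, ?_⟩
      have h5 : (q : ℤ) ^ n = 1 + n * (m * p) + (p : ℤ) ^ 2 * t := by linear_combination ht
      rw [pow_succ, h5, hq']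
      push_cast
      ring
  have h3 : ((p : ℤ) ^ 2) ∣ ((p - 1 : ℕ) : ℤ) * (m * p) := by
    have := dvd_sub h1 (h2 (p - 1))
    rwa [sub_sub_cancel] at this
  have h4 : p ^ 2 ∣ (p - 1) * (m * p) := by exact_mod_cast h3
  have h5 : p ∣ (p - 1) * m := by
    rw [pow_two, ← mul_assoc] at h4
    exact Nat.dvd_of_mul_dvd_mul_right hp.pos h4
  rcases (Nat.Prime.dvd_mul hp).1 h5 with h6 | h6
  · exact absurd (Nat.le_of_dvd (Nat.sub_pos_of_lt hp.one_lt) h6) (by have := hp.pos; omega)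
  · exact h6

end H91SP
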