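import Pool.Agent.H91.SP.MirA

/-!
# Project SP, module MirB (second theorem of Furtwängler, core)

`a, b, c` are units at `Q` and the three pairs are good at `Q`. From a relation
`z₁ (a-b)/(a+b) + z₂ (b-c)/(b+c) + z₃ (c-a)/(c+a) = k` modulo `p`, `k` prime to `p`, it follows that
`p²` divides `N(Q)^(p-1) - 1`. PROOF: `fin_a` with the exponents `2 z₁`, `-2 z₃`, `z₂`, `k + z₁ - z₃`, and
`Γ(a, b)² = ζ⁻¹ P^p Γ(a, b) / Γ(b, a)`.
-/

namespace H91SP

open NumberField IsDedekindDomain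

/-- a good pair at `Q` -/
def MirG (p : ℕ) {K : Type*} [Field K] [NumberField K] (Q : HeightOneSpectrum (𝓞 K)) (a b : K) :
    Prop :=
  Q.valuation K (a - b) < 1 ∨
    (p ≠ 3 ∧ Q.valuation K (2 : K) < 1 ∧ Q.valuation K (a ^ 2 + a * b + b ^ 2) < 1)

theorem mir_good (p : ℕ) [Fact p.Prime] (K : Type*) {L : Type*} [Field K] [NumberField K]
    [Field L] [NumberField L] [Algebra K L] [IsCyclotomicExtension {p} K L]
    (hp2 : p ≠ 2) (hu : Unr p K) (ζ : L) (hζ : IsPrimitiveRoot ζ p)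
    (w : HeightOneSpectrum (𝓞 L)) (hw : (p : 𝓞 L) ∉ w.asIdeal) (Q : HeightOneSpectrum (𝓞 K))
    (e : ℕ) (he : 0 < e) (hval : ∀ x : K, w.valuation L (algebraMap K L x) = Q.valuation K x ^ e)
    (a b : K) (ha : Q.valuation K a = 1) (hb : Q.valuation K b = 1) (hg : MirG p Q a b) :
    w.valuation L (Gam p ζ (algebraMap K L a) (algebraMap K L b)) = 1 ∧
      w.valuation L (Gam p ζ (algebraMap K L b) (algebraMap K L a)) = 1 ∧
      MirP w p (Gam p ζ (algebraMap K L a) (algebraMap K L b) /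
        Gam p ζ (algebraMap K L b) (algebraMap K L a)) := by
  have ha' : w.valuation L (algebraMap K L a) = 1 := by rw [hval, ha, one_pow]
  have hb' : w.valuation L (algebraMap K L b) = 1 := by rw [hval, hb, one_pow]
  rcases hg with hg | ⟨hp3, h2, hg⟩
  · refine mir_good_one hp2 hζ hw _ _ hb' ?_
    rw [← map_sub, hval]
    exact pow_lt_one₀ zero_le hg he.ne'
  · refine mir_good_two p K hp2 hp3 hu ζ hζ w hw a b ha' hb' ?_ ?_
    · have h3 := hval (2 : K)
      rw [map_ofNat] at h3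
      rw [h3]
      exact pow_lt_one₀ zero_le h2 he.ne'
    · rw [← map_pow, ← map_pow, ← map_mul, ← map_add, ← map_add, hval]
      exact pow_lt_one₀ zero_le hg he.ne'

/-- `Γ(a, b)² = ζ⁻¹` times a `p`-th power modulo `w` -/
theorem mir_sq (p : ℕ) [Fact p.Prime] {L : Type*} [Field L] [NumberField L]
    (ζ : L) (hζ : IsPrimitiveRoot ζ p) (w : HeightOneSpectrum (𝓞 L)) (a b : L)
    (h1 : w.valuation L (Gam p ζ a b) = 1) (h2 : w.valuation L (Gam p ζ b a) = 1)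
    (h3 : MirP w p (Gam p ζ a b / Gam p ζ b a)) : MirP w p (Gam p ζ a b ^ 2 * ζ) := by
  have hp : p.Prime := Fact.out
  have hζ0 : ζ ≠ 0 := hζ.ne_zero hp.ne_zero
  have hz := gq_val_zeta w p ζ hζ
  have h4 := mir_gam_mul p ζ hζ a b
  set P := ∏ t ∈ Finset.Ico 1 p, (a + ζ ^ iv p t * b) with hP
  have hPv : w.valuation L P = 1 := by
    have h5 := congrArg (w.valuation L) h4
    rw [map_mul, h1, h2, one_mul, map_mul, map_inv₀, hz, inv_one, one_mul, map_pow] at h5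
    exact (pow_eq_one_iff.1 h5.symm).resolve_right hp.ne_zero
  have hne : Gam p ζ b a ≠ 0 := by
    intro h0; rw [h0, map_zero] at h2; exact zero_ne_one h2
  have e1 : Gam p ζ a b ^ 2 * ζ = (Gam p ζ a b / Gam p ζ b a) * P ^ p := by
    have e2 : P ^ p = ζ * (Gam p ζ a b * Gam p ζ b a) := by
      rw [h4, ← mul_assoc, mul_inv_cancel₀ hζ0, one_mul]
    rw [e2]
    field_simp
  rw [e1]
  exact MirP_mul h3 (MirP_pow_self hPv)

theorem mir_core (p : ℕ) [Fact p.Prime] (K : Type*) [Field K] [NumberField K]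
    (hp2 : p ≠ 2) (hu : Unr p K) (hcl : ¬ p ∣ NumberField.classNumber K)
    (a b c : K) (ha : a ≠ 0) (hb : b ≠ 0) (hc : c ≠ 0) (h : a ^ p + b ^ p + c ^ p = 0)
    (hloc : ∀ v : HeightOneSpectrum (𝓞 K), (p : 𝓞 K) ∈ v.asIdeal →
      v.valuation K a = 1 ∧ v.valuation K b = 1 ∧ v.valuation K c = 1)
    (z₁ z₂ z₃ k : ℤ) (hk : ¬ (p : ℤ) ∣ k)
    (hrel : ∀ v : HeightOneSpectrum (𝓞 K), (p : 𝓞 K) ∈ v.asIdeal →
      v.valuation K (z₁ * ((a - b) / (a + b)) + z₂ * ((b - c) / (b + c)) +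
        z₃ * ((c - a) / (c + a)) - k) < 1)
    (Q : HeightOneSpectrum (𝓞 K)) (hQp : (p : 𝓞 K) ∉ Q.asIdeal)
    (hQa : Q.valuation K a = 1) (hQb : Q.valuation K b = 1) (hQc : Q.valuation K c = 1)
    (g₁ : MirG p Q a b) (g₂ : MirG p Q b c) (g₃ : MirG p Q a c) :
    p ^ 2 ∣ Nat.card (𝓞 K ⧸ Q.asIdeal) ^ (p - 1) - 1 := by
  have hp : p.Prime := Fact.out
  have : NeZero p := ⟨hp.ne_zero⟩
  have hodd : Odd p := hp.odd_of_ne_two hp2
  set L := CyclotomicField p K with hL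
  obtain ⟨w, e, he, hlie, hval⟩ := exists_above K L Q
  set ζ : L := IsCyclotomicExtension.zeta p K L with hζdef
  have hζ : IsPrimitiveRoot ζ p := IsCyclotomicExtension.zeta_spec p K L
  have hζ0 : ζ ≠ 0 := hζ.ne_zero hp.ne_zero
  have hwp : (p : 𝓞 L) ∉ w.asIdeal := by
    intro hmem
    rw [natCast_mem_iff] at hmem
    rw [natCast_mem_iff] at hQp
    have h1 : w.valuation L (p : L) = Q.valuation K (p : K) ^ e := by
      have hcast : algebraMap K L (p : K) = (p : L) := map_natCast _ p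
      rw [← hval (p : K), hcast]
    have h2 : Q.valuation K (p : K) = 1 := le_antisymm (sp_natCast_le Q p) (not_lt.1 hQp)
    rw [h1, h2, one_pow] at hmem
    exact lt_irrefl _ hmem
  have hz := gq_val_zeta w p ζ hζ
  have hsab : a + b ≠ 0 := by
    intro h0
    have e1 : a ^ p = -b ^ p := by rw [eq_neg_of_add_eq_zero_left h0, hodd.neg_pow]
    rw [e1, neg_add_cancel, zero_add] at h
    exact hc ((pow_eq_zero_iff hp.ne_zero).1 h)
  have hsac : a + c ≠ 0 := by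
    intro h0
    have e1 : a ^ p = -c ^ p := by rw [eq_neg_of_add_eq_zero_left h0, hodd.neg_pow]
    rw [e1] at h
    have h3 : b ^ p = 0 := by linear_combination h
    exact hb ((pow_eq_zero_iff hp.ne_zero).1 h3)
  obtain ⟨B, hB⟩ := fin_a p K (L := L) hp2 hu hcl ζ hζ a b c ha hb hc h hloc (2 * z₁) (-2 * z₃) z₂
    (k + z₁ - z₃) (by
      intro v hv
      have e1 : ((2 * z₁ : ℤ) : K) * (a / (a + b)) + ((-2 * z₃ : ℤ) : K) * (a / (a + c)) +
          (z₂ : K) * ((b - c) / (b + c)) - ((k + z₁ - z₃ : ℤ) : K) =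
          z₁ * ((a - b) / (a + b)) + z₂ * ((b - c) / (b + c)) + z₃ * ((c - a) / (c + a)) - k := by
        have e2 : (a - b) / (a + b) = 2 * (a / (a + b)) - 1 := by field_simp; ring
        have e3 : (c - a) / (c + a) = 1 - 2 * (a / (a + c)) := by
          rw [add_comm c a]; field_simp; ring
        rw [e2, e3]
        push_cast
        ring
      rw [e1]
      exact hrel v hv)
  obtain ⟨u1, u2, u3⟩ := mir_good p K (L := L) hp2 hu ζ hζ w hwp Q e he hval a b hQa hQb g₁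
  obtain ⟨v1, v2, v3⟩ := mir_good p K (L := L) hp2 hu ζ hζ w hwp Q e he hval b c hQb hQc g₂
  obtain ⟨t1, t2, t3⟩ := mir_good p K (L := L) hp2 hu ζ hζ w hwp Q e he hval a c hQa hQc g₃
  have s1 := mir_sq p ζ hζ w _ _ u1 u2 u3
  have s3 := mir_sq p ζ hζ w _ _ t1 t2 t3
  set a' := algebraMap K L a with ha'
  set b' := algebraMap K L b with hb'
  set c' := algebraMap K L c with hc'
  -- `ζ ^ (-k)` times a `p`-th power modulo `w`
  have hkey : MirP w p (B ^ p * ζ ^ k) := by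
    have e1 : B ^ p * ζ ^ k = (Gam p ζ a' b' ^ 2 * ζ) ^ z₁ * (Gam p ζ a' c' ^ 2 * ζ) ^ (-z₃) *
        (Gam p ζ b' c' / Gam p ζ c' b') ^ z₂ := by
      rw [← hB, mul_zpow, mul_zpow]
      have e2 : Gam p ζ a' b' ^ (2 * z₁) = (Gam p ζ a' b' ^ 2) ^ z₁ := by
        rw [zpow_mul, zpow_ofNat]
      have e3 : Gam p ζ a' c' ^ (-2 * z₃) = (Gam p ζ a' c' ^ 2) ^ (-z₃) := by
        rw [show -2 * z₃ = 2 * (-z₃) by ring, zpow_mul, zpow_ofNat]
      have e4 : ζ ^ (2 * z₁ + -2 * z₃ - (k + z₁ - z₃)) * ζ ^ k = ζ ^ z₁ * ζ ^ (-z₃) := by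
        rw [← zpow_add₀ hζ0, ← zpow_add₀ hζ0]
        congr 1
        ring
      rw [e2, e3]
      calc _ = (Gam p ζ a' b' ^ 2) ^ z₁ * (Gam p ζ a' c' ^ 2) ^ (-z₃) *
            (Gam p ζ b' c' / Gam p ζ c' b') ^ z₂ *
            (ζ ^ (2 * z₁ + -2 * z₃ - (k + z₁ - z₃)) * ζ ^ k) := by ring
        _ = _ := by rw [e4]; ring
    rw [e1]
    exact MirP_mul (MirP_mul (MirP_zpow s1 _) (MirP_zpow s3 _)) (MirP_zpow v3 _)
  have hBv : w.valuation L B = 1 := by
    have h5 := MirP_val hkey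
    rw [map_mul, map_zpow₀, hz, one_zpow, mul_one, map_pow] at h5
    exact (pow_eq_one_iff.1 h5).resolve_right hp.ne_zero
  have hB0 : B ≠ 0 := by intro h0; rw [h0, map_zero] at hBv; exact zero_ne_one hBv
  have hζk : MirP w p (ζ ^ k) := by
    have e1 : ζ ^ k = (B ^ p * ζ ^ k) * (B⁻¹) ^ p := by
      rw [inv_pow, mul_right_comm, mul_inv_cancel₀ (pow_ne_zero _ hB0), one_mul]
    rw [e1]
    exact MirP_mul hkey (MirP_pow_self (by rw [map_inv₀, hBv, inv_one]))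
  obtain ⟨k', m, hkm⟩ : ∃ k' m : ℤ, k * k' = 1 + p * m := by
    have hcop : IsCoprime (p : ℤ) k :=
      (Nat.prime_iff_prime_int.mp hp).coprime_iff_not_dvd.2 hk
    obtain ⟨u, v, huv⟩ := hcop
    refine ⟨v, -u, ?_⟩
    linarith
  have hfin := MirP_zpow hζk k'
  have e4 : (ζ ^ k) ^ k' = ζ := by
    rw [← zpow_mul, hkm, zpow_add₀ hζ0, zpow_one, zpow_mul, zpow_natCast, hζ.pow_eq_one, one_zpow,
      mul_one]
  rw [e4] at hfin
  obtain ⟨D, _, hD⟩ := hfin
  have hres := res_core p ζ hζ w hwp D (by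
    rw [← Valuation.map_neg, neg_sub]
    exact hD.2)
  have : IsGalois K L := IsCyclotomicExtension.isGalois {p} K L
  have htow := card_tower K L Q w hlie
  rw [finrank_cyc p K L hu] at htow
  exact hres.trans htow

end H91SP
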