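import Pool.Agent.H91.SP.MirB
import Pool.Agent.H91.SP.FinQuad

/-!
# Project SP, module Mir: the criteria of Wieferich and Mirimanoff over quadratic fields

`mir_rel`: with `r = b / a`, `A ∈ 𝓞 K` close to `r` at all `v ∣ p`, `A² - T A + N = 0`:
`(b-c)/(b+c) = -(1+2r)`, `(c-a)/(c+a) = 1 + 2/r`, `(a-b)/(a+b) = (1-r)/(1+r)` modulo `v`, and
`N (1 + 2/r) + (1 + 2r) = N + 2T + 1`, `(1+T+N) (1-r)/(1+r) + (1+2r) = 2 + T - N`. If `p` divides both
right sides, then `T = -1`, `N = 1` modulo `p` (`p ≠ 3`), the exceptional case.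
-/

namespace H91SP

open NumberField IsDedekindDomain

/-- The exceptional case: `b / a` is at all places above `p` close to an algebraic integer `A` with
`A² - T A + N = 0`, `T = -1`, `N = 1` modulo `p`. -/
def MirE (p : ℕ) (K : Type*) [Field K] [NumberField K] (r : K) : Prop :=
  ∃ (A : 𝓞 K) (T N : ℤ), A ^ 2 - (T : 𝓞 K) * A + (N : 𝓞 K) = 0 ∧ N = Algebra.norm ℤ A ∧
    (p : ℤ) ∣ T + 1 ∧ (p : ℤ) ∣ N - 1 ∧
    ∀ v : HeightOneSpectrum (𝓞 K), (p : 𝓞 K) ∈ v.asIdeal →
      v.valuation K ((algebraMap (𝓞 K) K A) - r) < 1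

theorem mir_rel (p : ℕ) [Fact p.Prime] (hp3 : p ≠ 3) (K : Type*) [Field K] [NumberField K]
    (hK : Module.finrank ℚ K = 2) (a b c : K)
    (h : a ^ p + b ^ p + c ^ p = 0)
    (hloc : ∀ v : HeightOneSpectrum (𝓞 K), (p : 𝓞 K) ∈ v.asIdeal →
      v.valuation K a = 1 ∧ v.valuation K b = 1 ∧ v.valuation K c = 1) :
    (∃ z₁ z₂ z₃ k : ℤ, ¬ (p : ℤ) ∣ k ∧
      ∀ v : HeightOneSpectrum (𝓞 K), (p : 𝓞 K) ∈ v.asIdeal →
      v.valuation K (z₁ * ((a - b) / (a + b)) + z₂ * ((b - c) / (b + c)) +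
        z₃ * ((c - a) / (c + a)) - k) < 1) ∨ MirE p K (b / a) := by
  have hp : p.Prime := Fact.out
  have hsum : ∀ v : HeightOneSpectrum (𝓞 K), (p : 𝓞 K) ∈ v.asIdeal →
      v.valuation K (a + b + c) < 1 := fun v hv =>
    val_sum_lt p v hv a b c (hloc v hv).1.le (hloc v hv).2.1.le (hloc v hv).2.2.le h
  have hr : ∀ v : HeightOneSpectrum (𝓞 K), (p : 𝓞 K) ∈ v.asIdeal →
      v.valuation K (b / a) = 1 := by
    intro v hv
    rw [map_div₀, (hloc v hv).1, (hloc v hv).2.1, div_one]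
  obtain ⟨A, hA⟩ := exists_approx_int p (b / a) (fun v hv => (hr v hv).le)
  obtain ⟨T, hT⟩ := quad_eq hK A
  set N : ℤ := Algebra.norm ℤ A with hN
  set r := b / a with hrdef
  have hTK : (algebraMap (𝓞 K) K A) ^ 2 - (T : K) * (algebraMap (𝓞 K) K A) + (N : K) = 0 := by
    have := congrArg (algebraMap (𝓞 K) K) hT
    simpa using this
  -- the quadratic polynomial at `r`
  have hq : ∀ v : HeightOneSpectrum (𝓞 K), (p : 𝓞 K) ∈ v.asIdeal →
      v.valuation K (r ^ 2 - T * r + N) < 1 := by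
    intro v hv
    have e1 : r ^ 2 - T * r + N = -((algebraMap (𝓞 K) K A - r) * (algebraMap (𝓞 K) K A + r - T)) := by
      linear_combination hTK
    rw [e1, Valuation.map_neg, map_mul]
    refine sp_mul_lt' (hA v hv) ?_
    exact Valuation.map_sub_le _ (Valuation.map_add_le _ (v.valuation_le_one _) (hr v hv).le)
      (sp_intCast_le v T)
  -- the three quotients
  have hunits : ∀ v : HeightOneSpectrum (𝓞 K), (p : 𝓞 K) ∈ v.asIdeal →
      a ≠ 0 ∧ b ≠ 0 ∧ v.valuation K (a + b) = 1 ∧ v.valuation K (b + c) = 1 ∧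
        v.valuation K (c + a) = 1 := by
    intro v hv
    obtain ⟨va, vb, vc⟩ := hloc v hv
    have hs := hsum v hv
    refine ⟨?_, ?_, ?_, ?_, ?_⟩
    · rintro rfl; rw [map_zero] at va; exact zero_ne_one va
    · rintro rfl; rw [map_zero] at vb; exact zero_ne_one vb
    · have h3 : a + b = -c + (a + b + c) := by ring
      rw [h3, Valuation.map_add_eq_of_lt_left, Valuation.map_neg, vc]
      rw [Valuation.map_neg, vc]; exact hs
    · have h3 : b + c = -a + (a + b + c) := by ring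
      rw [h3, Valuation.map_add_eq_of_lt_left, Valuation.map_neg, va]
      rw [Valuation.map_neg, va]; exact hs
    · have h3 : c + a = -b + (a + b + c) := by ring
      rw [h3, Valuation.map_add_eq_of_lt_left, Valuation.map_neg, vb]
      rw [Valuation.map_neg, vb]; exact hs
  have h2le : ∀ v : HeightOneSpectrum (𝓞 K), v.valuation K (2 : K) ≤ 1 := fun v => by
    have := sp_natCast_le v 2
    simpa using this
  have he2 : ∀ v : HeightOneSpectrum (𝓞 K), (p : 𝓞 K) ∈ v.asIdeal →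
      v.valuation K ((b - c) / (b + c) + (1 + 2 * r)) < 1 := by
    intro v hv
    obtain ⟨va, vb, vc⟩ := hloc v hv
    obtain ⟨a0, b0, v1, v2, v3⟩ := hunits v hv
    have n2 : b + c ≠ 0 := by intro h0; rw [h0, map_zero] at v2; exact zero_ne_one v2
    have e1 : (b - c) / (b + c) + (1 + 2 * r) = 2 * b / (a * (b + c)) * (a + b + c) := by
      rw [hrdef]; field_simp; ring
    rw [e1, map_mul, map_div₀, map_mul, map_mul, va, vb, v2, mul_one, mul_one, div_one]
    exact sp_mul_lt (h2le v) (hsum v hv)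
  have he3 : ∀ v : HeightOneSpectrum (𝓞 K), (p : 𝓞 K) ∈ v.asIdeal →
      v.valuation K ((c - a) / (c + a) - (1 + 2 / r)) < 1 := by
    intro v hv
    obtain ⟨va, vb, vc⟩ := hloc v hv
    obtain ⟨a0, b0, v1, v2, v3⟩ := hunits v hv
    have n3 : c + a ≠ 0 := by intro h0; rw [h0, map_zero] at v3; exact zero_ne_one v3
    have e1 : (c - a) / (c + a) - (1 + 2 / r) = -(2 * a / (b * (c + a)) * (a + b + c)) := by
      rw [hrdef]; field_simp; ring
    rw [e1, Valuation.map_neg, map_mul, map_div₀, map_mul, map_mul, va, vb, v3, mul_one, mul_one,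
      div_one]
    exact sp_mul_lt (h2le v) (hsum v hv)
  by_cases hk1 : (p : ℤ) ∣ N + 2 * T + 1
  · by_cases hk2 : (p : ℤ) ∣ 2 + T - N
    · right
      have h3 : (p : ℤ) ∣ 3 * (T + 1) := by
        have := dvd_add hk1 hk2
        have e1 : N + 2 * T + 1 + (2 + T - N) = 3 * (T + 1) := by ring
        rwa [e1] at this
      have hpp : Prime (p : ℤ) := Nat.prime_iff_prime_int.1 hp
      have hT1 : (p : ℤ) ∣ T + 1 := by
        rcases hpp.dvd_or_dvd h3 with h4 | h4
        · exfalso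
          have h5 : p ∣ 3 := by exact_mod_cast h4
          exact hp3 ((Nat.prime_dvd_prime_iff_eq hp Nat.prime_three).1 h5)
        · exact h4
      refine ⟨A, T, N, hT, rfl, hT1, ?_, hA⟩
      have e1 : N - 1 = (T + 1) - (2 + T - N) := by ring
      rw [e1]
      exact dvd_sub hT1 hk2
    · left
      refine ⟨1 + T + N, -1, 0, 2 + T - N, hk2, fun v hv => ?_⟩
      obtain ⟨va, vb, vc⟩ := hloc v hv
      obtain ⟨a0, b0, v1, v2, v3⟩ := hunits v hv
      have n1 : a + b ≠ 0 := by intro h0; rw [h0, map_zero] at v1; exact zero_ne_one v1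
      have hr1 : v.valuation K (1 + r) = 1 := by
        have e1 : 1 + r = (a + b) / a := by rw [hrdef]; field_simp
        rw [e1, map_div₀, v1, va, div_one]
      have nr : 1 + r ≠ 0 := by intro h0; rw [h0, map_zero] at hr1; exact zero_ne_one hr1
      have e0 : (a - b) / (a + b) = (1 - r) / (1 + r) := by
        rw [hrdef]; field_simp
      have e1 : ((1 + T + N : ℤ) : K) * ((a - b) / (a + b)) + ((-1 : ℤ) : K) * ((b - c) / (b + c)) +
          ((0 : ℤ) : K) * ((c - a) / (c + a)) - ((2 + T - N : ℤ) : K) =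
          2 / (1 + r) * (r ^ 2 - T * r + N) - ((b - c) / (b + c) + (1 + 2 * r)) := by
        rw [e0]
        have e2 : (1 - r) / (1 + r) = 2 / (1 + r) - 1 := by field_simp; ring
        have e3 : 2 / (1 + r) * (r ^ 2 - T * r + N) = 2 * (r - 1 - T) +
            2 / (1 + r) * (1 + T + N) := by field_simp; ring
        rw [e2, e3]
        push_cast
        ring
      rw [e1]
      refine Valuation.map_sub_lt _ ?_ (he2 v hv)
      rw [map_mul, map_div₀, hr1, div_one]
      exact sp_mul_lt (h2le v) (hq v hv)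
  · left
    refine ⟨0, -1, N, N + 2 * T + 1, hk1, fun v hv => ?_⟩
    obtain ⟨a0, b0, v1, v2, v3⟩ := hunits v hv
    have hr0 : r ≠ 0 := by rw [hrdef]; exact div_ne_zero b0 a0
    have e1 : ((0 : ℤ) : K) * ((a - b) / (a + b)) + ((-1 : ℤ) : K) * ((b - c) / (b + c)) +
        (N : K) * ((c - a) / (c + a)) - ((N + 2 * T + 1 : ℤ) : K) =
        2 / r * (r ^ 2 - T * r + N) - ((b - c) / (b + c) + (1 + 2 * r)) +
          N * ((c - a) / (c + a) - (1 + 2 / r)) := by
      have e3 : 2 / r * (r ^ 2 - T * r + N) = 2 * (r - T) + N * (2 / r) := by field_simp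
      rw [e3]
      push_cast
      ring
    rw [e1]
    refine Valuation.map_add_lt _ (Valuation.map_sub_lt _ ?_ (he2 v hv)) ?_
    · rw [map_mul, map_div₀, hr v hv, div_one]
      exact sp_mul_lt (h2le v) (hq v hv)
    · rw [map_mul]
      exact sp_mul_lt (sp_intCast_le v N) (he3 v hv)

/-- `card (𝓞 K / Q)` lies in `Q` -/
theorem mir_card_mem {K : Type*} [Field K] [NumberField K] (Q : HeightOneSpectrum (𝓞 K)) :
    ((Nat.card (𝓞 K ⧸ Q.asIdeal) : ℕ) : 𝓞 K) ∈ Q.asIdeal := by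
  have hfin : Finite (𝓞 K ⧸ Q.asIdeal) := Ideal.finiteQuotientOfFreeOfNeBot Q.asIdeal Q.ne_bot
  have := Ideal.absNorm_mem Q.asIdeal
  rwa [Ideal.absNorm_apply, Submodule.cardQuot_apply] at this

theorem mir_not_mem (p : ℕ) {K : Type*} [Field K] [NumberField K] (Q : HeightOneSpectrum (𝓞 K))
    (hcop : p.Coprime (Nat.card (𝓞 K ⧸ Q.asIdeal))) : (p : 𝓞 K) ∉ Q.asIdeal := by
  intro hmem
  have h1 := mir_card_mem Q
  have h3 : IsCoprime (p : ℤ) ((Nat.card (𝓞 K ⧸ Q.asIdeal) : ℕ) : ℤ) :=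
    Nat.isCoprime_iff_coprime.2 hcop
  have h4 := h3.map (algebraMap ℤ (𝓞 K))
  simp only [algebraMap_int_eq, eq_intCast, Int.cast_natCast] at h4
  obtain ⟨x, y, hxy⟩ := h4
  apply Q.isPrime.ne_top
  rw [Ideal.eq_top_iff_one, ← hxy]
  exact Q.asIdeal.add_mem (Q.asIdeal.mul_mem_left _ hmem) (Q.asIdeal.mul_mem_left _ h1)

/-- residues -/
theorem mir_residues (p : ℕ) [Fact p.Prime] {K : Type*} [Field K] [NumberField K]
    (Q : HeightOneSpectrum (𝓞 K)) (u v : K) (hu : Q.valuation K u = 1) (hv : Q.valuation K v = 1)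
    (h : 1 + u ^ p + v ^ p = 0) :
    ∃ r s : 𝓞 K, Q.valuation K (algebraMap (𝓞 K) K r - u) < 1 ∧
      Q.valuation K (algebraMap (𝓞 K) K s - v) < 1 ∧ r ∉ Q.asIdeal ∧ s ∉ Q.asIdeal ∧
      1 + r ^ p + s ^ p ∈ Q.asIdeal := by
  obtain ⟨r, hr⟩ := Q.exists_valuation_sub_lt_of_integer (K := K) (x := u) hu.le 1
  obtain ⟨s, hs⟩ := Q.exists_valuation_sub_lt_of_integer (K := K) (x := v) hv.le 1
  have hr' : Q.valuation K (algebraMap (𝓞 K) K r - u) < 1 := by simpa using hr
  have hs' : Q.valuation K (algebraMap (𝓞 K) K s - v) < 1 := by simpa using hs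
  have hunit : ∀ (t : 𝓞 K) (x : K), Q.valuation K x = 1 →
      Q.valuation K (algebraMap (𝓞 K) K t - x) < 1 → t ∉ Q.asIdeal := by
    intro t x hx ht hmem
    rw [← HeightOneSpectrum.valuation_lt_one_iff_mem (K := K)] at hmem
    have e1 : x = algebraMap (𝓞 K) K t - (algebraMap (𝓞 K) K t - x) := by ring
    have h1 : Q.valuation K x < 1 := by
      conv_lhs => rw [e1]
      exact Valuation.map_sub_lt _ hmem ht
    rw [hx] at h1
    exact lt_irrefl _ h1
  refine ⟨r, s, hr', hs', hunit r u hu hr', hunit s v hv hs', ?_⟩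
  rw [← HeightOneSpectrum.valuation_lt_one_iff_mem (K := K)]
  have e1 : algebraMap (𝓞 K) K (1 + r ^ p + s ^ p) =
      (algebraMap (𝓞 K) K r ^ p - u ^ p) + (algebraMap (𝓞 K) K s ^ p - v ^ p) := by
    rw [map_add, map_add, map_one, map_pow, map_pow]
    linear_combination h
  change Q.valuation K (algebraMap (𝓞 K) K (1 + r ^ p + s ^ p)) < 1
  rw [e1]
  exact Valuation.map_add_lt _
    (sp_pow_sub_pow _ _ _ (Q.valuation_le_one r) hu.le hr' p)
    (sp_pow_sub_pow _ _ _ (Q.valuation_le_one s) hv.le hs' p)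

theorem mir_pow_card {k : Type*} [Field k] (n : ℕ) (hn : Nat.card k = n + 1) (hfin : Finite k)
    (x : k) (hx : x ≠ 0) : x ^ n = 1 := by
  have : Fintype k := Fintype.ofFinite k
  have h1 := FiniteField.pow_card_sub_one_eq_one x hx
  rw [← Nat.card_eq_fintype_card, hn, Nat.add_sub_cancel] at h1
  exact h1

theorem mir_three_field {k : Type*} [Field k] (hk : Nat.card k = 3) (h3 : (3 : k) = 0)
    (p : ℕ) (hodd : Odd p) (r s : k) (hr : r ≠ 0) (hs : s ≠ 0)
    (h : 1 + r ^ p + s ^ p = 0) : r = 1 ∧ s = 1 := by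
  have hfin : Finite k := Nat.finite_of_card_ne_zero (by rw [hk]; norm_num)
  have hp1 : ∀ x : k, x ≠ 0 → x ^ p = x := by
    intro x hx
    obtain ⟨m, rfl⟩ := hodd
    rw [pow_succ, pow_mul, mir_pow_card 2 hk hfin x hx, one_pow, one_mul]
  rw [hp1 r hr, hp1 s hs] at h
  have hr2 := mir_pow_card 2 hk hfin r hr
  have hs2 := mir_pow_card 2 hk hfin s hs
  have hr1 : r = 1 := by
    have e1 : s = -1 - r := by linear_combination h
    rw [e1] at hs2
    linear_combination (-1 : k) * hs2 + hr2 + r * h3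
  refine ⟨hr1, ?_⟩
  rw [hr1] at h
  linear_combination h - h3

theorem mir_four_field {k : Type*} [Field k] (hk : Nat.card k = 4) (h4 : (4 : k) = 0)
    (p : ℕ) (hp : p.Prime) (r s : k) (hr : r ≠ 0) (hs : s ≠ 0)
    (h : 1 + r ^ p + s ^ p = 0) : p ≠ 3 ∧ (2 : k) = 0 ∧ 1 + r + r ^ 2 = 0 ∧ 1 + s + s ^ 2 = 0 ∧
      r ^ 2 + r * s + s ^ 2 = 0 := by
  have hfin : Finite k := Nat.finite_of_card_ne_zero (by rw [hk]; norm_num)
  have h2 : (2 : k) = 0 := by
    have e1 : (2 : k) * 2 = 0 := by linear_combination h4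
    rcases mul_eq_zero.1 e1 with h5 | h5 <;> exact h5
  have hr3 := mir_pow_card 3 hk hfin r hr
  have hs3 := mir_pow_card 3 hk hfin s hs
  have hX3 : (r ^ p) ^ 3 = 1 := by rw [← pow_mul, mul_comm, pow_mul, hr3, one_pow]
  have hY3 : (s ^ p) ^ 3 = 1 := by rw [← pow_mul, mul_comm, pow_mul, hs3, one_pow]
  have hX0 : r ^ p ≠ 0 := pow_ne_zero _ hr
  have hY0 : s ^ p ≠ 0 := pow_ne_zero _ hs
  have hX : 1 + r ^ p + (r ^ p) ^ 2 = 0 := by
    have e1 : s ^ p = -1 - r ^ p := by linear_combination h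
    rw [e1] at hY3
    have e2 : r ^ p * (1 + r ^ p + (r ^ p) ^ 2) = 0 := by
      linear_combination (-1 : k) * hY3 - (1 + r ^ p + (r ^ p) ^ 2) * h2
    exact (mul_eq_zero.1 e2).resolve_left hX0
  have hY : 1 + s ^ p + (s ^ p) ^ 2 = 0 := by
    have e1 : r ^ p = -1 - s ^ p := by linear_combination h
    rw [e1] at hX
    linear_combination hX
  have hp3 : p ≠ 3 := by
    rintro rfl
    rw [hr3, hs3] at h
    have h5 : (1 : k) = 0 := by linear_combination h - h2
    exact one_ne_zero h5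
  have key : ∀ x : k, x ^ 3 = 1 → 1 + x ^ p + (x ^ p) ^ 2 = 0 → 1 + x + x ^ 2 = 0 := by
    intro x hx3 hx
    have hmod : p % 3 = 1 ∨ p % 3 = 2 := by
      have h6 : p % 3 ≠ 0 := by
        intro h7
        exact hp3 ((Nat.prime_dvd_prime_iff_eq Nat.prime_three hp).1
          (Nat.dvd_of_mod_eq_zero h7)).symm
      omega
    rcases hmod with h6 | h6
    · have e1 : x ^ p = x := by
        rw [← Nat.div_add_mod p 3, h6, pow_add, pow_mul, hx3, one_pow, one_mul, pow_one]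
      rw [e1] at hx
      exact hx
    · have e1 : x ^ p = x ^ 2 := by
        rw [← Nat.div_add_mod p 3, h6, pow_add, pow_mul, hx3, one_pow, one_mul]
      rw [e1] at hx
      linear_combination hx - x * hx3
  have hr' := key r hr3 hX
  have hs' := key s hs3 hY
  refine ⟨hp3, h2, hr', hs', ?_⟩
  have hne : r ≠ s := by
    rintro rfl
    have h5 : (1 : k) = 0 := by linear_combination h - r ^ p * h2
    exact one_ne_zero h5
  have e1 : (s - r) * (s + r + 1) = 0 := by linear_combination hs' - hr'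
  have e2 : s + r + 1 = 0 := (mul_eq_zero.1 e1).resolve_left (sub_ne_zero.2 hne.symm)
  linear_combination hr' + (s - 1) * e2

/-- the three pairs are good at a prime with `3` or `4` residue classes -/
theorem mir_good_of_card (p : ℕ) [Fact p.Prime] (hp2 : p ≠ 2) {K : Type*} [Field K] [NumberField K]
    (Q : HeightOneSpectrum (𝓞 K)) (hcard : Nat.card (𝓞 K ⧸ Q.asIdeal) = 3 ∨
      Nat.card (𝓞 K ⧸ Q.asIdeal) = 4) (a b c : K) (ha : Q.valuation K a = 1)
    (hb : Q.valuation K b = 1) (hc : Q.valuation K c = 1) (h : a ^ p + b ^ p + c ^ p = 0) :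
    MirG p Q a b ∧ MirG p Q b c ∧ MirG p Q a c ∧
      (Nat.card (𝓞 K ⧸ Q.asIdeal) = 4 → p ≠ 3) := by
  have hp : p.Prime := Fact.out
  have hodd : Odd p := hp.odd_of_ne_two hp2
  have ha0 : a ≠ 0 := by rintro rfl; rw [map_zero] at ha; exact zero_ne_one ha
  set u := b / a with hu
  set v := c / a with hv
  have hb' : b = a * u := by rw [hu]; field_simp
  have hc' : c = a * v := by rw [hv]; field_simp
  have hu1 : Q.valuation K u = 1 := by rw [hu, map_div₀, ha, hb, div_one]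
  have hv1 : Q.valuation K v = 1 := by rw [hv, map_div₀, ha, hc, div_one]
  have huv : 1 + u ^ p + v ^ p = 0 := by
    have e1 : a ^ p * (1 + u ^ p + v ^ p) = 0 := by
      rw [← h, hb', hc', mul_pow, mul_pow]; ring
    exact (mul_eq_zero.1 e1).resolve_left (pow_ne_zero _ ha0)
  obtain ⟨r, s, hru, hsv, hr, hs, hrs⟩ := mir_residues p Q u v hu1 hv1 huv
  have hmax : Q.asIdeal.IsMaximal := Q.isMaximal
  let fld : Field (𝓞 K ⧸ Q.asIdeal) := Ideal.Quotient.field Q.asIdeal
  have hR : Ideal.Quotient.mk Q.asIdeal r ≠ 0 := by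
    rw [Ne, Ideal.Quotient.eq_zero_iff_mem]; exact hr
  have hS : Ideal.Quotient.mk Q.asIdeal s ≠ 0 := by
    rw [Ne, Ideal.Quotient.eq_zero_iff_mem]; exact hs
  have hRS : 1 + Ideal.Quotient.mk Q.asIdeal r ^ p + Ideal.Quotient.mk Q.asIdeal s ^ p = 0 := by
    rw [← map_pow, ← map_pow, ← map_one (Ideal.Quotient.mk Q.asIdeal), ← map_add, ← map_add,
      Ideal.Quotient.eq_zero_iff_mem]
    exact hrs
  have hcm : Ideal.Quotient.mk Q.asIdeal ((Nat.card (𝓞 K ⧸ Q.asIdeal) : ℕ) : 𝓞 K) = 0 := by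
    rw [Ideal.Quotient.eq_zero_iff_mem]; exact mir_card_mem Q
  -- transfer of a congruence
  have tr : ∀ (x : 𝓞 K) (y : K), Ideal.Quotient.mk Q.asIdeal x = 0 →
      Q.valuation K (y - algebraMap (𝓞 K) K x) < 1 → Q.valuation K y < 1 := by
    intro x y hx hy
    rw [Ideal.Quotient.eq_zero_iff_mem, ← HeightOneSpectrum.valuation_lt_one_iff_mem (K := K)] at hx
    have e1 : y = (y - algebraMap (𝓞 K) K x) + algebraMap (𝓞 K) K x := by ring
    rw [e1]
    exact Valuation.map_add_lt _ hy hx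
  have hru' : Q.valuation K (u - algebraMap (𝓞 K) K r) < 1 := by
    rw [← Valuation.map_neg, neg_sub]; exact hru
  have hsv' : Q.valuation K (v - algebraMap (𝓞 K) K s) < 1 := by
    rw [← Valuation.map_neg, neg_sub]; exact hsv
  have hr1 := Q.valuation_le_one (K := K) r
  have hs1 := Q.valuation_le_one (K := K) s
  have one_le : Q.valuation K (1 : K) ≤ 1 := by simp
  rcases hcard with hcard | hcard
  · rw [hcard] at hcm
    obtain ⟨h1, h2⟩ := mir_three_field hcard (by
      rw [map_natCast] at hcm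
      exact_mod_cast hcm) p hodd _ _ hR hS hRS
    have hu2 : Q.valuation K (1 - u) < 1 := by
      refine tr (1 - r) (1 - u) (by rw [map_sub, map_one, h1, sub_self]) ?_
      have e1 : 1 - u - algebraMap (𝓞 K) K (1 - r) = -(u - algebraMap (𝓞 K) K r) := by
        rw [map_sub, map_one]; ring
      rw [e1, Valuation.map_neg]; exact hru'
    have hv2 : Q.valuation K (1 - v) < 1 := by
      refine tr (1 - s) (1 - v) (by rw [map_sub, map_one, h2, sub_self]) ?_
      have e1 : 1 - v - algebraMap (𝓞 K) K (1 - s) = -(v - algebraMap (𝓞 K) K s) := by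
        rw [map_sub, map_one]; ring
      rw [e1, Valuation.map_neg]; exact hsv'
    refine ⟨Or.inl ?_, Or.inl ?_, Or.inl ?_, fun h4 => by rw [hcard] at h4; omega⟩
    · have e1 : a - b = a * (1 - u) := by rw [hb']; ring
      rw [e1, map_mul, ha, one_mul]; exact hu2
    · have e1 : b - c = a * ((1 - v) - (1 - u)) := by rw [hb', hc']; ring
      rw [e1, map_mul, ha, one_mul]; exact Valuation.map_sub_lt _ hv2 hu2
    · have e1 : a - c = a * (1 - v) := by rw [hc']; ring
      rw [e1, map_mul, ha, one_mul]; exact hv2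
  · rw [hcard] at hcm
    obtain ⟨hp3, h2, h3, h4, h5⟩ := mir_four_field hcard (by
      rw [map_natCast] at hcm
      exact_mod_cast hcm) p hp _ _ hR hS hRS
    have hQ2 : Q.valuation K (2 : K) < 1 := by
      refine tr 2 2 (by rw [map_ofNat]; exact h2) ?_
      rw [map_ofNat, sub_self, map_zero]
      exact zero_lt_one
    have hle : Q.valuation K (algebraMap (𝓞 K) K r + u + 1) ≤ 1 :=
      Valuation.map_add_le _ (Valuation.map_add_le _ hr1 hu1.le) one_le
    have hle' : Q.valuation K (algebraMap (𝓞 K) K s + v + 1) ≤ 1 :=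
      Valuation.map_add_le _ (Valuation.map_add_le _ hs1 hv1.le) one_le
    have hu2 : Q.valuation K (1 + u + u ^ 2) < 1 := by
      refine tr (1 + r + r ^ 2) _ (by rw [map_add, map_add, map_one, map_pow]; exact h3) ?_
      have e1 : 1 + u + u ^ 2 - algebraMap (𝓞 K) K (1 + r + r ^ 2) =
          (u - algebraMap (𝓞 K) K r) * (algebraMap (𝓞 K) K r + u + 1) := by
        rw [map_add, map_add, map_one, map_pow]; ring
      rw [e1, map_mul]
      exact sp_mul_lt' hru' hle
    have hv2 : Q.valuation K (1 + v + v ^ 2) < 1 := by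
      refine tr (1 + s + s ^ 2) _ (by rw [map_add, map_add, map_one, map_pow]; exact h4) ?_
      have e1 : 1 + v + v ^ 2 - algebraMap (𝓞 K) K (1 + s + s ^ 2) =
          (v - algebraMap (𝓞 K) K s) * (algebraMap (𝓞 K) K s + v + 1) := by
        rw [map_add, map_add, map_one, map_pow]; ring
      rw [e1, map_mul]
      exact sp_mul_lt' hsv' hle'
    have huv2 : Q.valuation K (u ^ 2 + u * v + v ^ 2) < 1 := by
      refine tr (r ^ 2 + r * s + s ^ 2) _ (by
        rw [map_add, map_add, map_pow, map_pow, map_mul]; exact h5) ?_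
      have e1 : u ^ 2 + u * v + v ^ 2 - algebraMap (𝓞 K) K (r ^ 2 + r * s + s ^ 2) =
          (u - algebraMap (𝓞 K) K r) * (algebraMap (𝓞 K) K r + u + v) +
          (v - algebraMap (𝓞 K) K s) * (algebraMap (𝓞 K) K s + v + algebraMap (𝓞 K) K r) := by
        rw [map_add, map_add, map_pow, map_pow, map_mul]; ring
      rw [e1]
      refine Valuation.map_add_lt _ ?_ ?_
      · rw [map_mul]
        exact sp_mul_lt' hru' (Valuation.map_add_le _ (Valuation.map_add_le _ hr1 hu1.le) hv1.le)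
      · rw [map_mul]
        exact sp_mul_lt' hsv' (Valuation.map_add_le _ (Valuation.map_add_le _ hs1 hv1.le) hr1)
    refine ⟨Or.inr ⟨hp3, hQ2, ?_⟩, Or.inr ⟨hp3, hQ2, ?_⟩, Or.inr ⟨hp3, hQ2, ?_⟩, fun _ => hp3⟩
    · have e1 : a ^ 2 + a * b + b ^ 2 = a ^ 2 * (1 + u + u ^ 2) := by rw [hb']; ring
      rw [e1, map_mul, map_pow, ha, one_pow, one_mul]; exact hu2
    · have e1 : b ^ 2 + b * c + c ^ 2 = a ^ 2 * (u ^ 2 + u * v + v ^ 2) := by rw [hb', hc']; ring
      rw [e1, map_mul, map_pow, ha, one_pow, one_mul]; exact huv2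
    · have e1 : a ^ 2 + a * c + c ^ 2 = a ^ 2 * (1 + v + v ^ 2) := by rw [hc']; ring
      rw [e1, map_mul, map_pow, ha, one_pow, one_mul]; exact hv2

theorem mir_four_pow (p : ℕ) [Fact p.Prime] (hp2 : p ≠ 2) (h : p ^ 2 ∣ 4 ^ (p - 1) - 1) :
    p ^ 2 ∣ 2 ^ (p - 1) - 1 := by
  have hp : p.Prime := Fact.out
  have h1 : 4 ^ (p - 1) - 1 = (2 ^ (p - 1) - 1) * (2 ^ (p - 1) + 1) := by
    have e1 : 4 ^ (p - 1) = 2 ^ (p - 1) * 2 ^ (p - 1) := by
      rw [← mul_pow]
      norm_num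
    have e2 : 1 ≤ 2 ^ (p - 1) := Nat.one_le_two_pow
    obtain ⟨m, hm⟩ : ∃ m, 2 ^ (p - 1) = m + 1 := ⟨2 ^ (p - 1) - 1, by omega⟩
    rw [e1, hm]
    have e3 : (m + 1) * (m + 1) - 1 = m * (m + 2) := by
      have : (m + 1) * (m + 1) = m * (m + 2) + 1 := by ring
      omega
    rw [e3, Nat.add_sub_cancel]
  rw [h1] at h
  refine Nat.Coprime.dvd_of_dvd_mul_right ?_ h
  refine Nat.Coprime.pow_left 2 ?_
  rw [Nat.Prime.coprime_iff_not_dvd hp]
  intro h2
  have h3 : ((2 : ℕ) : ZMod p) ^ (p - 1) = 1 := by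
    have h4 : ((2 : ℕ) : ZMod p) ≠ 0 := mir_two_ne hp2
    exact ZMod.pow_card_sub_one_eq_one h4
  have h5 : ((2 ^ (p - 1) + 1 : ℕ) : ZMod p) = 0 := (ZMod.natCast_eq_zero_iff _ _).2 h2
  rw [Nat.cast_add, Nat.cast_pow, h3, Nat.cast_one] at h5
  apply mir_two_ne (p := p) hp2
  rw [Nat.cast_ofNat]
  rw [← one_add_one_eq_two]
  exact h5

/-- The criteria of Wieferich and Mirimanoff over a quadratic field, with one exceptional case. -/
theorem mir_main (p : ℕ) [Fact p.Prime] (K : Type*) [Field K] [NumberField K]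
    (hK : Module.finrank ℚ K = 2) (hp2 : p ≠ 2) (hu : Unr p K)
    (hcl : ¬ p ∣ NumberField.classNumber K)
    (a b c : K) (ha : a ≠ 0) (hb : b ≠ 0) (hc : c ≠ 0) (h : a ^ p + b ^ p + c ^ p = 0)
    (hfc : ∀ v : HeightOneSpectrum (𝓞 K), (p : 𝓞 K) ∈ v.asIdeal →
      v.valuation K a = v.valuation K b ∧ v.valuation K b = v.valuation K c)
    (Q : HeightOneSpectrum (𝓞 K))
    (hQ : (Nat.card (𝓞 K ⧸ Q.asIdeal) = 3 ∧ p ≠ 3 ∧ ¬ p ^ 2 ∣ 3 ^ (p - 1) - 1) ∨
      (Nat.card (𝓞 K ⧸ Q.asIdeal) = 4 ∧ ¬ p ^ 2 ∣ 2 ^ (p - 1) - 1)) :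
    p ≠ 3 ∧ MirE p K (b / a) := by
  have hp : p.Prime := Fact.out
  have hcard : Nat.card (𝓞 K ⧸ Q.asIdeal) = 3 ∨ Nat.card (𝓞 K ⧸ Q.asIdeal) = 4 := by
    rcases hQ with h1 | h1
    · exact Or.inl h1.1
    · exact Or.inr h1.1
  have hno : ¬ p ^ 2 ∣ Nat.card (𝓞 K ⧸ Q.asIdeal) ^ (p - 1) - 1 := by
    rcases hQ with ⟨h1, _, h2⟩ | ⟨h1, h2⟩
    · rw [h1]; exact h2
    · rw [h1]
      intro h3
      exact h2 (mir_four_pow p hp2 h3)
  have hQp : (p : 𝓞 K) ∉ Q.asIdeal := by
    apply mir_not_mem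
    rcases hQ with ⟨h1, h2, _⟩ | ⟨h1, _⟩
    · rw [h1]; exact (Nat.coprime_primes hp Nat.prime_three).2 h2
    · rw [h1]
      have := (Nat.coprime_primes hp Nat.prime_two).2 hp2
      exact Nat.Coprime.pow_right 2 this
  have hQeq : Q.valuation K a = Q.valuation K b ∧ Q.valuation K b = Q.valuation K c := by
    by_contra hcon
    exact hno (fin_quad p K hK hp2 hu hcl a b c ha hb hc h hfc Q hQp hcon)
  obtain ⟨l, hl0, hl1, hl2⟩ := scale p K Q hQp a a ha ha
  have hvl : ∀ v : HeightOneSpectrum (𝓞 K), (p : 𝓞 K) ∈ v.asIdeal →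
      v.valuation K (a / l) = 1 ∧ v.valuation K (b / l) = 1 ∧ v.valuation K (c / l) = 1 := by
    intro v hv
    obtain ⟨h1, h2⟩ := hfc v hv
    have h3 : v.valuation K a ≠ 0 := (Valuation.ne_zero_iff _).2 ha
    refine ⟨?_, ?_, ?_⟩
    · rw [map_div₀, hl1 v hv, div_self h3]
    · rw [map_div₀, hl1 v hv, ← h1, div_self h3]
    · rw [map_div₀, hl1 v hv, ← h2, ← h1, div_self h3]
  have hQ3 : Q.valuation K a ≠ 0 := (Valuation.ne_zero_iff _).2 ha
  have hqa : Q.valuation K (a / l) = 1 := by rw [map_div₀, hl2, div_self hQ3]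
  have hqb : Q.valuation K (b / l) = 1 := by rw [map_div₀, hl2, ← hQeq.1, div_self hQ3]
  have hqc : Q.valuation K (c / l) = 1 := by
    rw [map_div₀, hl2, ← hQeq.2, ← hQeq.1, div_self hQ3]
  have hl : (a / l) ^ p + (b / l) ^ p + (c / l) ^ p = 0 := by
    rw [div_pow, div_pow, div_pow, ← add_div, ← add_div, h, zero_div]
  obtain ⟨g1, g2, g3, g4⟩ := mir_good_of_card p hp2 Q hcard _ _ _ hqa hqb hqc hl
  have hp3 : p ≠ 3 := by
    rcases hQ with ⟨_, h2, _⟩ | ⟨h1, _⟩
    · exact h2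
    · exact g4 h1
  refine ⟨hp3, ?_⟩
  have hba : b / l / (a / l) = b / a := by field_simp
  rcases mir_rel p hp3 K hK _ _ _ hl hvl with ⟨z₁, z₂, z₃, k, hk, hrel⟩ | hE
  · exfalso
    exact hno (mir_core p K hp2 hu hcl _ _ _ (div_ne_zero ha hl0) (div_ne_zero hb hl0)
      (div_ne_zero hc hl0) hl hvl z₁ z₂ z₃ k hk hrel Q hQp hqa hqb hqc g1 g2 g3)
  · rwa [hba] at hE

/-- In the exceptional case `a : b : c = 1 : ω : ω²` modulo `p`. -/
theorem mir_exc (p : ℕ) [Fact p.Prime] (K : Type*) [Field K] [NumberField K] (a b : K)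
    (ha : a ≠ 0)
    (hab : ∀ v : HeightOneSpectrum (𝓞 K), (p : 𝓞 K) ∈ v.asIdeal →
      v.valuation K a = v.valuation K b)
    (hE : MirE p K (b / a)) :
    ∀ v : HeightOneSpectrum (𝓞 K), (p : 𝓞 K) ∈ v.asIdeal →
      v.valuation K (a ^ 2 + a * b + b ^ 2) < v.valuation K a ^ 2 := by
  obtain ⟨A, T, N, hT, _, hT1, hN1, hA⟩ := hE
  intro v hv
  have hva : v.valuation K a ≠ 0 := (Valuation.ne_zero_iff _).2 ha
  set r := b / a with hr
  have hr1 : v.valuation K r = 1 := by rw [hr, map_div₀, ← hab v hv, div_self hva]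
  have hTK : (algebraMap (𝓞 K) K A) ^ 2 - (T : K) * (algebraMap (𝓞 K) K A) + (N : K) = 0 := by
    have := congrArg (algebraMap (𝓞 K) K) hT
    simpa using this
  have hpv : v.valuation K (p : K) < 1 := by
    rw [← natCast_mem_iff]; exact hv
  have hdiv : ∀ m : ℤ, (p : ℤ) ∣ m → v.valuation K (m : K) < 1 := by
    rintro m ⟨n, rfl⟩
    rw [Int.cast_mul, Int.cast_natCast, map_mul]
    exact sp_mul_lt' hpv (sp_intCast_le v n)
  have e1 : r ^ 2 + r + 1 = -((algebraMap (𝓞 K) K A - r) * (algebraMap (𝓞 K) K A + r - T)) +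
      ((T + 1 : ℤ) : K) * r - ((N - 1 : ℤ) : K) := by
    push_cast
    linear_combination hTK
  have h1 : v.valuation K (r ^ 2 + r + 1) < 1 := by
    rw [e1]
    refine Valuation.map_sub_lt _ (Valuation.map_add_lt _ ?_ ?_) (hdiv _ hN1)
    · rw [Valuation.map_neg, map_mul]
      refine sp_mul_lt' (hA v hv) ?_
      exact Valuation.map_sub_le _ (Valuation.map_add_le _ (v.valuation_le_one _) hr1.le)
        (sp_intCast_le v T)
    · rw [map_mul, hr1, mul_one]; exact hdiv _ hT1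
  have e2 : a ^ 2 + a * b + b ^ 2 = a ^ 2 * (r ^ 2 + r + 1) := by
    rw [hr]; field_simp; ring
  rw [e2, map_mul, map_pow]
  calc v.valuation K a ^ 2 * v.valuation K (r ^ 2 + r + 1)
      < v.valuation K a ^ 2 * 1 := by
        exact mul_lt_mul_of_pos_left h1 (zero_lt_iff.2 (pow_ne_zero _ hva))
    _ = _ := mul_one _

/-- In the exceptional case `-3` and `d` are squares modulo `p` simultaneously. -/
theorem mir_legendre (p : ℕ) [Fact p.Prime] (hp2 : p ≠ 2) (hp3 : p ≠ 3) (K : Type*) [Field K]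
    [NumberField K] (hK : Module.finrank ℚ K = 2) (r : K) (hE : MirE p K r)
    (d : ℤ) (δ : K) (hδ : δ ^ 2 = d) (hd : ¬ IsSquare d) (hpd : ¬ (p : ℤ) ∣ d) :
    legendreSym p d = legendreSym p (-3) := by
  have hp : p.Prime := Fact.out
  have hpp : Prime (p : ℤ) := Nat.prime_iff_prime_int.1 hp
  obtain ⟨A, T, N, hT, hN, hT1, hN1, _⟩ := hE
  have hTK : (algebraMap (𝓞 K) K A) ^ 2 - (T : K) * (algebraMap (𝓞 K) K A) + (N : K) = 0 := by
    have := congrArg (algebraMap (𝓞 K) K) hT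
    simpa using this
  set D : ℤ := T ^ 2 - 4 * N with hD
  set y : K := 2 * algebraMap (𝓞 K) K A - T with hy
  have hyD : y ^ 2 = (D : K) := by
    rw [hy, hD]; push_cast
    linear_combination (4 : K) * hTK
  have hD3 : (p : ℤ) ∣ D + 3 := by
    have e1 : D + 3 = (T + 1) * (T - 1) - 4 * (N - 1) := by rw [hD]; ring
    rw [e1]
    exact dvd_sub (Dvd.dvd.mul_right hT1 _) (Dvd.dvd.mul_left hN1 _)
  have hpD : ¬ (p : ℤ) ∣ D := by
    intro h1
    have h2 : (p : ℤ) ∣ 3 := by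
      have := dvd_sub hD3 h1
      simpa using this
    have h3 : p ∣ 3 := by exact_mod_cast h2
    exact hp3 ((Nat.prime_dvd_prime_iff_eq hp Nat.prime_three).1 h3)
  have hLD : legendreSym p D = legendreSym p (-3) := by
    rw [legendreSym.mod p D, legendreSym.mod p (-3)]
    congr 1
    rw [Int.emod_eq_emod_iff_emod_sub_eq_zero]
    apply Int.emod_eq_zero_of_dvd
    have e1 : D - -3 = D + 3 := by ring
    rw [e1]
    exact hD3
  -- `y` is rational or a rational multiple of `δ`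
  have hδirr : ∀ q : ℚ, algebraMap ℚ K q ≠ δ := by
    intro q hq
    have h1 : algebraMap ℚ K (q ^ 2) = algebraMap ℚ K (d : ℚ) := by
      rw [map_pow, hq, hδ]; simp
    have h2 : q ^ 2 = (d : ℚ) := (algebraMap ℚ K).injective h1
    exact hd ((Rat.isSquare_intCast_iff).1 ⟨q, by rw [← h2]; ring⟩)
  have hlin : LinearIndependent ℚ ![(1 : K), δ] := by
    rw [LinearIndependent.pair_iff]
    intro s t hst
    have ht : t = 0 := by
      by_contra ht
      apply hδirr (-s / t)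
      have h1 : algebraMap ℚ K s + algebraMap ℚ K t * δ = 0 := by
        rw [Algebra.smul_def, Algebra.smul_def, mul_one] at hst
        exact hst
      have h2 : algebraMap ℚ K t ≠ 0 := by simpa using ht
      rw [map_div₀, map_neg, div_eq_iff h2]
      linear_combination -h1
    refine ⟨?_, ht⟩
    rw [ht, zero_smul, add_zero, Algebra.smul_def, mul_one] at hst
    simpa using hst
  have hspan : Submodule.span ℚ (Set.range ![(1 : K), δ]) = ⊤ :=
    hlin.span_eq_top_of_card_eq_finrank (by simp [hK])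
  have hmem : y ∈ Submodule.span ℚ (Set.range ![(1 : K), δ]) := by
    rw [hspan]; exact Submodule.mem_top
  have hrange : Set.range ![(1 : K), δ] = {1, δ} := by
    simp only [Matrix.range_cons, Matrix.range_empty, Set.union_empty]
    rfl
  rw [hrange, Submodule.mem_span_pair] at hmem
  obtain ⟨x₀, x₁, hx⟩ := hmem
  rw [Algebra.smul_def, Algebra.smul_def, mul_one] at hx
  have hx01 : x₀ * x₁ = 0 := by
    by_contra hne
    apply hδirr ((D - x₀ ^ 2 - x₁ ^ 2 * d) / (2 * (x₀ * x₁)))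
    have h2 : algebraMap ℚ K (2 * (x₀ * x₁)) ≠ 0 := by
      rw [Ne, map_eq_zero]
      exact mul_ne_zero two_ne_zero hne
    rw [map_div₀, div_eq_iff h2]
    simp only [map_sub, map_mul, map_pow, map_intCast, map_ofNat]
    rw [← hyD, ← hδ, ← hx]
    ring
  rcases mul_eq_zero.1 hx01 with h0 | h1
  · -- `y = x₁ δ`
    rw [h0, map_zero, zero_add] at hx
    have h3 : x₁ ^ 2 * d = (D : ℚ) := by
      apply (algebraMap ℚ K).injective
      rw [map_mul, map_pow, map_intCast, map_intCast, ← hyD, ← hx, ← hδ]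
      ring
    have h4 : (x₁.num : ℤ) ^ 2 * d = D * (x₁.den : ℤ) ^ 2 := by
      have h5 : (x₁.num : ℚ) ^ 2 * d = D * (x₁.den : ℚ) ^ 2 := by
        have h6 : x₁ = x₁.num / x₁.den := (Rat.num_div_den x₁).symm
        have h7 : (x₁.den : ℚ) ≠ 0 := by exact_mod_cast x₁.den_ne_zero
        rw [← h3]
        nth_rw 2 [h6]
        field_simp
      exact_mod_cast h5
    have hden : ¬ (p : ℤ) ∣ (x₁.den : ℤ) := by
      intro h5
      have h6 : (p : ℤ) ∣ x₁.num ^ 2 * d := by
        rw [h4]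
        exact Dvd.dvd.mul_left (dvd_pow h5 two_ne_zero) _
      have h7 : (p : ℤ) ∣ x₁.num := by
        rcases hpp.dvd_or_dvd h6 with h8 | h8
        · exact hpp.dvd_of_dvd_pow h8
        · exact absurd h8 hpd
      have h8 : p ∣ x₁.num.natAbs := Int.natCast_dvd.1 h7
      have h9 : p ∣ x₁.den := by exact_mod_cast h5
      have h10 := Nat.dvd_gcd h8 h9
      rw [x₁.reduced] at h10
      exact hp.one_lt.ne' (Nat.dvd_one.1 h10)
    have hnum : ¬ (p : ℤ) ∣ x₁.num := by
      intro h5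
      have h6 : (p : ℤ) ∣ D * (x₁.den : ℤ) ^ 2 := by
        rw [← h4]
        exact Dvd.dvd.mul_right (dvd_pow h5 two_ne_zero) _
      rcases hpp.dvd_or_dvd h6 with h8 | h8
      · exact hpD h8
      · exact hden (hpp.dvd_of_dvd_pow h8)
    have hnz : ∀ m : ℤ, ¬ (p : ℤ) ∣ m → ((m : ℤ) : ZMod p) ≠ 0 := by
      intro m hm h5
      exact hm ((ZMod.intCast_zmod_eq_zero_iff_dvd m p).1 h5)
    have h5 := congrArg (legendreSym p) h4
    rw [legendreSym.mul, legendreSym.mul, legendreSym.sq_one' p (hnz _ hnum),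
      legendreSym.sq_one' p (hnz _ hden), one_mul, mul_one] at h5
    rw [h5, hLD]
  · -- `y` is rational: impossible
    exfalso
    rw [h1, map_zero, zero_mul, add_zero] at hx
    have hAQ : algebraMap (𝓞 K) K A = algebraMap ℚ K ((x₀ + T) / 2) := by
      have h2 : algebraMap ℚ K 2 ≠ 0 := by simp
      rw [map_div₀, map_add, map_intCast, hx, hy, map_ofNat]
      field_simp
      ring
    have hint : IsIntegral ℤ ((x₀ + T) / 2 : ℚ) := by
      rw [← isIntegral_algebraMap_iff (algebraMap ℚ K).injective (R := ℤ), ← hAQ]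
      exact A.isIntegral_coe
    obtain ⟨m, hm⟩ := (IsIntegrallyClosed.isIntegral_iff (R := ℤ) (K := ℚ)).1 hint
    have hAm : A = algebraMap ℤ (𝓞 K) m := by
      apply (FaithfulSMul.algebraMap_injective (𝓞 K) K)
      rw [hAQ, ← hm]
      simp
    have hNm : N = m ^ 2 := by
      rw [hN, hAm, Algebra.norm_algebraMap, RingOfIntegers.rank, hK]
    have hTm : m ^ 2 - T * m + N = 0 := by
      have h2 : ((m ^ 2 - T * m + N : ℤ) : K) = 0 := by
        have h3 : algebraMap (𝓞 K) K A = (m : K) := by rw [hAm]; simp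
        rw [h3] at hTK
        push_cast
        exact hTK
      exact_mod_cast h2
    have hmm : m * (2 * m - T) = 0 := by
      rw [hNm] at hTm
      linear_combination hTm
    rcases mul_eq_zero.1 hmm with h2 | h2
    · rw [h2] at hNm
      rw [hNm] at hN1
      have h3 : (p : ℤ) ∣ 1 := by
        have := (dvd_neg).2 hN1
        simpa using this
      have h4 : p ∣ 1 := by exact_mod_cast h3
      exact hp.one_lt.ne' (Nat.dvd_one.1 h4)
    · apply hpD
      have h3 : D = 0 := by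
        rw [hD, hNm]
        linear_combination (-(2 * m + T)) * h2
      rw [h3]
      exact dvd_zero _

/-- Final form: over a quadratic field, a solution in the first case with `p` not dividing the class
number, `p` unramified, and `Q` as in `mir_main`, is `1 : ω : ω²` modulo `p`, and `d`, `-3` have the same
quadratic character modulo `p`. -/
theorem mir_final (p : ℕ) [Fact p.Prime] (K : Type*) [Field K] [NumberField K]
    (hK : Module.finrank ℚ K = 2) (hp2 : p ≠ 2) (hu : Unr p K)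
    (hcl : ¬ p ∣ NumberField.classNumber K)
    (a b c : K) (ha : a ≠ 0) (hb : b ≠ 0) (hc : c ≠ 0) (h : a ^ p + b ^ p + c ^ p = 0)
    (hfc : ∀ v : HeightOneSpectrum (𝓞 K), (p : 𝓞 K) ∈ v.asIdeal →
      v.valuation K a = v.valuation K b ∧ v.valuation K b = v.valuation K c)
    (Q : HeightOneSpectrum (𝓞 K))
    (hQ : (Nat.card (𝓞 K ⧸ Q.asIdeal) = 3 ∧ p ≠ 3 ∧ ¬ p ^ 2 ∣ 3 ^ (p - 1) - 1) ∨
      (Nat.card (𝓞 K ⧸ Q.asIdeal) = 4 ∧ ¬ p ^ 2 ∣ 2 ^ (p - 1) - 1)) :
    (∀ v : HeightOneSpectrum (𝓞 K), (p : 𝓞 K) ∈ v.asIdeal →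
      v.valuation K (a ^ 2 + a * b + b ^ 2) < v.valuation K a ^ 2) ∧
    ∀ (d : ℤ) (δ : K), δ ^ 2 = d → ¬ IsSquare d → ¬ (p : ℤ) ∣ d →
      legendreSym p d = legendreSym p (-3) := by
  obtain ⟨hp3, hE⟩ := mir_main p K hK hp2 hu hcl a b c ha hb hc h hfc Q hQ
  refine ⟨mir_exc p K a b ha (fun v hv => (hfc v hv).1) hE, ?_⟩
  intro d δ hδ hd hpd
  exact mir_legendre p hp2 hp3 K hK (b / a) hE d δ hδ hd hpd

end H91SP
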