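import Pool.Agent.H91.SP.Defs

/-!
# Project SP, module Cyc (block LOC)

`Φ_p` is irreducible over `K` if `p` is unramified in `K`.

PROOF. Choose a prime `v` of `K` above `p`. The polynomial `Φ_p(X + 1)` is monic, its coefficients
below the leading one are divisible by `p` and its constant term is `p`, which is not in `v ^ 2`:
it is Eisenstein at `v` (`Polynomial.cyclotomic_comp_X_add_one_isEisensteinAt` in Mathlib is the
statement over `ℤ`; map it to `𝓞 K`), so it is irreducible over `𝓞 K` and over `K` (Gauss).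
-/

namespace H91SP

open NumberField IsDedekindDomain

/-- there is a prime of `K` above `p` -/
theorem sp_exists_place (p : ℕ) [Fact p.Prime] (K : Type*) [Field K] [NumberField K] :
    ∃ v : HeightOneSpectrum (𝓞 K), (p : 𝓞 K) ∈ v.asIdeal := by
  have hp : p.Prime := Fact.out
  have hpr : (Ideal.span {(p : ℤ)}).IsMaximal := by
    have h0 : (Ideal.span {(p : ℤ)}).IsPrime :=
      (Ideal.span_singleton_prime (by exact_mod_cast hp.ne_zero)).2
        (Nat.prime_iff_prime_int.1 hp)
    refine h0.isMaximal ?_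
    rw [Ne, Ideal.span_singleton_eq_bot]
    exact_mod_cast hp.ne_zero
  obtain ⟨M, hM, hlie⟩ := Ideal.exists_maximal_ideal_liesOver_of_isIntegral
    (S := 𝓞 K) (Ideal.span {(p : ℤ)})
  have hpM : (p : 𝓞 K) ∈ M := by
    have h1 : (p : ℤ) ∈ M.under ℤ := by
      rw [← hlie.over]
      exact Ideal.mem_span_singleton_self _
    have h2 := (Ideal.mem_comap).1 h1
    simpa using h2
  refine ⟨⟨M, hM.isPrime, ?_⟩, hpM⟩
  rintro rfl
  have h4 : (p : 𝓞 K) = 0 := by simpa using hpM
  exact hp.ne_zero (by exact_mod_cast h4)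

theorem cyc_irred (p : ℕ) [Fact p.Prime] (K : Type*) [Field K] [NumberField K] (hu : Unr p K) :
    Irreducible (Polynomial.cyclotomic p K) := by
  have hp : p.Prime := Fact.out
  obtain ⟨v, hv⟩ := sp_exists_place p K
  have hnot := hu v hv
  have hE := cyclotomic_comp_X_add_one_isEisensteinAt p
  have hmonic : (Polynomial.taylor (1 : 𝓞 K) (Polynomial.cyclotomic p (𝓞 K))).Monic := by
    rw [Polynomial.Monic, Polynomial.leadingCoeff_taylor]
    exact Polynomial.cyclotomic.monic p (𝓞 K)
  have hmap : Polynomial.taylor (1 : 𝓞 K) (Polynomial.cyclotomic p (𝓞 K)) =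
      ((Polynomial.cyclotomic p ℤ).comp (Polynomial.X + 1)).map (algebraMap ℤ (𝓞 K)) := by
    rw [Polynomial.map_comp, Polynomial.map_cyclotomic, Polynomial.taylor_apply]
    simp
  have hmonicZ : ((Polynomial.cyclotomic p ℤ).comp (Polynomial.X + 1)).Monic := by
    have : (Polynomial.X + 1 : Polynomial ℤ) = Polynomial.X + Polynomial.C 1 := by simp
    rw [this, ← Polynomial.taylor_apply, Polynomial.Monic, Polynomial.leadingCoeff_taylor]
    exact Polynomial.cyclotomic.monic p ℤ
  have hdeg : (Polynomial.taylor (1 : 𝓞 K) (Polynomial.cyclotomic p (𝓞 K))).natDegree =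
      ((Polynomial.cyclotomic p ℤ).comp (Polynomial.X + 1)).natDegree := by
    rw [hmap, hmonicZ.natDegree_map]
  have hE2 : (Polynomial.taylor (1 : 𝓞 K) (Polynomial.cyclotomic p (𝓞 K))).IsEisensteinAt
      v.asIdeal := by
    refine hmonic.isEisensteinAt_of_mem_of_notMem v.isPrime.ne_top ?_ ?_
    · intro n hn
      rw [hdeg] at hn
      have h1 := hE.mem hn
      rw [Ideal.submodule_span_eq, Ideal.mem_span_singleton] at h1
      obtain ⟨c, hc⟩ := h1
      rw [hmap, Polynomial.coeff_map, hc, map_mul]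
      refine Ideal.mul_mem_right _ _ ?_
      simpa using hv
    · have h0 : (Polynomial.taylor (1 : 𝓞 K) (Polynomial.cyclotomic p (𝓞 K))).coeff 0 =
          (p : 𝓞 K) := by
        rw [Polynomial.taylor_coeff_zero, Polynomial.eval_one_cyclotomic_prime]
      rw [h0]
      exact hnot
  have hpos : 0 < (Polynomial.taylor (1 : 𝓞 K) (Polynomial.cyclotomic p (𝓞 K))).natDegree := by
    rw [Polynomial.natDegree_taylor, Polynomial.natDegree_cyclotomic, Nat.totient_prime hp]
    have := hp.one_lt
    omega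
  have hirr := hE2.irreducible v.isPrime hmonic.isPrimitive hpos
  have hirr2 : Irreducible (Polynomial.cyclotomic p (𝓞 K)) := by
    have h5 : Irreducible ((Polynomial.taylorEquiv (1 : 𝓞 K))
        (Polynomial.cyclotomic p (𝓞 K))) := hirr
    exact (MulEquiv.irreducible_iff (Polynomial.taylorEquiv (1 : 𝓞 K))).1 h5
  have := ((Polynomial.cyclotomic.monic p (𝓞 K)).irreducible_iff_irreducible_map_fraction_map
    (K := K)).1 hirr2
  rwa [Polynomial.map_cyclotomic] at this

theorem finrank_cyc (p : ℕ) [Fact p.Prime] (K L : Type*) [Field K] [NumberField K] [Field L]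
    [NumberField L] [Algebra K L] [IsCyclotomicExtension {p} K L] (hu : Unr p K) :
    Module.finrank K L = p - 1 := by
  have hp : p.Prime := Fact.out
  have : NeZero p := ⟨hp.ne_zero⟩
  rw [IsCyclotomicExtension.finrank L (cyc_irred p K hu), Nat.totient_prime hp]

theorem exists_sigma (p : ℕ) [Fact p.Prime] (K : Type*) {L : Type*} [Field K] [NumberField K]
    [Field L] [NumberField L] [Algebra K L] [IsCyclotomicExtension {p} K L] (hu : Unr p K) (ζ : L)
    (hζ : IsPrimitiveRoot ζ p) (t : ℕ) (ht : t.Coprime p) : ∃ σ : L ≃ₐ[K] L, σ ζ = ζ ^ t := by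
  have hp : p.Prime := Fact.out
  have : NeZero p := ⟨hp.ne_zero⟩
  have hz := IsCyclotomicExtension.zeta_spec p K L
  have hirr := cyc_irred p K hu
  refine ⟨IsCyclotomicExtension.fromZetaAut (hz.pow_of_coprime t ht) hirr, ?_⟩
  have h1 := IsCyclotomicExtension.fromZetaAut_spec (hz.pow_of_coprime t ht) hirr
  obtain ⟨i, -, hi⟩ := hz.eq_pow_of_pow_eq_one hζ.pow_eq_one
  rw [← hi, map_pow, h1]
  ring

theorem exists_t (p : ℕ) [Fact p.Prime] (K : Type*) {L : Type*} [Field K]
    [Field L] [Algebra K L] (ζ : L) (hζ : IsPrimitiveRoot ζ p) (σ : L ≃ₐ[K] L) :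
    ∃ t : ℕ, t.Coprime p ∧ σ ζ = ζ ^ t := by
  have hp : p.Prime := Fact.out
  have : NeZero p := ⟨hp.ne_zero⟩
  have h1 : IsPrimitiveRoot (σ ζ) p := hζ.map_of_injective σ.injective
  obtain ⟨i, hi, hip, h⟩ := (hζ.isPrimitiveRoot_iff).1 h1
  exact ⟨i, hip, h.symm⟩

end H91SP
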