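import Mathlib

/-!
# Project SP (MP_ef6a16_nt): definitions

The theorems of Furtwängler and Sophie Germain over quadratic fields, with Hilbert's theorem 94
instead of a reciprocity law.

* `Unr p K` : the prime `p` is unramified in the number field `K`.
* `PV p x` : all finite valuations of `x` are divisible by `p`.
* `Eig p K ζ x` : `σ x = x ^ t * (a p-th power)` for all `σ ∈ Gal(L/K)`, `σ ζ = ζ ^ t`.
* `iv p t` : the inverse of `t` modulo `p`, between `0` and `p - 1`.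
* `Gam p ζ a b` : the product of the `(a + ζ ^ t' * b) ^ t`, `0 < t < p`, `t t' = 1 mod p`.
* `Lin w ζ u c` : `u = 1 + c (1 - ζ)` modulo `(1 - ζ) ^ 2` at the place `w`, `c` integral at `w`.
-/

namespace H91SP

open NumberField IsDedekindDomain

/-- `p` is unramified in `K` -/
def Unr (p : ℕ) (K : Type*) [Field K] [NumberField K] : Prop :=
  ∀ v : HeightOneSpectrum (𝓞 K), (p : 𝓞 K) ∈ v.asIdeal → (p : 𝓞 K) ∉ v.asIdeal ^ 2

/-- all finite valuations of `x` are divisible by `p` -/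
def PV (p : ℕ) {L : Type*} [Field L] [NumberField L] (x : L) : Prop :=
  ∀ w : HeightOneSpectrum (𝓞 L), ∃ y : L, y ≠ 0 ∧ w.valuation L x = w.valuation L y ^ p

/-- `x` lies in the `ω`-eigenspace of `L* / L*^p` under `Gal(L/K)` -/
def Eig (p : ℕ) (K : Type*) {L : Type*} [Field K] [Field L] [Algebra K L] (ζ x : L) : Prop :=
  ∀ (σ : L ≃ₐ[K] L) (t : ℕ), t.Coprime p → σ ζ = ζ ^ t → ∃ y : L, y ≠ 0 ∧ σ x = x ^ t * y ^ p

/-- the inverse of `t` modulo `p` -/
def iv (p t : ℕ) : ℕ := ((t : ZMod p)⁻¹).val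

/-- `Γ(a, b)`, the product of the `(a + ζ ^ t' * b) ^ t` -/
noncomputable def Gam (p : ℕ) {L : Type*} [Field L] (ζ a b : L) : L :=
  ∏ t ∈ Finset.Ico 1 p, (a + ζ ^ iv p t * b) ^ t

/-- `u = 1 + c (1 - ζ)` modulo `(1 - ζ) ^ 2` at `w` -/
def Lin {L : Type*} [Field L] [NumberField L] (w : HeightOneSpectrum (𝓞 L)) (ζ u c : L) : Prop :=
  w.valuation L c ≤ 1 ∧ w.valuation L (u - 1 - c * (1 - ζ)) ≤ w.valuation L (1 - ζ) ^ 2

end H91SP
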