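import Pool.Agent.H91.SP.Defs

/-!
# Project SP, module GamEig (block GAM)

Step (2), second half. PROOF of `Eig_Gam`. Let `σ ζ = ζ ^ s`, `s` prime to `p`. Then
`σ Γ = ∏_t (a + ζ^(s t') b)^t`. Put `u = s⁻¹ t mod p` (a permutation of `1, ..., p-1`), so that
`u' = s t' mod p` and `t = s u mod p`, `t = s u + p k_u` with an integer `k_u`: hence
`σ Γ = ∏_u (a + ζ^(u') b)^(s u + p k_u) = Γ^s (∏_u (a + ζ^(u') b)^(k_u))^p` (integer exponents `k_u`, the
factors are not zero). The closure lemmas are immediate (`σ` is multiplicative, a power of a product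
is the product of the powers).
-/

namespace H91SP

open NumberField IsDedekindDomain

theorem Eig_zeta (p : ℕ) [Fact p.Prime] (K : Type*) {L : Type*} [Field K] [Field L] [Algebra K L]
    (ζ : L) (hζ : IsPrimitiveRoot ζ p) : Eig p K ζ ζ := by
  intro σ t _ h
  exact ⟨1, one_ne_zero, by rw [h, one_pow, mul_one]⟩

theorem Eig_mul (p : ℕ) (K : Type*) {L : Type*} [Field K] [Field L] [Algebra K L]
    (ζ x y : L) (hx : Eig p K ζ x) (hy : Eig p K ζ y) : Eig p K ζ (x * y) := by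
  intro σ t ht h
  obtain ⟨u, hu, hu'⟩ := hx σ t ht h
  obtain ⟨v, hv, hv'⟩ := hy σ t ht h
  exact ⟨u * v, mul_ne_zero hu hv, by rw [map_mul, hu', hv', mul_pow, mul_pow]; ring⟩

theorem Eig_zpow (p : ℕ) (K : Type*) {L : Type*} [Field K] [Field L] [Algebra K L]
    (ζ x : L) (n : ℤ) (hx0 : x ≠ 0) (hx : Eig p K ζ x) : Eig p K ζ (x ^ n) := by
  intro σ t ht h
  obtain ⟨u, hu, hu'⟩ := hx σ t ht h
  refine ⟨u ^ n, zpow_ne_zero _ hu, ?_⟩
  rw [map_zpow₀, hu', mul_zpow, ← zpow_natCast, ← zpow_natCast, ← zpow_natCast, ← zpow_natCast,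
    ← zpow_mul, ← zpow_mul, ← zpow_mul, ← zpow_mul, mul_comm n, mul_comm n]

theorem Eig_pow_self (p : ℕ) (K : Type*) {L : Type*} [Field K] [Field L] [Algebra K L]
    (ζ x : L) (hx0 : x ≠ 0) : Eig p K ζ (x ^ p) := by
  intro σ t ht h
  refine ⟨σ x * (x ^ t)⁻¹, mul_ne_zero ?_ (inv_ne_zero (pow_ne_zero _ hx0)), ?_⟩
  · simpa using hx0
  · rw [map_pow, mul_pow, inv_pow, ← pow_mul, ← pow_mul, mul_comm p t]
    have : x ^ (t * p) ≠ 0 := pow_ne_zero _ hx0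
    field_simp

theorem sp_cast_ne_zero (p : ℕ) [Fact p.Prime] (t : ℕ) (ht : t.Coprime p) : (t : ZMod p) ≠ 0 := by
  intro h
  rw [ZMod.natCast_eq_zero_iff] at h
  exact (Fact.out : p.Prime).one_lt.ne' (ht.symm.eq_one_of_dvd h)

theorem sp_mem_coprime (p : ℕ) [Fact p.Prime] (t : ℕ) (ht : t ∈ Finset.Ico 1 p) :
    t.Coprime p := by
  rw [Finset.mem_Ico] at ht
  exact (Nat.coprime_of_lt_prime (by omega) ht.2 Fact.out).symm

theorem sp_iv_cast (p : ℕ) [Fact p.Prime] (t : ℕ) : ((iv p t : ℕ) : ZMod p) = (t : ZMod p)⁻¹ := by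
  unfold iv
  rw [ZMod.natCast_val, ZMod.cast_id', id]

theorem sp_iv_mul (p : ℕ) [Fact p.Prime] (t : ℕ) (ht : t.Coprime p) :
    ((iv p t : ℕ) : ZMod p) * (t : ZMod p) = 1 := by
  rw [sp_iv_cast, inv_mul_cancel₀ (sp_cast_ne_zero p t ht)]

theorem sp_mod_mem (p : ℕ) [Fact p.Prime] (n : ℕ) (hn : (n : ZMod p) ≠ 0) :
    n % p ∈ Finset.Ico 1 p := by
  rw [Finset.mem_Ico]
  refine ⟨?_, Nat.mod_lt _ (Fact.out : p.Prime).pos⟩
  rw [Nat.one_le_iff_ne_zero]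
  intro h
  apply hn
  rw [ZMod.natCast_eq_zero_iff]
  exact Nat.dvd_of_mod_eq_zero h

theorem sp_reindex (p : ℕ) [Fact p.Prime] {L : Type*} [CommMonoid L] (s : ℕ) (hs : s.Coprime p)
    (F : ℕ → L) : ∏ u ∈ Finset.Ico 1 p, F ((s * u) % p) = ∏ t ∈ Finset.Ico 1 p, F t := by
  have hp : p.Prime := Fact.out
  have hs0 := sp_cast_ne_zero p s hs
  have hlt : ∀ a b : ℕ, a < p → b < p → (a : ZMod p) = b → a = b := by
    intro a b ha hb h
    rw [ZMod.natCast_eq_natCast_iff', Nat.mod_eq_of_lt ha, Nat.mod_eq_of_lt hb] at h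
    exact h
  refine Finset.prod_nbij' (fun u => (s * u) % p) (fun t => (iv p s * t) % p) ?_ ?_ ?_ ?_ ?_
  · intro u hu
    apply sp_mod_mem
    rw [Nat.cast_mul]
    exact mul_ne_zero hs0 (sp_cast_ne_zero p u (sp_mem_coprime p u hu))
  · intro t ht
    apply sp_mod_mem
    rw [Nat.cast_mul, sp_iv_cast]
    exact mul_ne_zero (inv_ne_zero hs0) (sp_cast_ne_zero p t (sp_mem_coprime p t ht))
  · intro u hu
    apply hlt _ _ (Nat.mod_lt _ hp.pos) (Finset.mem_Ico.1 hu).2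
    rw [ZMod.natCast_mod, Nat.cast_mul, ZMod.natCast_mod, Nat.cast_mul, sp_iv_cast,
      inv_mul_cancel_left₀ hs0]
  · intro t ht
    apply hlt _ _ (Nat.mod_lt _ hp.pos) (Finset.mem_Ico.1 ht).2
    rw [ZMod.natCast_mod, Nat.cast_mul, ZMod.natCast_mod, Nat.cast_mul, sp_iv_cast,
      mul_inv_cancel_left₀ hs0]
  · intro u _
    rfl

theorem sp_pow_congr (p : ℕ) [Fact p.Prime] {L : Type*} [Field L] (ζ : L) (hζ : ζ ^ p = 1)
    (m n : ℕ) (h : (m : ZMod p) = n) : ζ ^ m = ζ ^ n := by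
  rw [ZMod.natCast_eq_natCast_iff'] at h
  rw [← Nat.div_add_mod m p, ← Nat.div_add_mod n p, pow_add, pow_add, pow_mul, pow_mul, hζ,
    one_pow, one_pow, h]

theorem Eig_Gam (p : ℕ) [Fact p.Prime] (K : Type*) {L : Type*} [Field K] [Field L] [Algebra K L]
    (ζ : L) (hζ : IsPrimitiveRoot ζ p) (a b : K)
    (hne : ∀ j : ℕ, algebraMap K L a + ζ ^ j * algebraMap K L b ≠ 0) :
    Eig p K ζ (Gam p ζ (algebraMap K L a) (algebraMap K L b)) := by
  intro σ s hs hσ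
  set A := algebraMap K L a with hA
  set B := algebraMap K L b with hB
  set P := ∏ u ∈ Finset.Ico 1 p, (A + ζ ^ iv p u * B) ^ (s * u / p) with hP
  have hP0 : P ≠ 0 := Finset.prod_ne_zero_iff.2 (fun u _ => pow_ne_zero _ (hne _))
  have h1 : σ (Gam p ζ A B) = ∏ u ∈ Finset.Ico 1 p, (A + ζ ^ iv p u * B) ^ (s * u % p) := by
    unfold Gam
    rw [map_prod, ← sp_reindex p s hs (fun t => σ ((A + ζ ^ iv p t * B) ^ t))]
    refine Finset.prod_congr rfl (fun u hu => ?_)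
    rw [map_pow, map_add, map_mul, map_pow, hσ, hA, hB, AlgEquiv.commutes, AlgEquiv.commutes,
      ← pow_mul]
    congr 3
    apply sp_pow_congr p ζ hζ.pow_eq_one
    rw [Nat.cast_mul, sp_iv_cast, sp_iv_cast, ZMod.natCast_mod, Nat.cast_mul, mul_inv,
      mul_inv_cancel_left₀ (sp_cast_ne_zero p s hs)]
  have h2 : Gam p ζ A B ^ s = σ (Gam p ζ A B) * P ^ p := by
    rw [h1, hP]
    unfold Gam
    rw [← Finset.prod_pow, ← Finset.prod_pow, ← Finset.prod_mul_distrib]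
    refine Finset.prod_congr rfl (fun u _ => ?_)
    rw [← pow_mul, ← pow_mul, ← pow_add]
    congr 1
    rw [mul_comm u s, mul_comm _ p, Nat.mod_add_div]
  refine ⟨P⁻¹, inv_ne_zero hP0, ?_⟩
  rw [h2, inv_pow, mul_assoc, mul_inv_cancel₀ (pow_ne_zero _ hP0), mul_one]

end H91SP
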