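import Mathlib

/-!
# Project SP, module Grp (block KUM)

PROOF of `grp`. Schur-Zassenhaus (`Subgroup.exists_right_complement'_of_coprime`): `N` has a
complement `H`; `H` is normalised by `H` and by the central subgroup `N`, and `G = N H`; so `H` is normal, and
its index is the order of `N`.
PROOF of `fix_field`. `Gal(M/L)` (as subgroup of `Gal(M/K)`, the fixing subgroup of `L`) is central of order
`p`, its index is `p - 1`; take for `F` the fixed field of the `H` of `grp`.
-/

namespace H91SP

theorem grp (p : ℕ) [Fact p.Prime] {G : Type*} [Group G] [Finite G] (N : Subgroup G)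
    (hN : N ≤ Subgroup.center G) (hc : Nat.card N = p) (hi : N.index = p - 1) :
    ∃ H : Subgroup G, H.Normal ∧ H.index = p := by
  have hp : p.Prime := Fact.out
  have hnorm : N.Normal := by
    refine ⟨fun n hn g => ?_⟩
    have h1 := Subgroup.mem_center_iff.mp (hN hn) g
    rw [h1, mul_inv_cancel_right]
    exact hn
  have hcop : (Nat.card N).Coprime N.index := by
    rw [hc, hi]
    exact (Nat.coprime_self_sub_right hp.one_le).mpr (Nat.coprime_one_right p)
  obtain ⟨H, hH⟩ := Subgroup.exists_right_complement'_of_coprime hcop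
  refine ⟨H, ?_, ?_⟩
  · refine ⟨fun h hh g => ?_⟩
    obtain ⟨⟨n, k⟩, hnk⟩ := hH.2 g
    simp only at hnk
    have hn : (n : G) ∈ Subgroup.center G := hN n.2
    have h1 := Subgroup.mem_center_iff.mp hn
    have hk : (k : G) ∈ H := k.2
    have h2 : g * h * g⁻¹ = (k : G) * h * (k : G)⁻¹ := by
      rw [← hnk, mul_inv_rev]
      calc (n : G) * (k : G) * h * ((k : G)⁻¹ * (n : G)⁻¹)
          = (n : G) * ((k : G) * h * (k : G)⁻¹) * (n : G)⁻¹ := by group
        _ = ((k : G) * h * (k : G)⁻¹) * (n : G) * (n : G)⁻¹ := by rw [h1]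
        _ = (k : G) * h * (k : G)⁻¹ := by rw [mul_inv_cancel_right]
    rw [h2]
    exact H.mul_mem (H.mul_mem hk hh) (H.inv_mem hk)
  · rw [hH.index_eq_card, hc]

theorem fix_field (p : ℕ) [Fact p.Prime] (K L M : Type*) [Field K] [Field L] [Field M]
    [Algebra K L] [Algebra L M] [Algebra K M] [IsScalarTower K L M] [IsGalois K M]
    [FiniteDimensional K M] (hL : Module.finrank K L = p - 1) (hM : Module.finrank L M = p)
    (hc : ∀ (τ : M ≃ₐ[L] M) (s : M ≃ₐ[K] M) (x : M), s (τ x) = τ (s x)) :
    ∃ F : IntermediateField K M, IsGalois K F ∧ Module.finrank K F = p := by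
  have hp : p.Prime := Fact.out
  have : IsGalois L M := IsGalois.tower_top_of_isGalois K L M
  have : FiniteDimensional L M := FiniteDimensional.right K L M
  obtain ⟨f, hf⟩ : ∃ f : (M ≃ₐ[L] M) →* (M ≃ₐ[K] M), f = AlgEquiv.restrictScalarsHom K := ⟨_, rfl⟩
  have hfx : ∀ (τ : M ≃ₐ[L] M) (x : M), f τ x = τ x := by
    intro τ x
    rw [hf]
    rfl
  have hinj : Function.Injective f := by
    intro a b hab
    ext x
    rw [← hfx a x, hab, hfx]
  have hcard : Nat.card f.range = p := by
    rw [← Nat.card_congr (MonoidHom.ofInjective hinj).toEquiv]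
    rw [IsGalois.card_aut_eq_finrank, hM]
  have hG : Nat.card (M ≃ₐ[K] M) = (p - 1) * p := by
    rw [IsGalois.card_aut_eq_finrank, ← Module.finrank_mul_finrank K L M, hL, hM]
  have hidx : f.range.index = p - 1 := by
    have h1 := f.range.index_mul_card
    rw [hcard, hG] at h1
    exact Nat.eq_of_mul_eq_mul_right hp.pos h1
  have hcen : f.range ≤ Subgroup.center (M ≃ₐ[K] M) := by
    rintro _ ⟨τ, rfl⟩
    rw [Subgroup.mem_center_iff]
    intro s
    ext x
    rw [AlgEquiv.mul_apply, AlgEquiv.mul_apply, hfx, hfx, hc]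
  obtain ⟨H, hHn, hHi⟩ := grp p f.range hcen hcard hidx
  refine ⟨IntermediateField.fixedField H, IsGalois.of_fixedField_normal_subgroup H, ?_⟩
  rw [IntermediateField.finrank_eq_fixingSubgroup_index, IntermediateField.fixingSubgroup_fixedField,
    hHi]

end H91SP
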