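import Pool.Agent.H91.SP.H94B

/-!
# Hilbert 94: from a unit of norm one to an ideal class of order `p`
-/

open NumberField
open scoped Pointwise

namespace H91SP

section

variable {K F : Type*} [Field K] [NumberField K] [Field F] [NumberField F] [Algebra K F]

/-- The action of the Galois group on the integers, as a ring homomorphism. -/
noncomputable def act (σ : Gal(F/K)) : 𝓞 F →+* 𝓞 F := MulSemiringAction.toRingHom Gal(F/K) (𝓞 F) σ

theorem act_apply (σ : Gal(F/K)) (x : 𝓞 F) : act σ x = σ • x := rfl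

theorem coe_act (σ : Gal(F/K)) (x : 𝓞 F) : ((act σ x : 𝓞 F) : F) = σ (x : F) := rfl

theorem coe_act_iterate (σ : Gal(F/K)) (n : ℕ) (x : 𝓞 F) :
    (((act σ)^[n] x : 𝓞 F) : F) = (σ ^ n) (x : F) := by
  induction n generalizing x with
  | zero => simp
  | succ n ih =>
    rw [Function.iterate_succ_apply, ih, coe_act, pow_succ, AlgEquiv.mul_apply]

/-- The Lagrange resolvent: Hilbert 90 for integers. -/
theorem exists_resolvent (σ : Gal(F/K)) (n : ℕ) (hn : orderOf σ = n) (hn0 : 0 < n) (e : 𝓞 F)
    (he : ∏ i ∈ Finset.range n, (act σ)^[i] e = 1) :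
    ∃ A : 𝓞 F, A ≠ 0 ∧ e * act σ A = A := by
  classical
  set c : ℕ → 𝓞 F := fun i => ∏ j ∈ Finset.range i, (act σ)^[j] e with hc
  set R : 𝓞 F → 𝓞 F := fun z => ∑ i ∈ Finset.range n, c i * (act σ)^[i] z with hR
  have hcs : ∀ i, e * act σ (c i) = c (i + 1) := by
    intro i
    simp only [hc]
    rw [map_prod, Finset.prod_range_succ' (fun j => (act σ)^[j] e) i]
    simp only [Function.iterate_succ_apply', Function.iterate_zero, id_eq]
    ring
  have hσn : ∀ z : 𝓞 F, (act σ)^[n] z = z := by
    intro z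
    apply RingOfIntegers.ext
    rw [coe_act_iterate, ← hn, pow_orderOf_eq_one]
    rfl
  have hres : ∀ z, e * act σ (R z) = R z := by
    intro z
    simp only [hR]
    rw [map_sum, Finset.mul_sum]
    have h1 : ∀ i ∈ Finset.range n, e * act σ (c i * (act σ)^[i] z) =
        c (i + 1) * (act σ)^[i + 1] z := by
      intro i _
      rw [map_mul, ← mul_assoc, hcs, Function.iterate_succ_apply']
    rw [Finset.sum_congr rfl h1]
    have h2 := Finset.sum_range_succ (fun i => c i * (act σ)^[i] z) n
    have h3 := Finset.sum_range_succ' (fun i => c i * (act σ)^[i] z) n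
    rw [h2] at h3
    have h4 : c n * (act σ)^[n] z = c 0 * (act σ)^[0] z := by
      simp only [hc] at *
      rw [he, hσn]
      simp
    rw [h4] at h3
    exact (add_right_cancel h3).symm
  -- nonvanishing
  have hne : ∃ z : 𝓞 F, R z ≠ 0 := by
    by_contra hcon
    push Not at hcon
    have hF : ∀ z : F, ∑ i ∈ Finset.range n, (c i : F) * (σ ^ i) z = 0 := by
      intro z
      obtain ⟨b, hb, hint⟩ := IsAlgebraic.exists_integral_multiple (R := ℤ)
        ((IsFractionRing.isAlgebraic_iff ℤ ℚ F).mpr (Algebra.IsAlgebraic.isAlgebraic (R := ℚ) z))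
      obtain ⟨a, ha⟩ : ∃ a : 𝓞 F, (a : F) = (b : F) * z := by
        refine ⟨⟨b • z, hint⟩, ?_⟩
        rw [← zsmul_eq_mul]
        rfl
      have h1 := hcon a
      have h2 : algebraMap (𝓞 F) F (R a) = ∑ i ∈ Finset.range n, (c i : F) * (σ ^ i) (a : F) := by
        simp only [hR]
        rw [map_sum]
        refine Finset.sum_congr rfl fun i _ => ?_
        rw [map_mul]
        congr 1
        exact coe_act_iterate σ i a
      rw [h1, map_zero, ha] at h2
      have h3 : ∑ i ∈ Finset.range n, (c i : F) * (σ ^ i) ((b : F) * z) =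
          (b : F) * ∑ i ∈ Finset.range n, (c i : F) * (σ ^ i) z := by
        rw [Finset.mul_sum]
        refine Finset.sum_congr rfl fun i _ => ?_
        rw [map_mul, map_intCast]
        ring
      rw [h3] at h2
      exact (mul_eq_zero.mp h2.symm).resolve_left (by exact_mod_cast hb)
    have hli : LinearIndependent F (fun i : Fin n => ((σ ^ (i : ℕ) : Gal(F/K)) : F → F)) := by
      have h := (linearIndependent_monoidHom F F).comp
        (fun i : Fin n => ((σ ^ (i : ℕ) : Gal(F/K)) : F →* F)) (by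
          intro i j hij
          have h1 : (σ ^ (i : ℕ) : Gal(F/K)) = σ ^ (j : ℕ) := by
            ext x
            exact DFunLike.congr_fun hij x
          have := pow_injOn_Iio_orderOf (x := σ) (by rw [hn]; exact i.2) (by rw [hn]; exact j.2) h1
          exact Fin.ext this)
      exact h
    have h0 := Fintype.linearIndependent_iff.mp hli (fun i => (c i : F)) (by
      ext z
      have h1 := hF z
      rw [Finset.sum_apply, Pi.zero_apply, ← h1, ← Fin.sum_univ_eq_sum_range
        (fun i => (c i : F) * (σ ^ i) z) n]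
      refine Finset.sum_congr rfl fun i _ => ?_
      rfl) ⟨0, hn0⟩
    simp [hc] at h0
  obtain ⟨z, hz⟩ := hne
  exact ⟨R z, hz, hres z⟩

/-- A unit of norm one which is not a coboundary gives an ideal class of order `p`. -/
theorem dvd_classNumber_of_unit (p : ℕ) (hp : p.Prime) [IsGalois K F]
    (hd : Module.finrank K F = p)
    (hunr : ∀ P : Ideal (𝓞 F), P.IsPrime → P ≠ ⊥ → P.ramificationIdx (𝓞 K) = 1)
    (σ : Gal(F/K)) (hσ : orderOf σ = p) (e : (𝓞 F)ˣ)
    (he : ∏ i ∈ Finset.range p, (act σ)^[i] (e : 𝓞 F) = 1)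
    (hcob : ∀ u : (𝓞 F)ˣ, (e : 𝓞 F) * act σ (u : 𝓞 F) ≠ u) : p ∣ classNumber K := by
  classical
  obtain ⟨A, hA0, hA⟩ := exists_resolvent σ p hσ hp.pos e he
  set I : Ideal (𝓞 F) := Ideal.span {A} with hI
  have hI0 : I ≠ ⊥ := by
    rw [hI, Ne, Ideal.span_singleton_eq_bot]
    exact hA0
  have hσI : σ • I = I := by
    rw [Ideal.pointwise_smul_def, hI, Ideal.map_span, Set.image_singleton,
      Ideal.span_singleton_eq_span_singleton]
    refine ⟨e, ?_⟩
    rw [mul_comm]
    exact hA
  have hinv : ∀ g : Gal(F/K), g • I = I := by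
    intro g
    have hg : g ∈ MulAction.stabilizer Gal(F/K) I := by
      have h1 : Subgroup.zpowers σ ≤ MulAction.stabilizer Gal(F/K) I := by
        rw [Subgroup.zpowers_le]
        exact hσI
      have h2 : Subgroup.zpowers σ = ⊤ := by
        apply Subgroup.eq_top_of_card_eq
        rw [Nat.card_zpowers, hσ, IsGalois.card_aut_eq_finrank, hd]
      exact h1 (h2 ▸ Subgroup.mem_top g)
    exact hg
  obtain ⟨a, ha⟩ := exists_map_eq_of_smul_eq Gal(F/K) hunr I hI0 hinv
  have hfin : Module.finrank (𝓞 K) (𝓞 F) = p := by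
    rw [← hd]
    exact (IsFractionRing.finrank_eq (𝓞 K) K (𝓞 F) F).symm
  have hpow : (a ^ p).IsPrincipal := by
    have h := Ideal.relNorm_algebraMap (R := 𝓞 K) (𝓞 F) a
    rw [hfin, ha, hI, Ideal.relNorm_singleton] at h
    rw [← h]
    exact ⟨_, rfl⟩
  by_contra hnd
  have hcop : p.Coprime (Fintype.card (ClassGroup (𝓞 K))) := by
    rw [Nat.Prime.coprime_iff_not_dvd hp]
    exact hnd
  obtain ⟨α, hα⟩ := Ideal.IsPrincipal.of_isPrincipal_pow_of_coprime hcop hpow
  have hspan : Ideal.span {algebraMap (𝓞 K) (𝓞 F) α} = Ideal.span {A} := by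
    rw [← hI, ← ha, hα, Ideal.submodule_span_eq, Ideal.map_span, Set.image_singleton]
  rw [Ideal.span_singleton_eq_span_singleton] at hspan
  obtain ⟨u, hu⟩ := hspan
  apply hcob u
  have hα0 : algebraMap (𝓞 K) (𝓞 F) α ≠ 0 := by
    intro h0
    rw [h0, zero_mul] at hu
    exact hA0 hu.symm
  have hfix : act σ (algebraMap (𝓞 K) (𝓞 F) α) = algebraMap (𝓞 K) (𝓞 F) α := by
    rw [act_apply]
    exact smul_algebraMap σ α
  apply mul_left_cancel₀ hα0
  rw [hu, ← hA, ← hu, map_mul, hfix]
  ring

end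

end H91SP
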