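import Pool.Agent.H91.SP.H94A
import Pool.Agent.H91.SP.H94C

/-!
# Hilbert's theorem 94 for odd prime degree

An everywhere (finite) unramified Galois extension `F / K` of number fields of odd prime degree `p`
forces `p ∣ h(K)`.  No class field theory.
-/

open NumberField
open scoped Pointwise

namespace H91SP

section

variable {K F : Type*} [Field K] [NumberField K] [Field F] [NumberField F] [Algebra K F]

/-- The action on the units, additively. -/
noncomputable def actU (σ : Gal(F/K)) : Additive (𝓞 F)ˣ →ₗ[ℤ] Additive (𝓞 F)ˣ :=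
  (MonoidHom.toAdditive (Units.map (act σ : 𝓞 F →* 𝓞 F))).toIntLinearMap

theorem coe_actU (σ : Gal(F/K)) (x : Additive (𝓞 F)ˣ) :
    (((actU σ x).toMul : (𝓞 F)ˣ) : 𝓞 F) = act σ ((x.toMul : (𝓞 F)ˣ) : 𝓞 F) := rfl

theorem coe_actU_pow (σ : Gal(F/K)) (i : ℕ) (x : Additive (𝓞 F)ˣ) :
    (((((actU σ) ^ i) x).toMul : (𝓞 F)ˣ) : 𝓞 F) = (act σ)^[i] ((x.toMul : (𝓞 F)ˣ) : 𝓞 F) := by
  induction i generalizing x with
  | zero => simp
  | succ i ih =>
    rw [pow_succ, Module.End.mul_apply, ih, coe_actU, Function.iterate_succ_apply]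

theorem actU_pow_orderOf (σ : Gal(F/K)) (n : ℕ) (hn : σ ^ n = 1) : (actU σ) ^ n = 1 := by
  ext x : 1
  apply Additive.toMul.injective
  apply Units.ext
  rw [coe_actU_pow]
  apply RingOfIntegers.ext
  rw [coe_act_iterate, hn]
  rfl

/-- The inclusion of the units of the small field. -/
noncomputable def inclU (K F : Type*) [Field K] [NumberField K] [Field F] [NumberField F]
    [Algebra K F] : Additive (𝓞 K)ˣ →ₗ[ℤ] Additive (𝓞 F)ˣ :=
  (MonoidHom.toAdditive (Units.map (algebraMap (𝓞 K) (𝓞 F) : 𝓞 K →* 𝓞 F))).toIntLinearMap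

theorem coe_inclU (x : Additive (𝓞 K)ˣ) :
    (((inclU K F x).toMul : (𝓞 F)ˣ) : 𝓞 F) =
      algebraMap (𝓞 K) (𝓞 F) ((x.toMul : (𝓞 K)ˣ) : 𝓞 K) := rfl

theorem inclU_injective : Function.Injective (inclU K F) := by
  intro x y h
  apply Additive.toMul.injective
  apply Units.ext
  apply FaithfulSMul.algebraMap_injective (𝓞 K) (𝓞 F)
  rw [← coe_inclU, ← coe_inclU, h]

theorem range_inclU [IsGalois K F] (σ : Gal(F/K)) (hσ : Subgroup.zpowers σ = ⊤) :
    LinearMap.range (inclU K F) = LinearMap.ker (actU σ - 1) := by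
  apply le_antisymm
  · rintro _ ⟨x, rfl⟩
    rw [LinearMap.mem_ker, LinearMap.sub_apply, Module.End.one_apply, sub_eq_zero]
    apply Additive.toMul.injective
    apply Units.ext
    rw [coe_actU, coe_inclU, act_apply]
    exact smul_algebraMap σ _
  · intro x hx
    rw [LinearMap.mem_ker, LinearMap.sub_apply, Module.End.one_apply, sub_eq_zero] at hx
    have key : ∀ y : Additive (𝓞 F)ˣ, actU σ y = y →
        ∃ a : 𝓞 K, algebraMap (𝓞 K) (𝓞 F) a = ((y.toMul : (𝓞 F)ˣ) : 𝓞 F) := by
      intro y hy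
      have hfix : ∀ g : Gal(F/K), g • ((y.toMul : (𝓞 F)ˣ) : 𝓞 F) = ((y.toMul : (𝓞 F)ˣ) : 𝓞 F) := by
        intro g
        have hg : g ∈ MulAction.stabilizer Gal(F/K) ((y.toMul : (𝓞 F)ˣ) : 𝓞 F) := by
          have h1 : Subgroup.zpowers σ ≤
              MulAction.stabilizer Gal(F/K) ((y.toMul : (𝓞 F)ˣ) : 𝓞 F) := by
            rw [Subgroup.zpowers_le, MulAction.mem_stabilizer_iff, ← act_apply, ← coe_actU, hy]
          exact h1 (hσ ▸ Subgroup.mem_top g)
        exact hg
      exact Algebra.IsInvariant.isInvariant (A := 𝓞 K) (G := Gal(F/K)) _ hfix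
    obtain ⟨a, ha⟩ := key x hx
    obtain ⟨b, hb⟩ := key (-x) (by rw [map_neg, hx])
    have hab : a * b = 1 := by
      apply FaithfulSMul.algebraMap_injective (𝓞 K) (𝓞 F)
      rw [map_mul, ha, hb, map_one, ← Units.val_mul]
      simp
    refine ⟨Additive.ofMul ⟨a, b, hab, by rw [mul_comm]; exact hab⟩, ?_⟩
    apply Additive.toMul.injective
    apply Units.ext
    rw [coe_inclU]
    exact ha

end

/-- **Hilbert's theorem 94** for odd prime degree. -/
theorem hilbert94 (p : ℕ) (hp : p.Prime) (hodd : p ≠ 2) (K F : Type*) [Field K] [NumberField K]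
    [Field F] [NumberField F] [Algebra K F] [IsGalois K F] (hd : Module.finrank K F = p)
    (hunr : ∀ P : Ideal (𝓞 F), P.IsPrime → P ≠ ⊥ → P.ramificationIdx (𝓞 K) = 1) :
    p ∣ NumberField.classNumber K := by
  classical
  haveI := Fact.mk hp
  have hcard : Nat.card Gal(F/K) = p := by rw [IsGalois.card_aut_eq_finrank, hd]
  haveI : IsCyclic Gal(F/K) := isCyclic_of_prime_card hcard
  obtain ⟨σ, hσ⟩ := IsCyclic.exists_generator (α := Gal(F/K))
  have hz : Subgroup.zpowers σ = ⊤ := Subgroup.eq_top_iff' _ |>.mpr hσ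
  have hord : orderOf σ = p := by rw [← Nat.card_zpowers, hz, Subgroup.card_top, hcard]
  have hpow : σ ^ p = 1 := by rw [← hord, pow_orderOf_eq_one]
  have hoddp : Odd p := hp.odd_of_ne_two hodd
  haveI : IsUnramifiedAtInfinitePlaces K F :=
    IsUnramifiedAtInfinitePlaces_of_odd_finrank (by rw [hd]; exact hoddp)
  have hplaces := IsUnramifiedAtInfinitePlaces.card_infinitePlace K F
  have hK1 : 0 < Fintype.card (InfinitePlace K) := Fintype.card_pos
  have hF1 : 0 < Fintype.card (InfinitePlace F) := Fintype.card_pos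
  obtain ⟨x, hx0, hx⟩ := exists_norm_zero_not_sub p hp (M := Additive (𝓞 F)ˣ) (actU σ)
    (actU_pow_orderOf σ p hpow) (Fintype.card (InfinitePlace K))
    (by
      rw [NumberField.Units.finrank_eq, NumberField.Units.rank]
      rw [hd] at hplaces
      rw [mul_comm p, ← hplaces]
      omega)
    (by
      rw [← range_inclU σ hz, LinearMap.finrank_range_of_inj inclU_injective,
        NumberField.Units.finrank_eq, NumberField.Units.rank]
      omega)
  refine dvd_classNumber_of_unit p hp hd hunr σ hord (x.toMul) ?_ ?_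
  · have h1 : (∏ i ∈ Finset.range p, (act σ)^[i] ((x.toMul : (𝓞 F)ˣ) : 𝓞 F)) =
        (((∑ i ∈ Finset.range p, ((actU σ) ^ i) x).toMul : (𝓞 F)ˣ) : 𝓞 F) := by
      rw [toMul_sum, Units.coe_prod]
      exact Finset.prod_congr rfl fun i _ => (coe_actU_pow σ i x).symm
    rw [h1, hx0]
    rfl
  · intro u hu
    apply hx (Additive.ofMul u)
    rw [eq_sub_iff_add_eq]
    apply Additive.toMul.injective
    apply Units.ext
    rw [toMul_add, Units.val_mul, coe_actU]
    exact hu

end H91SP
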