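import Pool.Agent.H91.SP.Defs

/-!
# Project SP, module Kum1 (block KUM)

The extension `M = L(η)`, `η ^ p = Λ`, `Λ` not a `p`-th power in `L ∋ ζ`.

PROOFS. `kum_exists`: `M = L[X] / (X ^ p - Λ)`.
`X ^ p - Λ` is irreducible (`X_pow_sub_C_irreducible_of_prime`), so `[M : L] = p`; it splits in `M`, so
`M / L` is Galois and there is `τ` with `τ η = ζ η` (`autEquivZmod`).
-/

namespace H91SP

open NumberField IsDedekindDomain

universe u

/-- `M = L(η)`, `η ^ p = Λ`, `Λ` not a `p`-th power in `L` -/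
structure KumExt (p : ℕ) {L M : Type*} [Field L] [Field M] [Algebra L M] (Λ : L) (η : M) :
    Prop where
  pow : η ^ p = algebraMap L M Λ
  gen : IntermediateField.adjoin L {η} = ⊤
  np : ∀ y : L, y ^ p ≠ Λ

theorem kum_exists (p : ℕ) [Fact p.Prime] (L : Type u) [Field L] [NumberField L] (ζ : L)
    (hζ : IsPrimitiveRoot ζ p) (Λ : L) (hΛ : ∀ y : L, y ^ p ≠ Λ) :
    ∃ (M : Type u) (_ : Field M) (_ : NumberField M) (_ : Algebra L M) (η : M),
      KumExt p Λ η := by
  have hp : p.Prime := Fact.out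
  have H : Irreducible (Polynomial.X ^ p - Polynomial.C Λ) := X_pow_sub_C_irreducible_of_prime hp hΛ
  have hne : (primitiveRoots p L).Nonempty := ⟨ζ, (mem_primitiveRoots hp.pos).2 hζ⟩
  have := Fact.mk H
  let alg : Algebra L (AdjoinRoot (Polynomial.X ^ p - Polynomial.C Λ)) := inferInstance
  have hs := isSplittingField_AdjoinRoot_X_pow_sub_C hne H
  have hfin : Module.Finite L (AdjoinRoot (Polynomial.X ^ p - Polynomial.C Λ)) :=
    Polynomial.IsSplittingField.finiteDimensional _ (Polynomial.X ^ p - Polynomial.C Λ)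
  have hroot : (AdjoinRoot.root (Polynomial.X ^ p - Polynomial.C Λ)) ^ p =
      algebraMap L (AdjoinRoot (Polynomial.X ^ p - Polynomial.C Λ)) Λ :=
    root_X_pow_sub_C_pow p Λ
  exact ⟨AdjoinRoot (Polynomial.X ^ p - Polynomial.C Λ), inferInstance,
    NumberField.of_module_finite L _, alg, AdjoinRoot.root _,
    ⟨hroot, IntermediateField.adjoin_root_eq_top_of_isSplittingField hne H hroot, hΛ⟩⟩

variable (p : ℕ) [Fact p.Prime] {L M : Type*} [Field L] [NumberField L] [Field M] [NumberField M]
  [Algebra L M] (ζ : L) (hζ : IsPrimitiveRoot ζ p) (Λ : L) (η : M) (hk : KumExt p Λ η)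

include hk in
private theorem kum_irr : Irreducible (Polynomial.X ^ p - Polynomial.C Λ) :=
  X_pow_sub_C_irreducible_of_prime (Fact.out : p.Prime) hk.np

include hk in
theorem kum_finrank : Module.finrank L M = p := by
  have hp : p.Prime := Fact.out
  have hmin : minpoly L η = Polynomial.X ^ p - Polynomial.C Λ := by
    refine (minpoly.eq_of_irreducible_of_monic (kum_irr p Λ η hk) ?_
      (Polynomial.monic_X_pow_sub_C _ hp.ne_zero)).symm
    simp [hk.pow]
  have h1 := IntermediateField.adjoin.finrank (IsIntegral.of_finite L η)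
  rw [hk.gen, IntermediateField.finrank_top', hmin, Polynomial.natDegree_X_pow_sub_C] at h1
  exact h1

include hζ hk in
private theorem kum_split : Polynomial.IsSplittingField L M (Polynomial.X ^ p - Polynomial.C Λ) := by
  have hp : p.Prime := Fact.out
  have hf := kum_finrank p Λ η hk
  have hne : (primitiveRoots (Module.finrank L M) L).Nonempty :=
    ⟨ζ, (mem_primitiveRoots (by rw [hf]; exact hp.pos)).2 (by rw [hf]; exact hζ)⟩
  have := isSplittingField_X_pow_sub_C_of_root_adjoin_eq_top (a := Λ) (α := η) hne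
    (by rw [hf]; exact hk.pow) hk.gen
  rwa [hf] at this

include hζ hk in
theorem kum_isGalois : IsGalois L M := by
  have hp : p.Prime := Fact.out
  have := kum_split p ζ hζ Λ η hk
  exact isGalois_of_isSplittingField_X_pow_sub_C ⟨ζ, (mem_primitiveRoots hp.pos).2 hζ⟩
    (kum_irr p Λ η hk) M

include hζ hk in
theorem kum_tau : ∃ τ : M ≃ₐ[L] M, τ η = algebraMap L M ζ * η := by
  have hp : p.Prime := Fact.out
  have : NeZero p := ⟨hp.ne_zero⟩
  have := kum_split p ζ hζ Λ η hk
  refine ⟨(autEquivZmod (kum_irr p Λ η hk) M hζ).symm (Multiplicative.ofAdd ((1 : ℕ) : ZMod p)), ?_⟩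
  rw [autEquivZmod_symm_apply_natCast (kum_irr p Λ η hk) M hk.pow hζ 1, pow_one, Algebra.smul_def]

include hζ hk in
theorem kum_root (τ : M ≃ₐ[L] M) : ∃ i : ℕ, τ η = algebraMap L M ζ ^ i * η := by
  have hp : p.Prime := Fact.out
  have : NeZero p := ⟨hp.ne_zero⟩
  by_cases h0 : η = 0
  · exact ⟨0, by rw [h0, map_zero, mul_zero]⟩
  have h1 : (τ η / η) ^ p = 1 := by
    rw [div_pow, ← map_pow, hk.pow, AlgEquiv.commutes, div_self]
    rw [← hk.pow]
    exact pow_ne_zero _ h0
  obtain ⟨i, -, hi⟩ := (hζ.map_of_injective (algebraMap L M).injective).eq_pow_of_pow_eq_one h1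
  refine ⟨i, ?_⟩
  rw [hi, div_mul_cancel₀ _ h0]

include hk in
theorem kum_ext (τ : M ≃ₐ[L] M) (h : τ η = η) : τ = 1 := by
  have h2 : ∀ x : M, x ∈ IntermediateField.adjoin L {η} → τ x = x := by
    intro x hx
    induction hx using IntermediateField.adjoin_induction with
    | mem y hy =>
      rw [Set.mem_singleton_iff] at hy
      rw [hy, h]
    | algebraMap y => exact τ.commutes y
    | add y z _ _ hy hz => rw [map_add, hy, hz]
    | inv y _ hy => rw [map_inv₀, hy]
    | mul y z _ _ hy hz => rw [map_mul, hy, hz]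
  ext x
  rw [h2 x (by rw [hk.gen]; exact IntermediateField.mem_top), AlgEquiv.one_apply]

end H91SP
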