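import Pool.Agent.H91.SP.Cyc
import Pool.Agent.H91.SP.Kum1

/-!
# Project SP, module Kum2 (block KUM)

`K ⊆ L = K(ζ) ⊆ M = L(η)`, `η ^ p = Λ`, `Λ` in the `ω`-eigenspace: `M / K` is Galois and `Gal(M/L)` is
central in `Gal(M/K)`.

PROOFS. `kum_galois`: let `s` be a `K`-embedding of `M` into an algebraic closure of `M`. It maps `L`
to `L` (`L / K` is Galois), say by `σ`, `σ ζ = ζ ^ t` (`exists_t`), and
`s(η) ^ p = σ Λ = Λ ^ t y ^ p = (η ^ t y) ^ p`, so `s(η) = ζ ^ i η ^ t y ∈ M` and `s(M) ⊆ M`.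
`kum_central`: it is enough to compare on `L` and at `η`. `s` restricts to `σ ∈ Gal(L/K)`,
`σ ζ = ζ ^ t`; as above `s η = ζ ^ i η ^ t y`, `y ∈ L`. `τ η = ζ ^ j η`. So
`τ (s η) = ζ ^ (j t) s η = s (ζ ^ j η) = s (τ η)`. On `L`: `τ` is the identity and `s L = L`.
-/

namespace H91SP

open NumberField IsDedekindDomain

private theorem root_form {Ω : Type*} [Field Ω] (p : ℕ) [Fact p.Prime] {z w e y l : Ω}
    (hz : IsPrimitiveRoot z p) (he : e ^ p = l) (hl : l ≠ 0) (hy : y ≠ 0) (t : ℕ)
    (h : w ^ p = l ^ t * y ^ p) : ∃ i : ℕ, w = z ^ i * (e ^ t * y) := by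
  have hp : p.Prime := Fact.out
  have : NeZero p := ⟨hp.ne_zero⟩
  have he0 : e ≠ 0 := by
    rintro rfl
    exact hl (by rw [← he, zero_pow hp.ne_zero])
  have h0 : e ^ t * y ≠ 0 := mul_ne_zero (pow_ne_zero _ he0) hy
  have h1 : (w / (e ^ t * y)) ^ p = 1 := by
    rw [div_pow, h, mul_pow, ← pow_mul, mul_comm t p, pow_mul, he, div_self]
    exact mul_ne_zero (pow_ne_zero _ hl) (pow_ne_zero _ hy)
  obtain ⟨i, -, hi⟩ := hz.eq_pow_of_pow_eq_one h1
  refine ⟨i, ?_⟩
  rw [hi, div_mul_cancel₀ _ h0]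

variable (p : ℕ) [Fact p.Prime] (K : Type*) {L M : Type*} [Field K] [NumberField K]
  [Field L] [NumberField L] [Algebra K L] [IsCyclotomicExtension {p} K L]
  [Field M] [NumberField M] [Algebra L M] [Algebra K M] [IsScalarTower K L M]
  (ζ : L) (hζ : IsPrimitiveRoot ζ p) (Λ : L) (hΛ0 : Λ ≠ 0) (η : M) (hk : KumExt p Λ η)
  (hE : Eig p K ζ Λ)

include hζ hΛ0 hk hE in
theorem kum_galois : IsGalois K M := by
  have hp : p.Prime := Fact.out
  have : NeZero p := ⟨hp.ne_zero⟩
  have gKL : IsGalois K L := IsCyclotomicExtension.isGalois {p} K L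
  have gLM : IsGalois L M := kum_isGalois p ζ hζ Λ η hk
  have algM : Algebra.IsAlgebraic K M := Algebra.IsAlgebraic.of_finite K M
  have ac : IsAlgClosure K (AlgebraicClosure M) := IsAlgClosure.ofAlgebraic K M _
  have nΩ : Normal K (AlgebraicClosure M) := inferInstance
  have hΩ : IsPrimitiveRoot (algebraMap L (AlgebraicClosure M) ζ) p :=
    hζ.map_of_injective (algebraMap L (AlgebraicClosure M)).injective
  have key : ∀ (φ : M →ₐ[K] AlgebraicClosure M) (x : M),
      ∃ m : M, algebraMap M (AlgebraicClosure M) m = φ x := by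
    intro φ x
    have hL : ∀ y : L, φ (algebraMap L M y) =
        algebraMap L (AlgebraicClosure M) (φ.restrictNormal' L y) :=
      fun y => (AlgHom.restrictNormal_commutes φ L y).symm
    obtain ⟨t, ht, hσ⟩ := exists_t p K ζ hζ (φ.restrictNormal' L)
    obtain ⟨y, hy0, hy⟩ := hE (φ.restrictNormal' L) t ht hσ
    have hφ : (φ η) ^ p = (algebraMap L (AlgebraicClosure M) Λ) ^ t *
        (algebraMap L (AlgebraicClosure M) y) ^ p := by
      rw [← map_pow, hk.pow, hL, hy, map_mul, map_pow, map_pow]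
    have hηp : (algebraMap M (AlgebraicClosure M) η) ^ p = algebraMap L (AlgebraicClosure M) Λ := by
      rw [← map_pow, hk.pow, ← IsScalarTower.algebraMap_apply]
    obtain ⟨i, hi⟩ := root_form p hΩ hηp
      ((map_ne_zero (algebraMap L (AlgebraicClosure M))).2 hΛ0)
      ((map_ne_zero (algebraMap L (AlgebraicClosure M))).2 hy0) t hφ
    have h2 : ∀ x : M, x ∈ IntermediateField.adjoin L {η} →
        ∃ m : M, algebraMap M (AlgebraicClosure M) m = φ x := by
      intro x hx
      induction hx using IntermediateField.adjoin_induction with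
      | mem z hz =>
        rw [Set.mem_singleton_iff] at hz
        refine ⟨algebraMap L M ζ ^ i * (η ^ t * algebraMap L M y), ?_⟩
        rw [hz, hi, map_mul, map_pow, map_mul, map_pow, ← IsScalarTower.algebraMap_apply,
          ← IsScalarTower.algebraMap_apply]
      | algebraMap z =>
        refine ⟨algebraMap L M (φ.restrictNormal' L z), ?_⟩
        rw [hL, ← IsScalarTower.algebraMap_apply]
      | add y z _ _ hy hz =>
        obtain ⟨a, ha⟩ := hy
        obtain ⟨b, hb⟩ := hz
        exact ⟨a + b, by rw [map_add, map_add, ha, hb]⟩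
      | inv y _ hy =>
        obtain ⟨a, ha⟩ := hy
        exact ⟨a⁻¹, by rw [map_inv₀, map_inv₀, ha]⟩
      | mul y z _ _ hy hz =>
        obtain ⟨a, ha⟩ := hy
        obtain ⟨b, hb⟩ := hz
        exact ⟨a * b, by rw [map_mul, map_mul, ha, hb]⟩
    exact h2 x (by rw [hk.gen]; exact IntermediateField.mem_top)
  have hn : Normal K (IsScalarTower.toAlgHom K M (AlgebraicClosure M)).fieldRange := by
    rw [IntermediateField.normal_iff_forall_fieldRange_le]
    rintro σ z ⟨⟨w, m, hm⟩, rfl⟩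
    obtain ⟨m', hm'⟩ := key (σ.comp (AlgEquiv.ofInjectiveField
      (IsScalarTower.toAlgHom K M (AlgebraicClosure M))).toAlgHom) m
    refine ⟨m', ?_⟩
    refine hm'.trans ?_
    show σ _ = σ _
    congr 1
    exact Subtype.ext hm
  let e : (IsScalarTower.toAlgHom K M (AlgebraicClosure M)).fieldRange ≃ₐ[K] M :=
    (AlgEquiv.ofInjectiveField (IsScalarTower.toAlgHom K M (AlgebraicClosure M))).symm
  have : Normal K M := Normal.of_algEquiv e
  exact ⟨⟩

include hζ hΛ0 hk hE in
theorem kum_central (τ : M ≃ₐ[L] M) (s : M ≃ₐ[K] M) (x : M) : s (τ x) = τ (s x) := by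
  have hp : p.Prime := Fact.out
  have : NeZero p := ⟨hp.ne_zero⟩
  have gKL : IsGalois K L := IsCyclotomicExtension.isGalois {p} K L
  have hL : ∀ y : L, s (algebraMap L M y) = algebraMap L M (s.restrictNormal L y) :=
    fun y => (AlgEquiv.restrictNormal_commutes s L y).symm
  obtain ⟨t, ht, hσ⟩ := exists_t p K ζ hζ (s.restrictNormal L)
  obtain ⟨y, hy0, hy⟩ := hE (s.restrictNormal L) t ht hσ
  obtain ⟨j, hj⟩ := kum_root p ζ hζ Λ η hk τ
  have hs : (s η) ^ p = (algebraMap L M Λ) ^ t * (algebraMap L M y) ^ p := by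
    rw [← map_pow, hk.pow, hL, hy, map_mul, map_pow, map_pow]
  obtain ⟨i, hi⟩ := root_form p (hζ.map_of_injective (algebraMap L M).injective) hk.pow
      ((map_ne_zero (algebraMap L M)).2 hΛ0) ((map_ne_zero (algebraMap L M)).2 hy0) t hs
  have h2 : ∀ x : M, x ∈ IntermediateField.adjoin L {η} → s (τ x) = τ (s x) := by
    intro x hx
    induction hx using IntermediateField.adjoin_induction with
    | mem z hz =>
      rw [Set.mem_singleton_iff] at hz
      rw [hz, hj, map_mul, map_pow, hL, hσ, hi, map_pow]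
      simp only [map_mul, map_pow, AlgEquiv.commutes, hj]
      ring
    | algebraMap z => rw [AlgEquiv.commutes, hL, AlgEquiv.commutes]
    | add y z _ _ hy hz => rw [map_add, map_add, map_add, map_add, hy, hz]
    | inv y _ hy => rw [map_inv₀, map_inv₀, map_inv₀, map_inv₀, hy]
    | mul y z _ _ hy hz => rw [map_mul, map_mul, map_mul, map_mul, hy, hz]
  exact h2 x (by rw [hk.gen]; exact IntermediateField.mem_top)

end H91SP
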