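import Pool.Agent.H91.SP.Defs

/-!
# Project SP, module Und (block LOC)

Places of `L` and of `K`: `HeightOneSpectrum.valuation_liesOver` in Mathlib.
-/

namespace H91SP

open NumberField IsDedekindDomain

/-- valuations of elements of `K` at a place lying over `v` -/
theorem sp_val_over (K L : Type*) [Field K] [NumberField K] [Field L] [NumberField L]
    [Algebra K L] (v : HeightOneSpectrum (𝓞 K)) (w : HeightOneSpectrum (𝓞 L))
    [w.asIdeal.LiesOver v.asIdeal] :
    0 < v.asIdeal.ramificationIdx' w.asIdeal ∧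
      ∀ x : K, w.valuation L (algebraMap K L x) =
        v.valuation K x ^ v.asIdeal.ramificationIdx' w.asIdeal := by
  refine ⟨Nat.pos_of_ne_zero
    (Ideal.IsDedekindDomain.ramificationIdx'_ne_zero_of_liesOver w.asIdeal v.ne_bot), ?_⟩
  intro x
  exact (HeightOneSpectrum.valuation_liesOver L v w x).symm

theorem exists_under (K L : Type*) [Field K] [NumberField K] [Field L] [NumberField L]
    [Algebra K L] (w : HeightOneSpectrum (𝓞 L)) :
    ∃ (v : HeightOneSpectrum (𝓞 K)) (e : ℕ), 0 < e ∧ w.asIdeal.LiesOver v.asIdeal ∧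
      ∀ x : K, w.valuation L (algebraMap K L x) = v.valuation K x ^ e := by
  have h : w.asIdeal.LiesOver (w.under (𝓞 K)).asIdeal := ⟨rfl⟩
  obtain ⟨h1, h2⟩ := sp_val_over K L (w.under (𝓞 K)) w
  exact ⟨w.under (𝓞 K), _, h1, h, h2⟩

theorem exists_above (K L : Type*) [Field K] [NumberField K] [Field L] [NumberField L]
    [Algebra K L] (v : HeightOneSpectrum (𝓞 K)) :
    ∃ (w : HeightOneSpectrum (𝓞 L)) (e : ℕ), 0 < e ∧ w.asIdeal.LiesOver v.asIdeal ∧
      ∀ x : K, w.valuation L (algebraMap K L x) = v.valuation K x ^ e := by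
  have hvm : v.asIdeal.IsMaximal := v.isMaximal
  obtain ⟨M, hM, hlie⟩ := Ideal.exists_maximal_ideal_liesOver_of_isIntegral
    (S := 𝓞 L) v.asIdeal
  have hMne : M ≠ ⊥ := Ideal.ne_bot_of_liesOver_of_ne_bot v.ne_bot M
  have h : (⟨M, hM.isPrime, hMne⟩ : HeightOneSpectrum (𝓞 L)).asIdeal.LiesOver v.asIdeal := hlie
  obtain ⟨h1, h2⟩ := sp_val_over K L v ⟨M, hM.isPrime, hMne⟩
  exact ⟨⟨M, hM.isPrime, hMne⟩, _, h1, h, h2⟩

/-- valuation and membership of a rational prime -/
theorem natCast_mem_iff {L : Type*} [Field L] [NumberField L] (w : HeightOneSpectrum (𝓞 L))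
    (n : ℕ) : (n : 𝓞 L) ∈ w.asIdeal ↔ w.valuation L (n : L) < 1 := by
  rw [← HeightOneSpectrum.valuation_lt_one_iff_mem (K := L)]
  simp

end H91SP
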