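import Pool.Agent.H91.SP.LocA
import Pool.Agent.H91.SP.Und
import Pool.Agent.H91.SP.Kum1

/-!
# Project SP, module Ram1 (block KUM)

`M = L(η)`, `η ^ p = Λ`: `M / L` has trivial inertia groups if all valuations of `Λ` are divisible by
`p` and `Λ = 1` modulo `(1 - ζ) ^ p` at the places above `p`.

PROOF. Suppose `τ ≠ 1`, `τ η = ζ ^ i η` (`kum_root`), `ζ ^ i ≠ 1` (`kum_ext`), so that
`(1 - ζ ^ i) = ε (1 - ζ)` with a unit `ε` of `𝓞 L`.
`P` not above `p`: let `w` be the place of `L` below `P` (`exists_under`), `w(Λ) = w(x) ^ p`, so `P(η) = P(x)`,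
and `y = η / x` satisfies `P(y) = 1`, `τ y - y = (ζ ^ i - 1) y`, but `P(ζ ^ i - 1) = 1` since `ζ ^ i - 1` divides
`p` and `p ∉ P`: contradiction to `hτ`.
`P` above `p`: put `π = 1 - ζ`, `y = (η - 1) / π`. Claim `P(y) ≤ 1`: from `(1 + π y) ^ p = Λ`,
`y ^ p = (Λ - 1) / π ^ p - ∑_{0<j<p} binom(p, j) π ^ (j - p) y ^ j`; `P(p) = P(π) ^ (p - 1)` (as
`p = ∏_{0<j<p} (1 - ζ ^ j)` = unit times `π ^ (p - 1)`), so the coefficients have `P ≤ 1`; if `P(y) > 1`
the left side is larger than every term on the right. Now `τ y - y = (ζ ^ i - 1) η / π`, and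
`P(ζ ^ i - 1) = P(π)`, `P(η) = 1` (`P(Λ) = 1`): contradiction to `hτ`.
-/

namespace H91SP

open NumberField IsDedekindDomain

theorem ram1 (p : ℕ) [Fact p.Prime] {L M : Type*} [Field L] [NumberField L] [Field M]
    [NumberField M] [Algebra L M] (ζ : L) (hζ : IsPrimitiveRoot ζ p) (Λ : L) (hΛ0 : Λ ≠ 0)
    (η : M) (hk : KumExt p Λ η) (hPV : PV p Λ)
    (hloc : ∀ w : HeightOneSpectrum (𝓞 L), (p : 𝓞 L) ∈ w.asIdeal →
      w.valuation L (Λ - 1) ≤ w.valuation L (1 - ζ) ^ p)
    (P : HeightOneSpectrum (𝓞 M)) (τ : M ≃ₐ[L] M)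
    (hτ : ∀ x : M, P.valuation M x ≤ 1 → P.valuation M (τ x - x) < 1) : τ = 1 := by
  have hp : p.Prime := Fact.out
  have hζM : IsPrimitiveRoot (algebraMap L M ζ) p := hζ.map_of_injective (algebraMap L M).injective
  obtain ⟨i, hi⟩ := kum_root p ζ hζ Λ η hk τ
  by_cases hcop : i.Coprime p
  swap
  · -- `ζ ^ i = 1`
    have hdvd : p ∣ i := by
      by_contra hcon
      exact hcop ((Nat.Prime.coprime_iff_not_dvd hp).2 hcon).symm
    have h1 : algebraMap L M ζ ^ i = 1 := (hζM.pow_eq_one_iff_dvd i).2 hdvd
    exact kum_ext p Λ η hk τ (by rw [hi, h1, one_mul])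
  exfalso
  have hpi0 : P.valuation M (1 - algebraMap L M ζ) ≠ 0 := sp_val_pi_ne hζM P
  have hpii : P.valuation M (1 - algebraMap L M ζ ^ i) = P.valuation M (1 - algebraMap L M ζ) :=
    sp_val_one_sub_pow hζM P i hcop
  have hpp : P.valuation M (p : M) = P.valuation M (1 - algebraMap L M ζ) ^ (p - 1) :=
    sp_val_p hζM P
  have hη0 : η ≠ 0 := by
    rintro rfl
    have h2 := hk.pow
    rw [zero_pow hp.ne_zero] at h2
    exact hΛ0 ((map_eq_zero _).1 h2.symm)
  have hτη : τ η - η = -((1 - algebraMap L M ζ ^ i) * η) := by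
    rw [hi]; ring
  have hηp : P.valuation M η ^ p = P.valuation M (algebraMap L M Λ) := by
    rw [← map_pow, hk.pow]
  obtain ⟨w, e, he, -, hval⟩ := exists_under L M P
  by_cases hP : (p : 𝓞 M) ∈ P.asIdeal
  · -- above `p`
    have hPp := hP
    rw [natCast_mem_iff] at hPp
    have hwp : (p : 𝓞 L) ∈ w.asIdeal := by
      rw [natCast_mem_iff]
      by_contra hcon
      have h3 : P.valuation M (p : M) = w.valuation L (p : L) ^ e := by
        rw [← hval]; simp
      rw [h3] at hPp
      exact absurd hPp (not_lt.2 (one_le_pow₀ (not_lt.1 hcon)))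
    have hlt : P.valuation M (1 - algebraMap L M ζ) < 1 := sp_val_pi_lt hζM P hP
    have hΛ1 : P.valuation M (algebraMap L M Λ - 1) ≤ P.valuation M (1 - algebraMap L M ζ) ^ p := by
      have h4 := pow_le_pow_left₀ zero_le (hloc w hwp) e
      have e1 : algebraMap L M (Λ - 1) = algebraMap L M Λ - 1 := by rw [map_sub, map_one]
      have e2 : algebraMap L M (1 - ζ) = 1 - algebraMap L M ζ := by rw [map_sub, map_one]
      rw [← hval, e1, ← pow_mul, mul_comm p e, pow_mul, ← hval, e2] at h4
      exact h4
    have hΛlt : P.valuation M (algebraMap L M Λ - 1) < 1 :=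
      hΛ1.trans_lt (pow_lt_one₀ zero_le hlt hp.ne_zero)
    have hΛv : P.valuation M (algebraMap L M Λ) = 1 := by
      have h5 : algebraMap L M Λ = (algebraMap L M Λ - 1) + 1 := by ring
      rw [h5, Valuation.map_add_eq_of_lt_right _ (by rw [Valuation.map_one]; exact hΛlt),
        Valuation.map_one]
    have hηv : P.valuation M η = 1 := by
      rw [hΛv] at hηp
      exact (pow_eq_one_iff.1 hηp).resolve_right hp.ne_zero
    have hπ0 : (1 - algebraMap L M ζ) ≠ 0 := (Valuation.ne_zero_iff _).1 hpi0
    obtain ⟨y, hy⟩ : ∃ y : M, y = (η - 1) / (1 - algebraMap L M ζ) := ⟨_, rfl⟩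
    have hy1 : (1 - algebraMap L M ζ) * y + 1 = η := by
      rw [hy, mul_div_cancel₀ _ hπ0]; ring
    have hyv : P.valuation M y ≤ 1 := by
      by_contra hcon
      rw [not_le] at hcon
      have hexp : ((1 - algebraMap L M ζ) * y) ^ p = (algebraMap L M Λ - 1) -
          ∑ j ∈ Finset.Ico 1 p, ((1 - algebraMap L M ζ) * y) ^ j * (p.choose j : M) := by
        have h6 := add_pow ((1 - algebraMap L M ζ) * y) 1 p
        rw [hy1, hk.pow, Finset.sum_range_succ, Finset.range_eq_Ico,
          Finset.sum_eq_sum_Ico_succ_bot hp.pos] at h6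
        simp only [one_pow, mul_one, Nat.choose_self, Nat.cast_one, Nat.choose_zero_right,
          pow_zero, zero_add] at h6
        rw [h6]; ring
      have hpos : 0 < P.valuation M (1 - algebraMap L M ζ) ^ p * P.valuation M y ^ p := by
        refine mul_pos (pow_pos (zero_lt_iff.2 hpi0) _) (pow_pos (lt_trans zero_lt_one hcon) _)
      have hbig : P.valuation M (((1 - algebraMap L M ζ) * y) ^ p) <
          P.valuation M (1 - algebraMap L M ζ) ^ p * P.valuation M y ^ p := by
        rw [hexp]
        refine Valuation.map_sub_lt _ ?_ ?_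
        · refine hΛ1.trans_lt ?_
          refine lt_mul_of_one_lt_right (pow_pos (zero_lt_iff.2 hpi0) _) ?_
          exact one_lt_pow₀ hcon hp.ne_zero
        · refine Valuation.map_sum_lt _ hpos.ne' ?_
          intro j hj
          rw [Finset.mem_Ico] at hj
          obtain ⟨c, hc⟩ : p ∣ p.choose j := hp.dvd_choose_self (by omega) hj.2
          have h7 : P.valuation M (p.choose j : M) ≤ P.valuation M (1 - algebraMap L M ζ) ^ (p - 1) := by
            rw [hc, Nat.cast_mul, map_mul, hpp]
            have h8 : P.valuation M (c : M) ≤ 1 := by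
              have := P.valuation_le_one (K := M) (c : 𝓞 M)
              simpa using this
            calc _ ≤ P.valuation M (1 - algebraMap L M ζ) ^ (p - 1) * 1 := by gcongr
              _ = _ := mul_one _
          rw [map_mul, map_pow, map_mul]
          calc (P.valuation M (1 - algebraMap L M ζ) * P.valuation M y) ^ j *
                P.valuation M (p.choose j : M)
              ≤ (P.valuation M (1 - algebraMap L M ζ) * P.valuation M y) ^ j *
                P.valuation M (1 - algebraMap L M ζ) ^ (p - 1) := by gcongr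
            _ = P.valuation M (1 - algebraMap L M ζ) ^ (p - 1 + j) * P.valuation M y ^ j := by
                rw [mul_pow, pow_add, mul_right_comm,
                  mul_comm (P.valuation M (1 - algebraMap L M ζ) ^ j)]
            _ ≤ P.valuation M (1 - algebraMap L M ζ) ^ p * P.valuation M y ^ j := by
                gcongr ?_ * _
                exact pow_le_pow_of_le_one zero_le hlt.le (by omega)
            _ < P.valuation M (1 - algebraMap L M ζ) ^ p * P.valuation M y ^ p := by
                refine mul_lt_mul_of_pos_left ?_ (pow_pos (zero_lt_iff.2 hpi0) _)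
                exact pow_lt_pow_right₀ hcon hj.2
      rw [map_pow, map_mul, mul_pow] at hbig
      exact lt_irrefl _ hbig
    have hτy : τ y - y = -((1 - algebraMap L M ζ ^ i) * η) / (1 - algebraMap L M ζ) := by
      have h9 : τ (1 - algebraMap L M ζ) = 1 - algebraMap L M ζ := by
        rw [map_sub, map_one, AlgEquiv.commutes]
      rw [← hτη, hy, map_div₀, h9, map_sub, map_one]
      ring
    have h10 := hτ y hyv
    rw [hτy, map_div₀, Valuation.map_neg, map_mul, hηv, hpii, mul_one, div_self hpi0] at h10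
    exact lt_irrefl _ h10
  · -- not above `p`
    obtain ⟨x, hx0, hx⟩ := hPV w
    have h3 : P.valuation M η = P.valuation M (algebraMap L M x) := by
      have h4 : P.valuation M η ^ p = P.valuation M (algebraMap L M x) ^ p := by
        rw [hηp, hval, hval, hx, ← pow_mul, ← pow_mul, mul_comm]
      exact (pow_left_inj₀ zero_le zero_le hp.ne_zero).1 h4
    have hx0' : P.valuation M (algebraMap L M x) ≠ 0 := by
      rw [Valuation.ne_zero_iff]
      simpa using hx0
    have h5 : P.valuation M (η / algebraMap L M x) = 1 := by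
      rw [map_div₀, h3, div_self hx0']
    have h6 := hτ (η / algebraMap L M x) h5.le
    have h7 : τ (η / algebraMap L M x) - η / algebraMap L M x =
        -((1 - algebraMap L M ζ ^ i) * (η / algebraMap L M x)) := by
      rw [map_div₀, AlgEquiv.commutes, ← sub_div, hτη]
      ring
    rw [h7, Valuation.map_neg, map_mul, h5, mul_one, hpii] at h6
    apply hP
    rw [natCast_mem_iff, hpp]
    exact pow_lt_one₀ zero_le h6 (by have := hp.one_lt; omega)

end H91SP
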