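import Pool.Agent.H91.SP.Und

/-!
# Project SP, module Ram2 (block KUM)

`K ⊆ L ⊆ M`, `[L : K] = p - 1`, `M / K` Galois, the inertia groups of `M / L` are trivial; `K ⊆ F ⊆ M`,
`F / K` Galois of degree `p`. Then `F / K` is unramified.

PROOF. Let `P` be a prime of `F`, `Q` a prime of `M` above `P`, `q` the prime of `K` below, `I` the inertia
group of `Q` in `Gal(M/K)`: `|I| = e(Q / q)` (`Ideal.card_inertia_eq_ramificationIdxIn`; the residue fields are
finite, hence perfect). `I ∩ Gal(M/L)` is trivial by hypothesis (for `x` with `Q(x) ≤ 1`, `x = r / s` with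
`r s ∈ 𝓞 M`, `s ∉ Q`, one has `τ x - x = ((τ r - r) s - r (τ s - s)) / (s τ s)`, and `τ s ∉ Q`), so `|I|`
divides the index `p - 1` of `Gal(M/L)` (`I` and `Gal(M/L)`, of order `p`: `I` is a subgroup with trivial
intersection with the normal subgroup `Gal(M/L)`, it embeds into the quotient of order `p - 1`).
`e(P / q)` divides `e(Q / q)` (`Ideal.ramificationIdx_below_dvd`), hence `p - 1`, and it divides
`[F : K] = p` (`e f g = p`). So `e(P / q) = 1`.
-/

namespace H91SP

open NumberField IsDedekindDomain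

/-- an element of the inertia group acts trivially on the residue field, in terms of valuations -/
theorem ram2_val {K M : Type*} [Field K] [Field M] [NumberField M] [Algebra K M]
    (Q : HeightOneSpectrum (𝓞 M)) (σ : M ≃ₐ[K] M)
    (hσ : σ ∈ Q.asIdeal.inertia (M ≃ₐ[K] M)) (x : M) (hx : Q.valuation M x ≤ 1) :
    Q.valuation M (σ x - x) < 1 := by
  have key : ∀ r : 𝓞 M, Q.valuation M (σ (algebraMap (𝓞 M) M r) - algebraMap (𝓞 M) M r) < 1 := by
    intro r
    have h1 : σ • r - r ∈ Q.asIdeal := hσ r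
    have h2 : σ (algebraMap (𝓞 M) M r) - algebraMap (𝓞 M) M r =
        algebraMap (𝓞 M) M (σ • r - r) := by
      rw [map_sub]
      rfl
    rw [h2]
    exact (Q.valuation_lt_one_iff_mem _).2 h1
  obtain ⟨n, d, hnd⟩ := HeightOneSpectrum.exists_primeCompl_mul_eq_of_integer Q x hx
  have hd : Q.valuation M (algebraMap (𝓞 M) M (d : 𝓞 M)) = 1 :=
    Q.valuation_eq_one_iff_notMem.2 d.2
  have hn : Q.valuation M (algebraMap (𝓞 M) M n) ≤ 1 := Q.valuation_le_one n
  have hσd : Q.valuation M (σ (algebraMap (𝓞 M) M (d : 𝓞 M))) = 1 := by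
    have h := key (d : 𝓞 M)
    have h3 : σ (algebraMap (𝓞 M) M (d : 𝓞 M)) =
        (σ (algebraMap (𝓞 M) M (d : 𝓞 M)) - algebraMap (𝓞 M) M (d : 𝓞 M)) +
          algebraMap (𝓞 M) M (d : 𝓞 M) := by ring
    rw [h3, Valuation.map_add_eq_of_lt_right _ (by rw [hd]; exact h)]
    exact hd
  have hσx : σ x * σ (algebraMap (𝓞 M) M (d : 𝓞 M)) = σ (algebraMap (𝓞 M) M n) := by
    rw [← map_mul, hnd]
  have h4 : (σ x - x) * (algebraMap (𝓞 M) M (d : 𝓞 M) * σ (algebraMap (𝓞 M) M (d : 𝓞 M))) =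
      (σ (algebraMap (𝓞 M) M n) - algebraMap (𝓞 M) M n) * algebraMap (𝓞 M) M (d : 𝓞 M) -
        algebraMap (𝓞 M) M n *
          (σ (algebraMap (𝓞 M) M (d : 𝓞 M)) - algebraMap (𝓞 M) M (d : 𝓞 M)) := by
    linear_combination (algebraMap (𝓞 M) M (d : 𝓞 M)) * hσx -
      σ (algebraMap (𝓞 M) M (d : 𝓞 M)) * hnd
  have h5 : Q.valuation M ((σ x - x) *
      (algebraMap (𝓞 M) M (d : 𝓞 M) * σ (algebraMap (𝓞 M) M (d : 𝓞 M)))) < 1 := by
    rw [h4]
    refine Valuation.map_sub_lt _ ?_ ?_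
    · rw [map_mul, hd, mul_one]
      exact key n
    · rw [map_mul]
      exact mul_lt_one_of_nonneg_of_lt_one_right hn zero_le (key d)
  rwa [map_mul, map_mul, hd, hσd, mul_one, mul_one] at h5

theorem ram2 (p : ℕ) [Fact p.Prime] (K L M : Type*) [Field K] [NumberField K] [Field L]
    [NumberField L] [Field M] [NumberField M] [Algebra K L] [Algebra L M] [Algebra K M]
    [IsScalarTower K L M] [IsGalois K M] [IsGalois K L] (hL : Module.finrank K L = p - 1)
    (h1 : ∀ (P : HeightOneSpectrum (𝓞 M)) (τ : M ≃ₐ[L] M),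
      (∀ x : M, P.valuation M x ≤ 1 → P.valuation M (τ x - x) < 1) → τ = 1)
    (F : IntermediateField K M) [IsGalois K F] (hF : Module.finrank K F = p) :
    ∀ P : Ideal (𝓞 F), P.IsPrime → P ≠ ⊥ → P.ramificationIdx (𝓞 K) = 1 := by
  intro P hP hP0
  have hp : p.Prime := Fact.out
  have hPm : P.IsMaximal := hP.isMaximal hP0
  obtain ⟨Q, hQ, hlie⟩ := Ideal.exists_maximal_ideal_liesOver_of_isIntegral P (S := 𝓞 M)
  have hQ0 : Q ≠ ⊥ := Ideal.ne_bot_of_liesOver_of_ne_bot hP0 Q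
  have hQp : Q.IsPrime := hQ.isPrime
  have hlie2 : Q.LiesOver (P.under (𝓞 K)) := Ideal.LiesOver.trans Q P (P.under (𝓞 K))
  have hcard := Ideal.card_inertia_eq_ramificationIdxIn (G := M ≃ₐ[K] M) (P.under (𝓞 K)) Q
  rw [Ideal.ramificationIdxIn_eq_ramificationIdx (P.under (𝓞 K)) Q (M ≃ₐ[K] M)] at hcard
  -- the inertia group embeds into `Gal(L/K)`
  have hinj : Function.Injective
      ((AlgEquiv.restrictNormalHom (F := K) (K₁ := M) L).comp (Q.inertia (M ≃ₐ[K] M)).subtype) := by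
    rw [injective_iff_map_eq_one]
    rintro ⟨σ, hσ⟩ h
    have h2 : ∀ y : L, σ (algebraMap L M y) = algebraMap L M y := by
      intro y
      have h3 := AlgEquiv.restrictNormal_commutes σ L y
      have h4 : σ.restrictNormal L = 1 := h
      rw [h4] at h3
      exact h3.symm
    have h5 := h1 ⟨Q, hQp, hQ0⟩ (AlgEquiv.ofRingEquiv (f := σ.toRingEquiv) h2)
      (fun x hx => ram2_val ⟨Q, hQp, hQ0⟩ σ hσ x hx)
    ext x
    exact DFunLike.congr_fun h5 x
  have hd1 : Nat.card (Q.inertia (M ≃ₐ[K] M)) ∣ p - 1 := by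
    have h := Subgroup.card_dvd_of_injective _ hinj
    rwa [IsGalois.card_aut_eq_finrank K L, hL] at h
  have hd2 : P.ramificationIdx (𝓞 K) ∣ p - 1 := by
    refine (Ideal.ramificationIdx_below_dvd (R := 𝓞 K) P Q).trans ?_
    rwa [hcard] at hd1
  have hd3 : P.ramificationIdx (𝓞 K) ∣ p := by
    have h := Ideal.ncard_primesOver_mul_ramificationIdxIn_mul_inertiaDegIn (P.under (𝓞 K)) (𝓞 F)
      (F ≃ₐ[K] F)
    rw [Ideal.ramificationIdxIn_eq_ramificationIdx (P.under (𝓞 K)) P (F ≃ₐ[K] F),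
      IsGalois.card_aut_eq_finrank K F, hF] at h
    rw [mul_left_comm] at h
    exact Dvd.intro _ h
  rcases (Nat.dvd_prime hp).1 hd3 with h | h
  · exact h
  · exfalso
    rw [h] at hd2
    have := Nat.le_of_dvd (by have := hp.two_le; omega) hd2
    have := hp.two_le
    omega

end H91SP
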