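import Pool.Agent.H91.SP.LocPow
import Pool.Agent.H91.SP.Kum2
import Pool.Agent.H91.SP.Grp
import Pool.Agent.H91.SP.Ram1
import Pool.Agent.H91.SP.Ram2
import Pool.Agent.H91.SP.H94

/-!
# Project SP, module Inj (block KUM)

Step (8). `Λ` in the `ω`-eigenspace, all valuations divisible by `p`, `Λ = 1` modulo `π ^ 2` at the
places above `p`, `p ∤ h(K)`, `p` unramified in `K`: then `Λ` is a `p`-th power.

PROOF. Otherwise take `M`, `η` from `kum_exists`, give `M` the `K`-algebra structure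
`((algebraMap L M).comp (algebraMap K L)).toAlgebra`; `loc_pow`, `kum_galois`, `kum_central`, `fix_field`,
`ram1`, `ram2`, `hilbert94` give `p ∣ h(K)`.
-/

namespace H91SP

open NumberField IsDedekindDomain

theorem inj (p : ℕ) [Fact p.Prime] (K : Type*) {L : Type*} [Field K] [NumberField K]
    [Field L] [NumberField L] [Algebra K L] [IsCyclotomicExtension {p} K L]
    (hp2 : p ≠ 2) (hu : Unr p K) (hcl : ¬ p ∣ NumberField.classNumber K)
    (ζ : L) (hζ : IsPrimitiveRoot ζ p) (Λ : L) (hΛ0 : Λ ≠ 0) (hPV : PV p Λ) (hE : Eig p K ζ Λ)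
    (hloc : ∀ w : HeightOneSpectrum (𝓞 L), (p : 𝓞 L) ∈ w.asIdeal →
      w.valuation L (Λ - 1) ≤ w.valuation L (1 - ζ) ^ 2) :
    ∃ y : L, y ^ p = Λ := by
  have hp : p.Prime := Fact.out
  by_contra hno
  push Not at hno
  obtain ⟨M, fM, nM, aM, η, hk⟩ := kum_exists p L ζ hζ Λ hno
  let aK : Algebra K M := ((algebraMap L M).comp (algebraMap K L)).toAlgebra
  have tow : IsScalarTower K L M := IsScalarTower.of_algebraMap_eq (fun _ => rfl)
  have gKL : IsGalois K L := IsCyclotomicExtension.isGalois {p} K L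
  have gKM : IsGalois K M := kum_galois p K ζ hζ Λ hΛ0 η hk hE
  have hc := kum_central p K ζ hζ Λ hΛ0 η hk hE
  have hL := finrank_cyc p K L hu
  have hM := kum_finrank p Λ η hk
  obtain ⟨F, hF, hFd⟩ := fix_field p K L M hL hM hc
  have h1 := ram1 p ζ hζ Λ hΛ0 η hk hPV
    (fun w hw => loc_pow p K hp2 hu ζ hζ w hw Λ hE (hloc w hw))
  have h2 := ram2 p K L M hL h1 F hFd
  exact hcl (hilbert94 p hp hp2 K F hFd h2)

end H91SP
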