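import Pool.Agent.H91.SP.GamEig

/-!
# Project SP, module Lin (block GAM)

First order expansions at a place `w` with `w(1 - ζ) < 1`, step (3).

PROOF of `Lin_Gam`. With `β = b / (a + b)`: `a + ζ^(t') b = (a + b) (1 - (1 - ζ^(t')) β)` and
`1 - ζ^(t') = t' (1 - ζ)` modulo `(1 - ζ)^2` (geometric sum), so `(a + ζ^(t') b) / (a + b)` is
`Lin` with coefficient `- t' β`; its `t`-th power is `Lin` with coefficient `- t t' β`, which is `- β`
modulo `w` (`t t' = 1 mod p`, `w(p) < 1`; a coefficient may be changed by an element of valuation `< 1`,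
here at least by a multiple of `p`, using `w(p) ≤ w(1 - ζ)`), the product over `0 < t < p` has coefficient
`-(p-1) β`, i.e. `β`. The product of the `(a + b)^t` is `(a + b)^(p (p-1)/2)`.
-/

namespace H91SP

open NumberField IsDedekindDomain

theorem sp_natCast_le {L : Type*} [Field L] [NumberField L] (w : HeightOneSpectrum (𝓞 L)) (n : ℕ) :
    w.valuation L (n : L) ≤ 1 := by
  have := w.valuation_le_one (K := L) (n : 𝓞 L)
  simpa using this

theorem sp_intCast_le {L : Type*} [Field L] [NumberField L] (w : HeightOneSpectrum (𝓞 L)) (n : ℤ) :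
    w.valuation L (n : L) ≤ 1 := by
  have := w.valuation_le_one (K := L) (n : 𝓞 L)
  simpa using this

variable {L : Type*} [Field L] [NumberField L] (w : HeightOneSpectrum (𝓞 L)) (ζ : L)

theorem Lin_one : Lin w ζ 1 0 := by
  refine ⟨by simp, by simp⟩

theorem Lin_zeta : Lin w ζ ζ (-1) := by
  refine ⟨by simp, ?_⟩
  have : ζ - 1 - -1 * (1 - ζ) = 0 := by ring
  rw [this]
  simp

theorem sp_Lin_val (hπ : w.valuation L (1 - ζ) < 1) (u c : L) (hu : Lin w ζ u c) :
    w.valuation L u = 1 := by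
  have h1 : w.valuation L (u - 1) < 1 := by
    have : u - 1 = (u - 1 - c * (1 - ζ)) + c * (1 - ζ) := by ring
    rw [this]
    refine Valuation.map_add_lt _ ?_ ?_
    · exact lt_of_le_of_lt hu.2 (pow_lt_one₀ zero_le hπ two_ne_zero)
    · rw [map_mul]
      exact lt_of_le_of_lt (mul_le_of_le_one_left' hu.1) hπ
  have h2 : u = 1 + (u - 1) := by ring
  rw [h2, Valuation.map_add_eq_of_lt_left]
  · exact map_one _
  · rw [map_one]; exact h1

theorem Lin_mul (hπ : w.valuation L (1 - ζ) < 1) (u v c d : L) (hu : Lin w ζ u c)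
    (hv : Lin w ζ v d) : Lin w ζ (u * v) (c + d) := by
  refine ⟨(Valuation.map_add_le _ hu.1 hv.1), ?_⟩
  have h : u * v - 1 - (c + d) * (1 - ζ) = (u - 1 - c * (1 - ζ)) * v +
      ((v - 1 - d * (1 - ζ)) + c * (1 - ζ) * ((v - 1 - d * (1 - ζ)) + d * (1 - ζ))) := by ring
  have hv1 := sp_Lin_val w ζ hπ v d hv
  have hsq : w.valuation L (1 - ζ) ^ 2 = w.valuation L (1 - ζ) * w.valuation L (1 - ζ) := sq _
  rw [h]
  refine Valuation.map_add_le _ ?_ (Valuation.map_add_le _ hv.2 ?_)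
  · rw [map_mul, hv1, mul_one]; exact hu.2
  · rw [map_mul, map_mul, hsq]
    refine mul_le_mul' (mul_le_of_le_one_left' hu.1) (Valuation.map_add_le _ ?_ ?_)
    · refine hv.2.trans ?_
      rw [hsq]
      exact mul_le_of_le_one_left' hπ.le
    · rw [map_mul]; exact mul_le_of_le_one_left' hv.1

theorem Lin_inv (hπ : w.valuation L (1 - ζ) < 1) (u c : L) (hu : Lin w ζ u c) :
    Lin w ζ u⁻¹ (-c) := by
  refine ⟨by rw [Valuation.map_neg]; exact hu.1, ?_⟩
  have hv1 := sp_Lin_val w ζ hπ u c hu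
  have hu0 : u ≠ 0 := by
    intro h
    rw [h, map_zero] at hv1
    exact zero_ne_one hv1
  have hsq : w.valuation L (1 - ζ) ^ 2 = w.valuation L (1 - ζ) * w.valuation L (1 - ζ) := sq _
  have h : u⁻¹ - 1 - -c * (1 - ζ) = u⁻¹ * (-(u - 1 - c * (1 - ζ)) +
      c * (1 - ζ) * ((u - 1 - c * (1 - ζ)) + c * (1 - ζ))) := by
    field_simp
    ring
  rw [h, map_mul, map_inv₀, hv1, inv_one, one_mul]
  refine Valuation.map_add_le _ ?_ ?_
  · rw [Valuation.map_neg]; exact hu.2
  · rw [map_mul, map_mul, hsq]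
    refine mul_le_mul' (mul_le_of_le_one_left' hu.1) (Valuation.map_add_le _ ?_ ?_)
    · refine hu.2.trans ?_
      rw [hsq]
      exact mul_le_of_le_one_left' hπ.le
    · rw [map_mul]; exact mul_le_of_le_one_left' hu.1

theorem sp_Lin_pow (hπ : w.valuation L (1 - ζ) < 1) (u c : L) (n : ℕ) (hu : Lin w ζ u c) :
    Lin w ζ (u ^ n) (n * c) := by
  induction n with
  | zero => simpa using Lin_one w ζ
  | succ n ih =>
    have := Lin_mul w ζ hπ _ _ _ _ ih hu
    rw [pow_succ, Nat.cast_succ, add_mul, one_mul]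
    exact this

theorem Lin_zpow (hπ : w.valuation L (1 - ζ) < 1) (u c : L) (n : ℤ) (hu : Lin w ζ u c) :
    Lin w ζ (u ^ n) (n * c) := by
  obtain ⟨m, rfl | rfl⟩ := n.eq_nat_or_neg
  · have := sp_Lin_pow w ζ hπ u c m hu
    rw [zpow_natCast, Int.cast_natCast]
    exact this
  · have := Lin_inv w ζ hπ _ _ (sp_Lin_pow w ζ hπ u c m hu)
    rw [zpow_neg, zpow_natCast, Int.cast_neg, Int.cast_natCast, neg_mul]
    exact this

theorem Lin_congr (hπ : w.valuation L (1 - ζ) < 1) (u c d : L) (hu : Lin w ζ u c)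
    (hcd : w.valuation L (c - d) ≤ w.valuation L (1 - ζ)) : Lin w ζ u d := by
  have hsq : w.valuation L (1 - ζ) ^ 2 = w.valuation L (1 - ζ) * w.valuation L (1 - ζ) := sq _
  constructor
  · have : d = c - (c - d) := by ring
    rw [this]
    exact Valuation.map_sub_le _ hu.1 (hcd.trans hπ.le)
  · have : u - 1 - d * (1 - ζ) = (u - 1 - c * (1 - ζ)) + (c - d) * (1 - ζ) := by ring
    rw [this]
    refine Valuation.map_add_le _ hu.2 ?_
    rw [map_mul, hsq]
    exact mul_le_mul_left hcd _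

theorem sp_Lin_prod (hπ : w.valuation L (1 - ζ) < 1) (s : Finset ℕ) (u c : ℕ → L)
    (h : ∀ i ∈ s, Lin w ζ (u i) (c i)) : Lin w ζ (∏ i ∈ s, u i) (∑ i ∈ s, c i) := by
  classical
  induction s using Finset.induction_on with
  | empty => simpa using Lin_one w ζ
  | insert a s ha ih =>
    rw [Finset.prod_insert ha, Finset.sum_insert ha]
    exact Lin_mul w ζ hπ _ _ _ _ (h a (Finset.mem_insert_self a s))
      (ih (fun i hi => h i (Finset.mem_insert_of_mem hi)))

theorem sp_sum_Ico (p : ℕ) (hp : Odd p) : ∑ t ∈ Finset.Ico 1 p, t = (p - 1) / 2 * p := by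
  obtain ⟨m, rfl⟩ := hp
  have h1 : ∑ t ∈ Finset.Ico 1 (2 * m + 1), t = ∑ t ∈ Finset.range (2 * m + 1), t := by
    rw [Finset.range_eq_Ico]
    have := Finset.sum_eq_sum_Ico_succ_bot (show 0 < 2 * m + 1 by omega) (fun t : ℕ => t)
    rw [this]
    simp
  have h2 := Finset.sum_range_id_mul_two (2 * m + 1)
  rw [h1]
  have h3 : (2 * m + 1 - 1) / 2 = m := by omega
  rw [h3]
  have h4 : 2 * m + 1 - 1 = 2 * m := by omega
  rw [h4] at h2
  nlinarith

theorem Lin_Gam (p : ℕ) [Fact p.Prime] (hp2 : p ≠ 2) (hζ : IsPrimitiveRoot ζ p)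
    (hw : (p : 𝓞 L) ∈ w.asIdeal) (hπ : w.valuation L (1 - ζ) = WithZero.exp (-1 : ℤ)) (a b : L)
    (ha : w.valuation L a ≤ 1) (hb : w.valuation L b ≤ 1) (hab : w.valuation L (a + b) = 1) :
    Lin w ζ (Gam p ζ a b / ((a + b) ^ ((p - 1) / 2)) ^ p) (b / (a + b)) := by
  have hp : p.Prime := Fact.out
  have hodd : Odd p := hp.odd_of_ne_two hp2
  have hπ1 : w.valuation L (1 - ζ) < 1 := by
    rw [hπ, ← WithZero.exp_zero, WithZero.exp_lt_exp]; norm_num
  have hpval : w.valuation L (p : L) ≤ w.valuation L (1 - ζ) := by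
    have h1 : w.valuation L (p : L) < 1 := by
      have := (w.valuation_lt_one_iff_mem (K := L) (p : 𝓞 L)).2 hw
      simpa using this
    rw [hπ]
    rcases eq_or_ne (w.valuation L (p : L)) 0 with h0 | h0
    · rw [h0]; exact zero_le
    · rw [← WithZero.exp_log h0] at h1 ⊢
      rw [← WithZero.exp_zero, WithZero.exp_lt_exp] at h1
      rw [WithZero.exp_le_exp]
      omega
  have hab0 : a + b ≠ 0 := by
    intro h
    rw [h, map_zero] at hab
    exact zero_ne_one hab
  set β := b / (a + b) with hβ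
  have hβ1 : w.valuation L β ≤ 1 := by rw [hβ, map_div₀, hab, div_one]; exact hb
  -- the factors
  have hfac : ∀ n : ℕ, Lin w ζ ((a + ζ ^ n * b) / (a + b)) (-(n * β)) := by
    intro n
    have h1 := sp_Lin_pow w ζ hπ1 ζ (-1) n (Lin_zeta w ζ)
    refine ⟨?_, ?_⟩
    · rw [Valuation.map_neg, map_mul]
      exact mul_le_one' (sp_natCast_le w n) hβ1
    · have h2 : (a + ζ ^ n * b) / (a + b) - 1 - -(n * β) * (1 - ζ) =
          β * (ζ ^ n - 1 - (n * -1) * (1 - ζ)) := by
        rw [hβ]; field_simp; ring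
      rw [h2, map_mul]
      exact (mul_le_of_le_one_left' hβ1).trans h1.2
  have hprod : Gam p ζ a b / ((a + b) ^ ((p - 1) / 2)) ^ p =
      ∏ t ∈ Finset.Ico 1 p, ((a + ζ ^ iv p t * b) / (a + b)) ^ t := by
    unfold Gam
    rw [← pow_mul, ← sp_sum_Ico p hodd, ← Finset.prod_pow_eq_pow_sum, ← Finset.prod_div_distrib]
    exact Finset.prod_congr rfl (fun t _ => by rw [div_pow])
  have hlin := sp_Lin_prod w ζ hπ1 (Finset.Ico 1 p)
    (fun t => ((a + ζ ^ iv p t * b) / (a + b)) ^ t) (fun t => (t : L) * -((iv p t : L) * β))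
    (fun t _ => sp_Lin_pow w ζ hπ1 _ _ t (hfac (iv p t)))
  rw [hprod]
  refine Lin_congr w ζ hπ1 _ _ _ hlin ?_
  -- the coefficient
  have hk : ∀ t ∈ Finset.Ico 1 p, ∃ k : ℕ, t * iv p t = 1 + p * k := by
    intro t ht
    have h1 := sp_iv_mul p t (sp_mem_coprime p t ht)
    have h2 : ((t * iv p t : ℕ) : ZMod p) = ((1 : ℕ) : ZMod p) := by
      rw [Nat.cast_mul, mul_comm, h1, Nat.cast_one]
    rw [ZMod.natCast_eq_natCast_iff', Nat.mod_eq_of_lt hp.one_lt] at h2
    refine ⟨t * iv p t / p, ?_⟩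
    have := Nat.mod_add_div (t * iv p t) p
    omega
  have hsum : ∃ k : ℕ, ∑ t ∈ Finset.Ico 1 p, t * iv p t = (p - 1) + p * k := by
    choose! k hk using hk
    refine ⟨∑ t ∈ Finset.Ico 1 p, k t, ?_⟩
    rw [Finset.sum_congr rfl hk, Finset.sum_add_distrib, Finset.mul_sum]
    simp
  obtain ⟨k, hk⟩ := hsum
  have h3 : ∑ t ∈ Finset.Ico 1 p, (t : L) * -((iv p t : L) * β) =
      -(((∑ t ∈ Finset.Ico 1 p, t * iv p t : ℕ) : L) * β) := by
    rw [Nat.cast_sum, Finset.sum_mul, ← Finset.sum_neg_distrib]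
    exact Finset.sum_congr rfl (fun t _ => by rw [Nat.cast_mul]; ring)
  have h4 : ∑ t ∈ Finset.Ico 1 p, (t : L) * -((iv p t : L) * β) - β =
      (p : L) * (-((1 + k : ℕ) : L) * β) := by
    rw [h3, hk]
    push_cast [Nat.cast_sub hp.one_lt.le]
    ring
  rw [h4, map_mul]
  refine (mul_le_of_le_one_right' ?_).trans hpval
  rw [map_mul, Valuation.map_neg]
  exact mul_le_one' (sp_natCast_le w _) hβ1

end H91SP
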