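import Pool.Agent.H91.SP.GamPV
import Pool.Agent.H91.SP.GamEig
import Pool.Agent.H91.SP.Lin
import Pool.Agent.H91.SP.Inj

/-!
# Project SP, module FinA (block FIN)

Step (6) and (8): the product is a `p`-th power.

PROOF. Write `a, b, c` also for their images in `L`. `G` = the left side, `A` = the product of
`((a + b) ^ ((p - 1) / 2)) ^ x` and `((a + c) ^ ((p - 1) / 2)) ^ y`, `Λ = G / A ^ p`. `inj` applies to `Λ`:
all valuations of `Λ` are divisible by `p` (`PV_Gam` etc., with `(a, b, c)`, `(a, c, b)`, `(b, c, a)`,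
`(c, b, a)`); it lies in the eigenspace (`Eig_Gam`, `Eig_zeta`, ..., `add_zeta_ne_zero`); at `w ∣ p` (above `v`)
it is `Lin` with the coefficient
`x b / (a + b) + y c / (a + c) + z (c / (b + c) - b / (c + b)) - (x + y - k)`, which is
`- (x a / (a + b) + y a / (a + c) + z (b - c) / (b + c) - k)`, of valuation `< 1` at `v`, so at most `w(1 - ζ)`
(`val_pi`, `exists_under`); `Lin_congr` with `0` gives `w(Λ - 1) ≤ w(1 - ζ) ^ 2`. Here
`w(a + b) = w(c) = 1` etc. by `val_sum_lt`. So `Λ = y ^ p` and `G = (A y) ^ p`.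
-/

namespace H91SP

open NumberField IsDedekindDomain

theorem fa_lt_one_le {L : Type*} [Field L] [NumberField L] (w : HeightOneSpectrum (𝓞 L)) (x : L)
    (hx : w.valuation L x < 1) : w.valuation L x ≤ WithZero.exp (-1 : ℤ) := by
  rcases eq_or_ne (w.valuation L x) 0 with h0 | h0
  · rw [h0]; exact zero_le
  · rw [← WithZero.exp_log h0] at hx ⊢
    rw [← WithZero.exp_zero, WithZero.exp_lt_exp] at hx
    rw [WithZero.exp_le_exp]
    omega

theorem fa_nat_under (K L : Type*) [Field K] [NumberField K] [Field L] [NumberField L]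
    [Algebra K L] (w : HeightOneSpectrum (𝓞 L)) (n : ℕ) (hw : (n : 𝓞 L) ∈ w.asIdeal) :
    ∃ (v : HeightOneSpectrum (𝓞 K)) (e : ℕ), 0 < e ∧ (n : 𝓞 K) ∈ v.asIdeal ∧
      ∀ x : K, w.valuation L (algebraMap K L x) = v.valuation K x ^ e := by
  obtain ⟨v, e, he, _, h⟩ := exists_under K L w
  refine ⟨v, e, he, ?_, h⟩
  rw [natCast_mem_iff] at hw ⊢
  have h1 := h (n : K)
  rw [map_natCast] at h1
  rw [h1] at hw
  by_contra hcon
  rw [not_lt] at hcon
  exact absurd hw (not_lt.2 (one_le_pow₀ hcon))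

/-- `Γ(a, b) / (a + b) ^ (p (p - 1) / 2)` -/
theorem fa_lin (p : ℕ) [Fact p.Prime] {L : Type*} [Field L] [NumberField L] (hp2 : p ≠ 2) (ζ : L)
    (hζ : IsPrimitiveRoot ζ p) (w : HeightOneSpectrum (𝓞 L)) (hw : (p : 𝓞 L) ∈ w.asIdeal)
    (hπ : w.valuation L (1 - ζ) = WithZero.exp (-1 : ℤ)) (a b c : L)
    (ha : w.valuation L a = 1) (hb : w.valuation L b = 1) (hc : w.valuation L c = 1)
    (h : a ^ p + b ^ p + c ^ p = 0) :
    Lin w ζ (Gam p ζ a b / ((a + b) ^ ((p - 1) / 2)) ^ p) (b / (a + b)) := by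
  have h1 := val_sum_lt p w hw a b c ha.le hb.le hc.le h
  have h2 : w.valuation L (a + b) = 1 := by
    have h3 : a + b = -c + (a + b + c) := by ring
    rw [h3, Valuation.map_add_eq_of_lt_left]
    · rw [Valuation.map_neg]; exact hc
    · rw [Valuation.map_neg, hc]; exact h1
  exact Lin_Gam w ζ p hp2 hζ hw hπ a b ha.le hb.le h2

theorem fin_a (p : ℕ) [Fact p.Prime] (K : Type*) {L : Type*} [Field K] [NumberField K]
    [Field L] [NumberField L] [Algebra K L] [IsCyclotomicExtension {p} K L]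
    (hp2 : p ≠ 2) (hu : Unr p K) (hcl : ¬ p ∣ NumberField.classNumber K)
    (ζ : L) (hζ : IsPrimitiveRoot ζ p) (a b c : K) (ha : a ≠ 0) (hb : b ≠ 0) (hc : c ≠ 0)
    (h : a ^ p + b ^ p + c ^ p = 0)
    (hloc : ∀ v : HeightOneSpectrum (𝓞 K), (p : 𝓞 K) ∈ v.asIdeal →
      v.valuation K a = 1 ∧ v.valuation K b = 1 ∧ v.valuation K c = 1)
    (x y z k : ℤ)
    (hxy : ∀ v : HeightOneSpectrum (𝓞 K), (p : 𝓞 K) ∈ v.asIdeal →
      v.valuation K (x * (a / (a + b)) + y * (a / (a + c)) + z * ((b - c) / (b + c)) - k) < 1) :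
    ∃ B : L, Gam p ζ (algebraMap K L a) (algebraMap K L b) ^ x *
      Gam p ζ (algebraMap K L a) (algebraMap K L c) ^ y *
      (Gam p ζ (algebraMap K L b) (algebraMap K L c) /
        Gam p ζ (algebraMap K L c) (algebraMap K L b)) ^ z * ζ ^ (x + y - k) = B ^ p := by
  have hp : p.Prime := Fact.out
  have hζ0 : ζ ≠ 0 := hζ.ne_zero hp.ne_zero
  set a' := algebraMap K L a with ha'
  set b' := algebraMap K L b with hb'
  set c' := algebraMap K L c with hc'
  have ha0 : a' ≠ 0 := by rw [ha']; simpa using ha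
  have hb0 : b' ≠ 0 := by rw [hb']; simpa using hb
  have hc0 : c' ≠ 0 := by rw [hc']; simpa using hc
  have habc : a' ^ p + b' ^ p + c' ^ p = 0 := by
    rw [ha', hb', hc', ← map_pow, ← map_pow, ← map_pow, ← map_add, ← map_add, h, map_zero]
  have hacb : a' ^ p + c' ^ p + b' ^ p = 0 := by rw [← habc]; ring
  have hbca : b' ^ p + c' ^ p + a' ^ p = 0 := by rw [← habc]; ring
  have hcba : c' ^ p + b' ^ p + a' ^ p = 0 := by rw [← habc]; ring
  have hlocL : ∀ w : HeightOneSpectrum (𝓞 L), (p : 𝓞 L) ∈ w.asIdeal →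
      w.valuation L a' = 1 ∧ w.valuation L b' = 1 ∧ w.valuation L c' = 1 := by
    intro w hw
    obtain ⟨v, e, _, hv, hval⟩ := fa_nat_under K L w p hw
    obtain ⟨h1, h2, h3⟩ := hloc v hv
    exact ⟨by rw [ha', hval, h1, one_pow], by rw [hb', hval, h2, one_pow],
      by rw [hc', hval, h3, one_pow]⟩
  -- factors are not zero
  have hne : ∀ (s t u : L), u ≠ 0 → s ^ p + t ^ p + u ^ p = 0 → ∀ j : ℕ, s + ζ ^ j * t ≠ 0 :=
    fun s t u hu0 hs j => add_zeta_ne_zero p hp2 ζ hζ s t u hu0 hs j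
  have hGne : ∀ (s t u : L), u ≠ 0 → s ^ p + t ^ p + u ^ p = 0 → Gam p ζ s t ≠ 0 := by
    intro s t u hu0 hs
    exact Finset.prod_ne_zero_iff.2 (fun i _ => pow_ne_zero _ (hne s t u hu0 hs _))
  have hsum : ∀ (s t u : L), u ≠ 0 → s ^ p + t ^ p + u ^ p = 0 → s + t ≠ 0 := by
    intro s t u hu0 hs
    have := hne s t u hu0 hs 0
    rwa [pow_zero, one_mul] at this
  have hab := hGne a' b' c' hc0 habc
  have hac := hGne a' c' b' hb0 hacb
  have hbc := hGne b' c' a' ha0 hbca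
  have hcb := hGne c' b' a' ha0 hcba
  have sab := hsum a' b' c' hc0 habc
  have sac := hsum a' c' b' hb0 hacb
  have sbc := hsum b' c' a' ha0 hbca
  set m := (p - 1) / 2 with hm
  set U := ((a' + b') ^ m) ^ x * ((a' + c') ^ m) ^ y with hU
  have hU0 : U ≠ 0 :=
    mul_ne_zero (zpow_ne_zero _ (pow_ne_zero _ sab)) (zpow_ne_zero _ (pow_ne_zero _ sac))
  set G := Gam p ζ a' b' ^ x * Gam p ζ a' c' ^ y *
    (Gam p ζ b' c' / Gam p ζ c' b') ^ z * ζ ^ (x + y - k) with hG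
  have hG' : G = Gam p ζ a' b' ^ x * Gam p ζ a' c' ^ y *
    (Gam p ζ b' c' ^ z * Gam p ζ c' b' ^ (-z)) * ζ ^ (x + y - k) := by
    rw [hG, div_zpow, zpow_neg, div_eq_mul_inv]
  set Λ := G * U⁻¹ ^ p with hΛ
  have hG0 : G ≠ 0 := by
    rw [hG]
    exact mul_ne_zero (mul_ne_zero (mul_ne_zero (zpow_ne_zero _ hab) (zpow_ne_zero _ hac))
      (zpow_ne_zero _ (div_ne_zero hbc hcb))) (zpow_ne_zero _ hζ0)
  have hΛ0 : Λ ≠ 0 := mul_ne_zero hG0 (pow_ne_zero _ (inv_ne_zero hU0))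
  have hPV : PV p Λ := by
    rw [hΛ, hG']
    refine PV_mul p _ _ (PV_mul p _ _ (PV_mul p _ _ (PV_mul p _ _ (PV_zpow p _ _ ?_)
      (PV_zpow p _ _ ?_)) (PV_mul p _ _ (PV_zpow p _ _ ?_) (PV_zpow p _ _ ?_)))
      (PV_zpow p _ _ (PV_zeta p ζ hζ))) (PV_pow_self p _ (inv_ne_zero hU0))
    · exact PV_Gam p hp2 ζ hζ a' b' c' ha0 hb0 hc0 habc hlocL
    · exact PV_Gam p hp2 ζ hζ a' c' b' ha0 hc0 hb0 hacb
        (fun w hw => ⟨(hlocL w hw).1, (hlocL w hw).2.2, (hlocL w hw).2.1⟩)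
    · exact PV_Gam p hp2 ζ hζ b' c' a' hb0 hc0 ha0 hbca
        (fun w hw => ⟨(hlocL w hw).2.1, (hlocL w hw).2.2, (hlocL w hw).1⟩)
    · exact PV_Gam p hp2 ζ hζ c' b' a' hc0 hb0 ha0 hcba
        (fun w hw => ⟨(hlocL w hw).2.2, (hlocL w hw).2.1, (hlocL w hw).1⟩)
  have hEig : Eig p K ζ Λ := by
    rw [hΛ, hG']
    refine Eig_mul p K ζ _ _ (Eig_mul p K ζ _ _ (Eig_mul p K ζ _ _ (Eig_mul p K ζ _ _
      (Eig_zpow p K ζ _ _ hab ?_) (Eig_zpow p K ζ _ _ hac ?_)) (Eig_mul p K ζ _ _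
      (Eig_zpow p K ζ _ _ hbc ?_) (Eig_zpow p K ζ _ _ hcb ?_)))
      (Eig_zpow p K ζ _ _ hζ0 (Eig_zeta p K ζ hζ))) (Eig_pow_self p K ζ _ (inv_ne_zero hU0))
    · exact Eig_Gam p K ζ hζ a b (hne a' b' c' hc0 habc)
    · exact Eig_Gam p K ζ hζ a c (hne a' c' b' hb0 hacb)
    · exact Eig_Gam p K ζ hζ b c (hne b' c' a' ha0 hbca)
    · exact Eig_Gam p K ζ hζ c b (hne c' b' a' ha0 hcba)
  have hlin : ∀ w : HeightOneSpectrum (𝓞 L), (p : 𝓞 L) ∈ w.asIdeal →
      w.valuation L (Λ - 1) ≤ w.valuation L (1 - ζ) ^ 2 := by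
    intro w hw
    have hπ := val_pi p K hp2 hu ζ hζ w hw
    have hπ1 : w.valuation L (1 - ζ) < 1 := by
      rw [hπ, ← WithZero.exp_zero, WithZero.exp_lt_exp]; norm_num
    obtain ⟨va, vb, vc⟩ := hlocL w hw
    have l1 := fa_lin p hp2 ζ hζ w hw hπ a' b' c' va vb vc habc
    have l2 := fa_lin p hp2 ζ hζ w hw hπ a' c' b' va vc vb hacb
    have l3 := fa_lin p hp2 ζ hζ w hw hπ b' c' a' vb vc va hbca
    have l4 := fa_lin p hp2 ζ hζ w hw hπ c' b' a' vc vb va hcba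
    have l5 := Lin_mul w ζ hπ1 _ _ _ _ (Lin_mul w ζ hπ1 _ _ _ _ (Lin_mul w ζ hπ1 _ _ _ _
      (Lin_zpow w ζ hπ1 _ _ x l1) (Lin_zpow w ζ hπ1 _ _ y l2))
      (Lin_mul w ζ hπ1 _ _ _ _ (Lin_zpow w ζ hπ1 _ _ z l3) (Lin_zpow w ζ hπ1 _ _ (-z) l4)))
      (Lin_zpow w ζ hπ1 _ _ (x + y - k) (Lin_zeta w ζ))
    have e1 : Λ = (Gam p ζ a' b' / ((a' + b') ^ m) ^ p) ^ x *
        (Gam p ζ a' c' / ((a' + c') ^ m) ^ p) ^ y *
        ((Gam p ζ b' c' / ((b' + c') ^ m) ^ p) ^ z *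
          (Gam p ζ c' b' / ((c' + b') ^ m) ^ p) ^ (-z)) * ζ ^ (x + y - k) := by
      have e2 : ((b' + c') ^ m) ^ p ≠ 0 := pow_ne_zero _ (pow_ne_zero _ sbc)
      have e3 : U⁻¹ ^ p = ((((a' + b') ^ m) ^ p) ^ x)⁻¹ * ((((a' + c') ^ m) ^ p) ^ y)⁻¹ := by
        rw [hU, mul_inv, mul_pow, inv_pow, inv_pow]
        congr 2
        · rw [← zpow_natCast, ← zpow_natCast ((a' + b') ^ m), ← zpow_mul, ← zpow_mul, mul_comm x]
        · rw [← zpow_natCast, ← zpow_natCast ((a' + c') ^ m), ← zpow_mul, ← zpow_mul, mul_comm y]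
      rw [hΛ, hG', e3, add_comm c' b', div_zpow, div_zpow, div_zpow, div_zpow]
      have e4 : (((b' + c') ^ m) ^ p) ^ z * (((b' + c') ^ m) ^ p) ^ (-z) = 1 := by
        rw [← zpow_add₀ e2, add_neg_cancel, zpow_zero]
      have e5 : ∀ s t u v : L, u * v = 1 → s / u * (t / v) = s * t := by
        intro s t u v huv
        rw [div_mul_div_comm, huv, div_one]
      rw [e5 _ _ _ _ e4]
      simp only [div_eq_mul_inv]
      ring
    have hc0' : w.valuation L (x * (b' / (a' + b')) + y * (c' / (a' + c')) +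
        (z * (c' / (b' + c')) + ((-z : ℤ) : L) * (b' / (c' + b'))) +
        ((x + y - k : ℤ) : L) * -1 - 0) ≤ w.valuation L (1 - ζ) := by
      obtain ⟨v, e, he, hv, hval⟩ := fa_nat_under K L w p hw
      have e6 : x * (b' / (a' + b')) + y * (c' / (a' + c')) +
        (z * (c' / (b' + c')) + ((-z : ℤ) : L) * (b' / (c' + b'))) +
        ((x + y - k : ℤ) : L) * -1 - 0 = algebraMap K L (-(x * (a / (a + b)) + y * (a / (a + c)) +
          z * ((b - c) / (b + c)) - k)) := by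
        rw [map_neg, map_sub, map_add, map_add, map_mul, map_mul, map_mul, map_div₀, map_div₀,
          map_div₀, map_add, map_add, map_add, map_sub, map_intCast, map_intCast, map_intCast,
          map_intCast, ← ha', ← hb', ← hc', add_comm c' b']
        have e7 : b' / (a' + b') = 1 - a' / (a' + b') := by field_simp; ring
        have e8 : c' / (a' + c') = 1 - a' / (a' + c') := by field_simp; ring
        have e9 : (b' - c') / (b' + c') = b' / (b' + c') - c' / (b' + c') := by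
          rw [sub_div]
        rw [e7, e8, e9]
        push_cast
        ring
      rw [e6, hval, Valuation.map_neg, hπ]
      have h7 := hxy v hv
      have h8 : v.valuation K (x * (a / (a + b)) + y * (a / (a + c)) +
        z * ((b - c) / (b + c)) - k) ^ e < 1 := pow_lt_one₀ zero_le h7 he.ne'
      have h9 := fa_lt_one_le w (algebraMap K L (x * (a / (a + b)) + y * (a / (a + c)) +
        z * ((b - c) / (b + c)) - k)) (by rw [hval]; exact h8)
      rw [hval] at h9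
      exact h9
    have l6 := Lin_congr w ζ hπ1 _ _ 0 l5 hc0'
    have l7 := l6.2
    rw [← e1, zero_mul, sub_zero] at l7
    exact l7
  obtain ⟨y0, hy0⟩ := inj p K hp2 hu hcl ζ hζ Λ hΛ0 hPV hEig hlin
  refine ⟨U * y0, ?_⟩
  rw [mul_pow, hy0, hΛ, ← mul_assoc, mul_comm (U ^ p), mul_assoc, ← mul_pow,
    mul_inv_cancel₀ hU0, one_pow, mul_one]

end H91SP
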