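import Pool.Agent.H91.SP.Und

/-!
# Project SP, module FinRes (block FIN)

Step (9), residue fields.

PROOF of `res_core`. `ζ` is a unit at `w`, so `w(D) = 1`. Let `k = 𝓞 L / w` (a finite field), `d ∈ k` the
residue of `D` (write `D = r / s`, `r s ∈ 𝓞 L`, `s ∉ w`; or use an element of `𝓞 L` congruent to `D`). Then
`d ^ p` is the residue of `ζ`, which is not `1`, because `1 - ζ` divides `p` and `p ∉ w`, and
`(d ^ p) ^ p = 1`. So `d` has order exactly `p ^ 2` in the unit group of `k`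
(`orderOf_eq_prime_pow`), of order `|k| - 1`.
PROOF of `card_tower`. `|𝓞 L / w| = |𝓞 K / v| ^ f` with the inertia degree `f`, which divides `[L : K]`
(`L / K` Galois: `e f g = [L : K]`), and `q ^ f - 1 ∣ q ^ n - 1` for `f ∣ n` (`Nat.pow_sub_one_dvd_..`).
-/

namespace H91SP

open NumberField IsDedekindDomain

theorem res_core (p : ℕ) [Fact p.Prime] {L : Type*} [Field L] [NumberField L] (ζ : L)
    (hζ : IsPrimitiveRoot ζ p) (w : HeightOneSpectrum (𝓞 L)) (hw : (p : 𝓞 L) ∉ w.asIdeal)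
    (D : L) (hD : w.valuation L (D ^ p - ζ) < 1) :
    p ^ 2 ∣ Nat.card (𝓞 L ⧸ w.asIdeal) - 1 := by
  classical
  have hp : p.Prime := Fact.out
  have hmax : w.asIdeal.IsMaximal := w.isMaximal
  let fld : Field (𝓞 L ⧸ w.asIdeal) := Ideal.Quotient.field w.asIdeal
  have hfin : Finite (𝓞 L ⧸ w.asIdeal) := Ideal.finiteQuotientOfFreeOfNeBot w.asIdeal w.ne_bot
  have hζ1 : w.valuation L ζ = 1 := by
    have h1 : w.valuation L ζ ^ p = 1 := by
      rw [← map_pow, hζ.pow_eq_one, map_one]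
    exact (pow_eq_one_iff.1 h1).resolve_right hp.ne_zero
  have hDp : w.valuation L (D ^ p) = 1 := by
    have h1 : D ^ p = (D ^ p - ζ) + ζ := by ring
    have h2 : w.valuation L ((D ^ p - ζ) + ζ) = w.valuation L ζ :=
      Valuation.map_add_eq_of_lt_right _ (by rw [hζ1]; exact hD)
    rw [h1, h2, hζ1]
  have hD1 : w.valuation L D = 1 := by
    rw [map_pow] at hDp
    exact (pow_eq_one_iff.1 hDp).resolve_right hp.ne_zero
  obtain ⟨r, hr⟩ := w.exists_valuation_sub_lt_of_integer (K := L) (x := D) hD1.le 1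
  have hr' : w.valuation L (algebraMap (𝓞 L) L r - D) < 1 := by simpa using hr
  have hζint : IsIntegral ℤ ζ := hζ.isIntegral hp.pos
  obtain ⟨z, hz⟩ : ∃ z : 𝓞 L, algebraMap (𝓞 L) L z = ζ := ⟨⟨ζ, hζint⟩, rfl⟩
  have hrp : w.valuation L (algebraMap (𝓞 L) L r ^ p - D ^ p) < 1 := by
    have hr1 : w.valuation L (algebraMap (𝓞 L) L r) ≤ 1 := w.valuation_le_one r
    obtain ⟨c, hc⟩ := sub_dvd_pow_sub_pow
      (⟨algebraMap (𝓞 L) L r, hr1⟩ : (w.valuation L).integer) ⟨D, hD1.le⟩ p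
    have hc' : algebraMap (𝓞 L) L r ^ p - D ^ p = (algebraMap (𝓞 L) L r - D) * (c : L) :=
      congrArg (Subtype.val) hc
    have hc1 : w.valuation L (c : L) ≤ 1 := c.2
    rw [hc', map_mul]
    exact mul_lt_one_of_lt_of_le hr' hc1
  have hrz : w.valuation L (algebraMap (𝓞 L) L (r ^ p - z)) < 1 := by
    have h1 : algebraMap (𝓞 L) L (r ^ p - z) =
        (algebraMap (𝓞 L) L r ^ p - D ^ p) + (D ^ p - ζ) := by
      rw [map_sub, map_pow, hz]; ring
    rw [h1]
    exact Valuation.map_add_lt _ hrp hD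
  rw [HeightOneSpectrum.valuation_lt_one_iff_mem] at hrz
  set d : 𝓞 L ⧸ w.asIdeal := Ideal.Quotient.mk w.asIdeal r with hd
  set zb : 𝓞 L ⧸ w.asIdeal := Ideal.Quotient.mk w.asIdeal z with hzb
  have hdz : d ^ p = zb := by
    rw [hd, hzb, ← map_pow]
    exact Ideal.Quotient.eq.2 hrz
  have hinj : Function.Injective (algebraMap (𝓞 L) L) := RingOfIntegers.coe_injective
  have hzp : z ^ p = 1 := by
    apply hinj
    rw [map_pow, hz, hζ.pow_eq_one, map_one]
  have hgs : ∑ i ∈ Finset.range p, z ^ i = 0 := by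
    apply hinj
    rw [map_sum, map_zero]
    simp only [map_pow, hz]
    exact hζ.geom_sum_eq_zero hp.one_lt
  have hne : zb ≠ 1 := by
    intro h1
    apply hw
    have h2 : Ideal.Quotient.mk w.asIdeal (∑ i ∈ Finset.range p, z ^ i) = 0 := by
      rw [hgs, map_zero]
    rw [map_sum] at h2
    simp only [map_pow, ← hzb, h1, one_pow, Finset.sum_const, Finset.card_range, nsmul_eq_mul,
      mul_one] at h2
    rw [← Ideal.Quotient.eq_zero_iff_mem, map_natCast]
    exact h2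
  have hord : orderOf d = p ^ 2 := by
    refine orderOf_eq_prime_pow (n := 1) ?_ ?_
    · rw [pow_one, hdz]; exact hne
    · rw [show p ^ (1 + 1) = p * p by ring, pow_mul, hdz, hzb, ← map_pow, hzp, map_one]
  have hd0 : d ≠ 0 := by
    intro h0
    have h1 : d ^ p = 0 := by rw [h0, zero_pow hp.ne_zero]
    have h2 : zb ^ p = 1 := by rw [hzb, ← map_pow, hzp, map_one]
    rw [← hdz, h1, zero_pow hp.ne_zero] at h2
    exact zero_ne_one h2
  have hu : orderOf (Units.mk0 d hd0) = p ^ 2 := by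
    rw [← orderOf_units, Units.val_mk0, hord]
  rw [← hu, ← Nat.card_units]
  exact orderOf_dvd_natCard _

theorem card_tower (K L : Type*) [Field K] [NumberField K] [Field L] [NumberField L]
    [Algebra K L] [IsGalois K L] (v : HeightOneSpectrum (𝓞 K)) (w : HeightOneSpectrum (𝓞 L))
    (h : w.asIdeal.LiesOver v.asIdeal) :
    Nat.card (𝓞 L ⧸ w.asIdeal) - 1 ∣ Nat.card (𝓞 K ⧸ v.asIdeal) ^ Module.finrank K L - 1 := by
  classical
  have hvm : v.asIdeal.IsMaximal := v.isMaximal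
  have hwm : w.asIdeal.IsMaximal := w.isMaximal
  have hcard : Nat.card (𝓞 L ⧸ w.asIdeal) =
      Nat.card (𝓞 K ⧸ v.asIdeal) ^ (v.asIdeal.inertiaDeg' w.asIdeal) := by
    have h1 := Ideal.absNorm_eq_pow_inertiaDeg'_of_liesOver w.asIdeal v.asIdeal v.isPrime v.ne_bot
    simpa [Ideal.absNorm_apply, Submodule.cardQuot_apply] using h1
  have hdvd : v.asIdeal.inertiaDeg' w.asIdeal ∣ Module.finrank K L := by
    have h2 := Ideal.ncard_primesOver_mul_ramificationIdxIn_mul_inertiaDegIn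
      v.asIdeal (𝓞 L) (L ≃ₐ[K] L)
    rw [Ideal.inertiaDegIn_eq_inertiaDeg v.asIdeal w.asIdeal (L ≃ₐ[K] L),
      ← Ideal.inertiaDeg'_eq_inertiaDeg v.asIdeal w.asIdeal,
      IsGalois.card_aut_eq_finrank] at h2
    rw [← h2]
    exact Dvd.dvd.mul_left (Dvd.intro_left _ rfl) _
  rw [hcard]
  obtain ⟨c, hc⟩ := hdvd
  rw [hc, pow_mul]
  simpa using Nat.sub_dvd_pow_sub_pow (Nat.card (𝓞 K ⧸ v.asIdeal) ^
    (v.asIdeal.inertiaDeg' w.asIdeal)) 1 c

end H91SP
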