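import Pool.Agent.H91.SP.Lin

/-!
# Project SP, module GamQ (block GAM)

Step (4): congruences at a place `w` with `w(a) < 1`, `w(b) = 1`, and at a place with `w(b + c) < 1`.

PROOF of `GamQ_one`. `(a + ζ^(t') b)^t = ζ^(t t') b^t = ζ b^t` modulo `w` (`ζ^p = 1`); the product over
`0 < t < p` is `ζ^(p-1) b^(p (p-1)/2) = ζ⁻¹ (b^((p-1)/2))^p`.
PROOF of `GamQ_two`: `b + ζ^(t') c = b (1 - ζ^(t'))` and `c + ζ^(t') b = - b (1 - ζ^(t'))` modulo `w`, both
units at `w` because `w` is not above `p`. The quotient of the products is `± 1 = (± 1)^p`.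
-/

namespace H91SP

open NumberField IsDedekindDomain

section

variable {L : Type*} [Field L] [NumberField L] (w : HeightOneSpectrum (𝓞 L))

/-- congruence modulo `w` of two `w`-integral elements -/
def SpC (x y : L) : Prop :=
  w.valuation L x ≤ 1 ∧ w.valuation L y ≤ 1 ∧ w.valuation L (x - y) < 1

theorem SpC_refl (x : L) (hx : w.valuation L x ≤ 1) : SpC w x x :=
  ⟨hx, hx, by simp⟩

theorem SpC_mul (x y x' y' : L) (h : SpC w x y) (h' : SpC w x' y') :
    SpC w (x * x') (y * y') := by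
  refine ⟨by rw [map_mul]; exact mul_le_one' h.1 h'.1, by rw [map_mul]; exact mul_le_one' h.2.1 h'.2.1,
    ?_⟩
  have : x * x' - y * y' = (x - y) * x' + y * (x' - y') := by ring
  rw [this]
  refine Valuation.map_add_lt _ ?_ ?_
  · rw [map_mul]; exact lt_of_le_of_lt (mul_le_of_le_one_right' h'.1) h.2.2
  · rw [map_mul]; exact lt_of_le_of_lt (mul_le_of_le_one_left' h.2.1) h'.2.2

theorem SpC_pow (x y : L) (n : ℕ) (h : SpC w x y) : SpC w (x ^ n) (y ^ n) := by
  induction n with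
  | zero => simpa using SpC_refl w (1 : L) (by simp)
  | succ n ih => rw [pow_succ, pow_succ]; exact SpC_mul w _ _ _ _ ih h

theorem SpC_prod (s : Finset ℕ) (x y : ℕ → L) (h : ∀ i ∈ s, SpC w (x i) (y i)) :
    SpC w (∏ i ∈ s, x i) (∏ i ∈ s, y i) := by
  classical
  induction s using Finset.induction_on with
  | empty => simpa using SpC_refl w (1 : L) (by simp)
  | insert a s ha ih =>
    rw [Finset.prod_insert ha, Finset.prod_insert ha]
    exact SpC_mul w _ _ _ _ (h a (Finset.mem_insert_self a s))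
      (ih (fun i hi => h i (Finset.mem_insert_of_mem hi)))

theorem SpC_unit (x y : L) (h : SpC w x y) (hy : w.valuation L y = 1) : w.valuation L x = 1 := by
  have h2 : x = y + (x - y) := by ring
  rw [h2, Valuation.map_add_eq_of_lt_left]
  · exact hy
  · rw [hy]; exact h.2.2

theorem gq_val_zeta (p : ℕ) [Fact p.Prime] (ζ : L) (hζ : IsPrimitiveRoot ζ p) :
    w.valuation L ζ = 1 := by
  have h1 : w.valuation L ζ ^ p = 1 ^ p := by rw [← map_pow, hζ.pow_eq_one, map_one, one_pow]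
  exact (pow_left_inj₀ zero_le zero_le (Fact.out : p.Prime).ne_zero).1 h1

theorem sp_val_one_sub (p : ℕ) [Fact p.Prime] (ζ : L) (hζ : IsPrimitiveRoot ζ p)
    (hw : (p : 𝓞 L) ∉ w.asIdeal) (j : ℕ) (hj : j ∈ Finset.Ico 1 p) :
    w.valuation L (1 - ζ ^ j) = 1 := by
  have hp : p.Prime := Fact.out
  have hle : ∀ i : ℕ, w.valuation L (1 - ζ ^ i) ≤ 1 := by
    intro i
    refine Valuation.map_sub_le _ (by simp) ?_
    rw [map_pow, gq_val_zeta w p ζ hζ, one_pow]
  have hpv : w.valuation L (p : L) = 1 := by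
    have h1 := (w.valuation_lt_one_iff_mem (K := L) (p : 𝓞 L)).not.2 hw
    have h2 := sp_natCast_le w p
    have h3 : ¬ w.valuation L (p : L) < 1 := by simpa using h1
    exact le_antisymm h2 (not_lt.1 h3)
  have hprod : ∏ i ∈ Finset.Ico 1 p, (1 - ζ ^ i) = (p : L) := by
    obtain ⟨n, rfl⟩ : ∃ n, p = n + 1 := ⟨p - 1, by have := hp.one_lt; omega⟩
    have h1 := hζ.prod_one_sub_pow_eq_order
    rw [Finset.range_eq_Ico, Finset.prod_Ico_add' (fun k => 1 - ζ ^ k) 0 n 1, zero_add] at h1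
    rw [h1, Nat.cast_succ]
  have h4 : ∏ i ∈ Finset.Ico 1 p, w.valuation L (1 - ζ ^ i) = 1 := by
    rw [← map_prod, hprod, hpv]
  refine le_antisymm (hle j) ?_
  rw [← h4, ← Finset.mul_prod_erase _ _ hj]
  exact mul_le_of_le_one_right' (Finset.prod_le_one' (fun i _ => hle i))

end

theorem GamQ_one (p : ℕ) [Fact p.Prime] (hp2 : p ≠ 2) {L : Type*} [Field L] [NumberField L] (ζ : L)
    (hζ : IsPrimitiveRoot ζ p) (w : HeightOneSpectrum (𝓞 L)) (a b : L)
    (ha : w.valuation L a < 1) (hb : w.valuation L b = 1) :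
    w.valuation L (Gam p ζ a b - ζ⁻¹ * (b ^ ((p - 1) / 2)) ^ p) < 1 := by
  have hp : p.Prime := Fact.out
  have hodd : Odd p := hp.odd_of_ne_two hp2
  have hz := gq_val_zeta w p ζ hζ
  have hζ0 : ζ ≠ 0 := hζ.ne_zero hp.ne_zero
  have h1 : ∀ t ∈ Finset.Ico 1 p, SpC w ((a + ζ ^ iv p t * b) ^ t) (ζ * b ^ t) := by
    intro t ht
    have h2 : SpC w (a + ζ ^ iv p t * b) (ζ ^ iv p t * b) := by
      have h3 : w.valuation L (ζ ^ iv p t * b) = 1 := by
        rw [map_mul, map_pow, hz, hb, one_pow, one_mul]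
      refine ⟨Valuation.map_add_le _ ha.le h3.le, h3.le, ?_⟩
      rw [add_sub_cancel_right]
      exact ha
    have h4 := SpC_pow w _ _ t h2
    have h5 : (ζ ^ iv p t * b) ^ t = ζ * b ^ t := by
      rw [mul_pow, ← pow_mul]
      congr 1
      rw [← pow_one ζ, ← pow_mul, one_mul]
      apply sp_pow_congr p ζ hζ.pow_eq_one
      rw [Nat.cast_mul, sp_iv_mul p t (sp_mem_coprime p t ht), Nat.cast_one]
    rw [h5] at h4
    exact h4
  have h6 := SpC_prod w _ _ _ h1
  have h7 : ∏ t ∈ Finset.Ico 1 p, (ζ * b ^ t) = ζ⁻¹ * (b ^ ((p - 1) / 2)) ^ p := by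
    rw [Finset.prod_mul_distrib, Finset.prod_const, Nat.card_Ico, Finset.prod_pow_eq_pow_sum,
      sp_sum_Ico p hodd, pow_mul]
    congr 1
    rw [← mul_eq_one_iff_eq_inv₀ hζ0, ← pow_succ, Nat.sub_add_cancel hp.one_lt.le]
    exact hζ.pow_eq_one
  rw [← h7]
  exact h6.2.2

theorem GamQ_two (p : ℕ) [Fact p.Prime] (hp2 : p ≠ 2) {L : Type*} [Field L] [NumberField L] (ζ : L)
    (hζ : IsPrimitiveRoot ζ p) (w : HeightOneSpectrum (𝓞 L)) (hw : (p : 𝓞 L) ∉ w.asIdeal) (b c : L)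
    (hb : w.valuation L b = 1) (hbc : w.valuation L (b + c) < 1) :
    w.valuation L (Gam p ζ b c) = 1 ∧ w.valuation L (Gam p ζ c b) = 1 ∧
    ∃ e : L, (e = 1 ∨ e = -1) ∧ w.valuation L (Gam p ζ b c / Gam p ζ c b - e) < 1 := by
  have hp : p.Prime := Fact.out
  have hz := gq_val_zeta w p ζ hζ
  set U := ∏ t ∈ Finset.Ico 1 p, (b * (1 - ζ ^ iv p t)) ^ t with hU
  have hiv : ∀ t ∈ Finset.Ico 1 p, iv p t ∈ Finset.Ico 1 p := by
    intro t ht
    have h1 := sp_iv_cast p t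
    have h2 := sp_mod_mem p (iv p t) (by
      rw [h1]; exact inv_ne_zero (sp_cast_ne_zero p t (sp_mem_coprime p t ht)))
    have h3 : iv p t < p := ZMod.val_lt _
    rwa [Nat.mod_eq_of_lt h3] at h2
  have hval : ∀ t ∈ Finset.Ico 1 p, w.valuation L (b * (1 - ζ ^ iv p t)) = 1 := by
    intro t ht
    rw [map_mul, hb, sp_val_one_sub w p ζ hζ hw _ (hiv t ht), one_mul]
  have hU1 : w.valuation L U = 1 := by
    rw [hU, map_prod]
    exact Finset.prod_eq_one (fun t ht => by rw [map_pow, hval t ht, one_pow])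
  have hG1 : SpC w (Gam p ζ b c) U := by
    refine SpC_prod w _ _ _ (fun t ht => SpC_pow w _ _ t ?_)
    have h1 : b + ζ ^ iv p t * c - b * (1 - ζ ^ iv p t) = ζ ^ iv p t * (b + c) := by ring
    have h2 : w.valuation L (b + ζ ^ iv p t * c - b * (1 - ζ ^ iv p t)) < 1 := by
      rw [h1, map_mul, map_pow, hz, one_pow, one_mul]; exact hbc
    refine ⟨?_, (hval t ht).le, h2⟩
    have h3 : b + ζ ^ iv p t * c = b * (1 - ζ ^ iv p t) +
      (b + ζ ^ iv p t * c - b * (1 - ζ ^ iv p t)) := by ring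
    rw [h3]
    exact Valuation.map_add_le _ (hval t ht).le h2.le
  have hG2 : SpC w (Gam p ζ c b) ((∏ t ∈ Finset.Ico 1 p, (-1) ^ t) * U) := by
    rw [hU, ← Finset.prod_mul_distrib]
    refine SpC_prod w _ _ _ (fun t ht => ?_)
    rw [← mul_pow]
    refine SpC_pow w _ _ t ?_
    have h1 : c + ζ ^ iv p t * b - -1 * (b * (1 - ζ ^ iv p t)) = b + c := by ring
    have h2 : w.valuation L (c + ζ ^ iv p t * b - -1 * (b * (1 - ζ ^ iv p t))) < 1 := by
      rw [h1]; exact hbc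
    have h4 : w.valuation L (-1 * (b * (1 - ζ ^ iv p t))) ≤ 1 := by
      rw [neg_one_mul, Valuation.map_neg]; exact (hval t ht).le
    refine ⟨?_, h4, h2⟩
    have h3 : c + ζ ^ iv p t * b = -1 * (b * (1 - ζ ^ iv p t)) +
      (c + ζ ^ iv p t * b - -1 * (b * (1 - ζ ^ iv p t))) := by ring
    rw [h3]
    exact Valuation.map_add_le _ h4 h2.le
  have he : ∃ e : L, (e = 1 ∨ e = -1) ∧ (∏ t ∈ Finset.Ico 1 p, (-1 : L) ^ t) = e := by
    refine ⟨_, ?_, rfl⟩
    rw [Finset.prod_pow_eq_pow_sum]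
    exact neg_one_pow_eq_or L _
  obtain ⟨e, he, he'⟩ := he
  rw [he'] at hG2
  have hev : w.valuation L e = 1 := by
    rcases he with rfl | rfl
    · simp
    · simp
  have hee : e * e = 1 := by rcases he with rfl | rfl <;> ring
  have hv1 := SpC_unit w _ _ hG1 hU1
  have hv2 := SpC_unit w _ _ hG2 (by rw [map_mul, hev, hU1, one_mul])
  refine ⟨hv1, hv2, e, he, ?_⟩
  have hne : Gam p ζ c b ≠ 0 := by
    intro h; rw [h, map_zero] at hv2; exact zero_ne_one hv2
  have h5 : Gam p ζ b c / Gam p ζ c b - e = (Gam p ζ b c - e * Gam p ζ c b) / Gam p ζ c b := by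
    field_simp
  rw [h5, map_div₀, hv2, div_one]
  have h6 : Gam p ζ b c - e * Gam p ζ c b = (Gam p ζ b c - U) - e * (Gam p ζ c b - e * U) := by
    linear_combination (-U) * hee
  rw [h6]
  refine Valuation.map_sub_lt _ hG1.2.2 ?_
  rw [map_mul, hev, one_mul]
  exact hG2.2.2

end H91SP
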