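import Pool.Agent.H91.SP.FinA
import Pool.Agent.H91.SP.GamQ
import Pool.Agent.H91.SP.FinRes

/-!
# Project SP, module FinCore (block FIN)

Furtwängler's theorem for one prime ideal `Q`, over every number field.

PROOF. Put `L = CyclotomicField p K`, `ζ = IsCyclotomicExtension.zeta p K L`, `w` a place above `Q`
(`exists_above`). In `fin_a` reduce modulo `w` (`GamQ_one` for `(a, b)` and `(a, c)`, and `GamQ_two` if
`z ≠ 0`): `B ^ p = ζ ^ (-x - y + x + y - k) C ^ p`, `C` a unit at `w` (the sign `e` satisfies `e = e ^ p`), so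
`ζ ^ (-k)` is congruent to `(B / C) ^ p`; with `k k' = - 1` modulo `p` it follows that `ζ` is congruent to
`D ^ p`, `D = (B / C) ^ k'`. `res_core` and `card_tower`, `finrank_cyc` finish the proof.
-/

namespace H91SP

open NumberField IsDedekindDomain

section

variable {L : Type*} [Field L] [NumberField L] (w : HeightOneSpectrum (𝓞 L))

/-- congruence modulo `w` to a unit at `w` -/
def FcC (x y : L) : Prop :=
  w.valuation L y = 1 ∧ w.valuation L (x - y) < 1

theorem FcC_val {x y : L} (h : FcC w x y) : w.valuation L x = 1 := by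
  have h2 : x = y + (x - y) := by ring
  rw [h2, Valuation.map_add_eq_of_lt_left]
  · exact h.1
  · rw [h.1]; exact h.2

theorem FcC_refl {x : L} (hx : w.valuation L x = 1) : FcC w x x :=
  ⟨hx, by simp⟩

theorem FcC_mul {x y x' y' : L} (h : FcC w x y) (h' : FcC w x' y') :
    FcC w (x * x') (y * y') := by
  refine ⟨by rw [map_mul, h.1, h'.1, one_mul], ?_⟩
  have e : x * x' - y * y' = (x - y) * x' + y * (x' - y') := by ring
  rw [e]
  refine Valuation.map_add_lt _ ?_ ?_
  · rw [map_mul, FcC_val w h', mul_one]; exact h.2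
  · rw [map_mul, h.1, one_mul]; exact h'.2

theorem FcC_inv {x y : L} (h : FcC w x y) : FcC w x⁻¹ y⁻¹ := by
  have hx := FcC_val w h
  have hx0 : x ≠ 0 := by intro h0; rw [h0, map_zero] at hx; exact zero_ne_one hx
  have hy0 : y ≠ 0 := by intro h0; have := h.1; rw [h0, map_zero] at this; exact zero_ne_one this
  refine ⟨by rw [map_inv₀, h.1, inv_one], ?_⟩
  have e : x⁻¹ - y⁻¹ = -((x - y) * (x⁻¹ * y⁻¹)) := by field_simp; ring
  rw [e, Valuation.map_neg, map_mul, map_mul, map_inv₀, map_inv₀, hx, h.1, inv_one, mul_one, mul_one]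
  exact h.2

theorem FcC_pow {x y : L} (h : FcC w x y) (n : ℕ) : FcC w (x ^ n) (y ^ n) := by
  induction n with
  | zero => simpa using FcC_refl w (x := (1 : L)) (by simp)
  | succ n ih => rw [pow_succ, pow_succ]; exact FcC_mul w ih h

theorem FcC_zpow {x y : L} (h : FcC w x y) (n : ℤ) : FcC w (x ^ n) (y ^ n) := by
  obtain ⟨m, rfl | rfl⟩ := n.eq_nat_or_neg
  · simpa using FcC_pow w h m
  · rw [zpow_neg, zpow_neg]
    simpa using FcC_inv w (FcC_pow w h m)

end

theorem fin_core (p : ℕ) [Fact p.Prime] (K : Type*) [Field K] [NumberField K]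
    (hp2 : p ≠ 2) (hu : Unr p K) (hcl : ¬ p ∣ NumberField.classNumber K)
    (a b c : K) (ha : a ≠ 0) (hb : b ≠ 0) (hc : c ≠ 0) (h : a ^ p + b ^ p + c ^ p = 0)
    (hloc : ∀ v : HeightOneSpectrum (𝓞 K), (p : 𝓞 K) ∈ v.asIdeal →
      v.valuation K a = 1 ∧ v.valuation K b = 1 ∧ v.valuation K c = 1)
    (x y z k : ℤ) (hk : ¬ (p : ℤ) ∣ k)
    (hxy : ∀ v : HeightOneSpectrum (𝓞 K), (p : 𝓞 K) ∈ v.asIdeal →
      v.valuation K (x * (a / (a + b)) + y * (a / (a + c)) + z * ((b - c) / (b + c)) - k) < 1)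
    (Q : HeightOneSpectrum (𝓞 K)) (hQp : (p : 𝓞 K) ∉ Q.asIdeal)
    (hQa : Q.valuation K a < 1) (hQb : Q.valuation K b = 1) (hQc : Q.valuation K c = 1)
    (hz : z = 0 ∨ Q.valuation K (b + c) < 1) :
    p ^ 2 ∣ Nat.card (𝓞 K ⧸ Q.asIdeal) ^ (p - 1) - 1 := by
  have hp : p.Prime := Fact.out
  have : NeZero p := ⟨hp.ne_zero⟩
  have hodd : Odd p := hp.odd_of_ne_two hp2
  set L := CyclotomicField p K with hL
  obtain ⟨w, e, he, hlie, hval⟩ := exists_above K L Q
  set ζ : L := IsCyclotomicExtension.zeta p K L with hζdef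
  have hζ : IsPrimitiveRoot ζ p := IsCyclotomicExtension.zeta_spec p K L
  have hζ0 : ζ ≠ 0 := hζ.ne_zero hp.ne_zero
  obtain ⟨B, hB⟩ := fin_a p K (L := L) hp2 hu hcl ζ hζ a b c ha hb hc h hloc x y z k hxy
  set a' := algebraMap K L a with ha'
  set b' := algebraMap K L b with hb'
  set c' := algebraMap K L c with hc'
  have hwa : w.valuation L a' < 1 := by
    rw [ha', hval a]
    exact pow_lt_one₀ zero_le hQa he.ne'
  have hwb : w.valuation L b' = 1 := by rw [hb', hval b, hQb, one_pow]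
  have hwc : w.valuation L c' = 1 := by rw [hc', hval c, hQc, one_pow]
  have hwp : (p : 𝓞 L) ∉ w.asIdeal := by
    intro hmem
    rw [natCast_mem_iff] at hmem
    rw [natCast_mem_iff] at hQp
    have h1 : w.valuation L (p : L) = Q.valuation K (p : K) ^ e := by
      have hcast : algebraMap K L (p : K) = (p : L) := map_natCast _ p
      rw [← hval (p : K), hcast]
    have h2 : Q.valuation K (p : K) = 1 := le_antisymm (sp_natCast_le Q p) (not_lt.1 hQp)
    rw [h1, h2, one_pow] at hmem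
    exact lt_irrefl _ hmem
  have hwζ : w.valuation L ζ = 1 := gq_val_zeta w p ζ hζ
  -- the three congruences
  have hU : FcC w (Gam p ζ a' b') (ζ⁻¹ * (b' ^ ((p - 1) / 2)) ^ p) := by
    refine ⟨?_, GamQ_one p hp2 ζ hζ w a' b' hwa hwb⟩
    rw [map_mul, map_inv₀, hwζ, map_pow, map_pow, hwb, one_pow, one_pow, inv_one, mul_one]
  have hV : FcC w (Gam p ζ a' c') (ζ⁻¹ * (c' ^ ((p - 1) / 2)) ^ p) := by
    refine ⟨?_, GamQ_one p hp2 ζ hζ w a' c' hwa hwc⟩
    rw [map_mul, map_inv₀, hwζ, map_pow, map_pow, hwc, one_pow, one_pow, inv_one, mul_one]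
  have hT : ∃ s : L, w.valuation L s = 1 ∧
      FcC w ((Gam p ζ b' c' / Gam p ζ c' b') ^ z) (s ^ p) := by
    rcases hz with rfl | hz
    · refine ⟨1, by simp, ?_⟩
      rw [zpow_zero, one_pow]
      exact FcC_refl w (by simp)
    · have hwbc : w.valuation L (b' + c') < 1 := by
        rw [hb', hc', ← map_add, hval]
        exact pow_lt_one₀ zero_le hz he.ne'
      obtain ⟨_, _, s, hs, hs'⟩ := GamQ_two p hp2 ζ hζ w hwp b' c' hwb hwbc
      have hsv : w.valuation L s = 1 := by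
        rcases hs with rfl | rfl
        · simp
        · simp
      have hsp : s ^ p = s := by
        rcases hs with rfl | rfl
        · simp
        · exact hodd.neg_one_pow
      refine ⟨s ^ z, by rw [map_zpow₀, hsv, one_zpow], ?_⟩
      have e1 : (s ^ z) ^ p = s ^ z := by
        rw [← zpow_natCast, ← zpow_mul, mul_comm, zpow_mul, zpow_natCast, hsp]
      rw [e1]
      exact FcC_zpow w ⟨hsv, hs'⟩ z
  obtain ⟨s, hsv, hT⟩ := hT
  -- the product
  set C : L := (b' ^ ((p - 1) / 2)) ^ x * (c' ^ ((p - 1) / 2)) ^ y * s with hC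
  have hb0 : b' ≠ 0 := by intro h0; rw [h0, map_zero] at hwb; exact zero_ne_one hwb
  have hc0 : c' ≠ 0 := by intro h0; rw [h0, map_zero] at hwc; exact zero_ne_one hwc
  have hCv : w.valuation L C = 1 := by
    rw [hC, map_mul, map_mul, map_zpow₀, map_zpow₀, map_pow, map_pow, hwb, hwc, hsv, one_pow,
      one_zpow, one_zpow, one_mul, one_mul]
  have hC0 : C ≠ 0 := by intro h0; rw [h0, map_zero] at hCv; exact zero_ne_one hCv
  have hall := FcC_mul w (FcC_mul w (FcC_mul w (FcC_zpow w hU x) (FcC_zpow w hV y)) hT)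
    (FcC_zpow w (FcC_refl w hwζ) (x + y - k))
  rw [hB] at hall
  have hrhs : (ζ⁻¹ * (b' ^ ((p - 1) / 2)) ^ p) ^ x * (ζ⁻¹ * (c' ^ ((p - 1) / 2)) ^ p) ^ y * s ^ p *
      ζ ^ (x + y - k) = ζ ^ (-k) * C ^ p := by
    rw [mul_zpow, mul_zpow, inv_zpow', inv_zpow', hC, mul_pow, mul_pow]
    have e1 : ∀ (t : L) (n : ℤ), (t ^ p) ^ n = (t ^ n) ^ p := by
      intro t n
      rw [← zpow_natCast, ← zpow_mul, mul_comm, zpow_mul, zpow_natCast]
    rw [e1, e1]
    have e2 : ζ ^ (-k) = ζ ^ (-x) * ζ ^ (-y) * ζ ^ (x + y - k) := by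
      rw [← zpow_add₀ hζ0, ← zpow_add₀ hζ0]
      congr 1
      ring
    rw [e2]
    ring
  rw [hrhs] at hall
  -- division by `C ^ p`
  have hdiv : FcC w ((B / C) ^ p) (ζ ^ (-k)) := by
    have h1 := FcC_mul w hall (FcC_inv w (FcC_pow w (FcC_refl w hCv) p))
    have e1 : B ^ p * (C ^ p)⁻¹ = (B / C) ^ p := by rw [div_pow, div_eq_mul_inv]
    have e2 : ζ ^ (-k) * C ^ p * (C ^ p)⁻¹ = ζ ^ (-k) := by
      rw [mul_assoc, mul_inv_cancel₀ (pow_ne_zero _ hC0), mul_one]
    rw [e1, e2] at h1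
    exact h1
  -- the exponent
  obtain ⟨k', m, hkm⟩ : ∃ k' m : ℤ, -k * k' = 1 + p * m := by
    have hcop : IsCoprime (p : ℤ) k :=
      (Nat.prime_iff_prime_int.mp hp).coprime_iff_not_dvd.2 hk
    obtain ⟨u, v, huv⟩ := hcop
    refine ⟨-v, -u, ?_⟩
    linarith
  have hfin := FcC_zpow w hdiv k'
  have e3 : ((B / C) ^ p) ^ k' = ((B / C) ^ k') ^ p := by
    rw [← zpow_natCast, ← zpow_mul, mul_comm, zpow_mul, zpow_natCast]
  have e4 : (ζ ^ (-k)) ^ k' = ζ := by
    rw [← zpow_mul, hkm, zpow_add₀ hζ0, zpow_one, zpow_mul, zpow_natCast, hζ.pow_eq_one, one_zpow,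
      mul_one]
  rw [e3, e4] at hfin
  have hres := res_core p ζ hζ w hwp ((B / C) ^ k') hfin.2
  have : IsGalois K L := IsCyclotomicExtension.isGalois {p} K L
  have htow := card_tower K L Q w hlie
  rw [finrank_cyc p K L hu] at htow
  exact hres.trans htow

end H91SP
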