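import Pool.Agent.H91.SP.Val

/-!
# Project SP, module GamPV (block VAL)

Step (2), first half. PROOF. At a place `w` not above `p`, `val_add_zeta` gives
`w(Γ(a, b)) = ∏_t (m w(y_t)^p)^t = m^(p (p-1)/2) (∏_t w(y_t)^t)^p`, `m = max(w(a), w(b))` the valuation of
`a` or of `b`. At `w ∣ p` all factors are units (`val_add_zeta_p`), `y = 1`.
The lemmas `PV_mul`, `PV_zpow`, `PV_zeta`, `PV_div_pow` are immediate.
-/

namespace H91SP

open NumberField IsDedekindDomain

theorem PV_mul (p : ℕ) {L : Type*} [Field L] [NumberField L] (x y : L) (hx : PV p x)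
    (hy : PV p y) : PV p (x * y) := by
  intro w
  obtain ⟨u, hu, h1⟩ := hx w
  obtain ⟨v, hv, h2⟩ := hy w
  exact ⟨u * v, mul_ne_zero hu hv, by rw [map_mul, h1, h2, map_mul, mul_pow]⟩

theorem PV_zpow (p : ℕ) {L : Type*} [Field L] [NumberField L] (x : L) (n : ℤ) (hx : PV p x) :
    PV p (x ^ n) := by
  intro w
  obtain ⟨u, hu, h1⟩ := hx w
  refine ⟨u ^ n, zpow_ne_zero n hu, ?_⟩
  rw [map_zpow₀, h1, map_zpow₀]
  rw [← zpow_natCast, ← zpow_natCast, ← zpow_mul, ← zpow_mul, mul_comm]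

theorem PV_pow_self (p : ℕ) {L : Type*} [Field L] [NumberField L] (x : L) (hx : x ≠ 0) :
    PV p (x ^ p) := by
  intro w
  exact ⟨x, hx, by rw [map_pow]⟩

theorem PV_zeta (p : ℕ) [Fact p.Prime] {L : Type*} [Field L] [NumberField L] (ζ : L)
    (hζ : IsPrimitiveRoot ζ p) : PV p ζ := by
  intro w
  exact ⟨1, one_ne_zero, by rw [vl_val_zeta p ζ hζ.pow_eq_one w, map_one, one_pow]⟩

theorem PV_Gam (p : ℕ) [Fact p.Prime] {L : Type*} [Field L] [NumberField L] (hp2 : p ≠ 2)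
    (ζ : L) (hζ : IsPrimitiveRoot ζ p) (a b c : L) (ha : a ≠ 0) (hb : b ≠ 0) (hc : c ≠ 0)
    (h : a ^ p + b ^ p + c ^ p = 0)
    (hloc : ∀ w : HeightOneSpectrum (𝓞 L), (p : 𝓞 L) ∈ w.asIdeal →
      w.valuation L a = 1 ∧ w.valuation L b = 1 ∧ w.valuation L c = 1) :
    PV p (Gam p ζ a b) := by
  intro w
  have hp : p.Prime := Fact.out
  by_cases hw : (p : 𝓞 L) ∈ w.asIdeal
  · obtain ⟨h1, h2, h3⟩ := hloc w hw
    refine ⟨1, one_ne_zero, ?_⟩
    rw [Gam, map_prod, map_one, one_pow]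
    refine Finset.prod_eq_one fun t _ => ?_
    rw [map_pow, val_add_zeta_p p ζ hζ w hw a b c h1 h2 h3 h, one_pow]
  · choose y hy0 hy using fun t : ℕ => val_add_zeta p hp2 ζ hζ w hw a b c ha hb hc h (iv p t)
    obtain ⟨z, hz0, hz⟩ : ∃ z : L, z ≠ 0 ∧
        max (w.valuation L a) (w.valuation L b) = w.valuation L z := by
      rcases le_total (w.valuation L a) (w.valuation L b) with h1 | h1
      · exact ⟨b, hb, max_eq_right h1⟩
      · exact ⟨a, ha, max_eq_left h1⟩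
    obtain ⟨m, hm⟩ := hp.odd_of_ne_two hp2
    refine ⟨z ^ m * ∏ t ∈ Finset.Ico 1 p, y t ^ t, mul_ne_zero (pow_ne_zero _ hz0)
      (Finset.prod_ne_zero_iff.2 fun t _ => pow_ne_zero _ (hy0 t)), ?_⟩
    have hsum : ∑ t ∈ Finset.Ico 1 p, t = m * p := by
      have h1 : ∑ t ∈ Finset.Ico 1 p, t = ∑ t ∈ Finset.range p, t := by
        rw [Finset.range_eq_Ico, Finset.sum_eq_sum_Ico_succ_bot hp.pos]
        simp
      rw [h1, Finset.sum_range_id, hm, Nat.add_sub_cancel]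
      rw [mul_comm (2 * m + 1), mul_assoc, Nat.mul_div_cancel_left _ (by norm_num)]
    rw [Gam, map_prod]
    have h2 : ∀ t ∈ Finset.Ico 1 p, w.valuation L ((a + ζ ^ iv p t * b) ^ t) =
        w.valuation L z ^ t * (w.valuation L (y t) ^ t) ^ p := by
      intro t _
      rw [map_pow, hy t, hz, mul_pow, ← pow_mul, ← pow_mul, mul_comm p t]
    rw [Finset.prod_congr rfl h2, Finset.prod_mul_distrib, Finset.prod_pow_eq_pow_sum, hsum,
      Finset.prod_pow, map_mul, map_pow, map_prod, mul_pow, ← pow_mul]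
    congr 2
    exact Finset.prod_congr rfl fun t _ => (map_pow _ _ _).symm

end H91SP
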