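import Mathlib

/-!
# Hilbert 94, algebraic part

`M` a finitely generated abelian group, `σ` an endomorphism with `σ ^ p = 1`, `p` prime,
`rank M = p r - 1`, `rank (ker (σ - 1)) = r - 1`.  Then there is `x` of norm zero which is not of
the form `y - σ y`.

PROOF.  `δ = σ - 1`, `N = ∑ σ ^ i = ∑_{i<p} choose (p, i+1) δ ^ i`
(`Polynomial.geom_sum_X_comp_X_add_one_eq_sum`), `X = ker N`, `M0 = ker δ`.  Suppose `X = δ M`.
For an endomorphism `φ` of a f.g. abelian group with finite kernel and cokernel put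
`q φ = |coker φ| / |ker φ|`; it is multiplicative, and `q (p •) = p ^ rank`.
(1) `X/δX = δM/δX ≅ M/(M0 + X) ≅ N M / N M0 = N M / p M0`, so
`|X/δX| ≤ |M0/pM0| = p ^ (r-1) |M0[p]|`.
(2) on `X`: `δ ^ (p-1) = - p v`, `v = 1 + δ g` with `g` a polynomial in `δ`; `v` is bijective on `X`
(`x = v x - δ g x`, iterate `p - 1` times: `x ∈ v X + δ^(p-1) X = v X`; `v x = 0` gives
`x = (-δ g)^(p-1) x = ± p v (..) x = 0`).  So `q(δ)^(p-1) = q(p) = p ^ rank X`, `rank X = rank M -
rank M0 = (p-1) r`, `q(δ) = p ^ r`; `ker δ` on `X` is `M0[p]`.  So `|X/δX| = p ^ r |M0[p]|`,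
contradiction to (1).
-/

namespace H91SP

open AddSubgroup

namespace H94A

section general

variable {X : Type*} [AddCommGroup X]

theorem card_ker_comp (φ ψ : X →+ X) :
    Nat.card (φ.comp ψ).ker = Nat.card ψ.ker * Nat.card (φ.ker ⊓ ψ.range : AddSubgroup X) := by
  have h1 : (φ.comp ψ).ker = φ.ker.comap ψ := by
    ext x; simp [AddMonoidHom.mem_ker]
  have h2 : ψ.ker ≤ φ.ker.comap ψ := by
    intro x hx
    rw [AddMonoidHom.mem_ker] at hx
    rw [AddSubgroup.mem_comap, AddMonoidHom.mem_ker, hx, map_zero]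
  have h3 := relIndex_mul_relIndex ⊥ ψ.ker (φ.ker.comap ψ) bot_le h2
  rw [relIndex_bot_left, relIndex_bot_left, relIndex_ker, map_comap_eq] at h3
  rw [h1, ← h3, inf_comm]

theorem qmul (φ ψ : X →+ X) :
    (φ.comp ψ).range.index * Nat.card φ.ker * Nat.card ψ.ker =
      φ.range.index * ψ.range.index * Nat.card (φ.comp ψ).ker := by
  have h1 : (φ.comp ψ).range = ψ.range.map φ := by
    rw [AddMonoidHom.map_range]
  have h2 : (φ.comp ψ).range.index = (ψ.range ⊔ φ.ker).index * φ.range.index := by
    rw [h1, index_map]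
  have h3 : ψ.range.relIndex φ.ker * (ψ.range ⊔ φ.ker).index = ψ.range.index := by
    rw [← relIndex_sup_left, relIndex_mul_index le_sup_left]
  have h4 : Nat.card (φ.ker ⊓ ψ.range : AddSubgroup X) * ψ.range.relIndex φ.ker =
      Nat.card φ.ker := by
    have h := relIndex_mul_relIndex ⊥ (φ.ker ⊓ ψ.range) φ.ker bot_le inf_le_left
    rwa [relIndex_bot_left, relIndex_bot_left, inf_relIndex_left] at h
  rw [h2, ← h3, card_ker_comp, ← h4]
  ring

theorem ker_one : (AddMonoidHom.ker ((1 : AddMonoid.End X) : X →+ X)) = ⊥ := by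
  ext x
  rw [AddMonoidHom.mem_ker, AddSubgroup.mem_bot]
  exact Iff.rfl

theorem range_one : (AddMonoidHom.range ((1 : AddMonoid.End X) : X →+ X)) = ⊤ := by
  ext x
  rw [AddMonoidHom.mem_range]
  exact ⟨fun _ => AddSubgroup.mem_top x, fun _ => ⟨x, rfl⟩⟩

theorem card_ker_pow_ne (δ : AddMonoid.End X) (h : Nat.card (AddMonoidHom.ker (δ : X →+ X)) ≠ 0)
    (n : ℕ) : Nat.card (AddMonoidHom.ker (δ ^ n : AddMonoid.End X)) ≠ 0 := by
  induction n with
  | zero =>
    rw [pow_zero, ker_one]
    simp
  | succ n ih =>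
    have h1 : ((δ ^ (n + 1) : AddMonoid.End X) : X →+ X) =
        ((δ : X →+ X)).comp ((δ ^ n : AddMonoid.End X) : X →+ X) := by
      rw [pow_succ']; rfl
    rw [h1, card_ker_comp]
    refine mul_ne_zero ih ?_
    have : Finite (AddMonoidHom.ker (δ : X →+ X)) := Nat.finite_of_card_ne_zero h
    have h2 : Finite ((AddMonoidHom.ker (δ : X →+ X)) ⊓
        (AddMonoidHom.range ((δ ^ n : AddMonoid.End X) : X →+ X)) : AddSubgroup X) :=
      Finite.of_injective (AddSubgroup.inclusion inf_le_left)
        (AddSubgroup.inclusion_injective inf_le_left)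
    exact Nat.card_pos.ne'

theorem qpow (δ : AddMonoid.End X) (h : Nat.card (AddMonoidHom.ker (δ : X →+ X)) ≠ 0)
    (n : ℕ) :
    (AddMonoidHom.range ((δ ^ n : AddMonoid.End X) : X →+ X)).index *
        Nat.card (AddMonoidHom.ker (δ : X →+ X)) ^ n =
      (AddMonoidHom.range (δ : X →+ X)).index ^ n *
        Nat.card (AddMonoidHom.ker ((δ ^ n : AddMonoid.End X) : X →+ X)) := by
  induction n with
  | zero =>
    rw [pow_zero, ker_one, range_one]
    simp
  | succ n ih =>
    have h1 : ((δ ^ (n + 1) : AddMonoid.End X) : X →+ X) =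
        ((δ : X →+ X)).comp ((δ ^ n : AddMonoid.End X) : X →+ X) := by
      rw [pow_succ']; rfl
    have hq := qmul (δ : X →+ X) ((δ ^ n : AddMonoid.End X) : X →+ X)
    rw [← h1] at hq
    have hk := card_ker_pow_ne δ h n
    set I1 := (AddMonoidHom.range ((δ ^ (n + 1) : AddMonoid.End X) : X →+ X)).index
    set I0 := (AddMonoidHom.range ((δ ^ n : AddMonoid.End X) : X →+ X)).index
    set I := (AddMonoidHom.range (δ : X →+ X)).index
    set k := Nat.card (AddMonoidHom.ker (δ : X →+ X))
    set k0 := Nat.card (AddMonoidHom.ker ((δ ^ n : AddMonoid.End X) : X →+ X))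
    set k1 := Nat.card (AddMonoidHom.ker ((δ ^ (n + 1) : AddMonoid.End X) : X →+ X))
    apply Nat.eq_of_mul_eq_mul_right (Nat.pos_of_ne_zero hk)
    calc I1 * k ^ (n + 1) * k0 = (I1 * k * k0) * k ^ n := by ring
      _ = (I * I0 * k1) * k ^ n := by rw [hq]
      _ = I * k1 * (I0 * k ^ n) := by ring
      _ = I * k1 * (I ^ n * k0) := by rw [ih]
      _ = I ^ (n + 1) * k1 * k0 := by ring

/-- The index of `p X` for a free group. -/
theorem index_free (n p : ℕ) :
    (nsmulAddMonoidHom (α := Fin n → ℤ) p).range.index = p ^ n := by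
  have h1 : (nsmulAddMonoidHom (α := Fin n → ℤ) p).range =
      AddSubgroup.pi Set.univ (fun _ : Fin n => AddSubgroup.zmultiples (p : ℤ)) := by
    ext x
    rw [AddMonoidHom.mem_range, AddSubgroup.mem_pi]
    constructor
    · rintro ⟨y, rfl⟩ i _
      rw [AddSubgroup.mem_zmultiples_iff]
      exact ⟨y i, by simp [mul_comm]⟩
    · intro h
      choose y hy using fun i => AddSubgroup.mem_zmultiples_iff.1 (h i (Set.mem_univ i))
      refine ⟨y, ?_⟩
      funext i
      rw [← hy i]
      simp [mul_comm]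
  rw [h1, AddSubgroup.index_pi]
  simp [Int.index_zmultiples]

theorem ker_nsmul_finite [Module.Finite ℤ X] {p : ℕ} (hp : p ≠ 0) :
    Finite (nsmulAddMonoidHom (α := X) p).ker := by
  have h1 : Finite (Submodule.torsion ℤ X) := by
    apply Module.finite_of_fg_torsion
    exact Submodule.torsion_isTorsion
  refine Finite.of_injective (fun x : (nsmulAddMonoidHom (α := X) p).ker =>
    (⟨x.1, ?_⟩ : Submodule.torsion ℤ X)) ?_
  · have := x.2
    rw [AddMonoidHom.mem_ker, nsmulAddMonoidHom_apply] at this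
    rw [Submodule.mem_torsion_iff]
    refine ⟨⟨(p : ℤ), mem_nonZeroDivisors_of_ne_zero (by exact_mod_cast hp)⟩, ?_⟩
    rw [Submonoid.mk_smul, natCast_zsmul, this]
  · intro x y hxy
    have := congrArg Subtype.val hxy
    exact Subtype.ext this

/-- `|X / pX| = p ^ rank X * |X[p]|`. -/
theorem index_nsmul [Module.Finite ℤ X] {p : ℕ} (hp : p ≠ 0) :
    (nsmulAddMonoidHom (α := X) p).range.index =
      p ^ Module.finrank ℤ X * Nat.card (nsmulAddMonoidHom (α := X) p).ker := by
  set T := Submodule.torsion ℤ X with hT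
  have hTf : Finite T := by
    apply Module.finite_of_fg_torsion
    exact Submodule.torsion_isTorsion
  set F := X ⧸ T
  have hF : Module.finrank ℤ F = Module.finrank ℤ X := by
    apply finrank_quotient_eq_of_le_torsion
    exact le_rfl
  have hfree : Module.Free ℤ F := by
    infer_instance
  set f : X →+ F := (Submodule.mkQ T).toAddMonoidHom with hf
  have hfs : Function.Surjective f := Submodule.mkQ_surjective T
  have hfk : ∀ x, x ∈ f.ker ↔ x ∈ T := by
    intro x
    rw [AddMonoidHom.mem_ker]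
    exact Submodule.Quotient.mk_eq_zero T
  set P := (nsmulAddMonoidHom (α := X) p)
  set PF := (nsmulAddMonoidHom (α := F) p)
  -- the free quotient
  have h1 : PF.range.index = p ^ Module.finrank ℤ X := by
    rw [← hF]
    have e := (Module.finBasis ℤ F).equivFun.toAddEquiv
    have h2 := index_free (Module.finrank ℤ F) p
    rw [← h2]
    have h3 : PF.range.map e.toAddMonoidHom =
        (nsmulAddMonoidHom (α := Fin (Module.finrank ℤ F) → ℤ) p).range := by
      ext x
      rw [AddSubgroup.mem_map]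
      constructor
      · rintro ⟨y, ⟨z, rfl⟩, rfl⟩
        exact ⟨e z, by simp [PF]⟩
      · rintro ⟨z, rfl⟩
        exact ⟨p • e.symm z, ⟨e.symm z, by simp [PF]⟩, by simp⟩
    rw [← h3]
    exact (AddSubgroup.index_map_of_bijective e.bijective _).symm
  have h2 : P.range.map f = PF.range := by
    ext x
    rw [AddSubgroup.mem_map]
    constructor
    · rintro ⟨y, ⟨z, rfl⟩, rfl⟩
      exact ⟨f z, by simp [PF, P]⟩
    · rintro ⟨z, rfl⟩
      obtain ⟨w, rfl⟩ := hfs z
      exact ⟨p • w, ⟨w, by simp [P]⟩, by simp [PF]⟩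
  have h3 : PF.range.index = (P.range ⊔ f.ker).index := by
    rw [← h2, index_map, AddMonoidHom.range_eq_top_of_surjective f hfs, index_top, mul_one]
  have h4 : P.range.relIndex f.ker * (P.range ⊔ f.ker).index = P.range.index := by
    rw [← relIndex_sup_left, relIndex_mul_index le_sup_left]
  -- the torsion part
  have h5 : f.ker ⊓ P.range = f.ker.map P := by
    ext x
    rw [AddSubgroup.mem_inf, AddSubgroup.mem_map]
    constructor
    · rintro ⟨h6, y, rfl⟩
      refine ⟨y, ?_, rfl⟩
      rw [hfk] at h6 ⊢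
      rw [Submodule.mem_torsion_iff] at h6 ⊢
      obtain ⟨a, ha⟩ := h6
      refine ⟨a * ⟨(p : ℤ), mem_nonZeroDivisors_of_ne_zero (by exact_mod_cast hp)⟩, ?_⟩
      have h8 : (⟨(p : ℤ), mem_nonZeroDivisors_of_ne_zero (by exact_mod_cast hp)⟩ :
          nonZeroDivisors ℤ) • y = P y := by
        rw [Submonoid.mk_smul, natCast_zsmul]; rfl
      rw [mul_smul, h8]
      exact ha
    · rintro ⟨y, h6, rfl⟩
      refine ⟨?_, y, rfl⟩
      rw [hfk] at h6 ⊢
      have := T.smul_mem (p : ℤ) h6
      rwa [natCast_zsmul] at this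
  have h6 : P.ker ≤ f.ker := by
    intro x hx
    rw [hfk, Submodule.mem_torsion_iff]
    rw [AddMonoidHom.mem_ker, nsmulAddMonoidHom_apply] at hx
    refine ⟨⟨(p : ℤ), mem_nonZeroDivisors_of_ne_zero (by exact_mod_cast hp)⟩, ?_⟩
    rw [Submonoid.mk_smul, natCast_zsmul, hx]
  have h7 : Nat.card P.ker * Nat.card (f.ker.map P) = Nat.card f.ker := by
    have h := relIndex_mul_relIndex ⊥ P.ker f.ker bot_le h6
    rwa [relIndex_bot_left, relIndex_bot_left, relIndex_ker] at h
  have h8 : Nat.card (f.ker.map P) * P.range.relIndex f.ker = Nat.card f.ker := by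
    have h := relIndex_mul_relIndex ⊥ (f.ker ⊓ P.range) f.ker bot_le inf_le_left
    rwa [relIndex_bot_left, relIndex_bot_left, inf_relIndex_left, h5] at h
  have h9 : Nat.card (f.ker.map P) ≠ 0 := by
    have hk : Finite f.ker := by
      have : f.ker = T.toAddSubgroup := by
        ext x; exact hfk x
      rw [this]
      exact hTf
    intro h0
    rw [h0, mul_zero] at h7
    exact Nat.card_pos.ne' h7.symm
  have h10 : P.range.relIndex f.ker = Nat.card P.ker := by
    apply Nat.eq_of_mul_eq_mul_left (Nat.pos_of_ne_zero h9)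
    rw [h8, ← h7, mul_comm]
  rw [← h4, h10, ← h3, h1, mul_comm]

end general

/-- The polynomial identities: `∑_{i<p} C(p,i+1) T^i = T^(p-1) + p V`, and `V` is a unit modulo it. -/
theorem exists_poly {p : ℕ} (hp : p.Prime) :
    ∃ V W G : Polynomial ℤ,
      (∑ i ∈ Finset.range p, (p.choose (i + 1) : Polynomial ℤ) * Polynomial.X ^ i) =
        Polynomial.X ^ (p - 1) + (p : Polynomial ℤ) * V ∧
      V * W = 1 + G * (∑ i ∈ Finset.range p,
        (p.choose (i + 1) : Polynomial ℤ) * Polynomial.X ^ i) := by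
  obtain ⟨n, rfl⟩ : ∃ n, p = n + 2 := ⟨p - 2, by have := hp.two_le; omega⟩
  have hch : ∀ i, i < n → ∃ c : ℕ, (n + 2).choose (i + 2) = (n + 2) * c := by
    intro i hi
    exact hp.dvd_choose_self (by omega) (by omega)
  choose! c hc using hch
  set G : Polynomial ℤ := ∑ i ∈ Finset.range n, (c i : Polynomial ℤ) * Polynomial.X ^ i with hG
  have h1 : (∑ i ∈ Finset.range (n + 2),
      ((n + 2).choose (i + 1) : Polynomial ℤ) * Polynomial.X ^ i) =
      Polynomial.X ^ (n + 1) + ((n + 2 : ℕ) : Polynomial ℤ) * (1 + Polynomial.X * G) := by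
    rw [Finset.sum_range_succ, Finset.sum_range_succ']
    have h2 : ∀ i ∈ Finset.range n,
        ((n + 2).choose (i + 1 + 1) : Polynomial ℤ) * Polynomial.X ^ (i + 1) =
        ((n + 2 : ℕ) : Polynomial ℤ) * (Polynomial.X * ((c i : Polynomial ℤ) *
          Polynomial.X ^ i)) := by
      intro i hi
      rw [show i + 1 + 1 = i + 2 from rfl, hc i (Finset.mem_range.1 hi)]
      push_cast
      ring
    rw [Finset.sum_congr rfl h2, ← Finset.mul_sum, ← Finset.mul_sum, ← hG]
    rw [Nat.choose_self]
    simp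
    ring
  refine ⟨1 + Polynomial.X * G,
    (∑ j ∈ Finset.range (n + 1), (-(Polynomial.X * G)) ^ j) -
      ((n + 2 : ℕ) : Polynomial ℤ) * (-G) ^ (n + 1), -(-G) ^ (n + 1), ?_, ?_⟩
  · rw [h1]; rfl
  · rw [h1]
    have h3 : (1 + Polynomial.X * G) * (∑ j ∈ Finset.range (n + 1), (-(Polynomial.X * G)) ^ j) =
        1 - (-(Polynomial.X * G)) ^ (n + 1) := by
      have := mul_neg_geom_sum (-(Polynomial.X * G)) (n + 1)
      rw [← this]
      ring
    have h4 : (-(Polynomial.X * G)) ^ (n + 1) = (-G) ^ (n + 1) * Polynomial.X ^ (n + 1) := by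
      rw [← mul_pow]; ring_nf
    rw [mul_sub, h3, h4]
    ring

end H94A

/-- Algebraic part of Hilbert 94. -/
theorem exists_norm_zero_not_sub (p : ℕ) (hp : p.Prime) {M : Type*} [AddCommGroup M]
    [Module.Finite ℤ M] (σ : M →ₗ[ℤ] M) (hσ : σ ^ p = 1) (r : ℕ)
    (hM : Module.finrank ℤ M + 1 = p * r)
    (h0 : Module.finrank ℤ (LinearMap.ker (σ - 1)) + 1 = r) :
    ∃ x : M, (∑ i ∈ Finset.range p, (σ ^ i) x) = 0 ∧ ∀ y : M, x ≠ y - σ y := by
  by_contra hcon
  push Not at hcon
  have hp0 : p ≠ 0 := hp.ne_zero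
  -- notation
  set d : M →ₗ[ℤ] M := σ - 1 with hd
  set N : M →ₗ[ℤ] M := ∑ i ∈ Finset.range p, σ ^ i with hN
  have hNap : ∀ x, N x = ∑ i ∈ Finset.range p, (σ ^ i) x := by
    intro x; rw [hN, LinearMap.sum_apply]
  have hdN : d * N = 0 := by
    rw [hd, hN, ← neg_sub, neg_mul, mul_neg_geom_sum, hσ]
    simp
  have hNd : N * d = 0 := by
    rw [hd, hN, geom_sum_mul, hσ, sub_self]
  have hdN' : ∀ x, d (N x) = 0 := fun x => by
    have := LinearMap.congr_fun hdN x
    simpa using this
  have hNd' : ∀ x, N (d x) = 0 := fun x => by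
    have := LinearMap.congr_fun hNd x
    simpa using this
  have hdap : ∀ x, d x = σ x - x := fun x => by simp [hd]
  have hNp : ∀ m, d m = 0 → N m = p • m := by
    intro m hm
    have h1 : σ m = m := by
      have := hdap m
      rw [hm] at this
      exact (sub_eq_zero.1 this.symm)
    have h2 : ∀ i, (σ ^ i) m = m := by
      intro i
      induction i with
      | zero => simp
      | succ i ih => rw [pow_succ, Module.End.mul_apply, h1, ih]
    rw [hNap, Finset.sum_congr rfl (fun i _ => h2 i)]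
    simp
  set X : Submodule ℤ M := LinearMap.ker N with hX
  set M0 : Submodule ℤ M := LinearMap.ker d with hM0
  have hmX : ∀ x, x ∈ X ↔ N x = 0 := fun x => LinearMap.mem_ker
  have hm0 : ∀ x, x ∈ M0 ↔ d x = 0 := fun x => LinearMap.mem_ker
  have hXr : X = LinearMap.range d := by
    ext x
    rw [LinearMap.mem_ker, LinearMap.mem_range]
    constructor
    · intro h
      rw [hNap] at h
      obtain ⟨y, hy⟩ := hcon x h
      exact ⟨-y, by rw [hdap, hy, map_neg]; abel⟩
    · rintro ⟨y, rfl⟩
      exact hNd' y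
  have hrX : Module.finrank ℤ X = (p - 1) * r := by
    have h1 := Submodule.finrank_quotient_add_finrank (R := ℤ) M0
    have h2 := (d.quotKerEquivRange).finrank_eq
    have h3 : Module.finrank ℤ X = Module.finrank ℤ (LinearMap.range d) := by rw [hXr]
    rw [h3, ← h2]
    obtain ⟨q, rfl⟩ : ∃ q, p = q + 1 := ⟨p - 1, by have := hp.one_lt; omega⟩
    have h4 : q * r + r = (q + 1) * r := by ring
    rw [Nat.add_sub_cancel]
    change Module.finrank ℤ (M ⧸ M0) = q * r
    omega
  have hdX : ∀ x ∈ X, d x ∈ X := by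
    intro x _
    exact (hmX _).2 (hNd' x)
  set E : AddMonoid.End X := (d.restrict hdX).toAddMonoidHom with hE
  have hEap : ∀ x : X, ((E x : X) : M) = d x := fun x => rfl
  have hEpow : ∀ (n : ℕ) (x : X), (((E ^ n) x : X) : M) = (d ^ n) x := by
    intro n
    induction n with
    | zero => intro x; simp
    | succ n ih =>
      intro x
      rw [pow_succ, pow_succ, Module.End.mul_apply, ← hEap, ← ih]
      rfl
  have hEpoly : ∀ (q : Polynomial ℤ) (x : X),
      (((Polynomial.aeval E q) x : X) : M) = (Polynomial.aeval d q) (x : M) := by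
    intro q
    induction q using Polynomial.induction_on' with
    | add q1 q2 h1 h2 =>
      intro x
      rw [map_add, map_add, LinearMap.add_apply, ← h1, ← h2]
      rfl
    | monomial n a =>
      intro x
      rw [Polynomial.aeval_monomial, Polynomial.aeval_monomial, Module.End.mul_apply, ← hEpow]
      change (((algebraMap ℤ (AddMonoid.End X) a) ((E ^ n) x) : X) : M) = _
      rw [Module.algebraMap_end_apply, eq_intCast]
      rw [AddMonoid.End.intCast_apply]
      rfl
  set P : Polynomial ℤ := ∑ i ∈ Finset.range p, (p.choose (i + 1) : Polynomial ℤ) *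
    Polynomial.X ^ i with hP
  have hdP : Polynomial.aeval d P = N := by
    rw [hP, ← Polynomial.geom_sum_X_comp_X_add_one_eq_sum, Polynomial.aeval_comp]
    have : Polynomial.aeval d (Polynomial.X + 1 : Polynomial ℤ) = σ := by
      rw [map_add, Polynomial.aeval_X, map_one, hd]; abel
    rw [this, map_sum]
    simp [hN]
  have hEP : Polynomial.aeval E P = 0 := by
    ext x
    rw [hEpoly, hdP]
    rw [(hmX _).1 x.2]; rfl
  obtain ⟨V, W, G, hV, hVW⟩ := H94A.exists_poly hp
  rw [← hP] at hV hVW
  set v : AddMonoid.End X := Polynomial.aeval E V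
  set w : AddMonoid.End X := Polynomial.aeval E W
  have hvw : v * w = 1 := by
    have := congrArg (Polynomial.aeval E) hVW
    rw [map_mul, map_add, map_one, map_mul, hEP, mul_zero, add_zero] at this
    exact this
  have hwv : w * v = 1 := by
    have := congrArg (Polynomial.aeval E) hVW
    rw [mul_comm V W, map_mul, map_add, map_one, map_mul, hEP, mul_zero, add_zero] at this
    exact this
  have hEv : E ^ (p - 1) + (p : AddMonoid.End X) * v = 0 := by
    have := congrArg (Polynomial.aeval E) hV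
    rw [hEP, map_add, map_pow, Polynomial.aeval_X, map_mul, map_natCast] at this
    exact this.symm
  have hEv' : ∀ x : X, (E ^ (p - 1)) x + p • (v x) = 0 := by
    intro x
    exact DFunLike.congr_fun hEv x
  have hvw' : ∀ x : X, v (w x) = x := fun x => DFunLike.congr_fun hvw x
  have hwv' : ∀ x : X, w (v x) = x := fun x => DFunLike.congr_fun hwv x
  set PX := nsmulAddMonoidHom (α := X) p with hPX
  set P0 := nsmulAddMonoidHom (α := M0) p with hP0
  have hrange : AddMonoidHom.range ((E ^ (p - 1) : AddMonoid.End X) : X →+ X) = PX.range := by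
    ext x
    rw [AddMonoidHom.mem_range, AddMonoidHom.mem_range]
    constructor
    · rintro ⟨y, rfl⟩
      refine ⟨-(v y), ?_⟩
      rw [hPX, nsmulAddMonoidHom_apply, smul_neg]
      exact (eq_neg_of_add_eq_zero_left (hEv' y)).symm
    · rintro ⟨y, rfl⟩
      refine ⟨-(w y), ?_⟩
      rw [map_neg, hPX, nsmulAddMonoidHom_apply]
      have h1 := hEv' (w y)
      rw [hvw'] at h1
      have h2 : (E ^ (p - 1)) (w y) = -(p • y) := eq_neg_of_add_eq_zero_left h1
      have h3 : -((E ^ (p - 1)) (w y)) = p • y := by rw [h2, neg_neg]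
      exact h3
  have hker : AddMonoidHom.ker ((E ^ (p - 1) : AddMonoid.End X) : X →+ X) = PX.ker := by
    ext x
    rw [AddMonoidHom.mem_ker, AddMonoidHom.mem_ker, hPX, nsmulAddMonoidHom_apply]
    constructor
    · intro h
      have h1 := hEv' x
      have h0 : (E ^ (p - 1)) x = 0 := h
      rw [h0, zero_add, ← map_nsmul] at h1
      have h2 := congrArg w h1
      rwa [hwv', map_zero] at h2
    · intro h
      have h1 := hEv' x
      rw [← map_nsmul, h, map_zero, add_zero] at h1
      exact h1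
  have hkX : Nat.card PX.ker ≠ 0 := by
    have : Finite PX.ker := H94A.ker_nsmul_finite hp0
    exact Nat.card_pos.ne'
  have hkE : Nat.card (AddMonoidHom.ker (E : X →+ X)) ≠ 0 := by
    have h1 : Finite PX.ker := H94A.ker_nsmul_finite hp0
    have h2 : (AddMonoidHom.ker (E : X →+ X)) ≤ PX.ker := by
      rw [← hker]
      intro x hx
      rw [AddMonoidHom.mem_ker] at hx ⊢
      obtain ⟨q, hq⟩ : ∃ q, p - 1 = q + 1 := ⟨p - 2, by have := hp.two_le; omega⟩
      rw [hq, pow_succ]
      change (E ^ q) (E x) = 0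
      have hx' : E x = 0 := hx
      rw [hx', map_zero]
    have : Finite (AddMonoidHom.ker (E : X →+ X)) :=
      Finite.of_injective (AddSubgroup.inclusion h2) (AddSubgroup.inclusion_injective h2)
    exact Nat.card_pos.ne'
  set I := (AddMonoidHom.range (E : X →+ X)).index with hI
  set k := Nat.card (AddMonoidHom.ker (E : X →+ X)) with hk
  have hmain : I = p ^ r * k := by
    have h1 := H94A.qpow E hkE (p - 1)
    rw [hrange, hker, H94A.index_nsmul hp0, hrX] at h1
    have h2 : p ^ ((p - 1) * r) * k ^ (p - 1) = I ^ (p - 1) := by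
      apply Nat.eq_of_mul_eq_mul_right (Nat.pos_of_ne_zero hkX)
      rw [← h1]
      ring
    have h3 : (p ^ r * k) ^ (p - 1) = I ^ (p - 1) := by
      rw [← h2, mul_pow, ← pow_mul, mul_comm r]
    have h4 : p - 1 ≠ 0 := by have := hp.one_lt; omega
    exact (Nat.pow_left_injective h4 h3).symm
  -- the bound
  have hfX : ∀ m, d m ∈ X := fun m => (hmX _).2 (hNd' m)
  have hgM : ∀ m, N m ∈ M0 := fun m => (hm0 _).2 (hdN' m)
  set f : M →+ X := (d.codRestrict X hfX).toAddMonoidHom with hf
  set g : M →+ M0 := (N.codRestrict M0 hgM).toAddMonoidHom with hg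
  have hfs : Function.Surjective f := by
    intro x
    have hx : (x : M) ∈ LinearMap.range d := hXr ▸ x.2
    obtain ⟨y, hy⟩ := hx
    exact ⟨y, Subtype.ext hy⟩
  have hBC : (AddMonoidHom.range (E : X →+ X)).comap f = P0.range.comap g := by
    ext m
    rw [AddSubgroup.mem_comap, AddSubgroup.mem_comap, AddMonoidHom.mem_range,
      AddMonoidHom.mem_range]
    constructor
    · rintro ⟨x, hx⟩
      have h1 : d (x : M) = d m := congrArg Subtype.val hx
      have h2 : d (m - x) = 0 := by rw [map_sub, h1, sub_self]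
      refine ⟨⟨m - x, ?_⟩, ?_⟩
      · exact (hm0 _).2 h2
      · apply Subtype.ext
        have h3 : N (x : M) = 0 := (hmX _).1 x.2
        have h4 := hNp _ h2
        rw [map_sub, h3, sub_zero] at h4
        exact h4.symm
    · rintro ⟨y, hy⟩
      have h1 : p • (y : M) = N m := congrArg Subtype.val hy
      have h2 : d (y : M) = 0 := (hm0 _).1 y.2
      have h3 := hNp _ h2
      refine ⟨⟨m - y, ?_⟩, ?_⟩
      · refine (hmX _).2 ?_
        rw [map_sub, h3, h1, sub_self]
      · apply Subtype.ext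
        change d (m - (y : M)) = d m
        rw [map_sub, h2, sub_zero]
  have hdvd : I ∣ P0.range.index := by
    have h1 : ((AddMonoidHom.range (E : X →+ X)).comap f).index = I :=
      AddSubgroup.index_comap_of_surjective _ hfs
    have h2 : (P0.range.comap g).index = P0.range.relIndex g.range :=
      AddSubgroup.index_comap _ _
    rw [← h1, hBC, h2]
    exact AddSubgroup.relIndex_dvd_index_of_normal _ _
  have hcard : Nat.card P0.ker = k := by
    refine Nat.card_congr
      { toFun := fun y => ⟨⟨(y : M0), ?_⟩, ?_⟩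
        invFun := fun x => ⟨⟨((x : X) : M), ?_⟩, ?_⟩
        left_inv := fun y => rfl
        right_inv := fun x => rfl }
    · have h1 : d ((y : M0) : M) = 0 := (hm0 _).1 (y : M0).2
      have h2 : p • (y : M0) = 0 := AddMonoidHom.mem_ker.1 y.2
      refine (hmX _).2 ?_
      rw [hNp _ h1]
      exact congrArg Subtype.val h2
    · exact AddMonoidHom.mem_ker.2 (Subtype.ext ((hm0 _).1 (y : M0).2))
    · exact (hm0 _).2 (congrArg Subtype.val (AddMonoidHom.mem_ker.1 x.2))
    · have h1 : d ((x : X) : M) = 0 := congrArg Subtype.val (AddMonoidHom.mem_ker.1 x.2)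
      refine AddMonoidHom.mem_ker.2 (Subtype.ext ?_)
      change p • ((x : X) : M) = 0
      rw [← hNp _ h1]
      exact (hmX _).1 (x : X).2
  have hr0 : Module.finrank ℤ M0 = r - 1 := by omega
  have hr1 : 1 ≤ r := by omega
  rw [H94A.index_nsmul hp0, hcard, hr0, hmain] at hdvd
  have hkpos : 0 < k := Nat.pos_of_ne_zero hkE
  have h1 := Nat.le_of_dvd (Nat.mul_pos (pow_pos hp.pos _) hkpos) hdvd
  have h2 := Nat.le_of_mul_le_mul_right h1 hkpos
  have h3 : p ^ (r - 1) < p ^ r := Nat.pow_lt_pow_right hp.one_lt (by omega)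
  omega

end H91SP
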