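import Mathlib

/-!
# Hilbert 94, ideal part

`A ⊆ B` Dedekind domains, `B` finite over `A`, `G` the Galois group, no prime of `B` ramified over
`A`.  Then every `G`-invariant nonzero ideal of `B` is the extension of an ideal of `A`.
-/

open scoped Pointwise

namespace H91SP

section general

variable {A B : Type*} [CommRing A] [IsDedekindDomain A] [CommRing B] [IsDedekindDomain B]
  [Algebra A B] [Module.Finite A B] [FaithfulSMul A B]
  (G : Type*) [Group G] [Finite G] [MulSemiringAction G B] [IsGaloisGroup G A B]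

omit [IsDedekindDomain A] [IsDedekindDomain B] [Module.Finite A B] [FaithfulSMul A B]
  [Finite G] in
/-- Extended ideals are invariant. -/
theorem smul_map_eq (𝔭 : Ideal A) (g : G) :
    g • 𝔭.map (algebraMap A B) = 𝔭.map (algebraMap A B) := by
  rw [Ideal.pointwise_smul_def, Ideal.map_map]
  congr 1
  ext x
  simp only [RingHom.coe_comp, Function.comp_apply]
  exact smul_algebraMap g x

include G in
/-- Invariant ideals are extended, if no prime is ramified. -/
theorem exists_map_eq_of_smul_eq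
    (hunr : ∀ P : Ideal B, P.IsPrime → P ≠ ⊥ → P.ramificationIdx A = 1)
    (I : Ideal B) (hI : I ≠ ⊥) (hinv : ∀ g : G, g • I = I) :
    ∃ a : Ideal A, a.map (algebraMap A B) = I := by
  classical
  have hinj : Function.Injective (algebraMap A B) := FaithfulSMul.algebraMap_injective A B
  revert hI hinv
  refine WellFoundedGT.induction (motive := fun I : Ideal B => I ≠ ⊥ → (∀ g : G, g • I = I) →
    ∃ a : Ideal A, a.map (algebraMap A B) = I) I ?_
  intro I ih hI hinv
  by_cases htop : I = ⊤
  · exact ⟨⊤, by rw [Ideal.map_top, htop]⟩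
  obtain ⟨P, hPmax, hIP⟩ := Ideal.exists_le_maximal I htop
  have hPp : P.IsPrime := hPmax.isPrime
  have hPbot : P ≠ ⊥ := fun h => hI (le_bot_iff.mp (h ▸ hIP))
  set 𝔭 : Ideal A := P.under A with h𝔭
  have hlo : P.LiesOver 𝔭 := ⟨rfl⟩
  have h𝔭bot : 𝔭 ≠ ⊥ := by
    rw [h𝔭, Ideal.under_def]
    exact Ideal.IsIntegral.comap_ne_bot _ hPbot
  have h𝔭max : 𝔭.IsMaximal := by
    have : 𝔭.IsPrime := by rw [h𝔭]; infer_instance
    exact this.isMaximal h𝔭bot
  have hmapbot : 𝔭.map (algebraMap A B) ≠ ⊥ := fun h =>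
    h𝔭bot ((Ideal.map_eq_bot_iff_of_injective hinj).mp h)
  -- `𝔭 B ∣ I`
  have hdvd : 𝔭.map (algebraMap A B) ∣ I := by
    rw [UniqueFactorizationMonoid.dvd_iff_normalizedFactors_le_normalizedFactors hmapbot hI,
      Multiset.le_iff_count]
    intro Q
    by_cases hQ : Q ∈ UniqueFactorizationMonoid.normalizedFactors (𝔭.map (algebraMap A B))
    swap
    · rw [Multiset.count_eq_zero_of_notMem hQ]; exact Nat.zero_le _
    have hQprime : Prime Q := UniqueFactorizationMonoid.prime_of_normalized_factor Q hQ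
    have hQbot : Q ≠ ⊥ := hQprime.ne_zero
    have hQp : Q.IsPrime := Ideal.isPrime_of_prime hQprime
    have hQdvd : Q ∣ 𝔭.map (algebraMap A B) :=
      UniqueFactorizationMonoid.dvd_of_mem_normalizedFactors hQ
    have hQle : 𝔭.map (algebraMap A B) ≤ Q := Ideal.le_of_dvd hQdvd
    have hQlo : Q.LiesOver 𝔭 := by
      refine ⟨?_⟩
      have h1 : 𝔭 ≤ Q.under A := by
        rw [Ideal.under_def]; exact Ideal.map_le_iff_le_comap.mp hQle
      exact h𝔭max.eq_of_le (by
        have : (Q.under A).IsPrime := by infer_instance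
        exact this.ne_top) h1
    have hcount : Multiset.count Q
        (UniqueFactorizationMonoid.normalizedFactors (𝔭.map (algebraMap A B))) = 1 := by
      rw [← Ideal.IsDedekindDomain.ramificationIdx_eq_normalizedFactors_count 𝔭 Q hmapbot]
      exact hunr Q hQp hQbot
    rw [hcount, Nat.one_le_iff_ne_zero, Multiset.count_ne_zero]
    obtain ⟨g, hg⟩ := Ideal.exists_smul_eq_of_isGaloisGroup 𝔭 P Q G
    have hIQ : I ≤ Q := by
      rw [← hg, ← hinv g]
      exact Ideal.pointwise_smul_le_pointwise_smul_iff.mpr hIP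
    exact (UniqueFactorizationMonoid.mem_normalizedFactors_iff hI).mpr
      ⟨hQprime, Ideal.dvd_iff_le.mpr hIQ⟩
  obtain ⟨J, hJ⟩ := hdvd
  have hJbot : J ≠ ⊥ := by
    rintro rfl
    apply hI
    rw [hJ]
    exact Ideal.mul_bot _
  have hJinv : ∀ g : G, g • J = J := by
    intro g
    have h1 : 𝔭.map (algebraMap A B) * (g • J) = 𝔭.map (algebraMap A B) * J := by
      calc 𝔭.map (algebraMap A B) * (g • J)
          = (g • 𝔭.map (algebraMap A B)) * (g • J) := by rw [smul_map_eq G 𝔭 g]
        _ = g • (𝔭.map (algebraMap A B) * J) := (smul_mul' g _ _).symm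
        _ = 𝔭.map (algebraMap A B) * J := by rw [← hJ, hinv g]
    exact mul_left_cancel₀ hmapbot h1
  have hlt : I < J := by
    refine lt_of_le_of_ne ?_ ?_
    · rw [hJ]; exact Ideal.mul_le_right
    · intro h
      have h1 : 𝔭.map (algebraMap A B) * J = 1 * J := by
        rw [one_mul, ← hJ, h]
      have h2 : 𝔭.map (algebraMap A B) = 1 := mul_right_cancel₀ hJbot h1
      have h3 : 𝔭.map (algebraMap A B) ≤ P := by
        rw [Ideal.map_le_iff_le_comap]
      rw [h2, Ideal.one_eq_top, top_le_iff] at h3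
      exact hPmax.ne_top h3
  obtain ⟨a, ha⟩ := ih J hlt hJbot hJinv
  exact ⟨𝔭 * a, by rw [Ideal.map_mul, ha, ← hJ]⟩

end general

end H91SP
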