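import Pool.Agent.H91.SP.Cyc
import Pool.Agent.H91.SP.Und

/-!
# Project SP, module LocA (block LOC)

`L = K(ζ)`, `p` unramified in `K`, `w` a place of `L` above `p`, `π = 1 - ζ`.

PROOF. `w(p) = w(π) ^ (p - 1)`, because `p = ∏_{0<j<p} (1 - ζ^j)` and `w(1 - ζ^j) = w(1 - ζ)`; and
`w(a)` is a power of `w(p)` for `a` in `K`. Every `x` in `L` is `∑_{i<p-1} a_i π^i` with `a_i` in `K`;
the non-zero terms have pairwise distinct valuations `w(π) ^ ((p-1) n_i + i)`, so `w(x)` is the
largest of them. Hence the value group is generated by `w(π)`, `σ` preserves `w`, and for `w(x) ≤ 1`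
all terms with `i > 0` have valuation `< 1`, which gives `w(σ x - x) < 1`.
-/

namespace H91SP

open NumberField IsDedekindDomain Finset

/-- the valuation of a sum of terms with distinct valuations is the largest valuation -/
theorem sp_sum_val {ι F Γ : Type*} [DecidableEq ι] [Field F] [LinearOrderedCommGroupWithZero Γ]
    (v : Valuation F Γ) (f : ι → F) (s : Finset ι)
    (h : ∀ i ∈ s, ∀ j ∈ s, i ≠ j → f i ≠ 0 → v (f i) ≠ v (f j)) :
    (∀ i ∈ s, f i = 0) ∨
      ∃ j ∈ s, f j ≠ 0 ∧ v (∑ i ∈ s, f i) = v (f j) ∧ ∀ i ∈ s, v (f i) ≤ v (f j) := by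
  induction s using Finset.induction_on with
  | empty => left; simp
  | insert a s ha ih =>
    have ih' := ih (fun i hi j hj => h i (mem_insert_of_mem hi) j (mem_insert_of_mem hj))
    rw [sum_insert ha]
    by_cases hfa : f a = 0
    · rcases ih' with h0 | ⟨j, hj, hj0, hj1, hj2⟩
      · left
        intro i hi
        rcases mem_insert.1 hi with rfl | hi
        · exact hfa
        · exact h0 i hi
      · right
        refine ⟨j, mem_insert_of_mem hj, hj0, by rw [hfa, zero_add, hj1], ?_⟩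
        intro i hi
        rcases mem_insert.1 hi with rfl | hi
        · rw [hfa, map_zero]; exact zero_le
        · exact hj2 i hi
    · rcases ih' with h0 | ⟨j, hj, hj0, hj1, hj2⟩
      · right
        refine ⟨a, mem_insert_self _ _, hfa, by rw [sum_eq_zero h0, add_zero], ?_⟩
        intro i hi
        rcases mem_insert.1 hi with rfl | hi
        · exact le_rfl
        · rw [h0 i hi, map_zero]; exact zero_le
      · have hne : v (f a) ≠ v (f j) := by
          refine h a (mem_insert_self _ _) j (mem_insert_of_mem hj) ?_ hfa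
          rintro rfl
          exact ha hj
        rcases lt_or_gt_of_ne hne with hlt | hgt
        · right
          refine ⟨j, mem_insert_of_mem hj, hj0, ?_, ?_⟩
          · rw [Valuation.map_add_eq_of_lt_right v (by rw [hj1]; exact hlt), hj1]
          · intro i hi
            rcases mem_insert.1 hi with rfl | hi
            · exact hlt.le
            · exact hj2 i hi
        · right
          refine ⟨a, mem_insert_self _ _, hfa, ?_, ?_⟩
          · rw [Valuation.map_add_eq_of_lt_left v (by rw [hj1]; exact hgt)]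
          · intro i hi
            rcases mem_insert.1 hi with rfl | hi
            · exact le_rfl
            · exact (hj2 i hi).trans hgt.le

/-- the valuation of `p` at a place of `K` above `p` -/
theorem sp_val_p_K (p : ℕ) (K : Type*) [Field K] [NumberField K] (hu : Unr p K)
    (v : HeightOneSpectrum (𝓞 K)) (hv : (p : 𝓞 K) ∈ v.asIdeal) :
    v.valuation K (p : K) = WithZero.exp (-1 : ℤ) := by
  have h1 : v.valuation K (p : K) = v.intValuation (p : 𝓞 K) := by
    rw [← HeightOneSpectrum.valuation_of_algebraMap (K := K)]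
    simp
  rw [h1]
  have h2 := (v.intValuation_le_pow_iff_mem (p : 𝓞 K) 1).2 (by simpa using hv)
  have h3 : ¬ v.intValuation (p : 𝓞 K) ≤ WithZero.exp (-(2 : ℕ) : ℤ) := by
    rw [v.intValuation_le_pow_iff_mem (p : 𝓞 K) 2]
    exact hu v hv
  have h0 : v.intValuation (p : 𝓞 K) ≠ 0 := by
    intro h
    rw [h] at h3
    exact h3 zero_le
  rw [← WithZero.exp_log h0] at h2 h3 ⊢
  rw [WithZero.exp_le_exp] at h2 h3
  congr 1
  push_cast at h2 h3
  omega

section

variable (p : ℕ) [Fact p.Prime] (K : Type*) {L : Type*} [Field K] [NumberField K]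
  [Field L] [NumberField L] [Algebra K L]

/-- `w` restricted to `K` is generated by `w(p)` -/
theorem sp_valK (hu : Unr p K) (w : HeightOneSpectrum (𝓞 L)) (hw : (p : 𝓞 L) ∈ w.asIdeal)
    (a : K) (ha : a ≠ 0) :
    ∃ n : ℤ, w.valuation L (algebraMap K L a) = w.valuation L (p : L) ^ n := by
  obtain ⟨v, e, he, -, hval⟩ := exists_under K L w
  have hp1 : w.valuation L (p : L) = v.valuation K (p : K) ^ e := by
    rw [← hval]; simp
  have hv : (p : 𝓞 K) ∈ v.asIdeal := by
    rw [natCast_mem_iff] at hw ⊢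
    by_contra hcon
    rw [hp1] at hw
    exact absurd hw (not_lt.2 (one_le_pow₀ (not_lt.1 hcon)))
  have hp2 := sp_val_p_K p K hu v hv
  have ha0 : v.valuation K a ≠ 0 := by simpa using ha
  refine ⟨-WithZero.log (v.valuation K a), ?_⟩
  have h3 : v.valuation K a = v.valuation K (p : K) ^ (-WithZero.log (v.valuation K a)) := by
    rw [hp2, ← WithZero.exp_zsmul]
    simp only [smul_neg, zsmul_eq_mul, mul_one, neg_neg, Int.cast_id, neg_smul]
    rw [WithZero.exp_log ha0]
  rw [hval, hp1, ← zpow_natCast, ← zpow_natCast, ← zpow_mul, mul_comm, zpow_mul, ← h3]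

end

section

variable {p : ℕ} [Fact p.Prime] {L : Type*} [Field L] [NumberField L]

theorem sp_val_zeta {ζ : L} (hζ : IsPrimitiveRoot ζ p) (w : HeightOneSpectrum (𝓞 L)) :
    w.valuation L ζ = 1 := by
  have hp : p.Prime := Fact.out
  have h1 : w.valuation L ζ ^ p = 1 := by
    rw [← map_pow, hζ.pow_eq_one, map_one]
  exact (pow_eq_one_iff.1 h1).resolve_right hp.ne_zero

theorem sp_val_one_sub_pow_le {ζ : L} (hζ : IsPrimitiveRoot ζ p) (w : HeightOneSpectrum (𝓞 L))
    (j : ℕ) : w.valuation L (1 - ζ ^ j) ≤ w.valuation L (1 - ζ) := by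
  rw [← mul_neg_geom_sum ζ j, map_mul]
  have h1 : w.valuation L (∑ i ∈ range j, ζ ^ i) ≤ 1 := by
    refine Valuation.map_sum_le _ ?_
    intro i _
    rw [map_pow, sp_val_zeta hζ, one_pow]
  calc _ ≤ w.valuation L (1 - ζ) * 1 := by gcongr
    _ = _ := mul_one _

theorem sp_val_one_sub_pow {ζ : L} (hζ : IsPrimitiveRoot ζ p) (w : HeightOneSpectrum (𝓞 L))
    (t : ℕ) (ht : t.Coprime p) : w.valuation L (1 - ζ ^ t) = w.valuation L (1 - ζ) := by
  have hp : p.Prime := Fact.out
  have : NeZero p := ⟨hp.ne_zero⟩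
  refine le_antisymm (sp_val_one_sub_pow_le hζ w t) ?_
  have h1 := hζ.pow_of_coprime t ht
  obtain ⟨i, -, hi⟩ := h1.eq_pow_of_pow_eq_one hζ.pow_eq_one
  have h2 := sp_val_one_sub_pow_le h1 w i
  rwa [hi] at h2

theorem sp_val_p {ζ : L} (hζ : IsPrimitiveRoot ζ p) (w : HeightOneSpectrum (𝓞 L)) :
    w.valuation L (p : L) = w.valuation L (1 - ζ) ^ (p - 1) := by
  have hp : p.Prime := Fact.out
  obtain ⟨n, rfl⟩ : ∃ n, p = n + 1 := ⟨p - 1, (Nat.succ_pred_eq_of_pos hp.pos).symm⟩
  have h1 := hζ.prod_one_sub_pow_eq_order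
  push_cast
  rw [← h1, map_prod]
  rw [prod_congr rfl (g := fun _ => w.valuation L (1 - ζ)) ?_, prod_const, card_range]
  intro k hk
  rw [mem_range] at hk
  refine sp_val_one_sub_pow hζ w (k + 1) ?_
  exact (Nat.coprime_of_lt_prime (Nat.succ_ne_zero k) (by omega) hp).symm

theorem sp_val_pi_ne {ζ : L} (hζ : IsPrimitiveRoot ζ p) (w : HeightOneSpectrum (𝓞 L)) :
    w.valuation L (1 - ζ) ≠ 0 := by
  have hp : p.Prime := Fact.out
  rw [Valuation.ne_zero_iff, sub_ne_zero]
  exact (hζ.ne_one hp.one_lt).symm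

theorem sp_val_pi_lt {ζ : L} (hζ : IsPrimitiveRoot ζ p) (w : HeightOneSpectrum (𝓞 L))
    (hw : (p : 𝓞 L) ∈ w.asIdeal) : w.valuation L (1 - ζ) < 1 := by
  rw [natCast_mem_iff, sp_val_p hζ] at hw
  by_contra hcon
  exact absurd hw (not_lt.2 (one_le_pow₀ (not_lt.1 hcon)))

end

variable (p : ℕ) [Fact p.Prime] (K : Type*) {L : Type*} [Field K] [NumberField K]
  [Field L] [NumberField L] [Algebra K L] [IsCyclotomicExtension {p} K L]

/-- every element of `L` is a polynomial in `π` of degree less than `p - 1` -/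
theorem sp_expand (hu : Unr p K) (ζ : L) (hζ : IsPrimitiveRoot ζ p) (x : L) :
    ∃ a : ℕ → K, x = ∑ i ∈ range (p - 1), algebraMap K L (a i) * (1 - ζ) ^ i := by
  have hp : p.Prime := Fact.out
  have : NeZero p := ⟨hp.ne_zero⟩
  have hfr := finrank_cyc p K L hu
  obtain ⟨f, hf, hx⟩ := (hζ.subOnePowerBasis K).exists_eq_aeval x
  rw [← (hζ.subOnePowerBasis K).finrank, hfr] at hf
  refine ⟨fun i => (-1) ^ i * f.coeff i, ?_⟩
  rw [hx, IsPrimitiveRoot.subOnePowerBasis_gen]
  rw [Polynomial.aeval_eq_sum_range' hf]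
  refine sum_congr rfl fun i _ => ?_
  rw [Algebra.smul_def, map_mul, map_pow, map_neg, map_one]
  rw [show (1 - ζ) = (-1) * (ζ - 1) by ring, mul_pow]
  have : ((-1 : L) ^ i) * (-1) ^ i = 1 := by
    rw [← mul_pow]; simp
  calc algebraMap K L (f.coeff i) * (ζ - 1) ^ i
      = algebraMap K L (f.coeff i) * (ζ - 1) ^ i * (((-1 : L) ^ i) * (-1) ^ i) := by
        rw [this, mul_one]
    _ = _ := by ring

/-- the valuation of `a π ^ i`, `a` in `K` -/
theorem sp_val_term (hu : Unr p K) (ζ : L) (hζ : IsPrimitiveRoot ζ p)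
    (w : HeightOneSpectrum (𝓞 L)) (hw : (p : 𝓞 L) ∈ w.asIdeal) (a : K) (ha : a ≠ 0) (i : ℕ) :
    ∃ n : ℤ, w.valuation L (algebraMap K L a * (1 - ζ) ^ i) =
      w.valuation L (1 - ζ) ^ (((p - 1 : ℕ) : ℤ) * n + i) := by
  obtain ⟨n, hn⟩ := sp_valK p K hu w hw a ha
  refine ⟨n, ?_⟩
  rw [map_mul, hn, map_pow, sp_val_p hζ, zpow_add₀ (sp_val_pi_ne hζ w), zpow_mul, zpow_natCast,
    zpow_natCast]

theorem sp_distinct (hu : Unr p K) (ζ : L) (hζ : IsPrimitiveRoot ζ p)
    (w : HeightOneSpectrum (𝓞 L)) (hw : (p : 𝓞 L) ∈ w.asIdeal) (a : ℕ → K) (y : L)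
    (hy : w.valuation L y = w.valuation L (1 - ζ)) :
    ∀ i ∈ range (p - 1), ∀ j ∈ range (p - 1), i ≠ j → algebraMap K L (a i) * y ^ i ≠ 0 →
      w.valuation L (algebraMap K L (a i) * y ^ i) ≠
        w.valuation L (algebraMap K L (a j) * y ^ j) := by
  intro i hi j hj hij h0 heq
  rw [mem_range] at hi hj
  have hv0 : w.valuation L (algebraMap K L (a i) * y ^ i) ≠ 0 := by
    rwa [Valuation.ne_zero_iff]
  have hai : a i ≠ 0 := by
    rintro h
    apply h0
    rw [h, map_zero, zero_mul]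
  have haj : a j ≠ 0 := by
    rintro h
    rw [h, map_zero, zero_mul, map_zero] at heq
    exact hv0 heq
  have hi2 : w.valuation L (algebraMap K L (a i) * y ^ i) =
      w.valuation L (algebraMap K L (a i) * (1 - ζ) ^ i) := by
    rw [map_mul, map_mul, map_pow, map_pow, hy]
  have hj2 : w.valuation L (algebraMap K L (a j) * y ^ j) =
      w.valuation L (algebraMap K L (a j) * (1 - ζ) ^ j) := by
    rw [map_mul, map_mul, map_pow, map_pow, hy]
  obtain ⟨n, hn⟩ := sp_val_term p K hu ζ hζ w hw (a i) hai i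
  obtain ⟨m, hm⟩ := sp_val_term p K hu ζ hζ w hw (a j) haj j
  rw [hi2, hj2, hn, hm] at heq
  have h3 := (zpow_right_strictAnti₀ (zero_lt_iff.2 (sp_val_pi_ne hζ w))
    (sp_val_pi_lt hζ w hw)).injective heq
  have h4 : ((p - 1 : ℕ) : ℤ) ∣ (i : ℤ) - j := ⟨m - n, by linear_combination h3⟩
  have h5 : (i : ℤ) - j = 0 := by
    refine Int.eq_zero_of_abs_lt_dvd h4 ?_
    rw [abs_lt]
    constructor <;> omega
  omega

theorem val_pi (hp2 : p ≠ 2) (hu : Unr p K) (ζ : L) (hζ : IsPrimitiveRoot ζ p)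
    (w : HeightOneSpectrum (𝓞 L)) (hw : (p : 𝓞 L) ∈ w.asIdeal) :
    w.valuation L (1 - ζ) = WithZero.exp (-1 : ℤ) := by
  obtain ⟨x, hx⟩ := w.valuation_exists_uniformizer L
  obtain ⟨a, ha⟩ := sp_expand p K hu ζ hζ x
  have hs := sp_sum_val (w.valuation L) (fun i => algebraMap K L (a i) * (1 - ζ) ^ i)
    (range (p - 1)) (sp_distinct p K hu ζ hζ w hw a _ rfl)
  rw [← ha] at hs
  rcases hs with h0 | ⟨j, hj, hj0, hj1, -⟩
  · exfalso
    rw [sum_eq_zero h0] at ha
    rw [ha, map_zero] at hx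
    exact WithZero.exp_ne_zero hx.symm
  · have haj : a j ≠ 0 := by
      rintro h
      apply hj0
      simp [h]
    obtain ⟨n, hn⟩ := sp_val_term p K hu ζ hζ w hw (a j) haj j
    have h1 : WithZero.exp (-1 : ℤ) = w.valuation L (1 - ζ) ^ (((p - 1 : ℕ) : ℤ) * n + j) := by
      rw [← hn, ← hj1, hx]
    have hne := sp_val_pi_ne hζ w
    have hlt := sp_val_pi_lt hζ w hw
    rw [← WithZero.exp_log hne] at h1 hlt ⊢
    rw [← WithZero.exp_zsmul, WithZero.exp_inj, smul_eq_mul] at h1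
    have h2 : WithZero.log (w.valuation L (1 - ζ)) < 0 := by
      rw [← WithZero.exp_zero, WithZero.exp_lt_exp] at hlt
      exact hlt
    rw [WithZero.exp_inj]
    have h3 : WithZero.log (w.valuation L (1 - ζ)) ∣ 1 :=
      ⟨-(((p - 1 : ℕ) : ℤ) * n + j), by linear_combination -h1⟩
    have h4 := Int.le_of_dvd one_pos ((neg_dvd).2 h3)
    omega

theorem val_p (hp2 : p ≠ 2) (hu : Unr p K) (ζ : L) (hζ : IsPrimitiveRoot ζ p)
    (w : HeightOneSpectrum (𝓞 L)) (hw : (p : 𝓞 L) ∈ w.asIdeal) :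
    w.valuation L (p : L) = w.valuation L (1 - ζ) ^ (p - 1) :=
  sp_val_p hζ w

/-- the valuation of a conjugate of `π` -/
theorem sp_val_sigma_pi (ζ : L) (hζ : IsPrimitiveRoot ζ p)
    (w : HeightOneSpectrum (𝓞 L)) (σ : L ≃ₐ[K] L) :
    w.valuation L (σ (1 - ζ)) = w.valuation L (1 - ζ) := by
  obtain ⟨t, ht, h⟩ := exists_t p K ζ hζ σ
  rw [map_sub, map_one, h]
  exact sp_val_one_sub_pow hζ w t ht

theorem sp_sigma_sum (ζ : L) (σ : L ≃ₐ[K] L) (a : ℕ → K) (s : Finset ℕ) :
    σ (∑ i ∈ s, algebraMap K L (a i) * (1 - ζ) ^ i) =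
      ∑ i ∈ s, algebraMap K L (a i) * (σ (1 - ζ)) ^ i := by
  rw [map_sum]
  refine sum_congr rfl fun i _ => ?_
  rw [map_mul, map_pow, AlgEquiv.commutes]

theorem val_sigma (hp2 : p ≠ 2) (hu : Unr p K) (ζ : L) (hζ : IsPrimitiveRoot ζ p)
    (w : HeightOneSpectrum (𝓞 L)) (hw : (p : 𝓞 L) ∈ w.asIdeal) (σ : L ≃ₐ[K] L) (x : L) :
    w.valuation L (σ x) = w.valuation L x := by
  obtain ⟨a, ha⟩ := sp_expand p K hu ζ hζ x
  have hpi := sp_val_sigma_pi p K ζ hζ w σ
  have hs := sp_sum_val (w.valuation L) (fun i => algebraMap K L (a i) * (1 - ζ) ^ i)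
    (range (p - 1)) (sp_distinct p K hu ζ hζ w hw a _ rfl)
  have hs2 := sp_sum_val (w.valuation L) (fun i => algebraMap K L (a i) * (σ (1 - ζ)) ^ i)
    (range (p - 1)) (sp_distinct p K hu ζ hζ w hw a _ hpi)
  have hterm : ∀ i, w.valuation L (algebraMap K L (a i) * (σ (1 - ζ)) ^ i) =
      w.valuation L (algebraMap K L (a i) * (1 - ζ) ^ i) := by
    intro i
    rw [map_mul, map_mul, map_pow, map_pow, hpi]
  rw [← sp_sigma_sum K ζ σ a, ← ha] at hs2
  rw [← ha] at hs
  rcases hs with h0 | ⟨j, hj, hj0, hj1, hj2⟩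
  · rw [sum_eq_zero h0] at ha
    rw [ha]
    simp
  · rcases hs2 with h0' | ⟨k, hk, hk0, hk1, hk2⟩
    · exfalso
      have h1 : w.valuation L (algebraMap K L (a j) * (1 - ζ) ^ j) = 0 := by
        rw [← hterm j, h0' j hj, map_zero]
      rw [map_eq_zero] at h1
      exact hj0 h1
    · rw [hj1, hk1]
      refine le_antisymm ?_ ?_
      · rw [hterm k]
        exact hj2 k hk
      · rw [← hterm j]
        exact hk2 j hj

theorem val_sigma_sub (hp2 : p ≠ 2) (hu : Unr p K) (ζ : L) (hζ : IsPrimitiveRoot ζ p)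
    (w : HeightOneSpectrum (𝓞 L)) (hw : (p : 𝓞 L) ∈ w.asIdeal) (σ : L ≃ₐ[K] L) (x : L)
    (hx : w.valuation L x ≤ 1) : w.valuation L (σ x - x) < 1 := by
  obtain ⟨a, ha⟩ := sp_expand p K hu ζ hζ x
  have hpi := sp_val_sigma_pi p K ζ hζ w σ
  have hs := sp_sum_val (w.valuation L) (fun i => algebraMap K L (a i) * (1 - ζ) ^ i)
    (range (p - 1)) (sp_distinct p K hu ζ hζ w hw a _ rfl)
  rw [← ha] at hs
  have hle : ∀ i ∈ range (p - 1), w.valuation L (algebraMap K L (a i) * (1 - ζ) ^ i) ≤ 1 := by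
    rcases hs with h0 | ⟨j, hj, hj0, hj1, hj2⟩
    · intro i hi
      rw [h0 i hi, map_zero]
      exact zero_le
    · intro i hi
      exact (hj2 i hi).trans (by rw [← hj1]; exact hx)
  have hlt : ∀ i ∈ range (p - 1), i ≠ 0 →
      w.valuation L (algebraMap K L (a i) * (1 - ζ) ^ i) < 1 := by
    intro i hi hi0
    by_cases hai : a i = 0
    · rw [hai, map_zero, zero_mul, map_zero]
      exact zero_lt_one
    · obtain ⟨n, hn⟩ := sp_val_term p K hu ζ hζ w hw (a i) hai i
      have h1 := hle i hi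
      rw [hn] at h1 ⊢
      have hpos := zero_lt_iff.2 (sp_val_pi_ne hζ w)
      have hl := sp_val_pi_lt hζ w hw
      rw [← zpow_zero (w.valuation L (1 - ζ)), zpow_le_zpow_iff_right_of_lt_one₀ hpos hl] at h1
      rw [← zpow_zero (w.valuation L (1 - ζ)), zpow_lt_zpow_iff_right_of_lt_one₀ hpos hl]
      rcases h1.lt_or_eq with h2 | h2
      · exact h2
      · exfalso
        rw [mem_range] at hi
        have h3 : ((p - 1 : ℕ) : ℤ) ∣ (i : ℤ) := ⟨-n, by linear_combination -h2⟩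
        have h4 := Int.natCast_dvd_natCast.1 h3
        have h5 := Nat.le_of_dvd (Nat.pos_of_ne_zero hi0) h4
        omega
  have hsub : σ x - x = ∑ i ∈ range (p - 1), (algebraMap K L (a i) * (σ (1 - ζ)) ^ i -
      algebraMap K L (a i) * (1 - ζ) ^ i) := by
    rw [sum_sub_distrib, ← sp_sigma_sum K ζ σ a, ← ha]
  rw [hsub]
  refine Valuation.map_sum_lt _ one_ne_zero ?_
  intro i hi
  by_cases hi0 : i = 0
  · subst hi0
    simp
  · have h1 := hlt i hi hi0
    have h2 : w.valuation L (algebraMap K L (a i) * (σ (1 - ζ)) ^ i) < 1 := by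
      rw [map_mul, map_pow, hpi, ← map_pow, ← map_mul]
      exact h1
    exact (Valuation.map_sub _ _ _).trans_lt (max_lt h2 h1)

end H91SP
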