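import Pool.Agent.H91.SP.LocA

/-!
# Project SP, module LocPow (block LOC)

Step (7): an element of the `ω`-eigenspace which is `1` modulo `π ^ 2` at `w ∣ p` is `1` modulo
`π ^ p` at `w`.

PROOF. Induction: suppose `w(Λ - 1) ≤ w(π)^i` (multiplicative valuation) with `2 ≤ i ≤ p - 1`, put
`Λ = 1 + l π^i`, `w(l) ≤ 1`. Let `s` be a primitive root modulo `p`, `σ ζ = ζ ^ s` (`exists_sigma`),
`σ Λ = Λ ^ s y ^ p`. As `σ π = 1 - ζ ^ s = π (1 + ζ + ... + ζ ^ (s-1))` and `σ l = l` modulo `w`,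
`σ Λ = 1 + s ^ i l π^i` modulo `π^(i+1)`; `Λ ^ s = 1 + s l π^i` modulo `π^(i+1)`. So
`σ Λ - Λ ^ s = (s^i - s) l π^i` modulo `π^(i+1)`, and this is `Λ ^ s (y ^ p - 1)`. In particular
`w(y) = 1` and `(y - 1)^p = y^p - 1 = 0` modulo `w`, so `w(y - 1) ≤ w(π)` and
`w(y ^ p - 1) ≤ w(π) ^ p` (`w(p π) = w(π)^p`). Hence `(s^i - s) l π^i = 0` modulo `π^(i+1)`
(`i + 1 ≤ p`), and `s^i - s = s (s^(i-1) - 1)` is prime to `p` because `0 < i - 1 < p - 1`. So
`w(l) < 1`, i.e. `w(l) ≤ w(π)` (`val_pi`).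
-/

namespace H91SP

open NumberField IsDedekindDomain Finset

section val

variable {F Γ : Type*} [Field F] [LinearOrderedCommGroupWithZero Γ] (v : Valuation F Γ)

theorem sp_mul_lt {a b : Γ} (ha : a ≤ 1) (hb : b < 1) : a * b < 1 :=
  (mul_le_of_le_one_left' ha).trans_lt hb

theorem sp_mul_lt' {a b : Γ} (ha : a < 1) (hb : b ≤ 1) : a * b < 1 :=
  (mul_le_of_le_one_right' hb).trans_lt ha

/-- `(a + b) ^ p` modulo `p` -/
theorem sp_frob (p : ℕ) (hp : p.Prime) (a b : F) (ha : v a ≤ 1) (hb : v b ≤ 1) :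
    ∃ r : F, v r ≤ 1 ∧ (a + b) ^ p = a ^ p + b ^ p + p * a * b * r := by
  obtain ⟨r, hr⟩ := exists_add_pow_prime_eq hp (⟨a, ha⟩ : v.integer) ⟨b, hb⟩
  refine ⟨r.1, r.2, ?_⟩
  have := congrArg Subtype.val hr
  simpa using this

/-- `(1 + ε) ^ s` modulo `ε ^ 2` -/
theorem sp_one_add_pow (ε : F) (hε : v ε ≤ 1) (s : ℕ) :
    ∃ r : F, v r ≤ 1 ∧ (1 + ε) ^ s = 1 + s * ε + ε ^ 2 * r := by
  have hnat : ∀ n : ℕ, v (n : F) ≤ 1 := fun n => by
    induction n with
    | zero => simp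
    | succ n ih =>
      push_cast
      exact (Valuation.map_add _ _ _).trans (max_le ih (by simp))
  induction s with
  | zero => exact ⟨0, by simp, by simp⟩
  | succ s ih =>
    obtain ⟨r, hr, h⟩ := ih
    refine ⟨r + s + ε * r, ?_, ?_⟩
    · refine (Valuation.map_add _ _ _).trans (max_le ?_ ?_)
      · exact (Valuation.map_add _ _ _).trans (max_le hr (hnat s))
      · rw [map_mul]
        exact mul_le_one' hε hr
    · rw [pow_succ, h]
      push_cast
      ring

/-- congruences of powers -/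
theorem sp_pow_sub_pow (g s : F) (hg : v g ≤ 1) (hs : v s ≤ 1) (h : v (g - s) < 1) (i : ℕ) :
    v (g ^ i - s ^ i) < 1 := by
  induction i with
  | zero => simp
  | succ i ih =>
    have h1 : g ^ (i + 1) - s ^ (i + 1) = g ^ i * (g - s) + (g ^ i - s ^ i) * s := by ring
    rw [h1]
    refine Valuation.map_add_lt _ ?_ ?_
    · rw [map_mul, map_pow]
      exact sp_mul_lt (pow_le_one' hg i) h
    · rw [map_mul]
      exact sp_mul_lt' ih hs

end val

/-- a primitive root modulo `p` -/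
theorem sp_primitive_root (p : ℕ) [Fact p.Prime] : ∃ s : ℕ, s.Coprime p ∧
    ∀ i : ℕ, 2 ≤ i → i < p → ¬ ((p : ℤ) ∣ (s : ℤ) ^ i - s) := by
  have hp : p.Prime := Fact.out
  obtain ⟨u, hu⟩ := IsCyclic.exists_generator (α := (ZMod p)ˣ)
  have hord : orderOf u = p - 1 := by
    rw [orderOf_eq_card_of_forall_mem_zpowers hu, Nat.card_eq_fintype_card,
      ZMod.card_units_eq_totient, Nat.totient_prime hp]
  refine ⟨(u : ZMod p).val, ZMod.val_coe_unit_coprime u, ?_⟩
  intro i hi hip hdvd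
  rw [← ZMod.intCast_zmod_eq_zero_iff_dvd] at hdvd
  push_cast at hdvd
  rw [ZMod.natCast_zmod_val, sub_eq_zero] at hdvd
  obtain ⟨j, rfl⟩ : ∃ j, i = j + 1 := ⟨i - 1, by omega⟩
  have h1 : u ^ j = 1 := by
    have h2 : u ^ (j + 1) = u := by
      ext
      push_cast
      exact hdvd
    rw [pow_succ] at h2
    exact mul_eq_right.1 h2
  have h3 := orderOf_dvd_of_pow_eq_one h1
  rw [hord] at h3
  have h4 := Nat.le_of_dvd (by omega) h3
  omega

section

variable {p : ℕ} [Fact p.Prime] {L : Type*} [Field L] [NumberField L]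

/-- an integer prime to `p` is a unit at `w ∣ p` -/
theorem sp_val_int (w : HeightOneSpectrum (𝓞 L)) (hw : (p : 𝓞 L) ∈ w.asIdeal) (n : ℤ)
    (hn : ¬ ((p : ℤ) ∣ n)) : w.valuation L (n : L) = 1 := by
  have hp : p.Prime := Fact.out
  have hint : ∀ m : ℤ, w.valuation L (m : L) ≤ 1 := by
    intro m
    have := w.valuation_le_one (K := L) (m : 𝓞 L)
    simpa using this
  refine le_antisymm (hint n) ?_
  by_contra hcon
  rw [not_le] at hcon
  rw [natCast_mem_iff] at hw
  have hcop : IsCoprime (p : ℤ) n := by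
    rw [Prime.coprime_iff_not_dvd (Nat.prime_iff_prime_int.1 hp)]
    exact hn
  obtain ⟨a, b, hab⟩ := hcop
  have h1 : (1 : L) = (a : L) * (p : L) + (b : L) * (n : L) := by exact_mod_cast hab.symm
  have h2 : w.valuation L (1 : L) < 1 := by
    rw [h1]
    refine Valuation.map_add_lt _ ?_ ?_
    · rw [map_mul]
      exact sp_mul_lt (hint a) hw
    · rw [map_mul]
      exact sp_mul_lt (hint b) hcon
  rw [map_one] at h2
  exact lt_irrefl _ h2

/-- `σ π = π g` with `g = s` modulo `π` -/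
theorem sp_geom (ζ : L) (hζ : IsPrimitiveRoot ζ p) (w : HeightOneSpectrum (𝓞 L))
    (hw : (p : 𝓞 L) ∈ w.asIdeal) (s : ℕ) :
    w.valuation L (∑ k ∈ range s, ζ ^ k) ≤ 1 ∧
      w.valuation L (∑ k ∈ range s, ζ ^ k - (s : L)) < 1 := by
  constructor
  · refine Valuation.map_sum_le _ ?_
    intro i _
    rw [map_pow, sp_val_zeta hζ, one_pow]
  · have h1 : ∑ k ∈ range s, ζ ^ k - (s : L) = ∑ k ∈ range s, (ζ ^ k - 1) := by
      rw [sum_sub_distrib]
      simp
    rw [h1]
    refine Valuation.map_sum_lt _ one_ne_zero ?_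
    intro i _
    rw [← Valuation.map_neg, neg_sub]
    exact (sp_val_one_sub_pow_le hζ w i).trans_lt (sp_val_pi_lt hζ w hw)

end

theorem sp_step (p : ℕ) [Fact p.Prime] (K : Type*) {L : Type*} [Field K] [NumberField K]
    [Field L] [NumberField L] [Algebra K L] [IsCyclotomicExtension {p} K L]
    (hp2 : p ≠ 2) (hu : Unr p K) (ζ : L) (hζ : IsPrimitiveRoot ζ p)
    (w : HeightOneSpectrum (𝓞 L)) (hw : (p : 𝓞 L) ∈ w.asIdeal) (Λ : L) (hE : Eig p K ζ Λ)
    (i : ℕ) (hi : 2 ≤ i) (hip : i < p)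
    (h2 : w.valuation L (Λ - 1) ≤ w.valuation L (1 - ζ) ^ i) :
    w.valuation L (Λ - 1) ≤ w.valuation L (1 - ζ) ^ (i + 1) := by
  have hp : p.Prime := Fact.out
  have hP0 := sp_val_pi_ne hζ w
  have hP1 := sp_val_pi_lt hζ w hw
  -- values below one are at most `w(π)`
  have hsmall : ∀ x : L, w.valuation L x < 1 → w.valuation L x ≤ w.valuation L (1 - ζ) := by
    intro x hx
    rw [val_pi p K hp2 hu ζ hζ w hw]
    by_cases h0 : w.valuation L x = 0
    · rw [h0]; exact zero_le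
    · rw [← WithZero.exp_log h0] at hx ⊢
      rw [← WithZero.exp_zero, WithZero.exp_lt_exp] at hx
      rw [WithZero.exp_le_exp]
      omega
  obtain ⟨s, hs, hsi⟩ := sp_primitive_root p
  obtain ⟨σ, hσ⟩ := exists_sigma p K hu ζ hζ s hs
  obtain ⟨y, hy0, hy⟩ := hE σ s hs hσ
  have hpow : ∀ n : ℕ, 1 ≤ n → w.valuation L (1 - ζ) ^ n < 1 := fun n hn =>
    pow_lt_one₀ zero_le hP1 (by omega)
  have hint : ∀ m : ℕ, w.valuation L (m : L) ≤ 1 := by
    intro m
    have := w.valuation_le_one (K := L) (m : 𝓞 L)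
    simpa using this
  set π : L := 1 - ζ with hπ
  have hπ0 : π ≠ 0 := by
    intro h
    rw [h, map_zero] at hP0
    exact hP0 rfl
  obtain ⟨l, hl⟩ : ∃ l : L, Λ = 1 + l * π ^ i := ⟨(Λ - 1) / π ^ i, by
    rw [div_mul_cancel₀ _ (pow_ne_zero _ hπ0)]; ring⟩
  have hLam : Λ - 1 = l * π ^ i := by rw [hl]; ring
  have hPi0 : 0 < w.valuation L π ^ i := zero_lt_iff.2 (pow_ne_zero _ hP0)
  have hl1 : w.valuation L l ≤ 1 := by
    rw [hLam, map_mul, map_pow] at h2
    exact (mul_le_iff_le_one_left hPi0).1 h2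
  -- the conjugate
  set g : L := ∑ k ∈ range s, ζ ^ k with hg
  have hσπ : σ π = π * g := by
    rw [hπ, hg, map_sub, map_one, hσ, mul_neg_geom_sum]
  obtain ⟨hg1, hg2⟩ := sp_geom ζ hζ w hw s
  rw [← hg] at hg1 hg2
  have hδ : w.valuation L (σ l * g ^ i - l * (s : L) ^ i) < 1 := by
    have h3 : σ l * g ^ i - l * (s : L) ^ i = (σ l - l) * g ^ i + l * (g ^ i - (s : L) ^ i) := by
      ring
    rw [h3]
    refine Valuation.map_add_lt _ ?_ ?_
    · rw [map_mul, map_pow]
      exact sp_mul_lt' (val_sigma_sub p K hp2 hu ζ hζ w hw σ l hl1)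
        (pow_le_one' hg1 i)
    · rw [map_mul]
      exact sp_mul_lt hl1 (sp_pow_sub_pow _ g s hg1 (hint s) hg2 i)
  -- the power
  have hε1 : w.valuation L (l * π ^ i) ≤ 1 := by
    rw [← hLam]
    exact h2.trans (hpow i (by omega)).le
  obtain ⟨r, hr, hΛs⟩ := sp_one_add_pow (w.valuation L) (l * π ^ i) hε1 s
  rw [← hl] at hΛs
  have hσΛ : σ Λ = 1 + σ l * g ^ i * π ^ i := by
    rw [hl, map_add, map_one, map_mul, map_pow, hσπ]
    ring
  have hΛ1 : w.valuation L Λ = 1 := by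
    have h3 : w.valuation L (Λ - 1) < w.valuation L (1 : L) := by
      rw [map_one]
      exact h2.trans_lt (hpow i (by omega))
    have h4 : Λ = (Λ - 1) + 1 := by ring
    rw [h4, Valuation.map_add_eq_of_lt_right _ h3, map_one]
  have hD : σ Λ - Λ ^ s = Λ ^ s * (y ^ p - 1) := by rw [hy]; ring
  have hD1 : w.valuation L (σ Λ - Λ ^ s) = w.valuation L (y ^ p - 1) := by
    rw [hD, map_mul, map_pow, hΛ1, one_pow, one_mul]
  have hD2 : w.valuation L (σ Λ - Λ ^ s) < 1 := by
    have h3 : σ Λ - Λ ^ s = π ^ i * (σ l * g ^ i - s * l) - (l * π ^ i) ^ 2 * r := by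
      rw [hσΛ, hΛs]
      ring
    rw [h3]
    have h4 : w.valuation L (σ l * g ^ i - s * l) ≤ 1 := by
      refine (Valuation.map_sub _ _ _).trans (max_le ?_ ?_)
      · rw [map_mul, map_pow, val_sigma p K hp2 hu ζ hζ w hw]
        exact mul_le_one' hl1 (pow_le_one' hg1 i)
      · rw [map_mul]
        exact mul_le_one' (hint s) hl1
    refine (Valuation.map_sub _ _ _).trans_lt (max_lt ?_ ?_)
    · rw [map_mul, map_pow]
      exact sp_mul_lt' (hpow i (by omega)) h4
    · rw [map_mul, map_pow]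
      refine sp_mul_lt' ?_ hr
      refine pow_lt_one₀ zero_le ?_ two_ne_zero
      rw [← hLam]
      exact h2.trans_lt (hpow i (by omega))
  -- `w(y) = 1`, `w(y - 1) < 1`, `w(y ^ p - 1) ≤ w(π) ^ p`
  have hyp : w.valuation L (y ^ p - 1) < 1 := by rw [← hD1]; exact hD2
  have hy1 : w.valuation L y = 1 := by
    have h3 : w.valuation L (y ^ p - 1) < w.valuation L (1 : L) := by rwa [map_one]
    have h4 : y ^ p = (y ^ p - 1) + 1 := by ring
    have h5 : w.valuation L (y ^ p) = 1 := by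
      rw [h4, Valuation.map_add_eq_of_lt_right _ h3, map_one]
    rw [map_pow] at h5
    exact (pow_eq_one_iff.1 h5).resolve_right hp.ne_zero
  have hpP : w.valuation L (p : L) = w.valuation L π ^ (p - 1) := val_p p K hp2 hu ζ hζ w hw
  have hp1 : w.valuation L (p : L) < 1 := by
    rw [hpP]
    exact hpow _ (by have := hp.two_le; omega)
  have hz1 : w.valuation L (y - 1) ≤ 1 := by
    refine (Valuation.map_sub _ _ _).trans (max_le hy1.le ?_)
    rw [map_one]
  obtain ⟨q, hq, hfr⟩ := sp_frob (w.valuation L) p hp 1 (y - 1) (by rw [map_one]) hz1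
  rw [add_sub_cancel, one_pow, mul_one] at hfr
  have hz2 : w.valuation L (y - 1) < 1 := by
    have h3 : (y - 1) ^ p = (y ^ p - 1) - p * (y - 1) * q := by
      rw [hfr]; ring
    have h4 : w.valuation L ((y - 1) ^ p) < 1 := by
      rw [h3]
      refine (Valuation.map_sub _ _ _).trans_lt (max_lt hyp ?_)
      rw [map_mul, map_mul]
      exact sp_mul_lt' (sp_mul_lt' hp1 hz1) hq
    rw [map_pow] at h4
    by_contra hcon
    exact absurd h4 (not_lt.2 (one_le_pow₀ (not_lt.1 hcon)))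
  have hz3 := hsmall _ hz2
  have hypP : w.valuation L (y ^ p - 1) ≤ w.valuation L π ^ p := by
    have h3 : y ^ p - 1 = (y - 1) ^ p + p * (y - 1) * q := by
      rw [hfr]; ring
    rw [h3]
    refine (Valuation.map_add _ _ _).trans (max_le ?_ ?_)
    · rw [map_pow]
      exact pow_le_pow_left₀ zero_le hz3 p
    · rw [map_mul, map_mul, hpP]
      calc w.valuation L π ^ (p - 1) * w.valuation L (y - 1) * w.valuation L q
          ≤ w.valuation L π ^ (p - 1) * w.valuation L π * 1 := by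
            gcongr
        _ = w.valuation L π ^ p := by
            rw [mul_one, ← pow_succ, Nat.sub_add_cancel hp.one_le]
  -- conclusion
  have hmono : w.valuation L π ^ p ≤ w.valuation L π ^ (i + 1) :=
    pow_le_pow_right_of_le_one' hP1.le hip
  have hkey : π ^ i * ((((s : ℤ) ^ i - s : ℤ) : L) * l) =
      (σ Λ - Λ ^ s) - π ^ i * (σ l * g ^ i - l * (s : L) ^ i) + (l * π ^ i) ^ 2 * r := by
    rw [hσΛ, hΛs]
    push_cast
    ring
  have hval : w.valuation L (π ^ i * ((((s : ℤ) ^ i - s : ℤ) : L) * l)) ≤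
      w.valuation L π ^ (i + 1) := by
    rw [hkey]
    refine (Valuation.map_add _ _ _).trans (max_le ?_ ?_)
    · refine (Valuation.map_sub _ _ _).trans (max_le ?_ ?_)
      · rw [hD1]
        exact hypP.trans hmono
      · rw [map_mul, map_pow, pow_succ]
        gcongr
        exact hsmall _ hδ
    · rw [map_mul, map_pow, ← hLam]
      calc w.valuation L (Λ - 1) ^ 2 * w.valuation L r
          ≤ (w.valuation L π ^ i) ^ 2 * 1 := by gcongr
        _ = w.valuation L π ^ (i * 2) := by rw [mul_one, ← pow_mul]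
        _ ≤ w.valuation L π ^ (i + 1) := pow_le_pow_right_of_le_one' hP1.le (by omega)
  rw [map_mul, map_mul, sp_val_int w hw _ (hsi i hi hip), one_mul, mul_comm] at hval
  rw [hLam, map_mul]
  rwa [map_pow] at hval ⊢

theorem loc_pow (p : ℕ) [Fact p.Prime] (K : Type*) {L : Type*} [Field K] [NumberField K]
    [Field L] [NumberField L] [Algebra K L] [IsCyclotomicExtension {p} K L]
    (hp2 : p ≠ 2) (hu : Unr p K) (ζ : L) (hζ : IsPrimitiveRoot ζ p)
    (w : HeightOneSpectrum (𝓞 L)) (hw : (p : 𝓞 L) ∈ w.asIdeal) (Λ : L) (hE : Eig p K ζ Λ)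
    (h2 : w.valuation L (Λ - 1) ≤ w.valuation L (1 - ζ) ^ 2) :
    w.valuation L (Λ - 1) ≤ w.valuation L (1 - ζ) ^ p := by
  have hp : p.Prime := Fact.out
  have key : ∀ i : ℕ, 2 ≤ i → i ≤ p →
      w.valuation L (Λ - 1) ≤ w.valuation L (1 - ζ) ^ i := by
    intro i hi
    induction i, hi using Nat.le_induction with
    | base => intro _; exact h2
    | succ i hi ih =>
      intro hip
      exact sp_step p K hp2 hu ζ hζ w hw Λ hE i hi (by omega) (ih (by omega))
  exact key p hp.two_le le_rfl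

end H91SP
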