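import Pool.Agent.H91.SP.FinCore

/-!
# Project SP, module MirA (second theorem of Furtwängler)

`Q` is a prime ideal of `K` not above `p`, `a, b, c` are units at `Q`, `w` is a place of `L = K(ζ)` above
`Q`. A pair `(a, b)` is good at `Q` if `a = b` modulo `Q`, or if `Q` divides `2` and `a² + ab + b² = 0`
modulo `Q` (`p ≠ 3`). For a good pair `Γ(a, b) / Γ(b, a)` is a `p`-th power modulo `w`:
clear if `a = b`; in the second case `Γ(a, b)²` is congruent to the product of the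
`(a² + ζ^(2t') b²)^t`, which is `Γ(a², b²)² y^p` (eigenspace), and `(a², b²)` is proportional to `(b, a)`
modulo `Q`. Always `Γ(a, b) Γ(b, a) = ζ⁻¹ P^p`, `P` the product of the `a + ζ^(t') b`.
-/

namespace H91SP

open NumberField IsDedekindDomain

/-- reindexing of `Γ` for the root of unity `ζ ^ s` -/
theorem mir_reindex (p : ℕ) [Fact p.Prime] {L : Type*} [Field L] (ζ : L)
    (hζ : ζ ^ p = 1) (s : ℕ) (hs : s.Coprime p) (A B : L) :
    ∏ t ∈ Finset.Ico 1 p, (A + (ζ ^ s) ^ iv p t * B) ^ t =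
      ∏ u ∈ Finset.Ico 1 p, (A + ζ ^ iv p u * B) ^ (s * u % p) := by
  rw [← sp_reindex p s hs (fun t => (A + (ζ ^ s) ^ iv p t * B) ^ t)]
  refine Finset.prod_congr rfl (fun u hu => ?_)
  congr 3
  rw [← pow_mul]
  apply sp_pow_congr p ζ hζ
  rw [Nat.cast_mul, sp_iv_cast, sp_iv_cast, ZMod.natCast_mod, Nat.cast_mul, mul_inv,
    mul_inv_cancel_left₀ (sp_cast_ne_zero p s hs)]

/-- `Γ(a, b) Γ(b, a) = ζ⁻¹ P ^ p` -/
theorem mir_gam_mul (p : ℕ) [Fact p.Prime] {L : Type*} [Field L] (ζ : L)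
    (hζ : IsPrimitiveRoot ζ p) (a b : L) :
    Gam p ζ a b * Gam p ζ b a = ζ⁻¹ * (∏ t ∈ Finset.Ico 1 p, (a + ζ ^ iv p t * b)) ^ p := by
  have hp : p.Prime := Fact.out
  have hζ0 : ζ ≠ 0 := hζ.ne_zero hp.ne_zero
  have hcop : (p - 1).Coprime p := by
    refine (Nat.coprime_of_lt_prime ?_ ?_ hp).symm
    · have := hp.one_lt; omega
    · have := hp.one_lt; omega
  have h1 : Gam p ζ b a = ζ⁻¹ * ∏ t ∈ Finset.Ico 1 p, (a + (ζ ^ (p - 1)) ^ iv p t * b) ^ t := by
    have h2 : ∀ t ∈ Finset.Ico 1 p, (b + ζ ^ iv p t * a) ^ t =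
        ζ * (a + (ζ ^ (p - 1)) ^ iv p t * b) ^ t := by
      intro t ht
      have h3 : b + ζ ^ iv p t * a = ζ ^ iv p t * (a + (ζ ^ (p - 1)) ^ iv p t * b) := by
        have h4 : ζ ^ iv p t * (ζ ^ (p - 1)) ^ iv p t = 1 := by
          rw [← mul_pow, ← pow_succ', Nat.sub_add_cancel hp.one_lt.le, hζ.pow_eq_one, one_pow]
        linear_combination (-b) * h4
      rw [h3, mul_pow, ← pow_mul]
      congr 1
      nth_rw 2 [← pow_one ζ]
      apply sp_pow_congr p ζ hζ.pow_eq_one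
      rw [Nat.cast_mul, sp_iv_mul p t (sp_mem_coprime p t ht), Nat.cast_one]
    unfold Gam
    rw [Finset.prod_congr rfl h2, Finset.prod_mul_distrib, Finset.prod_const, Nat.card_Ico]
    congr 1
    rw [← mul_eq_one_iff_eq_inv₀ hζ0, ← pow_succ, Nat.sub_add_cancel hp.one_lt.le]
    exact hζ.pow_eq_one
  rw [h1, mir_reindex p ζ hζ.pow_eq_one (p - 1) hcop, ← Finset.prod_pow]
  unfold Gam
  rw [mul_left_comm, ← Finset.prod_mul_distrib]
  congr 1
  refine Finset.prod_congr rfl (fun u hu => ?_)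
  rw [← pow_add]
  congr 1
  rw [Finset.mem_Ico] at hu
  have h5 : (p - 1) * u % p = p - u := by
    have h6 : (p - 1) * u = (p - u) + p * (u - 1) := by
      obtain ⟨m, rfl⟩ : ∃ m, p = m + 1 := ⟨p - 1, by omega⟩
      obtain ⟨n, rfl⟩ : ∃ n, u = n + 1 := ⟨u - 1, by omega⟩
      obtain ⟨l, rfl⟩ : ∃ l, m = n + 1 + l := ⟨m - (n + 1), by omega⟩
      have e1 : n + 1 + l + 1 - 1 = n + 1 + l := by omega
      have e2 : n + 1 + l + 1 - (n + 1) = l + 1 := by omega
      have e3 : n + 1 - 1 = n := by omega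
      rw [e1, e2, e3]
      ring
    rw [h6, Nat.add_mul_mod_self_left, Nat.mod_eq_of_lt (by omega)]
  rw [h5]
  omega

section

variable {L : Type*} [Field L] [NumberField L] (w : HeightOneSpectrum (𝓞 L))

/-- `x` is congruent to a `p`-th power of a unit at `w` -/
def MirP (p : ℕ) (x : L) : Prop := ∃ s : L, w.valuation L s = 1 ∧ FcC w x (s ^ p)

variable {w} {p : ℕ}

theorem MirP_mul {x y : L} (hx : MirP w p x) (hy : MirP w p y) : MirP w p (x * y) := by
  obtain ⟨s, hs, h⟩ := hx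
  obtain ⟨t, ht, h'⟩ := hy
  refine ⟨s * t, by rw [map_mul, hs, ht, one_mul], ?_⟩
  rw [mul_pow]
  exact FcC_mul w h h'

theorem MirP_zpow {x : L} (hx : MirP w p x) (n : ℤ) : MirP w p (x ^ n) := by
  obtain ⟨s, hs, h⟩ := hx
  refine ⟨s ^ n, by rw [map_zpow₀, hs, one_zpow], ?_⟩
  have e1 : (s ^ n) ^ p = (s ^ p) ^ n := by
    rw [← zpow_natCast, ← zpow_mul, mul_comm, zpow_mul, zpow_natCast]
  rw [e1]
  exact FcC_zpow w h n

theorem MirP_pow_self {s : L} (hs : w.valuation L s = 1) : MirP w p (s ^ p) :=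
  ⟨s, hs, FcC_refl w (by rw [map_pow, hs, one_pow])⟩

theorem MirP_congr {x y : L} (hxy : FcC w x y) (hy : MirP w p y) : MirP w p x := by
  obtain ⟨s, hs, h⟩ := hy
  refine ⟨s, hs, h.1, ?_⟩
  have e1 : x - s ^ p = (x - y) + (y - s ^ p) := by ring
  rw [e1]
  exact Valuation.map_add_lt _ hxy.2 h.2

theorem MirP_val {x : L} (hx : MirP w p x) : w.valuation L x = 1 := by
  obtain ⟨s, _, h⟩ := hx
  exact FcC_val w h

/-- square roots -/
theorem MirP_of_sq (hp : Odd p) {x : L} (hx : w.valuation L x = 1) (h : MirP w p (x ^ 2)) :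
    MirP w p x := by
  obtain ⟨m, rfl⟩ := hp
  have hx0 : x ≠ 0 := by
    intro h0
    rw [h0, map_zero] at hx
    exact zero_ne_one hx
  have e1 : x = (x ^ 2) ^ ((m + 1 : ℕ) : ℤ) * (x⁻¹) ^ (2 * m + 1) := by
    rw [zpow_natCast, ← pow_mul, inv_pow]
    have e2 : 2 * (m + 1) = (2 * m + 1) + 1 := by ring
    rw [e2, pow_succ, mul_comm (x ^ (2 * m + 1)) x, mul_assoc,
      mul_inv_cancel₀ (pow_ne_zero _ hx0), mul_one]
  rw [e1]
  exact MirP_mul (MirP_zpow h _) (MirP_pow_self (by rw [map_inv₀, hx, inv_one]))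

theorem FcC_symm {x y : L} (h : FcC w x y) : FcC w y x := by
  refine ⟨FcC_val w h, ?_⟩
  rw [← Valuation.map_neg, neg_sub]
  exact h.2

theorem FcC_prod (s : Finset ℕ) (x y : ℕ → L) (h : ∀ i ∈ s, FcC w (x i) (y i)) :
    FcC w (∏ i ∈ s, x i) (∏ i ∈ s, y i) := by
  classical
  induction s using Finset.induction_on with
  | empty => simpa using FcC_refl w (x := (1 : L)) (by simp)
  | insert a s ha ih =>
    rw [Finset.prod_insert ha, Finset.prod_insert ha]
    exact FcC_mul w (h a (Finset.mem_insert_self a s))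
      (ih (fun i hi => h i (Finset.mem_insert_of_mem hi)))

end

section

variable {L : Type*} [Field L] [NumberField L] {w : HeightOneSpectrum (𝓞 L)}
  {p : ℕ} [Fact p.Prime] {ζ : L}

/-- `1 - ζ ^ j` is a unit at `w` if `p` does not divide `j` -/
theorem mir_unit (hζ : IsPrimitiveRoot ζ p) (hw : (p : 𝓞 L) ∉ w.asIdeal) (j : ℕ)
    (hj : (j : ZMod p) ≠ 0) : w.valuation L (1 - ζ ^ j) = 1 := by
  have h1 : ζ ^ j = ζ ^ (j % p) := by
    apply sp_pow_congr p ζ hζ.pow_eq_one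
    rw [ZMod.natCast_mod]
  rw [h1]
  exact sp_val_one_sub w p ζ hζ hw _ (sp_mod_mem p j hj)

theorem mir_iv_ne (t : ℕ) (ht : t ∈ Finset.Ico 1 p) : ((iv p t : ℕ) : ZMod p) ≠ 0 := by
  rw [sp_iv_cast]
  exact inv_ne_zero (sp_cast_ne_zero p t (sp_mem_coprime p t ht))

theorem mir_two_ne (hp2 : p ≠ 2) : ((2 : ℕ) : ZMod p) ≠ 0 := by
  have hp : p.Prime := Fact.out
  intro h
  rw [ZMod.natCast_eq_zero_iff] at h
  exact hp2 ((Nat.prime_dvd_prime_iff_eq hp Nat.prime_two).1 h)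

/-- first good case: the factors are units -/
theorem mir_fac_one (hp2 : p ≠ 2) (hζ : IsPrimitiveRoot ζ p) (hw : (p : 𝓞 L) ∉ w.asIdeal) (a b : L)
    (ha : w.valuation L a = 1) (hab : w.valuation L (a - b) < 1) (j : ℕ)
    (hj : (j : ZMod p) ≠ 0) : w.valuation L (a + ζ ^ j * b) = 1 := by
  have hz := gq_val_zeta w p ζ hζ
  have h1 : w.valuation L (1 + ζ ^ j) = 1 := by
    have h2 := mir_unit hζ hw j hj
    have h3 := mir_unit hζ hw (2 * j) (by
      rw [Nat.cast_mul]; exact mul_ne_zero (mir_two_ne hp2) hj)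
    have h4 : 1 - ζ ^ (2 * j) = (1 - ζ ^ j) * (1 + ζ ^ j) := by
      rw [mul_comm 2 j, pow_mul]; ring
    rw [h4, map_mul, h2, one_mul] at h3
    exact h3
  have h5 : a + ζ ^ j * b = a * (1 + ζ ^ j) + -(ζ ^ j * (a - b)) := by ring
  have h6 : w.valuation L (a * (1 + ζ ^ j)) = 1 := by rw [map_mul, ha, h1, one_mul]
  rw [h5, Valuation.map_add_eq_of_lt_left, h6]
  rw [h6, Valuation.map_neg, map_mul, map_pow, hz, one_pow, one_mul]
  exact hab

/-- second good case: the factors are units -/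
theorem mir_fac_two (hp3 : p ≠ 3) (hζ : IsPrimitiveRoot ζ p) (hw : (p : 𝓞 L) ∉ w.asIdeal)
    (a b : L) (ha : w.valuation L a = 1) (hb : w.valuation L b = 1)
    (h2 : w.valuation L (2 : L) < 1) (hab : w.valuation L (a ^ 2 + a * b + b ^ 2) < 1) (j : ℕ)
    (hj : (j : ZMod p) ≠ 0) : w.valuation L (a + ζ ^ j * b) = 1 := by
  have hp : p.Prime := Fact.out
  have hz := gq_val_zeta w p ζ hζ
  have h3ne : ((3 : ℕ) : ZMod p) ≠ 0 := by
    intro h
    rw [ZMod.natCast_eq_zero_iff] at h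
    exact hp3 ((Nat.prime_dvd_prime_iff_eq hp Nat.prime_three).1 h)
  have h3 := mir_unit hζ hw (3 * j) (by rw [Nat.cast_mul]; exact mul_ne_zero h3ne hj)
  have hle : w.valuation L (a + ζ ^ j * b) ≤ 1 := by
    refine Valuation.map_add_le _ ha.le ?_
    rw [map_mul, map_pow, hz, hb, one_pow, one_mul]
  have hle2 : w.valuation L (a ^ 2 - a * (ζ ^ j * b) + (ζ ^ j * b) ^ 2) ≤ 1 := by
    refine Valuation.map_add_le _ (Valuation.map_sub_le _ ?_ ?_) ?_
    · rw [map_pow, ha, one_pow]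
    · rw [map_mul, map_mul, map_pow, hz, ha, hb, one_pow, one_mul, one_mul]
    · rw [map_pow, map_mul, map_pow, hz, hb, one_pow, one_mul, one_pow]
  have hprod : (a + ζ ^ j * b) * (a ^ 2 - a * (ζ ^ j * b) + (ζ ^ j * b) ^ 2) =
      b ^ 3 * (1 - ζ ^ (3 * j)) + ((a - b) * (a ^ 2 + a * b + b ^ 2) +
        2 * (b ^ 3 * ζ ^ (3 * j))) := by
    rw [mul_comm 3 j, pow_mul]; ring
  have hval : w.valuation L ((a + ζ ^ j * b) * (a ^ 2 - a * (ζ ^ j * b) + (ζ ^ j * b) ^ 2)) = 1 := by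
    have h6 : w.valuation L (b ^ 3 * (1 - ζ ^ (3 * j))) = 1 := by
      rw [map_mul, h3, map_pow, hb, one_pow, one_mul]
    rw [hprod, Valuation.map_add_eq_of_lt_left, h6]
    rw [h6]
    refine Valuation.map_add_lt _ ?_ ?_
    · rw [map_mul, mul_comm]
      refine sp_mul_lt' hab ?_
      exact Valuation.map_sub_le _ ha.le hb.le
    · rw [map_mul]
      refine sp_mul_lt' h2 ?_
      rw [map_mul, map_pow, map_pow, hz, hb, one_pow, one_pow, one_mul]
  rw [map_mul] at hval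
  refine le_antisymm hle ?_
  rw [← hval]
  exact mul_le_of_le_one_right' hle2

/-- the first good case -/
theorem mir_good_one (hp2 : p ≠ 2) (hζ : IsPrimitiveRoot ζ p) (hw : (p : 𝓞 L) ∉ w.asIdeal)
    (a b : L) (hb : w.valuation L b = 1)
    (hab : w.valuation L (a - b) < 1) :
    w.valuation L (Gam p ζ a b) = 1 ∧ w.valuation L (Gam p ζ b a) = 1 ∧
      MirP w p (Gam p ζ a b / Gam p ζ b a) := by
  have hz := gq_val_zeta w p ζ hζ
  have hba : w.valuation L (b - a) < 1 := by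
    rw [← Valuation.map_neg, neg_sub]; exact hab
  have h1 : FcC w (Gam p ζ a b) (Gam p ζ b a) := by
    refine FcC_prod _ _ _ (fun t ht => FcC_pow w ?_ t)
    refine ⟨mir_fac_one hp2 hζ hw b a hb hba _ (mir_iv_ne t ht), ?_⟩
    have e1 : a + ζ ^ iv p t * b - (b + ζ ^ iv p t * a) = (a - b) * (1 - ζ ^ iv p t) := by ring
    rw [e1, map_mul, mir_unit hζ hw _ (mir_iv_ne t ht), mul_one]
    exact hab
  refine ⟨FcC_val w h1, h1.1, ?_⟩
  refine ⟨1, by simp, ?_⟩
  have h2 := FcC_mul w h1 (FcC_inv w (FcC_refl w h1.1))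
  have hne : Gam p ζ b a ≠ 0 := by
    intro h0
    have := h1.1
    rw [h0, map_zero] at this
    exact zero_ne_one this
  rw [mul_inv_cancel₀ hne, ← div_eq_mul_inv] at h2
  rw [one_pow]
  exact h2

/-- homogeneity -/
theorem mir_gam_smul (hp2 : p ≠ 2) (l a b : L) :
    Gam p ζ (l * a) (l * b) = (l ^ ((p - 1) / 2)) ^ p * Gam p ζ a b := by
  have hp : p.Prime := Fact.out
  have hodd : Odd p := hp.odd_of_ne_two hp2
  unfold Gam
  rw [← pow_mul, ← sp_sum_Ico p hodd, ← Finset.prod_pow_eq_pow_sum, ← Finset.prod_mul_distrib]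
  refine Finset.prod_congr rfl (fun t _ => ?_)
  rw [← mul_pow]
  congr 1
  ring

end

/-- the second good case -/
theorem mir_good_two (p : ℕ) [Fact p.Prime] (K : Type*) {L : Type*} [Field K] [NumberField K]
    [Field L] [NumberField L] [Algebra K L] [IsCyclotomicExtension {p} K L]
    (hp2 : p ≠ 2) (hp3 : p ≠ 3) (hu : Unr p K) (ζ : L) (hζ : IsPrimitiveRoot ζ p)
    (w : HeightOneSpectrum (𝓞 L)) (hw : (p : 𝓞 L) ∉ w.asIdeal) (a b : K)
    (ha : w.valuation L (algebraMap K L a) = 1) (hb : w.valuation L (algebraMap K L b) = 1)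
    (h2 : w.valuation L (2 : L) < 1)
    (hab : w.valuation L (algebraMap K L a ^ 2 + algebraMap K L a * algebraMap K L b +
      algebraMap K L b ^ 2) < 1) :
    w.valuation L (Gam p ζ (algebraMap K L a) (algebraMap K L b)) = 1 ∧
      w.valuation L (Gam p ζ (algebraMap K L b) (algebraMap K L a)) = 1 ∧
      MirP w p (Gam p ζ (algebraMap K L a) (algebraMap K L b) /
        Gam p ζ (algebraMap K L b) (algebraMap K L a)) := by
  have hp : p.Prime := Fact.out
  have hodd : Odd p := hp.odd_of_ne_two hp2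
  have hz := gq_val_zeta w p ζ hζ
  set A := algebraMap K L a with hA
  set B := algebraMap K L b with hB
  have hA0 : A ≠ 0 := by intro h0; rw [h0, map_zero] at ha; exact zero_ne_one ha
  have hB0 : B ≠ 0 := by intro h0; rw [h0, map_zero] at hb; exact zero_ne_one hb
  have hba : w.valuation L (B ^ 2 + B * A + A ^ 2) < 1 := by
    have : B ^ 2 + B * A + A ^ 2 = A ^ 2 + A * B + B ^ 2 := by ring
    rw [this]; exact hab
  have hfac : ∀ t ∈ Finset.Ico 1 p, w.valuation L (A + ζ ^ iv p t * B) = 1 := fun t ht =>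
    mir_fac_two hp3 hζ hw A B ha hb h2 hab _ (mir_iv_ne t ht)
  have hfac' : ∀ t ∈ Finset.Ico 1 p, w.valuation L (B + ζ ^ iv p t * A) = 1 := fun t ht =>
    mir_fac_two hp3 hζ hw B A hb ha h2 hba _ (mir_iv_ne t ht)
  have hv1 : w.valuation L (Gam p ζ A B) = 1 := by
    unfold Gam
    rw [map_prod]
    exact Finset.prod_eq_one (fun t ht => by rw [map_pow, hfac t ht, one_pow])
  have hv2 : w.valuation L (Gam p ζ B A) = 1 := by
    unfold Gam
    rw [map_prod]
    exact Finset.prod_eq_one (fun t ht => by rw [map_pow, hfac' t ht, one_pow])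
  refine ⟨hv1, hv2, ?_⟩
  -- the squares
  have hA2 : w.valuation L (A ^ 2) = 1 := by rw [map_pow, ha, one_pow]
  have hB2 : w.valuation L (B ^ 2) = 1 := by rw [map_pow, hb, one_pow]
  have hsq : w.valuation L ((A ^ 2) ^ 2 + A ^ 2 * B ^ 2 + (B ^ 2) ^ 2) < 1 := by
    have e1 : (A ^ 2) ^ 2 + A ^ 2 * B ^ 2 + (B ^ 2) ^ 2 =
        (A ^ 2 + A * B + B ^ 2) * (A ^ 2 - A * B + B ^ 2) := by ring
    rw [e1, map_mul]
    refine sp_mul_lt' hab ?_
    refine Valuation.map_add_le _ (Valuation.map_sub_le _ hA2.le ?_) hB2.le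
    rw [map_mul, ha, hb, one_mul]
  have hne : ∀ j : ℕ, algebraMap K L (a ^ 2) + ζ ^ j * algebraMap K L (b ^ 2) ≠ 0 := by
    intro j h0
    rw [map_pow, map_pow, ← hA, ← hB] at h0
    by_cases hj : (j : ZMod p) = 0
    · have h1 : ζ ^ j = 1 := by
        have := sp_pow_congr p ζ hζ.pow_eq_one j 0 (by simpa using hj)
        simpa using this
      rw [h1, one_mul] at h0
      have h3 : A ^ 2 + A * B + B ^ 2 = A * B := by linear_combination h0
      rw [h3, map_mul, ha, hb, one_mul] at hab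
      exact lt_irrefl _ hab
    · have h1 := mir_fac_two hp3 hζ hw (A ^ 2) (B ^ 2) hA2 hB2 h2 hsq j hj
      rw [h0, map_zero] at h1
      exact zero_ne_one h1
  obtain ⟨σ, hσ⟩ := exists_sigma p K hu ζ hζ 2
    ((Nat.coprime_primes Nat.prime_two hp).2 (Ne.symm hp2))
  obtain ⟨y, hy0, hy⟩ := Eig_Gam p K ζ hζ (a ^ 2) (b ^ 2) hne σ 2
    ((Nat.coprime_primes Nat.prime_two hp).2 (Ne.symm hp2)) hσ
  rw [map_pow, map_pow, ← hA, ← hB] at hy
  have hσG : σ (Gam p ζ (A ^ 2) (B ^ 2)) =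
      ∏ t ∈ Finset.Ico 1 p, (A ^ 2 + (ζ ^ 2) ^ iv p t * B ^ 2) ^ t := by
    unfold Gam
    rw [map_prod]
    refine Finset.prod_congr rfl (fun t _ => ?_)
    rw [map_pow, map_add, map_mul, map_pow, map_pow, map_pow, hσ, hA, hB, AlgEquiv.commutes,
      AlgEquiv.commutes]
  -- `Γ(A, B) ^ 2` modulo `w`
  have hc1 : FcC w (Gam p ζ A B ^ 2) (σ (Gam p ζ (A ^ 2) (B ^ 2))) := by
    rw [hσG]
    unfold Gam
    rw [← Finset.prod_pow]
    refine FcC_prod _ _ _ (fun t ht => ?_)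
    rw [← pow_mul, mul_comm t 2, pow_mul]
    refine FcC_pow w ?_ t
    refine FcC_symm ⟨by rw [map_pow, hfac t ht, one_pow], ?_⟩
    have e1 : A ^ 2 + (ζ ^ 2) ^ iv p t * B ^ 2 - (A + ζ ^ iv p t * B) ^ 2 =
        -(2 * (A * (ζ ^ iv p t * B))) := by
      rw [← pow_mul, mul_comm 2 (iv p t), pow_mul]; ring
    rw [e1, Valuation.map_neg, map_mul]
    refine sp_mul_lt' h2 ?_
    rw [map_mul, map_mul, map_pow, hz, ha, hb, one_pow, one_mul, one_mul]
  -- `Γ(A ^ 2, B ^ 2)` is `Γ(B, A)` up to a `p`-th power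
  set l := A ^ 2 / B with hl
  have hlv : w.valuation L l = 1 := by rw [hl, map_div₀, hA2, hb, div_one]
  have hc2 : FcC w (Gam p ζ (A ^ 2) (B ^ 2)) (Gam p ζ (l * B) (l * A)) := by
    refine FcC_prod _ _ _ (fun t ht => FcC_pow w ?_ t)
    refine FcC_symm ⟨mir_fac_two hp3 hζ hw (A ^ 2) (B ^ 2) hA2 hB2 h2 hsq _ (mir_iv_ne t ht), ?_⟩
    have e1 : l * B + ζ ^ iv p t * (l * A) - (A ^ 2 + ζ ^ iv p t * B ^ 2) =
        ζ ^ iv p t * ((A - B) * (A ^ 2 + A * B + B ^ 2)) / B := by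
      rw [hl]; field_simp; ring
    rw [e1, map_div₀, hb, div_one, map_mul, map_pow, hz, one_pow, one_mul, map_mul, mul_comm]
    exact sp_mul_lt' hab (Valuation.map_sub_le _ ha.le hb.le)
  rw [mir_gam_smul hp2] at hc2
  have hP1 : MirP w p (Gam p ζ (A ^ 2) (B ^ 2) / Gam p ζ B A) := by
    have hGne : Gam p ζ B A ≠ 0 := by
      intro h0; rw [h0, map_zero] at hv2; exact zero_ne_one hv2
    have h3 := FcC_mul w hc2 (FcC_inv w (FcC_refl w hv2))
    rw [mul_assoc, mul_inv_cancel₀ hGne, mul_one, ← div_eq_mul_inv] at h3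
    exact ⟨l ^ ((p - 1) / 2), by rw [map_pow, hlv, one_pow], h3⟩
  -- the valuation of `y`
  have hGsq : w.valuation L (Gam p ζ (A ^ 2) (B ^ 2)) = 1 := by
    rw [FcC_val w hc2]
  have hyv : w.valuation L y = 1 := by
    have h3 : w.valuation L (σ (Gam p ζ (A ^ 2) (B ^ 2))) = 1 := hc1.1
    rw [hy, map_mul, map_pow, hGsq, one_pow, one_mul, map_pow] at h3
    exact (pow_eq_one_iff.1 h3).resolve_right hp.ne_zero
  -- conclusion
  refine MirP_of_sq hodd (by rw [map_div₀, hv1, hv2, div_one]) ?_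
  have h4 : (Gam p ζ A B / Gam p ζ B A) ^ 2 =
      Gam p ζ A B ^ 2 * (Gam p ζ B A ^ 2)⁻¹ := by rw [div_pow, div_eq_mul_inv]
  have h5 : MirP w p (σ (Gam p ζ (A ^ 2) (B ^ 2)) * (Gam p ζ B A ^ 2)⁻¹) := by
    have e1 : σ (Gam p ζ (A ^ 2) (B ^ 2)) * (Gam p ζ B A ^ 2)⁻¹ =
        (Gam p ζ (A ^ 2) (B ^ 2) / Gam p ζ B A) ^ (2 : ℤ) * y ^ p := by
      rw [hy, zpow_ofNat, div_pow, div_eq_mul_inv]; ring
    rw [e1]
    exact MirP_mul (MirP_zpow hP1 2) (MirP_pow_self hyv)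
  rw [h4]
  exact MirP_congr (FcC_mul w hc1 (FcC_refl w (by rw [map_inv₀, map_pow, hv2, one_pow, inv_one])))
    h5

end H91SP
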