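import Pool.Agent.H91.SP.Defs

/-!
# Project SP, module Val (block VAL)

Step (1). PROOF of `val_add_zeta`. If `w(a) ≠ w(b)`, then `w(a + ζ^j b)` is the larger of the two
(multiplicative valuation) and `y = 1`. If `w(a) = w(b) = m`, the `p` numbers `a + ζ^i b`,
`0 ≤ i < p`, have valuation `≤ m`, their differences `(ζ^i - ζ^k) b` have valuation `m`
(`ζ^i - ζ^k` is a unit at `w` since `w` is not above `p`), so at most one has valuation `< m`; their
product is `a^p + b^p = - c^p` (`p` odd). Hence `w(a + ζ^j b)` is `m`, or `w(a + ζ^j b) m^(p-1) = w(c)^p`;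
in the second case take `y = c / a`.
PROOF of `val_add_zeta_p`: `a^p + b^p + c^p = (a + b + c)^p` modulo `p`, so `w(a + b + c) < 1`,
`w(a + b) = w(c) = 1`, and `a + ζ^j b = (a + b) - (1 - ζ^j) b` with `w(1 - ζ^j) < 1`.
-/

namespace H91SP

open NumberField IsDedekindDomain

theorem add_zeta_ne_zero (p : ℕ) [Fact p.Prime] {L : Type*} [Field L] (hp2 : p ≠ 2) (ζ : L)
    (hζ : IsPrimitiveRoot ζ p) (a b c : L) (hc : c ≠ 0) (h : a ^ p + b ^ p + c ^ p = 0) (j : ℕ) :
    a + ζ ^ j * b ≠ 0 := by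
  intro h0
  have hp : p.Prime := Fact.out
  have hodd : Odd p := hp.odd_of_ne_two hp2
  have ha : a = -(ζ ^ j * b) := eq_neg_of_add_eq_zero_left h0
  have hz : (ζ ^ j) ^ p = 1 := by rw [← pow_mul, mul_comm, pow_mul, hζ.pow_eq_one, one_pow]
  have : a ^ p = -b ^ p := by rw [ha, hodd.neg_pow, mul_pow, hz, one_mul]
  rw [this, neg_add_cancel, zero_add] at h
  exact hc (pow_eq_zero_iff hp.ne_zero |>.1 h)

/-- roots of unity are units at all places -/
theorem vl_val_zeta (p : ℕ) [Fact p.Prime] {L : Type*} [Field L] [NumberField L]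
    (ζ : L) (hζ : ζ ^ p = 1) (w : HeightOneSpectrum (𝓞 L)) : w.valuation L ζ = 1 := by
  have hp : p.Prime := Fact.out
  have h1 : w.valuation L ζ ^ p = 1 := by rw [← map_pow, hζ, map_one]
  exact (pow_eq_one_iff.1 h1).resolve_right hp.ne_zero

/-- `1 - ζ^j` is a unit at the places not above `p` -/
theorem vl_val_one_sub (p : ℕ) [Fact p.Prime] {L : Type*} [Field L] [NumberField L]
    (η : L) (hη : IsPrimitiveRoot η p) (w : HeightOneSpectrum (𝓞 L))
    (hw : (p : 𝓞 L) ∉ w.asIdeal) : w.valuation L (1 - η) = 1 := by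
  have hp : p.Prime := Fact.out
  have hη1 := vl_val_zeta p η hη.pow_eq_one w
  have hle : w.valuation L (1 - η) ≤ 1 := by
    refine (Valuation.map_sub _ _ _).trans ?_
    rw [map_one, hη1, max_self]
  refine le_antisymm hle ?_
  have hpv : w.valuation L (p : L) = 1 := by
    have := (w.valuation_eq_one_iff_notMem (K := L)).2 hw
    simpa using this
  have hsum : ∑ i ∈ Finset.range p, η ^ i = 0 := hη.geom_sum_eq_zero hp.one_lt
  have hkey : (p : L) = (1 - η) * ∑ i ∈ Finset.range p, ∑ k ∈ Finset.range i, η ^ k := by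
    rw [Finset.mul_sum]
    have h2 : ∀ i ∈ Finset.range p, (1 - η) * ∑ k ∈ Finset.range i, η ^ k = 1 - η ^ i := by
      intro i _
      rw [mul_comm, geom_sum_mul_neg]
    rw [Finset.sum_congr rfl h2, Finset.sum_sub_distrib, hsum]
    simp
  have h3 : w.valuation L (∑ i ∈ Finset.range p, ∑ k ∈ Finset.range i, η ^ k) ≤ 1 := by
    refine Valuation.map_sum_le _ fun i _ => Valuation.map_sum_le _ fun k _ => ?_
    rw [map_pow, hη1, one_pow]
  have h4 := congrArg (w.valuation L) hkey
  rw [hpv, map_mul] at h4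
  rw [h4]
  exact mul_le_of_le_one_right' h3

theorem val_add_zeta (p : ℕ) [Fact p.Prime] {L : Type*} [Field L] [NumberField L] (hp2 : p ≠ 2)
    (ζ : L) (hζ : IsPrimitiveRoot ζ p) (w : HeightOneSpectrum (𝓞 L))
    (hw : (p : 𝓞 L) ∉ w.asIdeal) (a b c : L) (ha : a ≠ 0) (hb : b ≠ 0) (hc : c ≠ 0)
    (h : a ^ p + b ^ p + c ^ p = 0) (j : ℕ) :
    ∃ y : L, y ≠ 0 ∧ w.valuation L (a + ζ ^ j * b) =
      max (w.valuation L a) (w.valuation L b) * w.valuation L y ^ p := by
  classical
  have hp : p.Prime := Fact.out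
  have hodd : Odd p := hp.odd_of_ne_two hp2
  have hpos : 0 < p := hp.pos
  have hζj : w.valuation L (ζ ^ j) = 1 := by
    rw [map_pow, vl_val_zeta p ζ hζ.pow_eq_one w, one_pow]
  have hvb : w.valuation L (ζ ^ j * b) = w.valuation L b := by rw [map_mul, hζj, one_mul]
  by_cases hab : w.valuation L a = w.valuation L b
  · by_cases hm : w.valuation L (a + ζ ^ j * b) = w.valuation L a
    · refine ⟨1, one_ne_zero, ?_⟩
      rw [hm, map_one, one_pow, mul_one, ← hab, max_self]
    · have hle : w.valuation L (a + ζ ^ j * b) ≤ w.valuation L a := by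
        refine (Valuation.map_add _ _ _).trans ?_
        rw [hvb, ← hab, max_self]
      have hlt : w.valuation L (a + ζ ^ j * b) < w.valuation L a := lt_of_le_of_ne hle hm
      have hmem : ζ ^ j ∈ Polynomial.nthRootsFinset p (1 : L) := by
        rw [Polynomial.mem_nthRootsFinset hpos, ← pow_mul, mul_comm, pow_mul, hζ.pow_eq_one,
          one_pow]
      have hother : ∀ ξ ∈ (Polynomial.nthRootsFinset p (1 : L)).erase (ζ ^ j),
          w.valuation L (a + ξ * b) = w.valuation L a := by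
        intro ξ hξ
        rw [Finset.mem_erase, Polynomial.mem_nthRootsFinset hpos] at hξ
        obtain ⟨hne, hξp⟩ := hξ
        have h1 : a + ξ * b = (a + ζ ^ j * b) + (ξ - ζ ^ j) * b := by ring
        have h2 : w.valuation L ((ξ - ζ ^ j) * b) = w.valuation L a := by
          have hz0 : ζ ^ j ≠ 0 := pow_ne_zero _ (hζ.ne_zero hp.ne_zero)
          have hξ' : IsPrimitiveRoot (ξ / ζ ^ j) p := by
            have h3 : (ξ / ζ ^ j) ^ p = 1 := by
              rw [div_pow, hξp, ← pow_mul, mul_comm, pow_mul, hζ.pow_eq_one, one_pow, div_one]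
            have h4 : ξ / ζ ^ j ≠ 1 := fun h5 => hne ((div_eq_one_iff_eq hz0).1 h5)
            rw [IsPrimitiveRoot.iff_orderOf]
            exact orderOf_eq_prime h3 h4
          have h6 : ξ - ζ ^ j = -(ζ ^ j) * (1 - ξ / ζ ^ j) := by
            field_simp
            ring
          rw [h6, map_mul, map_mul, Valuation.map_neg, hζj, one_mul,
            vl_val_one_sub p _ hξ' w hw, one_mul, hab]
        rw [h1, Valuation.map_add_eq_of_lt_right _ (by rw [h2]; exact hlt), h2]
      have hprod : w.valuation L (a + ζ ^ j * b) * w.valuation L a ^ (p - 1) =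
          w.valuation L c ^ p := by
        have h1 := hζ.pow_add_pow_eq_prod_add_mul a b hodd
        have h2 : a ^ p + b ^ p = -(c ^ p) := eq_neg_of_add_eq_zero_left h
        rw [h2, ← Finset.mul_prod_erase _ _ hmem] at h1
        have h3 := congrArg (w.valuation L) h1
        rw [Valuation.map_neg, map_pow, map_mul, map_prod, Finset.prod_congr rfl hother,
          Finset.prod_const, Finset.card_erase_of_mem hmem, hζ.card_nthRootsFinset] at h3
        exact h3.symm
      have hva : w.valuation L a ≠ 0 := (Valuation.ne_zero_iff _).2 ha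
      refine ⟨c / a, div_ne_zero hc ha, ?_⟩
      rw [← hab, max_self, map_div₀, div_pow, ← hprod]
      have h4 : w.valuation L a ^ p = w.valuation L a ^ (p - 1) * w.valuation L a := by
        rw [← pow_succ, Nat.sub_add_cancel hp.one_lt.le]
      rw [h4]
      have h5 : w.valuation L a ^ (p - 1) ≠ 0 := pow_ne_zero _ hva
      field_simp
  · refine ⟨1, one_ne_zero, ?_⟩
    rw [map_one, one_pow, mul_one, Valuation.map_add_of_distinct_val _ (by rw [hvb]; exact hab),
      hvb]

theorem sp_val_pow_lt (p : ℕ) [Fact p.Prime] {L : Type*} [Field L] [NumberField L]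
    (w : HeightOneSpectrum (𝓞 L)) (hw : (p : 𝓞 L) ∈ w.asIdeal) :
    w.valuation L (p : L) < 1 := by
  have := (w.valuation_lt_one_iff_mem (K := L) (p : 𝓞 L)).2 hw
  simpa using this

/-- `(x + y)^p = x^p + y^p` modulo `p` at `w` -/
theorem sp_add_pow (p : ℕ) [Fact p.Prime] {L : Type*} [Field L] [NumberField L]
    (w : HeightOneSpectrum (𝓞 L)) (x y : L) (hx : w.valuation L x ≤ 1)
    (hy : w.valuation L y ≤ 1) :
    ∃ r : L, w.valuation L r ≤ 1 ∧ (x + y) ^ p = x ^ p + y ^ p + p * r := by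
  obtain ⟨r, hr⟩ := exists_add_pow_prime_eq (Fact.out : p.Prime)
    (⟨x, hx⟩ : (w.valuation L).integer) ⟨y, hy⟩
  refine ⟨x * y * r, ?_, ?_⟩
  · rw [map_mul, map_mul]
    exact mul_le_one' (mul_le_one' hx hy) r.2
  · have := congrArg (Subtype.val) hr
    simpa [mul_assoc] using this

theorem val_sum_lt (p : ℕ) [Fact p.Prime] {L : Type*} [Field L] [NumberField L]
    (w : HeightOneSpectrum (𝓞 L)) (hw : (p : 𝓞 L) ∈ w.asIdeal) (a b c : L)
    (ha : w.valuation L a ≤ 1) (hb : w.valuation L b ≤ 1) (hc : w.valuation L c ≤ 1)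
    (h : a ^ p + b ^ p + c ^ p = 0) : w.valuation L (a + b + c) < 1 := by
  have hp : p.Prime := Fact.out
  obtain ⟨r, hr, h1⟩ := sp_add_pow p w a b ha hb
  obtain ⟨s, hs, h2⟩ := sp_add_pow p w (a + b) c
    ((Valuation.map_add _ _ _).trans (max_le ha hb)) hc
  have h3 : (a + b + c) ^ p = p * (r + s) := by
    rw [h2, h1]
    linear_combination h
  have h4 : w.valuation L (a + b + c) ^ p < 1 := by
    rw [← map_pow, h3, map_mul]
    have h5 : w.valuation L (r + s) ≤ 1 := (Valuation.map_add _ _ _).trans (max_le hr hs)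
    exact mul_lt_one_of_lt_of_le (sp_val_pow_lt p w hw) h5
  exact (pow_lt_one_iff hp.ne_zero).1 h4

theorem sp_val_one_sub_lt (p : ℕ) [Fact p.Prime] {L : Type*} [Field L] [NumberField L]
    (η : L) (hη : η ^ p = 1) (w : HeightOneSpectrum (𝓞 L))
    (hw : (p : 𝓞 L) ∈ w.asIdeal) : w.valuation L (1 - η) < 1 := by
  have hp : p.Prime := Fact.out
  have hη1 := vl_val_zeta p η hη w
  have hle : w.valuation L (1 - η) ≤ 1 := by
    refine (Valuation.map_sub _ _ _).trans ?_
    rw [map_one, hη1, max_self]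
  obtain ⟨r, hr, h1⟩ := sp_add_pow p w (1 - η) η hle hη1.le
  have h2 : (1 - η) ^ p = -(p * r) := by
    rw [sub_add_cancel, one_pow, hη] at h1
    linear_combination -h1
  have h4 : w.valuation L (1 - η) ^ p < 1 := by
    rw [← map_pow, h2, Valuation.map_neg, map_mul]
    exact mul_lt_one_of_lt_of_le (sp_val_pow_lt p w hw) hr
  exact (pow_lt_one_iff hp.ne_zero).1 h4

theorem val_add_zeta_p (p : ℕ) [Fact p.Prime] {L : Type*} [Field L] [NumberField L]
    (ζ : L) (hζ : IsPrimitiveRoot ζ p) (w : HeightOneSpectrum (𝓞 L))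
    (hw : (p : 𝓞 L) ∈ w.asIdeal) (a b c : L) (ha : w.valuation L a = 1) (hb : w.valuation L b = 1)
    (hc : w.valuation L c = 1) (h : a ^ p + b ^ p + c ^ p = 0) (j : ℕ) :
    w.valuation L (a + ζ ^ j * b) = 1 := by
  have h1 := val_sum_lt p w hw a b c ha.le hb.le hc.le h
  have h2 : w.valuation L (a + b) = 1 := by
    have h3 : a + b = -c + (a + b + c) := by ring
    rw [h3, Valuation.map_add_eq_of_lt_left _ (by rw [Valuation.map_neg, hc]; exact h1),
      Valuation.map_neg, hc]
  have hz : (ζ ^ j) ^ p = 1 := by rw [← pow_mul, mul_comm, pow_mul, hζ.pow_eq_one, one_pow]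
  have h4 := sp_val_one_sub_lt p (ζ ^ j) hz w hw
  have h5 : a + ζ ^ j * b = (a + b) + (-((1 - ζ ^ j) * b)) := by ring
  have h6 : w.valuation L (-((1 - ζ ^ j) * b)) < w.valuation L (a + b) := by
    rw [Valuation.map_neg, map_mul, hb, mul_one, h2]
    exact h4
  rw [h5, Valuation.map_add_eq_of_lt_left _ h6, h2]

end H91SP
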